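import Mathlib
import Pool.Agent.Lib.MP_663568_nt.Weyl

/-!
# Distance to the nearest integer

Base file of the null set project for MP_663568_nt.
-/

set_option autoImplicit false
open Finset Polynomial

namespace Pool.Agent.Lib.MP_663568_nt.Nul

open Katai

/-- distance to the nearest integer -/
noncomputable def nd (x : ℝ) : ℝ := |x - round x|

lemma nd_nonneg (x : ℝ) : 0 ≤ nd x := abs_nonneg _

lemma nd_le_half (x : ℝ) : nd x ≤ 1 / 2 := abs_sub_round x

lemma nd_le (x : ℝ) (n : ℤ) : nd x ≤ |x - n| := round_le x n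

lemma nd_exists (x : ℝ) : ∃ n : ℤ, nd x = |x - n| := ⟨round x, rfl⟩

lemma nd_le_abs (x : ℝ) : nd x ≤ |x| := by simpa using nd_le x 0

lemma nd_add_int (x : ℝ) (n : ℤ) : nd (x + n) = nd x := by
  unfold nd
  rw [round_add_intCast]
  push_cast
  congr 1; ring

lemma nd_sub_int (x : ℝ) (n : ℤ) : nd (x - n) = nd x := by
  have := nd_add_int x (-n)
  rw [← this]; push_cast; congr 1

lemma nd_int_add (x : ℝ) (n : ℤ) : nd (n + x) = nd x := by rw [add_comm, nd_add_int]

lemma nd_int (n : ℤ) : nd (n : ℝ) = 0 := by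
  have := nd_le (n : ℝ) n
  simp at this
  exact le_antisymm this (nd_nonneg _)

lemma nd_neg (x : ℝ) : nd (-x) = nd x := by
  apply le_antisymm
  · obtain ⟨n, hn⟩ := nd_exists x
    rw [hn]
    refine (nd_le (-x) (-n)).trans (le_of_eq ?_)
    push_cast
    rw [← abs_neg]; congr 1; ring
  · obtain ⟨n, hn⟩ := nd_exists (-x)
    rw [hn]
    refine (nd_le x (-n)).trans (le_of_eq ?_)
    push_cast
    rw [← abs_neg]; congr 1; ring

lemma nd_add_le (x y : ℝ) : nd (x + y) ≤ nd x + nd y := by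
  obtain ⟨n, hn⟩ := nd_exists x
  obtain ⟨m, hm⟩ := nd_exists y
  rw [hn, hm]
  refine (nd_le (x + y) (n + m)).trans ?_
  push_cast
  calc |x + y - (n + m)| = |(x - n) + (y - m)| := by congr 1; ring
    _ ≤ _ := abs_add_le _ _

lemma nd_sub_le (x y : ℝ) : nd (x - y) ≤ nd x + nd y := by
  rw [sub_eq_add_neg, ← nd_neg y]; exact nd_add_le _ _

lemma nd_le_add_abs (x y : ℝ) : nd x ≤ nd y + |x - y| := by
  calc nd x = nd (y + (x - y)) := by congr 1; ring
    _ ≤ nd y + nd (x - y) := nd_add_le _ _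
    _ ≤ _ := by gcongr; exact nd_le_abs _

lemma nd_int_mul_le (k : ℤ) (x : ℝ) : nd (k * x) ≤ |(k : ℝ)| * nd x := by
  obtain ⟨n, hn⟩ := nd_exists x
  rw [hn, ← abs_mul]
  refine (nd_le (k * x) (k * n)).trans (le_of_eq ?_)
  push_cast; congr 1; ring

lemma nd_nat_mul_le (k : ℕ) (x : ℝ) : nd (k * x) ≤ k * nd x := by
  simpa using nd_int_mul_le k x

lemma nd_eq_of_abs_le {x : ℝ} (h : |x| ≤ 1 / 2) : nd x = |x| := by
  apply le_antisymm (nd_le_abs x)
  obtain ⟨n, hn⟩ := nd_exists x
  rw [hn]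
  by_cases h0 : n = 0
  · simp [h0]
  · have h1 : (1 : ℝ) ≤ |(n : ℝ)| := by
      have : 1 ≤ |n| := Int.one_le_abs h0
      exact_mod_cast this
    have h2 : |(n : ℝ)| ≤ |x - n| + |x| := by
      calc |(n : ℝ)| = |x - (x - n)| := by congr 1; ring
        _ ≤ |x| + |x - n| := abs_sub _ _
        _ = _ := add_comm _ _
    linarith

/-- A fraction with denominator `q` which is not an integer is at distance at least `1 / q`. -/
lemma le_nd_div (q : ℕ) (hq : 0 < q) (z : ℤ) (h : ¬ (q : ℤ) ∣ z) : 1 / (q : ℝ) ≤ nd (z / q) := by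
  obtain ⟨n, hn⟩ := nd_exists ((z : ℝ) / q)
  have hq' : (0 : ℝ) < q := by exact_mod_cast hq
  rw [hn]
  have h1 : (z : ℝ) / q - n = (z - q * n : ℤ) / q := by push_cast; field_simp
  rw [h1, abs_div, abs_of_pos hq']
  apply div_le_div_of_nonneg_right _ hq'.le
  have h2 : z - q * n ≠ 0 := by
    intro e
    exact h ⟨n, by linarith⟩
  exact_mod_cast Int.one_le_abs h2

lemma nd_irrational_pos {x : ℝ} (hx : Irrational x) : 0 < nd x := by
  obtain ⟨n, hn⟩ := nd_exists x
  rw [hn, abs_pos, sub_ne_zero]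
  exact hx.ne_int n

lemma nd_pos_of_irrational {x : ℝ} (hx : Irrational x) {q : ℕ} (hq : 0 < q) : 0 < nd (q * x) :=
  nd_irrational_pos (hx.natCast_mul hq.ne')

lemma continuous_nd : Continuous nd := by
  rw [Metric.continuous_iff]
  intro b ε hε
  refine ⟨ε, hε, fun a ha => ?_⟩
  rw [Real.dist_eq] at ha ⊢
  rw [abs_lt]
  have h1 := nd_le_add_abs a b
  have h2 := nd_le_add_abs b a
  rw [abs_sub_comm b a] at h2
  constructor <;> linarith

/-- `1 - e(x)` is bounded below by the distance of `x` to the integers. -/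
lemma nd_le_norm_one_sub_ee (x : ℝ) : 4 * nd x ≤ ‖1 - ee x‖ := by
  obtain ⟨n, hn⟩ := nd_exists x
  have hh := nd_le_half x
  have h1 : ee x = ee (x - n) := by
    rw [ee_sub, ee_int, map_one, mul_one]
  rw [h1]
  set y := x - n with hy
  have hy1 : |y| ≤ 1 / 2 := by rw [← hn]; exact hh
  rw [hn]
  have h2 : ‖1 - ee y‖ = 2 * |Real.sin (Real.pi * y)| := by
    have e1 : ee y = Complex.exp (Complex.I * ((2 * Real.pi * y : ℝ) : ℂ)) := by
      rw [ee]; congr 1; push_cast; ring
    rw [e1, norm_sub_rev, Complex.norm_exp_I_mul_ofReal_sub_one]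
    rw [norm_mul]
    simp only [Real.norm_eq_abs]
    rw [abs_of_pos (by norm_num : (0:ℝ) < 2)]
    congr 3; ring
  rw [h2]
  have h3 : 2 * |y| ≤ |Real.sin (Real.pi * y)| := by
    have hpi := Real.pi_pos
    have h4 : |Real.sin (Real.pi * y)| = Real.sin (Real.pi * |y|) := by
      rcases le_or_gt 0 y with h | h
      · rw [abs_of_nonneg h] at hy1 ⊢
        apply abs_of_nonneg
        apply Real.sin_nonneg_of_nonneg_of_le_pi (by positivity)
        nlinarith
      · rw [abs_of_neg h] at hy1 ⊢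
        rw [show Real.pi * -y = -(Real.pi * y) by ring, Real.sin_neg]
        apply abs_of_nonpos
        have : 0 ≤ Real.sin (Real.pi * (-y)) := by
          apply Real.sin_nonneg_of_nonneg_of_le_pi
          · apply mul_nonneg hpi.le; linarith
          · nlinarith
        rw [show Real.pi * -y = -(Real.pi * y) by ring, Real.sin_neg] at this
        linarith
    rw [h4]
    have h5 := Real.mul_le_sin (x := Real.pi * |y|) (by positivity) (by nlinarith)
    have : 2 / Real.pi * (Real.pi * |y|) = 2 * |y| := by field_simp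
    linarith
  linarith

end Pool.Agent.Lib.MP_663568_nt.Nul
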