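import Mathlib
import Pool.Agent.Lib.MP_663568_nul.Base

/-!
# Separation from the rationals with small denominators
-/

set_option autoImplicit false
open Finset

namespace Pool.Agent.Lib.MP_663568_nt.Nul

open Katai

/-- all multiples of `x` by `q ≤ C` are at distance at least `κ` from the integers -/
def Sep (C : ℕ) (κ x : ℝ) : Prop := ∀ q ∈ Icc 1 C, κ ≤ nd ((q : ℝ) * x)

end Pool.Agent.Lib.MP_663568_nt.Nul
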