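import Mathlib
import Pool.Agent.Lib.MP_663568_nul.SepDef

/-!
# Dilates of separated numbers, and transfer of logarithmic averages
-/

set_option autoImplicit false
open Finset

namespace Pool.Agent.Lib.MP_663568_nt.Nul

open Katai

/-- The dilates of a separated number by the products of two large primes are separated, unless one
of the two primes is in a set of two elements. -/
theorem sep_dilate (C t R : ℕ) (κ κ' x : ℝ) (_hC : 1 ≤ C) (h : Sep C κ x) (hκ0 : 0 < κ')
    (hκ : κ' ≤ κ) (hR : 2 * κ' * ((C : ℝ) * (R : ℝ) ^ t) ^ 2 ≤ 1) :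
    ∃ S : Finset ℕ, S.card ≤ 2 ∧ ∀ p p' : ℕ, p.Prime → p'.Prime → C < p → C < p' →
      p * p' ≤ R → p ∉ S → p' ∉ S → Sep C κ' (((p : ℝ) * p') ^ t * x) := by
  classical
  by_cases hex : ∃ p p' q : ℕ, ∃ z : ℤ, p.Prime ∧ p'.Prime ∧ C < p ∧ C < p' ∧ p * p' ≤ R ∧
      q ∈ Icc 1 C ∧ |(q : ℝ) * (((p : ℝ) * p') ^ t * x) - z| < κ'
  swap
  · refine ⟨∅, by simp, fun p p' hp hp' h1 h2 h3 _ _ q hq => ?_⟩
    by_contra hcon
    push Not at hcon
    obtain ⟨z, hz⟩ := nd_exists ((q : ℝ) * (((p : ℝ) * p') ^ t * x))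
    rw [hz] at hcon
    exact hex ⟨p, p', q, z, hp, hp', h1, h2, h3, hq, hcon⟩
  obtain ⟨p₁, p₁', q₁, z₁, hp₁, hp₁', h1₁, h2₁, h3₁, hq₁, hz₁⟩ := hex
  refine ⟨{p₁, p₁'}, card_le_two, fun p p' hp hp' h1 h2 h3 hS hS' q hq => ?_⟩
  by_contra hcon
  push Not at hcon
  obtain ⟨z, hz⟩ := nd_exists ((q : ℝ) * (((p : ℝ) * p') ^ t * x))
  rw [hz] at hcon
  rw [mem_Icc] at hq hq₁
  set D₁ : ℕ := q₁ * (p₁ * p₁') ^ t with hD₁
  set D : ℕ := q * (p * p') ^ t with hD
  have hD0 : 0 < D := Nat.mul_pos (by omega) (pow_pos (Nat.mul_pos hp.pos hp'.pos) t)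
  have hD₁0 : 0 < D₁ := Nat.mul_pos (by omega) (pow_pos (Nat.mul_pos hp₁.pos hp₁'.pos) t)
  have hDX : D ≤ C * R ^ t := Nat.mul_le_mul hq.2 (Nat.pow_le_pow_left h3 t)
  have hD₁X : D₁ ≤ C * R ^ t := Nat.mul_le_mul hq₁.2 (Nat.pow_le_pow_left h3₁ t)
  set X : ℝ := (C : ℝ) * (R : ℝ) ^ t with hX
  have hDXr : (D : ℝ) ≤ X := by rw [hX]; exact_mod_cast hDX
  have hD₁Xr : (D₁ : ℝ) ≤ X := by rw [hX]; exact_mod_cast hD₁X
  have hD0r : (1 : ℝ) ≤ D := by exact_mod_cast hD0
  have hD₁0r : (1 : ℝ) ≤ D₁ := by exact_mod_cast hD₁0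
  have hX1 : 1 ≤ X := hD0r.trans hDXr
  have e1 : (q : ℝ) * (((p : ℝ) * p') ^ t * x) = D * x := by rw [hD]; push_cast; ring
  have e2 : (q₁ : ℝ) * (((p₁ : ℝ) * p₁') ^ t * x) = D₁ * x := by rw [hD₁]; push_cast; ring
  rw [e1] at hcon
  rw [e2] at hz₁
  -- the two fractions agree
  have hcross : (D : ℤ) * z₁ = D₁ * z := by
    have h4 : |(((D : ℤ) * z₁ - D₁ * z : ℤ) : ℝ)| < 1 := by
      have e3 : (((D : ℤ) * z₁ - D₁ * z : ℤ) : ℝ) =
          D₁ * ((D : ℝ) * x - z) - D * ((D₁ : ℝ) * x - z₁) := by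
        push_cast; ring
      rw [e3]
      calc _ ≤ |(D₁ : ℝ) * ((D : ℝ) * x - z)| + |(D : ℝ) * ((D₁ : ℝ) * x - z₁)| := abs_sub _ _
        _ = D₁ * |(D : ℝ) * x - z| + D * |(D₁ : ℝ) * x - z₁| := by
            rw [abs_mul, abs_mul, abs_of_nonneg (by linarith : (0 : ℝ) ≤ D₁),
              abs_of_nonneg (by linarith : (0 : ℝ) ≤ D)]
        _ < D₁ * κ' + D * κ' := by
            have := mul_lt_mul_of_pos_left hcon (by linarith : (0 : ℝ) < D₁)
            have := mul_lt_mul_of_pos_left hz₁ (by linarith : (0 : ℝ) < D)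
            linarith
        _ ≤ X * κ' + X * κ' := by
            have := mul_le_mul_of_nonneg_right hD₁Xr hκ0.le
            have := mul_le_mul_of_nonneg_right hDXr hκ0.le
            linarith
        _ ≤ 1 := by
            have h13 : X * κ' * 1 ≤ X * κ' * X := mul_le_mul_of_nonneg_left hX1 (by positivity)
            linarith only [h13, hR]
    have h5 : ((D : ℤ) * z₁ - D₁ * z) = 0 := by
      have h6 : |((D : ℤ) * z₁ - D₁ * z)| < 1 := by exact_mod_cast h4
      exact Int.abs_lt_one_iff.mp h6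
    linarith
  set r : ℚ := ((z : ℤ) : ℚ) / ((D : ℤ) : ℚ) with hr
  have hr1 : r = ((z₁ : ℤ) : ℚ) / ((D₁ : ℤ) : ℚ) := by
    rw [hr, div_eq_div_iff (by exact_mod_cast hD0.ne') (by exact_mod_cast hD₁0.ne')]
    have : (z : ℤ) * D₁ = z₁ * D := by linarith
    exact_mod_cast this
  set b := r.den with hb
  have hb0 : 0 < b := r.den_pos
  have hbD : b ∣ D := by
    have := Rat.den_dvd (z : ℤ) (D : ℤ)
    rw [Rat.divInt_eq_div, ← hr] at this
    exact_mod_cast this
  have hbD₁ : b ∣ D₁ := by
    have := Rat.den_dvd (z₁ : ℤ) (D₁ : ℤ)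
    rw [Rat.divInt_eq_div, ← hr1] at this
    exact_mod_cast this
  have hS1 : p ≠ p₁ ∧ p ≠ p₁' := by simpa using hS
  have hS2 : p' ≠ p₁ ∧ p' ≠ p₁' := by simpa using hS'
  have hnot : ∀ l : ℕ, l.Prime → C < l → l ≠ p₁ → l ≠ p₁' → ¬ l ∣ D₁ := by
    intro l hl hlC hl1 hl2 hdvd
    rw [hD₁, hl.dvd_mul] at hdvd
    rcases hdvd with hd | hd
    · have := Nat.le_of_dvd (by omega) hd
      omega
    · have := hl.dvd_of_dvd_pow hd
      rw [hl.dvd_mul] at this
      rcases this with hd | hd
      · exact hl1 ((Nat.prime_dvd_prime_iff_eq hl hp₁).mp hd)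
      · exact hl2 ((Nat.prime_dvd_prime_iff_eq hl hp₁').mp hd)
  have hcop : Nat.Coprime b ((p * p') ^ t) := by
    apply Nat.Coprime.pow_right
    apply Nat.Coprime.mul_right
    · rw [Nat.coprime_comm, Nat.Prime.coprime_iff_not_dvd hp]
      exact fun hd => hnot p hp h1 hS1.1 hS1.2 (hd.trans hbD₁)
    · rw [Nat.coprime_comm, Nat.Prime.coprime_iff_not_dvd hp']
      exact fun hd => hnot p' hp' h2 hS2.1 hS2.2 (hd.trans hbD₁)
  have hbq : b ∣ q := by
    rw [hD] at hbD
    exact hcop.dvd_of_dvd_mul_right hbD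
  have hbC : b ∈ Icc 1 C := by
    rw [mem_Icc]
    exact ⟨hb0, (Nat.le_of_dvd (by omega) hbq).trans hq.2⟩
  have hbDle : (b : ℝ) ≤ D := by exact_mod_cast Nat.le_of_dvd hD0 hbD
  have hfin := h b hbC
  have h7 : nd ((b : ℝ) * x) < κ' := by
    refine (nd_le _ r.num).trans_lt ?_
    have h8 : (r.num : ℝ) * D = b * z := by
      have h9 : (r.num : ℚ) * D = r.den * z := by
        have h10 : r * r.den = r.num := Rat.mul_den_eq_num r
        rw [← h10, hr]
        have : ((D : ℤ) : ℚ) ≠ 0 := by exact_mod_cast hD0.ne'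
        push_cast at this ⊢
        field_simp
      exact_mod_cast h9
    have h11 : (b : ℝ) * x - r.num = b / D * ((D : ℝ) * x - z) := by
      have hDne : (D : ℝ) ≠ 0 := by linarith
      field_simp
      linarith
    rw [h11, abs_mul, abs_of_nonneg (by positivity)]
    have h12 : (b : ℝ) / D ≤ 1 := by
      rw [div_le_one (by linarith)]; exact hbDle
    calc (b : ℝ) / D * |(D : ℝ) * x - z| ≤ 1 * |(D : ℝ) * x - z| :=
          mul_le_mul_of_nonneg_right h12 (abs_nonneg _)
      _ < κ' := by rw [one_mul]; exact hcon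
  linarith

/-- sums over blocks of length `d` -/
lemma blocks (h : ℕ → ℝ) (d k : ℕ) :
    ∑ n ∈ Ico d (d * (k + 1)), h n = ∑ m ∈ Ico 1 (k + 1), ∑ r ∈ range d, h (d * m + r) := by
  induction k with
  | zero => simp
  | succ k ih =>
    rw [sum_Ico_succ_top (by omega), ← ih, ← sum_Ico_consecutive h (m := d) (n := d * (k + 1))
      (k := d * (k + 1 + 1)) (by nlinarith) (by nlinarith)]
    congr 1
    rw [sum_Ico_eq_sum_range]
    have : d * (k + 1 + 1) - d * (k + 1) = d := by
      rw [← Nat.mul_sub]; simp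
    rw [this]

/-- Logarithmic averages are nearly invariant under dilations. -/
theorem log_transfer (d : ℕ) (hd : 0 < d) : ∃ c : ℝ, ∀ (g : ℕ → ℝ) (M : ℝ), (∀ n, 0 ≤ g n) →
    (∀ n, g n ≤ M) → ∀ N : ℕ,
    |∑ n ∈ Icc 1 N, (1 / (n : ℝ)) * g (n / d) - ∑ m ∈ Icc 1 N, (1 / (m : ℝ)) * g m| ≤ c * M := by
  refine ⟨d + 2, fun g M h0 hM N => ?_⟩
  have hM0 : 0 ≤ M := (h0 0).trans (hM 0)
  have hdr : (0 : ℝ) < d := by exact_mod_cast hd
  have hh0 : ∀ n : ℕ, 0 ≤ (1 / (n : ℝ)) * g (n / d) := fun n => mul_nonneg (by positivity) (h0 _)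
  have hg0 : ∀ n : ℕ, 0 ≤ (1 / (n : ℝ)) * g n := fun n => mul_nonneg (by positivity) (h0 _)
  have hdiv : ∀ m r : ℕ, r ∈ range d → (d * m + r) / d = m := by
    intro m r hr
    rw [mem_range] at hr
    rw [Nat.mul_add_div hd, Nat.div_eq_of_lt hr, add_zero]
  have hNd : N < d * (N / d + 1) := by
    have := Nat.lt_div_mul_add hd (a := N)
    linarith [mul_comm d (N / d)]
  rw [abs_le]
  constructor
  · -- lower bound
    have h1 : ∑ m ∈ Ico 1 (N / d), (1 / ((m : ℝ) + 1)) * g m ≤
        ∑ n ∈ Icc 1 N, (1 / (n : ℝ)) * g (n / d) := by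
      rcases Nat.eq_zero_or_pos (N / d) with hz | hz
      · rw [hz]; simp only [Ico_eq_empty_of_le, sum_empty, Nat.zero_le]
        exact sum_nonneg fun n _ => hh0 n
      · obtain ⟨k, hk⟩ : ∃ k, N / d = k + 1 := ⟨N / d - 1, by omega⟩
        rw [hk]
        have h2 := blocks (fun n => (1 / (n : ℝ)) * g (n / d)) d k
        calc ∑ m ∈ Ico 1 (k + 1), (1 / ((m : ℝ) + 1)) * g m
            ≤ ∑ m ∈ Ico 1 (k + 1), ∑ r ∈ range d,
                (1 / ((d * m + r : ℕ) : ℝ)) * g ((d * m + r) / d) := by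
              refine sum_le_sum fun m hm => ?_
              rw [mem_Ico] at hm
              have hmr : (1 : ℝ) ≤ m := by exact_mod_cast hm.1
              calc (1 / ((m : ℝ) + 1)) * g m
                  = ∑ r ∈ range d, (1 / (d * ((m : ℝ) + 1))) * g m := by
                    rw [sum_const, card_range, nsmul_eq_mul]
                    field_simp
                _ ≤ _ := by
                    refine sum_le_sum fun r hr => ?_
                    rw [hdiv m r hr]
                    refine mul_le_mul_of_nonneg_right ?_ (h0 m)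
                    rw [mem_range] at hr
                    have hrr : (r : ℝ) ≤ d := by exact_mod_cast hr.le
                    apply one_div_le_one_div_of_le
                    · push_cast; positivity
                    · push_cast; nlinarith
          _ = ∑ n ∈ Ico d (d * (k + 1)), (1 / (n : ℝ)) * g (n / d) := h2.symm
          _ ≤ _ := by
              apply sum_le_sum_of_subset_of_nonneg
              · intro n hn
                rw [mem_Ico] at hn
                rw [mem_Icc]
                have := Nat.div_mul_le_self N d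
                rw [hk] at this
                constructor
                · omega
                · linarith [mul_comm d (k + 1)]
              · intro n _ _; exact hh0 n
    have h3 : ∑ m ∈ Icc 1 N, (1 / (m : ℝ)) * g m ≤
        ∑ m ∈ Ico 1 (N / d), (1 / (m : ℝ)) * g m + (M + d * M) := by
      have h4 : Icc 1 N ⊆ (Ico 1 (N / d) ∪ ({N / d} : Finset ℕ)) ∪ Icc (N / d + 1) N := by
        intro m hm
        rw [mem_Icc] at hm
        simp only [mem_union, mem_Ico, mem_singleton, mem_Icc]
        omega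
      calc _ ≤ ∑ m ∈ (Ico 1 (N / d) ∪ ({N / d} : Finset ℕ)) ∪ Icc (N / d + 1) N,
            (1 / (m : ℝ)) * g m := sum_le_sum_of_subset_of_nonneg h4 fun m _ _ => hg0 m
        _ ≤ (∑ m ∈ Ico 1 (N / d), (1 / (m : ℝ)) * g m +
            ∑ m ∈ ({N / d} : Finset ℕ), (1 / (m : ℝ)) * g m) +
            ∑ m ∈ Icc (N / d + 1) N, (1 / (m : ℝ)) * g m := by
            have k1 := sum_union_inter (s₁ := Ico 1 (N / d) ∪ ({N / d} : Finset ℕ))
              (s₂ := Icc (N / d + 1) N) (f := fun m : ℕ => (1 / (m : ℝ)) * g m)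
            have k2 := sum_union_inter (s₁ := Ico 1 (N / d))
              (s₂ := ({N / d} : Finset ℕ)) (f := fun m : ℕ => (1 / (m : ℝ)) * g m)
            have k3 : 0 ≤ ∑ m ∈ (Ico 1 (N / d) ∪ ({N / d} : Finset ℕ)) ∩ Icc (N / d + 1) N,
              (1 / (m : ℝ)) * g m := sum_nonneg fun m _ => hg0 m
            have k4 : 0 ≤ ∑ m ∈ Ico 1 (N / d) ∩ ({N / d} : Finset ℕ),
              (1 / (m : ℝ)) * g m := sum_nonneg fun m _ => hg0 m
            linarith
        _ ≤ (∑ m ∈ Ico 1 (N / d), (1 / (m : ℝ)) * g m + M) + d * M := by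
            refine add_le_add (add_le_add le_rfl ?_) ?_
            · rw [sum_singleton]
              rcases Nat.eq_zero_or_pos (N / d) with hz | hz
              · rw [hz]; simp [hM0]
              · have : (1 : ℝ) ≤ ((N / d : ℕ) : ℝ) := by exact_mod_cast hz
                have h5 : 1 / ((N / d : ℕ) : ℝ) ≤ 1 := by
                  rw [div_le_one (by linarith)]; exact this
                calc _ ≤ 1 * M := mul_le_mul h5 (hM _) (h0 _) zero_le_one
                  _ = M := one_mul _
            · have hq : (0 : ℝ) < ((N / d + 1 : ℕ) : ℝ) := by positivity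
              calc _ ≤ ∑ m ∈ Icc (N / d + 1) N, (1 / ((N / d + 1 : ℕ) : ℝ)) * M := by
                    refine sum_le_sum fun m hm => ?_
                    rw [mem_Icc] at hm
                    refine mul_le_mul ?_ (hM _) (h0 _) (by positivity)
                    apply one_div_le_one_div_of_le hq
                    exact_mod_cast hm.1
                _ = ((N + 1 - (N / d + 1) : ℕ) : ℝ) * ((1 / ((N / d + 1 : ℕ) : ℝ)) * M) := by
                    rw [sum_const, Nat.card_Icc, nsmul_eq_mul]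
                _ ≤ (N : ℝ) * ((1 / ((N / d + 1 : ℕ) : ℝ)) * M) := by
                    refine mul_le_mul_of_nonneg_right ?_ (by positivity)
                    have h12 : N + 1 - (N / d + 1) ≤ N := by
                      rw [Nat.add_sub_add_right]; exact Nat.sub_le _ _
                    exact_mod_cast h12
                _ ≤ (d * ((N / d + 1 : ℕ) : ℝ)) * ((1 / ((N / d + 1 : ℕ) : ℝ)) * M) := by
                    refine mul_le_mul_of_nonneg_right ?_ (by positivity)
                    exact_mod_cast hNd.le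
                _ = d * M := by field_simp
        _ = _ := by ring
    have h6 : ∑ m ∈ Ico 1 (N / d), (1 / (m : ℝ)) * g m ≤
        ∑ m ∈ Ico 1 (N / d), (1 / ((m : ℝ) + 1)) * g m + M := by
      have h7 : ∀ k : ℕ, ∑ m ∈ Ico 1 (k + 1), (1 / (m : ℝ) - 1 / ((m : ℝ) + 1)) =
          1 - 1 / ((k : ℝ) + 1) := by
        intro k
        induction k with
        | zero => simp
        | succ k ih => rw [sum_Ico_succ_top (by omega), ih]; push_cast; ring
      have h8 : ∑ m ∈ Ico 1 (N / d), (1 / (m : ℝ) - 1 / ((m : ℝ) + 1)) ≤ 1 := by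
        rcases Nat.eq_zero_or_pos (N / d) with hz | hz
        · rw [hz]; simp
        · obtain ⟨k, hk⟩ : ∃ k, N / d = k + 1 := ⟨N / d - 1, by omega⟩
          rw [hk, h7]
          have : 0 ≤ 1 / ((k : ℝ) + 1) := by positivity
          linarith
      have h9 : ∑ m ∈ Ico 1 (N / d), (1 / (m : ℝ)) * g m ≤
          ∑ m ∈ Ico 1 (N / d), ((1 / ((m : ℝ) + 1)) * g m +
            (1 / (m : ℝ) - 1 / ((m : ℝ) + 1)) * M) := by
        refine sum_le_sum fun m hm => ?_
        rw [mem_Ico] at hm
        have hmr : (1 : ℝ) ≤ m := by exact_mod_cast hm.1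
        have h10 : 0 ≤ 1 / (m : ℝ) - 1 / ((m : ℝ) + 1) := by
          rw [sub_nonneg]
          apply one_div_le_one_div_of_le <;> linarith
        have := mul_le_mul_of_nonneg_left (hM m) h10
        linarith
      rw [sum_add_distrib, ← sum_mul] at h9
      have h11 := mul_le_mul_of_nonneg_right h8 hM0
      linarith
    linarith
  · -- upper bound
    have h1 : ∑ n ∈ Icc 1 N, (1 / (n : ℝ)) * g (n / d) ≤
        ∑ n ∈ Ico 1 d, (1 / (n : ℝ)) * g (n / d) +
          ∑ n ∈ Ico d (d * (N / d + 1)), (1 / (n : ℝ)) * g (n / d) := by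
      have h2 : Icc 1 N ⊆ Ico 1 d ∪ Ico d (d * (N / d + 1)) := by
        intro n hn
        rw [mem_Icc] at hn
        rw [mem_union, mem_Ico, mem_Ico]
        omega
      refine (sum_le_sum_of_subset_of_nonneg h2 fun n _ _ => hh0 n).trans ?_
      have k1 := sum_union_inter (s₁ := Ico 1 d) (s₂ := Ico d (d * (N / d + 1)))
        (f := fun n : ℕ => (1 / (n : ℝ)) * g (n / d))
      have k2 : 0 ≤ ∑ n ∈ Ico 1 d ∩ Ico d (d * (N / d + 1)), (1 / (n : ℝ)) * g (n / d) :=
        sum_nonneg fun n _ => hh0 n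
      linarith
    have h3 : ∑ n ∈ Ico 1 d, (1 / (n : ℝ)) * g (n / d) ≤ d * M := by
      calc _ ≤ ∑ n ∈ Ico 1 d, M := by
            refine sum_le_sum fun n hn => ?_
            rw [mem_Ico] at hn
            have hn1 : (1 : ℝ) ≤ n := by exact_mod_cast hn.1
            have h4 : 1 / (n : ℝ) ≤ 1 := by rw [div_le_one (by linarith)]; exact hn1
            calc _ ≤ 1 * M := mul_le_mul h4 (hM _) (h0 _) zero_le_one
              _ = M := one_mul _
        _ = ((d - 1 : ℕ) : ℝ) * M := by rw [sum_const, Nat.card_Ico, nsmul_eq_mul]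
        _ ≤ _ := by
            refine mul_le_mul_of_nonneg_right ?_ hM0
            exact_mod_cast Nat.sub_le d 1
    have h5 : ∑ n ∈ Ico d (d * (N / d + 1)), (1 / (n : ℝ)) * g (n / d) ≤
        ∑ m ∈ Icc 1 N, (1 / (m : ℝ)) * g m := by
      have h6 := blocks (fun n => (1 / (n : ℝ)) * g (n / d)) d (N / d)
      rw [h6]
      calc _ ≤ ∑ m ∈ Ico 1 (N / d + 1), (1 / (m : ℝ)) * g m := by
            refine sum_le_sum fun m hm => ?_
            rw [mem_Ico] at hm
            have hmr : (1 : ℝ) ≤ m := by exact_mod_cast hm.1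
            calc _ ≤ ∑ r ∈ range d, (1 / (d * (m : ℝ))) * g m := by
                  refine sum_le_sum fun r hr => ?_
                  rw [hdiv m r hr]
                  refine mul_le_mul_of_nonneg_right ?_ (h0 m)
                  apply one_div_le_one_div_of_le (by positivity)
                  push_cast
                  have : (0 : ℝ) ≤ r := Nat.cast_nonneg _
                  linarith
              _ = _ := by
                  rw [sum_const, card_range, nsmul_eq_mul]
                  field_simp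
        _ ≤ _ := by
            apply sum_le_sum_of_subset_of_nonneg
            · intro m hm
              rw [mem_Ico] at hm
              rw [mem_Icc]
              have := Nat.div_le_self N d
              omega
            · intro m _ _; exact hg0 m
    linarith

end Pool.Agent.Lib.MP_663568_nt.Nul
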