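import Mathlib
import Pool.Agent.Lib.MP_663568_nul.Base

/-!
# The dual Turan-Kubilius inequality and division by a prime
-/

set_option autoImplicit false
open Finset

namespace Pool.Agent.Lib.MP_663568_nt.Nul

open Katai

/-- multiples of `p` in a window -/
lemma card_mult (p : ℕ) (hp : 0 < p) (n H : ℕ) :
    |(∑ m ∈ Ioc n (n + H), if p ∣ m then (1 : ℝ) else 0) - (H : ℝ) / p| ≤ 1 := by
  have h0 := dilate (fun _ => (1 : ℝ)) p hp n H
  rw [h0]
  simp only [sum_const, Nat.card_Ioc, nsmul_eq_mul, mul_one]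
  have hpr : (0 : ℝ) < p := by exact_mod_cast hp
  have h1 : n / p ≤ (n + H) / p := Nat.div_le_div_right (by omega)
  rw [Nat.cast_sub h1]
  have a1 : ((n / p : ℕ) : ℝ) ≤ (n : ℝ) / p := Nat.cast_div_le
  have a2 := div_ge_real n p hp
  have a3 : (((n + H) / p : ℕ) : ℝ) ≤ ((n + H : ℕ) : ℝ) / p := Nat.cast_div_le
  have a4 := div_ge_real (n + H) p hp
  push_cast at a3 a4
  have e : ((n : ℝ) + H) / p = (n : ℝ) / p + (H : ℝ) / p := add_div _ _ _
  rw [e] at a3 a4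
  have a5 : ((n / p : ℕ) : ℝ) > (n : ℝ) / p - 1 := by
    have h := Nat.lt_div_mul_add hp (a := n)
    have h' : (n : ℝ) < ((n / p : ℕ) : ℝ) * p + p := by exact_mod_cast h
    rw [gt_iff_lt, sub_lt_iff_lt_add, div_lt_iff₀ hpr]
    linarith [h']
  rw [abs_le]
  constructor <;> linarith

/-- correlation of two divisibility events -/
noncomputable def Epq (n H p q : ℕ) : ℝ :=
  ∑ m ∈ Ioc n (n + H), ((if p ∣ m then (1 : ℝ) else 0) - 1 / p) *
    ((if q ∣ m then (1 : ℝ) else 0) - 1 / q)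

lemma Epq_self (n H p : ℕ) (hp : p.Prime) : |Epq n H p p| ≤ (H : ℝ) / p + 1 := by
  have hpr : (2 : ℝ) ≤ p := by exact_mod_cast hp.two_le
  have h1 := card_mult p hp.pos n H
  set N : ℝ := ∑ m ∈ Ioc n (n + H), if p ∣ m then (1 : ℝ) else 0 with hN
  have e : Epq n H p p = N * (1 - 2 / p) + (H : ℝ) * (1 / p) ^ 2 := by
    unfold Epq
    have : ∀ m, ((if p ∣ m then (1 : ℝ) else 0) - 1 / p) * ((if p ∣ m then (1 : ℝ) else 0) - 1 / p)
        = (if p ∣ m then (1 : ℝ) else 0) * (1 - 2 / p) + (1 / p) ^ 2 := by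
      intro m; split_ifs <;> ring
    simp only [this, sum_add_distrib, ← sum_mul]
    simp [hN]
  have h0 : 0 ≤ Epq n H p p := sum_nonneg fun m _ => mul_self_nonneg _
  rw [abs_of_nonneg h0, e]
  rw [abs_le] at h1
  have h2 : 0 ≤ 1 - 2 / (p : ℝ) := by
    rw [sub_nonneg, div_le_one (by linarith)]; exact hpr
  have h3 : N ≤ (H : ℝ) / p + 1 := by linarith
  have h4 : N * (1 - 2 / p) ≤ ((H : ℝ) / p + 1) * (1 - 2 / p) := mul_le_mul_of_nonneg_right h3 h2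
  have h5 : ((H : ℝ) / p + 1) * (1 - 2 / p) + (H : ℝ) * (1 / p) ^ 2
      = (H : ℝ) / p + 1 - 2 / p - (H : ℝ) * (1 / p) ^ 2 := by field_simp; ring
  have h6 : 0 ≤ (H : ℝ) * (1 / (p : ℝ)) ^ 2 := by positivity
  have h7 : 0 ≤ 2 / (p : ℝ) := by positivity
  linarith

lemma Epq_ne (n H p q : ℕ) (hp : p.Prime) (hq : q.Prime) (hpq : p ≠ q) : |Epq n H p q| ≤ 2 := by
  have hp2 : (2 : ℝ) ≤ p := by exact_mod_cast hp.two_le
  have hq2 : (2 : ℝ) ≤ q := by exact_mod_cast hq.two_le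
  have hc : Nat.Coprime p q := (Nat.coprime_primes hp hq).mpr hpq
  have h1 := card_mult p hp.pos n H
  have h2 := card_mult q hq.pos n H
  have h3 := card_mult (p * q) (Nat.mul_pos hp.pos hq.pos) n H
  set Np : ℝ := ∑ m ∈ Ioc n (n + H), if p ∣ m then (1 : ℝ) else 0 with hNp
  set Nq : ℝ := ∑ m ∈ Ioc n (n + H), if q ∣ m then (1 : ℝ) else 0 with hNq
  set Npq : ℝ := ∑ m ∈ Ioc n (n + H), if p * q ∣ m then (1 : ℝ) else 0 with hNpq
  have e : Epq n H p q = (Npq - (H : ℝ) / ((p * q : ℕ) : ℝ)) - 1 / q * (Np - (H : ℝ) / p)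
      - 1 / p * (Nq - (H : ℝ) / q) := by
    unfold Epq
    have : ∀ m, ((if p ∣ m then (1 : ℝ) else 0) - 1 / p) * ((if q ∣ m then (1 : ℝ) else 0) - 1 / q)
        = (if p * q ∣ m then (1 : ℝ) else 0) - 1 / q * (if p ∣ m then (1 : ℝ) else 0)
          - 1 / p * (if q ∣ m then (1 : ℝ) else 0) + 1 / p * (1 / q) := by
      intro m
      have hd : p * q ∣ m ↔ p ∣ m ∧ q ∣ m := by
        constructor
        · intro h; exact ⟨(dvd_mul_right p q).trans h, (dvd_mul_left q p).trans h⟩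
        · rintro ⟨a, b⟩; exact hc.mul_dvd_of_dvd_of_dvd a b
      by_cases ha : p ∣ m <;> by_cases hb : q ∣ m <;> simp [hd, ha, hb] <;> ring
    simp only [this, sum_add_distrib, sum_sub_distrib, ← mul_sum]
    rw [← hNp, ← hNq, ← hNpq]
    simp
    field_simp
    ring
  rw [e]
  have b1 : |1 / (q : ℝ) * (Np - (H : ℝ) / p)| ≤ 1 / 2 := by
    rw [abs_mul, abs_of_nonneg (by positivity)]
    calc 1 / (q : ℝ) * |Np - (H : ℝ) / p| ≤ 1 / 2 * 1 := by
          apply mul_le_mul _ h1 (abs_nonneg _) (by norm_num)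
          exact one_div_le_one_div_of_le (by norm_num) hq2
      _ = _ := by ring
  have b2 : |1 / (p : ℝ) * (Nq - (H : ℝ) / q)| ≤ 1 / 2 := by
    rw [abs_mul, abs_of_nonneg (by positivity)]
    calc 1 / (p : ℝ) * |Nq - (H : ℝ) / q| ≤ 1 / 2 * 1 := by
          apply mul_le_mul _ h2 (abs_nonneg _) (by norm_num)
          exact one_div_le_one_div_of_le (by norm_num) hp2
      _ = _ := by ring
  rw [abs_le] at h3 b1 b2 ⊢
  constructor <;> linarith [h3.1, h3.2, b1.1, b1.2, b2.1, b2.2]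

/-- Turan-Kubilius with arbitrary coefficients. -/
lemma tk_coeff (P : Finset ℕ) (hP : ∀ p ∈ P, p.Prime) (n H : ℕ) (Z : ℝ) (hZ : ∀ p ∈ P, (p : ℝ) ≤ Z)
    (hH : (1 + 2 * (P.card : ℝ)) * Z ≤ H) (c : ℕ → ℂ) :
    ∑ m ∈ Ioc n (n + H), ‖∑ p ∈ P, c p * (((if p ∣ m then (1 : ℝ) else 0) - 1 / p : ℝ) : ℂ)‖ ^ 2
      ≤ 2 * H * ∑ p ∈ P, ‖c p‖ ^ 2 / p := by
  have e1 : ((∑ m ∈ Ioc n (n + H),
      ‖∑ p ∈ P, c p * (((if p ∣ m then (1 : ℝ) else 0) - 1 / p : ℝ) : ℂ)‖ ^ 2 : ℝ) : ℂ)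
      = ∑ p ∈ P, ∑ q ∈ P, c p * (starRingEnd ℂ) (c q) * ((Epq n H p q : ℝ) : ℂ) := by
    push_cast
    have : ∀ m, ((‖∑ p ∈ P, c p * (((if p ∣ m then (1 : ℝ) else 0) - 1 / p : ℝ) : ℂ)‖ : ℂ)) ^ 2
        = ∑ p ∈ P, ∑ q ∈ P, c p * (starRingEnd ℂ) (c q) *
          ((((if p ∣ m then (1 : ℝ) else 0) - 1 / p) * ((if q ∣ m then (1 : ℝ) else 0) - 1 / q) : ℝ)
            : ℂ) := by
      intro m
      rw [← Complex.mul_conj', map_sum, sum_mul_sum]
      apply sum_congr rfl; intro p _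
      apply sum_congr rfl; intro q _
      rw [map_mul, Complex.conj_ofReal]; push_cast; ring
    have hcong := sum_congr (rfl : Ioc n (n + H) = Ioc n (n + H)) (fun m _ => this m)
    push_cast at hcong ⊢
    rw [hcong, sum_comm]
    apply sum_congr rfl; intro p _
    rw [sum_comm]
    apply sum_congr rfl; intro q _
    rw [← mul_sum]
    congr 1
    unfold Epq
    push_cast
    rfl
  have h0 : 0 ≤ ∑ m ∈ Ioc n (n + H),
      ‖∑ p ∈ P, c p * (((if p ∣ m then (1 : ℝ) else 0) - 1 / p : ℝ) : ℂ)‖ ^ 2 :=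
    sum_nonneg (fun _ _ => by positivity)
  have hcs : (∑ p ∈ P, ‖c p‖) ^ 2 ≤ P.card * ∑ p ∈ P, ‖c p‖ ^ 2 := sq_sum_le_card_mul_sum_sq
  have hZ' : ∑ p ∈ P, ‖c p‖ ^ 2 ≤ Z * ∑ p ∈ P, ‖c p‖ ^ 2 / p := by
    rw [mul_sum]
    apply sum_le_sum; intro p hp
    have hpp : (0 : ℝ) < p := by exact_mod_cast (hP p hp).pos
    rw [← mul_div_assoc, le_div_iff₀ hpp, mul_comm]
    exact mul_le_mul_of_nonneg_right (hZ p hp) (by positivity)
  calc _ = ‖((∑ m ∈ Ioc n (n + H),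
      ‖∑ p ∈ P, c p * (((if p ∣ m then (1 : ℝ) else 0) - 1 / p : ℝ) : ℂ)‖ ^ 2 : ℝ) : ℂ)‖ := by
        rw [Complex.norm_real, Real.norm_of_nonneg h0]
    _ ≤ ∑ p ∈ P, ∑ q ∈ P, ‖c p‖ * ‖c q‖ * |Epq n H p q| := by
        rw [e1]
        refine (norm_sum_le _ _).trans (sum_le_sum fun p _ => ?_)
        refine (norm_sum_le _ _).trans (sum_le_sum fun q _ => ?_)
        rw [norm_mul, norm_mul, RCLike.norm_conj, Complex.norm_real, Real.norm_eq_abs]
    _ ≤ ∑ p ∈ P, ∑ q ∈ P, ((if p = q then ‖c p‖ ^ 2 * ((H : ℝ) / p + 1) else 0)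
          + 2 * (‖c p‖ * ‖c q‖)) := by
        apply sum_le_sum; intro p hp
        apply sum_le_sum; intro q hq
        by_cases h : p = q
        · subst h
          rw [if_pos rfl]
          have := mul_le_mul_of_nonneg_left (Epq_self n H p (hP p hp))
            (show 0 ≤ ‖c p‖ * ‖c p‖ by positivity)
          nlinarith [show 0 ≤ ‖c p‖ * ‖c p‖ by positivity]
        · rw [if_neg h, zero_add]
          have := mul_le_mul_of_nonneg_left (Epq_ne n H p q (hP p hp) (hP q hq) h)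
            (show 0 ≤ ‖c p‖ * ‖c q‖ by positivity)
          linarith
    _ = ∑ p ∈ P, ‖c p‖ ^ 2 * ((H : ℝ) / p + 1) + 2 * (∑ p ∈ P, ‖c p‖) ^ 2 := by
        simp only [sum_add_distrib, sum_ite_eq]
        rw [sum_ite_mem, inter_self]
        congr 1
        simp only [← mul_sum]
        rw [sq, sum_mul]
    _ = H * (∑ p ∈ P, ‖c p‖ ^ 2 / p) + ∑ p ∈ P, ‖c p‖ ^ 2 + 2 * (∑ p ∈ P, ‖c p‖) ^ 2 := by
        congr 1
        rw [mul_sum, ← sum_add_distrib]
        apply sum_congr rfl; intro p _; ring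
    _ ≤ H * (∑ p ∈ P, ‖c p‖ ^ 2 / p) + (1 + 2 * (P.card : ℝ)) * ∑ p ∈ P, ‖c p‖ ^ 2 := by
        linarith
    _ ≤ H * (∑ p ∈ P, ‖c p‖ ^ 2 / p)
          + (1 + 2 * (P.card : ℝ)) * (Z * ∑ p ∈ P, ‖c p‖ ^ 2 / p) := by
        gcongr
    _ = H * (∑ p ∈ P, ‖c p‖ ^ 2 / p)
          + ((1 + 2 * (P.card : ℝ)) * Z) * ∑ p ∈ P, ‖c p‖ ^ 2 / p := by ring
    _ ≤ H * (∑ p ∈ P, ‖c p‖ ^ 2 / p) + H * ∑ p ∈ P, ‖c p‖ ^ 2 / p := by
        have : 0 ≤ ∑ p ∈ P, ‖c p‖ ^ 2 / (p : ℝ) := sum_nonneg (fun _ _ => by positivity)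
        gcongr
    _ = _ := by ring

/-- **Dual Turan-Kubilius.** -/
lemma tk_dual (P : Finset ℕ) (hP : ∀ p ∈ P, p.Prime) (n H : ℕ) (Z : ℝ) (hZ : ∀ p ∈ P, (p : ℝ) ≤ Z)
    (hH : (1 + 2 * (P.card : ℝ)) * Z ≤ H) (g : ℕ → ℂ) (hg : ∀ m, ‖g m‖ ≤ 1) :
    ∑ p ∈ P, (1 / (p : ℝ)) * ‖(p : ℂ) * ∑ m ∈ Ioc n (n + H), (if p ∣ m then g m else 0)
        - ∑ m ∈ Ioc n (n + H), g m‖ ^ 2 ≤ 2 * (H : ℝ) ^ 2 := by
  set y : ℕ → ℂ := fun p => (p : ℂ) * ∑ m ∈ Ioc n (n + H), (if p ∣ m then g m else 0)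
        - ∑ m ∈ Ioc n (n + H), g m with hy
  set T : ℝ := ∑ p ∈ P, (1 / (p : ℝ)) * ‖y p‖ ^ 2 with hT
  have hT0 : 0 ≤ T := sum_nonneg fun _ _ => by positivity
  set c : ℕ → ℂ := fun p => (starRingEnd ℂ) (y p) with hc
  -- `y p = p * sum g (1_{p|m} - 1/p)`
  have hyp : ∀ p ∈ P, y p = (p : ℂ) * ∑ m ∈ Ioc n (n + H),
      g m * (((if p ∣ m then (1 : ℝ) else 0) - 1 / p : ℝ) : ℂ) := by
    intro p hp
    have hp0 : (p : ℂ) ≠ 0 := by exact_mod_cast (hP p hp).ne_zero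
    rw [hy]
    beta_reduce
    rw [mul_sum, mul_sum, ← sum_sub_distrib]
    apply sum_congr rfl; intro m _
    push_cast
    split_ifs
    · rw [Complex.ofReal_one]; field_simp
    · rw [Complex.ofReal_zero]; field_simp; ring
  have e1 : ((T : ℝ) : ℂ) = ∑ m ∈ Ioc n (n + H), g m *
      ∑ p ∈ P, c p * (((if p ∣ m then (1 : ℝ) else 0) - 1 / p : ℝ) : ℂ) := by
    rw [hT]
    push_cast
    have : ∀ p ∈ P, (1 / (p : ℂ)) * (‖y p‖ : ℂ) ^ 2 = ∑ m ∈ Ioc n (n + H), g m * (c p *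
        (((if p ∣ m then (1 : ℝ) else 0) - 1 / p : ℝ) : ℂ)) := by
      intro p hp
      have hp0 : (p : ℂ) ≠ 0 := by exact_mod_cast (hP p hp).ne_zero
      rw [← Complex.mul_conj']
      conv_lhs => rw [show (1 / (p : ℂ)) * (y p * (starRingEnd ℂ) (y p))
        = c p * ((1 / (p : ℂ)) * y p) by rw [hc]; ring]
      rw [hyp p hp, ← mul_assoc (1 / (p : ℂ)), one_div, inv_mul_cancel₀ hp0, one_mul, mul_sum]
      apply sum_congr rfl; intro m _
      ring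
    rw [sum_congr rfl this, sum_comm]
    apply sum_congr rfl; intro m _
    rw [mul_sum]
    push_cast
    rfl
  have h1 := tk_coeff P hP n H Z hZ hH c
  have h2 : T ≤ ∑ m ∈ Ioc n (n + H),
      ‖∑ p ∈ P, c p * (((if p ∣ m then (1 : ℝ) else 0) - 1 / p : ℝ) : ℂ)‖ := by
    calc T = ‖((T : ℝ) : ℂ)‖ := by rw [Complex.norm_real, Real.norm_of_nonneg hT0]
      _ ≤ _ := by
        rw [e1]
        refine (norm_sum_le _ _).trans (sum_le_sum fun m _ => ?_)
        rw [norm_mul]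
        exact mul_le_of_le_one_left (norm_nonneg _) (hg m)
  have h3 : T ^ 2 ≤ (H : ℝ) * (2 * H * T) := by
    calc T ^ 2 ≤ (∑ m ∈ Ioc n (n + H),
          ‖∑ p ∈ P, c p * (((if p ∣ m then (1 : ℝ) else 0) - 1 / p : ℝ) : ℂ)‖) ^ 2 := by gcongr
      _ ≤ ((Ioc n (n + H)).card : ℝ) * ∑ m ∈ Ioc n (n + H),
          ‖∑ p ∈ P, c p * (((if p ∣ m then (1 : ℝ) else 0) - 1 / p : ℝ) : ℂ)‖ ^ 2 :=
          sq_sum_le_card_mul_sum_sq
      _ ≤ (H : ℝ) * (2 * H * ∑ p ∈ P, ‖c p‖ ^ 2 / p) := by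
          rw [Nat.card_Ioc, Nat.add_sub_cancel_left]
          gcongr
      _ = (H : ℝ) * (2 * H * T) := by
          congr 2
          rw [hT]
          apply sum_congr rfl; intro p _
          rw [hc]; beta_reduce
          rw [RCLike.norm_conj]; ring
  rcases hT0.eq_or_lt with h | h
  · rw [← h]; positivity
  · have : T * T ≤ 2 * (H : ℝ) ^ 2 * T := by nlinarith
    exact le_of_mul_le_mul_right this h

/-- window sums of `F` against `a` -/
noncomputable def ws (F a : ℕ → ℂ) (n H : ℕ) : ℝ := ‖∑ h ∈ Icc 1 H, F (n + h) * a (n + h)‖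

lemma ws_nonneg (F a : ℕ → ℂ) (n H : ℕ) : 0 ≤ ws F a n H := norm_nonneg _

lemma ws_le (F a : ℕ → ℂ) (hF : ∀ n, ‖F n‖ ≤ 1) (ha : ∀ n, ‖a n‖ ≤ 1) (n H : ℕ) :
    ws F a n H ≤ H := norm_window_le F a hF ha H n

lemma div_window (n H p : ℕ) (hp : 0 < p) :
    (n + H) / p = n / p + H / p ∨ (n + H) / p = n / p + H / p + 1 := by
  have h := Nat.add_div (a := n) (b := H) hp
  split_ifs at h <;> omega

/-- division of a window by a prime -/
lemma ws_div (F a : ℕ → ℂ) (hF : ∀ n, ‖F n‖ ≤ 1) (ha : ∀ n, ‖a n‖ ≤ 1) (p : ℕ) (hp : p.Prime)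
    (hmul : ∀ m, ¬ p ∣ m → a (p * m) = a p * a m) (n H : ℕ) :
    ws F a n H ≤ p * ws (fun m => F (p * m)) a (n / p) (H / p)
      + ‖(p : ℂ) * ∑ m ∈ Ioc n (n + H), (if p ∣ m then F m * a m else 0)
        - ∑ m ∈ Ioc n (n + H), F m * a m‖ + (2 * H / p + 3 * p) := by
  have hpr : (2 : ℝ) ≤ p := by exact_mod_cast hp.two_le
  have hp0 : (0 : ℝ) < p := by linarith
  set S := ∑ m ∈ Ioc n (n + H), F m * a m with hS
  set D := ∑ m ∈ Ioc n (n + H), (if p ∣ m then F m * a m else 0) with hD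
  have h1 : ws F a n H = ‖S‖ := by rw [ws, icc_ioc (fun m => F m * a m)]
  have h2 : ‖S‖ ≤ ‖(p : ℂ) * D‖ + ‖(p : ℂ) * D - S‖ := by
    calc ‖S‖ = ‖(p : ℂ) * D - ((p : ℂ) * D - S)‖ := by congr 1; ring
      _ ≤ _ := norm_sub_le _ _
  have hDd : D = ∑ m ∈ Ioc (n / p) ((n + H) / p), F (p * m) * a (p * m) := by
    rw [hD, dilate (fun m => F m * a m) p hp.pos]
  set S' := ∑ m ∈ Ioc (n / p) ((n + H) / p), F (p * m) * a m with hS'
  have h3 : ‖D‖ ≤ ‖S'‖ + ∑ m ∈ Ioc (n / p) ((n + H) / p), (if p ∣ m then (2 : ℝ) else 0) := by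
    have e : D = a p * S' + ∑ m ∈ Ioc (n / p) ((n + H) / p), F (p * m) * (a (p * m) - a p * a m) := by
      rw [hDd, hS', mul_sum, ← sum_add_distrib]
      apply sum_congr rfl; intro m _; ring
    rw [e]
    refine (norm_add_le _ _).trans (add_le_add ?_ ?_)
    · rw [norm_mul]; exact mul_le_of_le_one_left (norm_nonneg _) (ha _)
    · refine (norm_sum_le _ _).trans (sum_le_sum ?_)
      intro m _
      rw [norm_mul]
      refine (mul_le_of_le_one_left (norm_nonneg _) (hF _)).trans ?_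
      by_cases hpm : p ∣ m
      · rw [if_pos hpm]
        calc ‖a (p * m) - a p * a m‖ ≤ ‖a (p * m)‖ + ‖a p * a m‖ := norm_sub_le _ _
          _ ≤ 1 + 1 := by
              apply add_le_add (ha _)
              rw [norm_mul]; exact mul_le_one₀ (ha _) (norm_nonneg _) (ha _)
          _ = 2 := by norm_num
      · rw [if_neg hpm, hmul m hpm]; simp
  have h4 : ∑ m ∈ Ioc (n / p) ((n + H) / p), (if p ∣ m then (2 : ℝ) else 0)
      ≤ 2 * ((H : ℝ) / (p * p) + 1) := by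
    have e : ∀ m, (if p ∣ m then (2 : ℝ) else 0) = 2 * (if p ∣ m then (1 : ℝ) else 0) := by
      intro m; split_ifs <;> norm_num
    simp only [e, ← mul_sum]
    apply mul_le_mul_of_nonneg_left _ (by norm_num)
    have e2 := dilate (fun m => if p ∣ m / p then (1 : ℝ) else 0) p hp.pos n H
    have e3 : ∀ m ∈ Ioc (n / p) ((n + H) / p), (if p ∣ p * m / p then (1 : ℝ) else 0)
        = if p ∣ m then (1 : ℝ) else 0 := by
      intro m _
      rw [Nat.mul_div_cancel_left m hp.pos]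
    rw [sum_congr rfl e3] at e2
    rw [← e2]
    have e4 : ∀ m ∈ Ioc n (n + H), (if p ∣ m then (if p ∣ m / p then (1 : ℝ) else 0) else 0)
        = if p * p ∣ m then (1 : ℝ) else 0 := by
      intro m _
      by_cases h : p ∣ m
      · rw [if_pos h]
        obtain ⟨k, rfl⟩ := h
        rw [Nat.mul_div_cancel_left k hp.pos]
        have : p * p ∣ p * k ↔ p ∣ k := Nat.mul_dvd_mul_iff_left hp.pos
        simp only [this]
      · rw [if_neg h, if_neg]
        intro h2; exact h ((dvd_mul_right p p).trans h2)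
    rw [sum_congr rfl e4]
    have := (abs_le.mp (card_mult (p * p) (Nat.mul_pos hp.pos hp.pos) n H)).2
    push_cast at this
    linarith
  have h5 : ‖S'‖ ≤ ws (fun m => F (p * m)) a (n / p) (H / p) + 1 := by
    rcases div_window n H p hp.pos with h | h
    · rw [hS', h, ws, icc_ioc (fun m => F (p * m) * a m)]
      linarith
    · rw [hS', h, ws, icc_ioc (fun m => F (p * m) * a m)]
      have e : Ioc (n / p) (n / p + H / p + 1) = insert (n / p + H / p + 1)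
          (Ioc (n / p) (n / p + H / p)) := by
        ext x; simp only [mem_Ioc, mem_insert]
        generalize n / p = u
        generalize H / p = v
        omega
      rw [e, sum_insert (by simp)]
      refine (norm_add_le _ _).trans ?_
      have : ‖F (p * (n / p + H / p + 1)) * a (n / p + H / p + 1)‖ ≤ 1 := by
        rw [norm_mul]; exact mul_le_one₀ (hF _) (norm_nonneg _) (ha _)
      linarith
  have h6 : ‖(p : ℂ) * D‖ = p * ‖D‖ := by rw [norm_mul]; simp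
  rw [h1]
  refine h2.trans ?_
  rw [h6]
  have h7 : (p : ℝ) * ‖D‖ ≤ p * (ws (fun m => F (p * m)) a (n / p) (H / p) + 1
      + 2 * ((H : ℝ) / (p * p) + 1)) := by
    apply mul_le_mul_of_nonneg_left _ hp0.le
    linarith
  have h8 : (p : ℝ) * (ws (fun m => F (p * m)) a (n / p) (H / p) + 1
      + 2 * ((H : ℝ) / (p * p) + 1))
      = p * ws (fun m => F (p * m)) a (n / p) (H / p) + (2 * H / p + 3 * p) := by
    field_simp
    ring
  linarith

end Pool.Agent.Lib.MP_663568_nt.Nul
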