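import Mathlib
import Pool.Agent.Lib.MP_663568_nul.TKD

/-!
# Correlations survive the division by most primes
-/

set_option autoImplicit false
open Finset

namespace Pool.Agent.Lib.MP_663568_nt.Nul

open Katai

/-- the dilated phase -/
def ph {ι : Type} (F : ι → ℕ → ℂ) (i : ι) (d : ℕ) : ℕ → ℂ := fun m => F i (d * m)

/-- multiplicativity at all primes -/
def Mult (a : ℕ → ℂ) : Prop := ∀ p : ℕ, p.Prime → ∀ m, ¬ p ∣ m → a (p * m) = a p * a m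

open Classical in
/-- The primes for which the correlation drops. -/
noncomputable def badp (P : Finset ℕ) (F a : ℕ → ℂ) (η : ℝ) (n H : ℕ) : Finset ℕ :=
  P.filter fun p => (p : ℝ) * ws (fun m => F (p * m)) a (n / p) (H / p) < ws F a n H - η * H

lemma badp_weight (P : Finset ℕ) (hP : ∀ p ∈ P, p.Prime) (P₀ : ℕ) (hP₀ : ∀ p ∈ P, P₀ ≤ p)
    (η : ℝ) (hη : 0 < η) (hη8 : 8 / η ≤ P₀) (Z : ℝ) (hZ : ∀ p ∈ P, (p : ℝ) ≤ Z)
    (F a : ℕ → ℂ) (hF : ∀ n, ‖F n‖ ≤ 1) (ha : ∀ n, ‖a n‖ ≤ 1) (hmul : Mult a)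
    (n H : ℕ) (hH0 : 0 < H) (hH : (1 + 2 * (P.card : ℝ)) * Z ≤ H) (hH2 : 12 * Z / η ≤ H) :
    ∑ p ∈ badp P F a η n H, (1 / (p : ℝ)) ≤ 8 / η ^ 2 := by
  classical
  have hHr : (0 : ℝ) < H := by exact_mod_cast hH0
  have h1 := tk_dual P hP n H Z hZ hH (fun m => F m * a m) (fun m => by
    rw [norm_mul]; exact mul_le_one₀ (hF _) (norm_nonneg _) (ha _))
  set y : ℕ → ℝ := fun p => ‖(p : ℂ) * ∑ m ∈ Ioc n (n + H), (if p ∣ m then F m * a m else 0)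
        - ∑ m ∈ Ioc n (n + H), F m * a m‖ with hy
  have h2 : ∀ p ∈ badp P F a η n H, (η / 2 * H) ^ 2 ≤ y p ^ 2 := by
    intro p hp
    rw [badp, mem_filter] at hp
    have hpr := hP p hp.1
    have h3 := ws_div F a hF ha p hpr (hmul p hpr) n H
    have hp0 : (0 : ℝ) < p := by exact_mod_cast hpr.pos
    have h4 : 2 * (H : ℝ) / p ≤ η / 4 * H := by
      have h5 : 8 / η ≤ p := hη8.trans (by exact_mod_cast hP₀ p hp.1)
      rw [div_le_iff₀ hη] at h5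
      rw [div_le_iff₀ hp0]
      nlinarith
    have h5 : 3 * (p : ℝ) ≤ η / 4 * H := by
      have := hZ p hp.1
      rw [div_le_iff₀ hη] at hH2
      linarith
    have h6 : η / 2 * H ≤ y p := by
      have := hp.2
      rw [hy]; beta_reduce
      linarith
    gcongr
  have hsub : badp P F a η n H ⊆ P := filter_subset _ _
  have h3 : (η / 2 * H) ^ 2 * ∑ p ∈ badp P F a η n H, (1 / (p : ℝ)) ≤ 2 * (H : ℝ) ^ 2 := by
    calc (η / 2 * H) ^ 2 * ∑ p ∈ badp P F a η n H, (1 / (p : ℝ))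
        = ∑ p ∈ badp P F a η n H, (1 / (p : ℝ)) * (η / 2 * H) ^ 2 := by
          rw [mul_sum]; exact sum_congr rfl fun p _ => mul_comm _ _
      _ ≤ ∑ p ∈ badp P F a η n H, (1 / (p : ℝ)) * y p ^ 2 := by
          apply sum_le_sum; intro p hp
          exact mul_le_mul_of_nonneg_left (h2 p hp) (by positivity)
      _ ≤ ∑ p ∈ P, (1 / (p : ℝ)) * y p ^ 2 := by
          apply sum_le_sum_of_subset_of_nonneg hsub
          intro _ _ _; positivity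
      _ ≤ _ := h1
  have h4 : (0 : ℝ) < (η / 2 * H) ^ 2 := by positivity
  rw [mul_comm, ← le_div_iff₀ h4] at h3
  refine h3.trans (le_of_eq ?_)
  field_simp
  ring

/-- the correlation of a good child -/
lemma child_of_not_bad (P : Finset ℕ) (hP : ∀ p ∈ P, p.Prime) (F a : ℕ → ℂ) (η ε : ℝ) (n H p : ℕ)
    (hp : p ∈ P) (hb : p ∉ badp P F a η n H) (hε : η ≤ ε) (h : ε * H ≤ ws F a n H) :
    (ε - η) * ((H / p : ℕ) : ℝ) ≤ ws (fun m => F (p * m)) a (n / p) (H / p) := by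
  classical
  have hp0 : (0 : ℝ) < p := by exact_mod_cast (hP p hp).pos
  rw [badp, mem_filter, not_and, not_lt] at hb
  have h1 := hb hp
  have h2 : (ε - η) * ((H / p : ℕ) : ℝ) ≤ (ε - η) * ((H : ℝ) / p) :=
    mul_le_mul_of_nonneg_left Nat.cast_div_le (by linarith)
  refine h2.trans ?_
  rw [← mul_div_assoc, div_le_iff₀ hp0]
  linarith

open Classical in
/-- The pairs of primes for which the correlation drops. -/
noncomputable def badpp (P P' : Finset ℕ) (F a : ℕ → ℂ) (η ε : ℝ) (n H : ℕ) : Finset (ℕ × ℕ) :=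
  (P ×ˢ P').filter fun z => ¬ ((ε - 2 * η) * ((H / z.1 / z.2 : ℕ) : ℝ) ≤
    ws (fun m => F (z.1 * z.2 * m)) a (n / z.1 / z.2) (H / z.1 / z.2))

/-- conditions on the length of the window -/
def LongH (P P' : Finset ℕ) (η : ℝ) (H : ℕ) : Prop :=
  0 < H ∧ (∀ p ∈ P, 0 < H / p) ∧
  ∃ Z : ℝ, (∀ p ∈ P, (p : ℝ) ≤ Z) ∧ (∀ p ∈ P', (p : ℝ) ≤ Z) ∧
    (1 + 2 * (P.card : ℝ)) * Z ≤ H ∧ 12 * Z / η ≤ H ∧
    ∀ p ∈ P, (1 + 2 * (P'.card : ℝ)) * Z ≤ ((H / p : ℕ) : ℝ) ∧ 12 * Z / η ≤ ((H / p : ℕ) : ℝ)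

lemma exists_longH (P P' : Finset ℕ) (hP : ∀ p ∈ P, p.Prime) (η : ℝ) :
    ∃ H₀ : ℕ, ∀ H, H₀ ≤ H → LongH P P' η H := by
  set Z : ℝ := ∑ p ∈ P, (p : ℝ) + ∑ p ∈ P', (p : ℝ) with hZ
  have hZ1 : ∀ p ∈ P, (p : ℝ) ≤ Z := by
    intro p hp
    have h1 := single_le_sum (f := fun p : ℕ => (p : ℝ)) (fun _ _ => Nat.cast_nonneg _) hp
    have h2 : 0 ≤ ∑ p ∈ P', (p : ℝ) := sum_nonneg fun _ _ => Nat.cast_nonneg _
    have h3 : (p : ℝ) ≤ ∑ p ∈ P, (p : ℝ) := h1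
    rw [hZ]; linarith
  have hZ2 : ∀ p ∈ P', (p : ℝ) ≤ Z := by
    intro p hp
    have h1 := single_le_sum (f := fun p : ℕ => (p : ℝ)) (fun _ _ => Nat.cast_nonneg _) hp
    have h2 : 0 ≤ ∑ p ∈ P, (p : ℝ) := sum_nonneg fun _ _ => Nat.cast_nonneg _
    have h3 : (p : ℝ) ≤ ∑ p ∈ P', (p : ℝ) := h1
    rw [hZ]; linarith
  set T : ℝ := max (max ((1 + 2 * (P.card : ℝ)) * Z) ((1 + 2 * (P'.card : ℝ)) * Z)) (12 * Z / η)
    with hT
  set s : ℕ := ⌈T⌉₊ + 1 with hs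
  have hsT : T ≤ s := by
    refine (Nat.le_ceil T).trans ?_
    rw [hs]; push_cast; linarith
  refine ⟨s * (∑ p ∈ P, p + 1), fun H hH => ?_⟩
  have h0 : s ≤ H := le_trans (Nat.le_mul_of_pos_right s (by omega)) hH
  have hsr : (s : ℝ) ≤ H := by exact_mod_cast h0
  have hdiv : ∀ p ∈ P, s ≤ H / p := by
    intro p hp
    rw [Nat.le_div_iff_mul_le (hP p hp).pos]
    refine le_trans (Nat.mul_le_mul_left s ?_) hH
    have := single_le_sum (f := fun p : ℕ => p) (fun _ _ => Nat.zero_le _) hp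
    have h3 : p ≤ ∑ p ∈ P, p := this
    omega
  refine ⟨by omega, fun p hp => lt_of_lt_of_le (by omega) (hdiv p hp), Z, hZ1, hZ2, ?_, ?_, ?_⟩
  · exact ((le_max_left _ _).trans (le_max_left _ _)).trans (hsT.trans hsr)
  · exact (le_max_right _ _).trans (hsT.trans hsr)
  · intro p hp
    have h4 : (s : ℝ) ≤ ((H / p : ℕ) : ℝ) := by exact_mod_cast hdiv p hp
    exact ⟨((le_max_right _ _).trans (le_max_left _ _)).trans (hsT.trans h4),
      (le_max_right _ _).trans (hsT.trans h4)⟩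

lemma badpp_weight (P P' : Finset ℕ) (hP : ∀ p ∈ P, p.Prime) (hP' : ∀ p ∈ P', p.Prime)
    (P₀ : ℕ) (hP₀ : ∀ p ∈ P, P₀ ≤ p) (hP₀' : ∀ p ∈ P', P₀ ≤ p)
    (η ε : ℝ) (hη : 0 < η) (hηε : 2 * η ≤ ε) (hη8 : 8 / η ≤ P₀)
    (F a : ℕ → ℂ) (hF : ∀ n, ‖F n‖ ≤ 1) (ha : ∀ n, ‖a n‖ ≤ 1) (hmul : Mult a)
    (n H : ℕ) (hH : LongH P P' η H) (h : ε * H ≤ ws F a n H) :
    ∑ z ∈ badpp P P' F a η ε n H, 1 / ((z.1 : ℝ) * z.2) ≤ 8 / η ^ 2 * (WW P + WW P') := by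
  classical
  obtain ⟨hH0, hHp, Z, hZ1, hZ2, hH1, hH2, hH3⟩ := hH
  -- bad pairs: first prime bad, or second prime bad
  set B1 := badp P F a η n H with hB1
  set B2 : Finset (Σ _ : ℕ, ℕ) := P.sigma fun p =>
      badp P' (fun m => F (p * m)) a η (n / p) (H / p) with hB2
  set B3 : Finset (ℕ × ℕ) := B2.image (fun z : (Σ _ : ℕ, ℕ) => ((z.1, z.2) : ℕ × ℕ)) with hB3
  have hsub : badpp P P' F a η ε n H ⊆ (B1 ×ˢ P') ∪ B3 := by
    intro z hz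
    rw [badpp, mem_filter, mem_product] at hz
    obtain ⟨⟨hz1, hz2⟩, hz3⟩ := hz
    rw [mem_union]
    by_cases hb : z.1 ∈ B1
    · left; rw [mem_product]; exact ⟨hb, hz2⟩
    · right
      rw [hB3, mem_image]
      refine ⟨⟨z.1, z.2⟩, ?_, rfl⟩
      rw [hB2, mem_sigma]
      refine ⟨hz1, ?_⟩
      by_contra hb2
      apply hz3
      have c1 := child_of_not_bad P hP F a η ε n H z.1 hz1 hb (by linarith) h
      have c2 := child_of_not_bad P' hP' (fun m => F (z.1 * m)) a η (ε - η) (n / z.1) (H / z.1)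
        z.2 hz2 hb2 (by linarith) c1
      have e : (fun m => F (z.1 * (z.2 * m))) = fun m => F (z.1 * z.2 * m) := by
        funext m; rw [mul_assoc]
      have e2 : ε - 2 * η = ε - η - η := by ring
      rw [e2, ← e]
      exact c2
  have hw : ∀ z : ℕ × ℕ, 0 ≤ 1 / ((z.1 : ℝ) * z.2) := fun z => by positivity
  have h1 : ∑ z ∈ badpp P P' F a η ε n H, 1 / ((z.1 : ℝ) * z.2)
      ≤ ∑ z ∈ (B1 ×ˢ P') ∪ B3, 1 / ((z.1 : ℝ) * z.2) :=
    sum_le_sum_of_subset_of_nonneg hsub fun z _ _ => hw z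
  have h2 : ∑ z ∈ (B1 ×ˢ P') ∪ B3, 1 / ((z.1 : ℝ) * z.2) ≤
      ∑ z ∈ B1 ×ˢ P', 1 / ((z.1 : ℝ) * z.2) + ∑ z ∈ B3, 1 / ((z.1 : ℝ) * z.2) := by
    have := sum_union_inter (s₁ := B1 ×ˢ P') (s₂ := B3)
      (f := fun z : ℕ × ℕ => 1 / ((z.1 : ℝ) * z.2))
    have h0 : 0 ≤ ∑ z ∈ (B1 ×ˢ P') ∩ B3, 1 / ((z.1 : ℝ) * z.2) := sum_nonneg fun z _ => hw z
    linarith
  have h3 : ∑ z ∈ B1 ×ˢ P', 1 / ((z.1 : ℝ) * z.2) ≤ 8 / η ^ 2 * WW P' := by
    rw [sum_product]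
    have : ∀ p ∈ B1, ∑ q ∈ P', 1 / ((p : ℝ) * q) = (1 / (p : ℝ)) * WW P' := by
      intro p _
      rw [WW, mul_sum]
      exact sum_congr rfl fun q _ => by rw [one_div_mul_one_div]
    rw [sum_congr rfl this, ← sum_mul]
    exact mul_le_mul_of_nonneg_right (badp_weight P hP P₀ hP₀ η hη hη8 Z hZ1 F a hF ha hmul n H
      hH0 hH1 hH2) (WW_nonneg _)
  have h4 : ∑ z ∈ B3, 1 / ((z.1 : ℝ) * z.2) ≤ WW P * (8 / η ^ 2) := by
    rw [hB3, sum_image (by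
      intro x _ y _ hxy
      rw [Prod.mk.injEq] at hxy
      exact Sigma.ext hxy.1 (heq_of_eq hxy.2)), hB2, sum_sigma]
    have : ∀ p ∈ P, ∑ q ∈ badp P' (fun m => F (p * m)) a η (n / p) (H / p),
        1 / ((p : ℝ) * q) ≤ (1 / (p : ℝ)) * (8 / η ^ 2) := by
      intro p hp
      have h1 := badp_weight P' hP' P₀ hP₀' η hη hη8 Z hZ2 (fun m => F (p * m)) a
        (fun m => hF _) ha hmul (n / p) (H / p) (hHp p hp) (hH3 p hp).1 (hH3 p hp).2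
      have e : ∑ q ∈ badp P' (fun m => F (p * m)) a η (n / p) (H / p), 1 / ((p : ℝ) * q)
          = (1 / (p : ℝ)) * ∑ q ∈ badp P' (fun m => F (p * m)) a η (n / p) (H / p),
            1 / (q : ℝ) := by
        rw [mul_sum]
        exact sum_congr rfl fun q _ => by rw [one_div_mul_one_div]
      rw [e]
      exact mul_le_mul_of_nonneg_left h1 (by positivity)
    refine (sum_le_sum this).trans ?_
    rw [← sum_mul]
    exact le_of_eq rfl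
  calc _ ≤ _ := h1
    _ ≤ _ := h2
    _ ≤ 8 / η ^ 2 * WW P' + WW P * (8 / η ^ 2) := add_le_add h3 h4
    _ = _ := by ring

end Pool.Agent.Lib.MP_663568_nt.Nul
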