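import Mathlib
import Pool.Agent.Lib.MP_663568_nul.Base

set_option autoImplicit false
open Finset Polynomial

namespace Pool.Agent.Lib.MP_663568_nt.Nul

open Katai

namespace Vino

/-- residues `c` modulo `q` with `c / q` close to an integer -/
lemma card_close (q : ℕ) (hq : 0 < q) (η : ℝ) (hη : 0 ≤ η) :
    ((#((range q).filter (fun c : ℕ => nd ((c : ℝ) / q) ≤ η)) : ℕ) : ℝ) ≤ 2 * (η * q) + 1 := by
  have hq' : (0 : ℝ) < q := by exact_mod_cast hq
  set k := ⌊η * q⌋₊ with hk
  have hk' : (k : ℝ) ≤ η * q := Nat.floor_le (by positivity)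
  have hsub : (range q).filter (fun c : ℕ => nd ((c : ℝ) / q) ≤ η) ⊆
      range (k + 1) ∪ (Icc 1 k).image (fun j => q - j) := by
    intro c hc
    rw [mem_filter, mem_range] at hc
    obtain ⟨hcq, hc⟩ := hc
    obtain ⟨n, hn⟩ := nd_exists ((c : ℝ) / q)
    rw [hn, abs_le] at hc
    rw [mem_union, mem_range, mem_image]
    rcases le_or_gt n 0 with h0 | h0
    · left
      have h1 : (n : ℝ) ≤ 0 := by exact_mod_cast h0
      have h2 : (c : ℝ) / q ≤ η := by linarith [hc.2]
      rw [div_le_iff₀ hq'] at h2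
      have : c ≤ k := Nat.le_floor h2
      omega
    · right
      have h1 : (1 : ℝ) ≤ n := by exact_mod_cast h0
      have h2 : 1 - η ≤ (c : ℝ) / q := by linarith [hc.1]
      rw [le_div_iff₀ hq'] at h2
      refine ⟨q - c, ?_, by omega⟩
      rw [mem_Icc]
      refine ⟨by omega, ?_⟩
      apply Nat.le_floor
      rw [Nat.cast_sub hcq.le]
      linarith
  have h1 : #((range q).filter (fun c : ℕ => nd ((c : ℝ) / q) ≤ η)) ≤ (k + 1) + k := by
    refine (card_le_card hsub).trans ((card_union_le _ _).trans ?_)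
    refine add_le_add (by simp) (card_image_le.trans (by simp))
  have h2 : ((#((range q).filter (fun c : ℕ => nd ((c : ℝ) / q) ≤ η)) : ℕ) : ℝ) ≤ (k + 1) + k := by
    exact_mod_cast h1
  linarith

end Vino

/-- Many multiples of `β` close to integers: `β` is close to a rational with small denominator. -/
theorem vino (β κ δ : ℝ) (M : ℕ) (S : Finset ℕ) (hS : S ⊆ Icc 1 M) (hκ : 0 < κ)
    (hM : 4 ≤ κ * M) (hδ0 : 0 ≤ δ) (hδ : δ ≤ κ / 64) (hcard : κ * M ≤ #S)
    (h : ∀ h ∈ S, nd ((h : ℝ) * β) ≤ δ) :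
    ∃ q : ℕ, 1 ≤ q ∧ (q : ℝ) ≤ 6 / κ ∧ nd ((q : ℝ) * β) ≤ δ / (κ * M) := by
  have hM0 : 0 < M := by
    rcases Nat.eq_zero_or_pos M with h0 | h0
    · subst h0; simp at hM; linarith
    · exact h0
  have hM0' : (0 : ℝ) < M := by exact_mod_cast hM0
  obtain ⟨r, hr1, hr2⟩ := Real.exists_rat_abs_sub_le_and_den_le β (n := 4 * M) (by omega)
  set q := r.den with hqdef
  set a := r.num with hadef
  have hq : 0 < q := r.den_pos
  have hq' : (0 : ℝ) < q := by exact_mod_cast hq
  have hcop : IsCoprime a (q : ℤ) := by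
    rw [Int.isCoprime_iff_gcd_eq_one]
    exact r.reduced
  have hra : (r : ℝ) = (a : ℝ) / q := by
    rw [hadef, hqdef]; exact_mod_cast (Rat.num_div_den r).symm
  set θ := β - (a : ℝ) / q with hθ
  have hθ1 : |θ| ≤ 1 / (4 * M * q) := by
    rw [hra] at hr1
    refine hr1.trans ?_
    apply one_div_le_one_div_of_le (by positivity)
    push_cast
    nlinarith
  have hθh : ∀ h ∈ S, |(h : ℝ) * θ| ≤ 1 / (4 * q) := by
    intro m hm
    have hm1 := (mem_Icc.1 (hS hm)).2
    have hm2 : (m : ℝ) ≤ M := by exact_mod_cast hm1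
    rw [abs_mul, abs_of_nonneg (Nat.cast_nonneg m)]
    calc (m : ℝ) * |θ| ≤ M * (1 / (4 * M * q)) := by gcongr
      _ = 1 / (4 * q) := by field_simp
  have hβ : ∀ m : ℕ, (m : ℝ) * β = ((m * a : ℤ) : ℝ) / q + m * θ := by
    intro m
    rw [hθ]; push_cast; ring
  set η := δ + 1 / (4 * q) with hη
  have hη0 : 0 ≤ η := by positivity
  have hclose : ∀ m ∈ S, nd (((m * a : ℤ) : ℝ) / q) ≤ η := by
    intro m hm
    have h1 := nd_le_add_abs (((m * a : ℤ) : ℝ) / q) ((m : ℝ) * β)
    have h2 : |((m * a : ℤ) : ℝ) / q - (m : ℝ) * β| = |(m : ℝ) * θ| := by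
      rw [hβ, abs_sub_comm]; congr 1; ring
    rw [h2] at h1
    linarith [h m hm, hθh m hm]
  -- counting
  set B := (range q).filter (fun c : ℕ => nd ((c : ℝ) / q) ≤ η) with hB
  have hBc : ((#B : ℕ) : ℝ) ≤ 2 * (η * q) + 1 := Vino.card_close q hq η hη0
  have hηq : η * q = δ * q + 1 / 4 := by
    rw [hη]; field_simp
  have hmap : ∀ m ∈ S, (((m * a : ℤ) % q).toNat, (m - 1) / q) ∈ B ×ˢ range ((M - 1) / q + 1) := by
    intro m hm
    have hm1 := mem_Icc.1 (hS hm)
    rw [mem_product]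
    have hqz : (0 : ℤ) < q := by exact_mod_cast hq
    have hnn := Int.emod_nonneg ((m : ℤ) * a) hqz.ne'
    have hlt := Int.emod_lt_of_pos ((m : ℤ) * a) hqz
    refine ⟨?_, ?_⟩
    · rw [hB, mem_filter, mem_range]
      refine ⟨by omega, ?_⟩
      have h1 : ((((m * a : ℤ) % q).toNat : ℕ) : ℝ) = (((m * a : ℤ) % q : ℤ) : ℝ) := by
        have : ((((m * a : ℤ) % q).toNat : ℕ) : ℤ) = (m * a : ℤ) % q := Int.toNat_of_nonneg hnn
        exact_mod_cast congrArg (Int.cast : ℤ → ℝ) this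
      rw [h1]
      have h2 : (((m * a : ℤ) % q : ℤ) : ℝ) / q
          = ((m * a : ℤ) : ℝ) / q - (((m * a : ℤ) / q : ℤ) : ℝ) := by
        rw [Int.emod_def]; push_cast; field_simp
      rw [h2, nd_sub_int]
      exact hclose m hm
    · rw [mem_range]
      have : (m - 1) / q ≤ (M - 1) / q := Nat.div_le_div_right (by omega)
      omega
  have hinj : Set.InjOn (fun m : ℕ => (((m * a : ℤ) % q).toNat, (m - 1) / q)) (S : Set ℕ) := by
    intro m hm m' hm' he
    have hm1 := mem_Icc.1 (hS hm)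
    have hm1' := mem_Icc.1 (hS hm')
    simp only [Prod.mk.injEq] at he
    obtain ⟨he1, he2⟩ := he
    have hqz : (0 : ℤ) < q := by exact_mod_cast hq
    have hnn := Int.emod_nonneg ((m : ℤ) * a) hqz.ne'
    have hnn' := Int.emod_nonneg ((m' : ℤ) * a) hqz.ne'
    have he3 : ((m : ℤ) * a) % q = ((m' : ℤ) * a) % q := by omega
    have hdvd : (q : ℤ) ∣ ((m : ℤ) - m') * a := by
      rw [sub_mul]
      exact Int.ModEq.dvd he3.symm
    have hdvd2 : (q : ℤ) ∣ ((m : ℤ) - m') := hcop.symm.dvd_of_dvd_mul_right hdvd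
    have hd1 := Nat.div_add_mod (m - 1) q
    have hd2 := Nat.div_add_mod (m' - 1) q
    have hl1 := Nat.mod_lt (m - 1) hq
    have hl2 := Nat.mod_lt (m' - 1) hq
    rw [he2] at hd1
    have habs : |(m : ℤ) - m'| < q := by
      rw [abs_lt]
      constructor <;> omega
    have := Int.eq_zero_of_abs_lt_dvd hdvd2 habs
    omega
  have hcount : #S ≤ #B * ((M - 1) / q + 1) := by
    have := card_le_card_of_injOn _ hmap hinj
    rwa [card_product, card_range] at this
  have hcount' : (#S : ℝ) ≤ (#B : ℝ) * (((M - 1) / q + 1 : ℕ) : ℝ) := by exact_mod_cast hcount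
  have hBc' : ((#B : ℕ) : ℝ) ≤ 2 * δ * q + 3 / 2 := by
    rw [hηq] at hBc; linarith
  have hq4 : (q : ℝ) ≤ 4 * M := by exact_mod_cast hr2
  have hqM : q ≤ M := by
    by_contra hlt
    push Not at hlt
    have h0 : (M - 1) / q = 0 := Nat.div_eq_of_lt (by omega)
    rw [h0] at hcount'
    push_cast at hcount'
    have h1 : κ * M ≤ 2 * δ * q + 3 / 2 := by linarith
    have h2 : 2 * δ * q ≤ 2 * (κ / 64) * (4 * M) := by gcongr
    nlinarith
  have hqM' : (q : ℝ) ≤ M := by exact_mod_cast hqM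
  have hblocks : (((M - 1) / q + 1 : ℕ) : ℝ) ≤ 2 * M / q := by
    push_cast
    have h1 : (((M - 1) / q : ℕ) : ℝ) ≤ ((M - 1 : ℕ) : ℝ) / q := Nat.cast_div_le
    have h2 : ((M - 1 : ℕ) : ℝ) / q ≤ (M : ℝ) / q := by
      gcongr; omega
    have h3 : (1 : ℝ) ≤ M / q := by rw [le_div_iff₀ hq']; linarith
    have h4 : 2 * (M : ℝ) / q = M / q + M / q := by ring
    linarith
  have hkq : κ ≤ 4 * δ + 3 / q := by
    have h1 : κ * M ≤ (2 * δ * q + 3 / 2) * (2 * M / q) := by
      calc κ * M ≤ (#B : ℝ) * (((M - 1) / q + 1 : ℕ) : ℝ) := hcard.trans hcount'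
        _ ≤ (2 * δ * q + 3 / 2) * (2 * M / q) := by gcongr
    have h2 : (2 * δ * q + 3 / 2) * (2 * M / q) = (4 * δ + 3 / q) * M := by
      field_simp; ring
    rw [h2] at h1
    exact le_of_mul_le_mul_right h1 hM0'
  have hkq2 : κ * (15 / 16) ≤ 3 / q := by linarith
  have hkq3 : κ * q ≤ 16 / 5 := by
    rw [le_div_iff₀ hq'] at hkq2
    linarith
  have hδq : δ * q ≤ 1 / 20 := by
    calc δ * q ≤ κ / 64 * q := by gcongr
      _ ≤ 1 / 20 := by linarith
  -- all elements of S are divisible by q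
  have hdiv : ∀ m ∈ S, q ∣ m := by
    intro m hm
    by_contra hnd
    have h1 : ¬ (q : ℤ) ∣ (m : ℤ) * a := by
      intro hd
      exact hnd (by exact_mod_cast hcop.symm.dvd_of_dvd_mul_right hd)
    have h2 := le_nd_div q hq _ h1
    have h3 := hclose m hm
    have h4 : 1 / (q : ℝ) ≤ η := by
      refine h2.trans ?_
      convert h3 using 2
    have h5 : 1 ≤ η * q := by rwa [div_le_iff₀ hq'] at h4
    rw [hηq] at h5
    linarith
  have hθS : ∀ m ∈ S, (m : ℝ) * |θ| ≤ δ := by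
    intro m hm
    obtain ⟨c, hc⟩ := hdiv m hm
    have h1 : (m : ℝ) * β = ((c * a : ℤ) : ℝ) + m * θ := by
      rw [hβ m]
      congr 1
      rw [hc]; push_cast; field_simp
    have h2 := h m hm
    rw [h1, nd_int_add] at h2
    have h3 := hθh m hm
    have hq1 : (1 : ℝ) ≤ q := by exact_mod_cast hq
    have h4 : 1 / (4 * (q : ℝ)) ≤ 1 / 2 := by
      apply one_div_le_one_div_of_le (by norm_num); linarith
    rw [nd_eq_of_abs_le (h3.trans h4), abs_mul, abs_of_nonneg (Nat.cast_nonneg m)] at h2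
    exact h2
  have hSne : S.Nonempty := by
    rw [nonempty_iff_ne_empty]
    intro he
    rw [he] at hcard
    simp at hcard
    linarith
  set m := S.max' hSne with hm
  have hmS : m ∈ S := S.max'_mem hSne
  have hmbig : q * #S ≤ m := by
    have hsub : S ⊆ (Icc 1 (m / q)).image (fun j => q * j) := by
      intro x hx
      obtain ⟨c, hc⟩ := hdiv x hx
      have hx1 := (mem_Icc.1 (hS hx)).1
      have hxm : x ≤ m := S.le_max' x hx
      rw [mem_image]
      refine ⟨c, ?_, hc.symm⟩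
      rw [mem_Icc]
      constructor
      · rcases Nat.eq_zero_or_pos c with h0 | h0
        · rw [h0] at hc; omega
        · exact h0
      · rw [Nat.le_div_iff_mul_le hq]; rw [hc] at hxm; linarith
    have h1 : #S ≤ m / q := by
      refine (card_le_card hsub).trans (card_image_le.trans ?_)
      simp
    calc q * #S ≤ q * (m / q) := Nat.mul_le_mul_left _ h1
      _ ≤ m := Nat.mul_div_le _ _
  have hmbig' : (q : ℝ) * (κ * M) ≤ m := by
    have h1 : ((q * #S : ℕ) : ℝ) ≤ m := by exact_mod_cast hmbig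
    push_cast at h1
    calc (q : ℝ) * (κ * M) ≤ q * #S := by gcongr
      _ ≤ m := h1
  refine ⟨q, hq, ?_, ?_⟩
  · rw [le_div_iff₀ hκ]; linarith
  · have h1 : nd ((q : ℝ) * β) ≤ q * |θ| := by
      have : (q : ℝ) * β = (a : ℝ) + q * θ := by rw [hθ]; field_simp; ring
      rw [this, nd_int_add]
      refine (nd_le_abs _).trans ?_
      rw [abs_mul, abs_of_pos hq']
    refine h1.trans ?_
    rw [le_div_iff₀ (by positivity)]
    calc (q : ℝ) * |θ| * (κ * M) = (q * (κ * M)) * |θ| := by ring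
      _ ≤ m * |θ| := by gcongr
      _ ≤ δ := hθS m hmS

end Pool.Agent.Lib.MP_663568_nt.Nul
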