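import Mathlib
import Pool.Agent.Lib.MP_663568_nul.Vino

set_option autoImplicit false
open Finset Polynomial

namespace Pool.Agent.Lib.MP_663568_nt.Nul

open Katai

namespace WeylInv

/-- The correlations. -/
noncomputable def T (u : ℕ → ℂ) (M h : ℕ) : ℂ :=
  ∑ m ∈ Icc 1 (M - h), u (m + h) * (starRingEnd ℂ) (u m)

lemma T_succ (u : ℕ → ℂ) (M h : ℕ) (hh : h ≤ M) :
    T u (M + 1) h = T u M h + u (M + 1) * (starRingEnd ℂ) (u (M + 1 - h)) := by
  unfold T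
  rw [show M + 1 - h = (M - h) + 1 by omega, sum_Icc_succ_top (by omega)]
  congr 2
  rw [show M - h + 1 + h = M + 1 by omega]

lemma sum_T_succ (u : ℕ → ℂ) (M : ℕ) :
    ∑ h ∈ Icc 1 M, T u (M + 1) h =
      ∑ h ∈ Icc 1 (M - 1), T u M h + u (M + 1) * (starRingEnd ℂ) (∑ m ∈ Icc 1 M, u m) := by
  have h1 : ∑ h ∈ Icc 1 M, T u (M + 1) h =
      ∑ h ∈ Icc 1 M, (T u M h + u (M + 1) * (starRingEnd ℂ) (u (M + 1 - h))) :=
    sum_congr rfl fun h hh => T_succ u M h (mem_Icc.1 hh).2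
  rw [h1, sum_add_distrib]
  congr 1
  · rcases Nat.eq_zero_or_pos M with rfl | hM
    · simp
    · obtain ⟨n, rfl⟩ : ∃ n, M = n + 1 := ⟨M - 1, by omega⟩
      rw [sum_Icc_succ_top (by omega), Nat.add_sub_cancel]
      have : T u (n + 1) (n + 1) = 0 := by
        unfold T
        rw [Nat.sub_self]
        simp
      rw [this, add_zero]
  · rw [map_sum, mul_sum]
    refine sum_nbij' (fun h => M + 1 - h) (fun h => M + 1 - h) ?_ ?_ ?_ ?_ ?_
    · intro h hh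
      rw [mem_Icc] at hh ⊢
      omega
    · intro h hh
      rw [mem_Icc] at hh ⊢
      omega
    · intro h hh
      rw [mem_Icc] at hh
      omega
    · intro h hh
      rw [mem_Icc] at hh
      omega
    · intro h hh
      rfl

lemma identity (u : ℕ → ℂ) (M : ℕ) :
    (∑ m ∈ Icc 1 M, u m) * (starRingEnd ℂ) (∑ m ∈ Icc 1 M, u m) =
      ∑ m ∈ Icc 1 M, u m * (starRingEnd ℂ) (u m) + (∑ h ∈ Icc 1 (M - 1), T u M h +
        (starRingEnd ℂ) (∑ h ∈ Icc 1 (M - 1), T u M h)) := by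
  induction M with
  | zero => simp
  | succ M ih =>
    rw [sum_Icc_succ_top (by omega), sum_Icc_succ_top (by omega), Nat.add_sub_cancel,
      sum_T_succ u M, map_add, map_add, map_mul, Complex.conj_conj]
    linear_combination ih

/-- Van der Corput's inequality. -/
lemma vdc (u : ℕ → ℂ) (hu : ∀ m, ‖u m‖ ≤ 1) (M : ℕ) :
    ‖∑ m ∈ Icc 1 M, u m‖ ^ 2 ≤ M + 2 * ∑ h ∈ Icc 1 (M - 1), ‖T u M h‖ := by
  have h1 : ‖∑ m ∈ Icc 1 M, u m‖ ^ 2 =
      ‖(∑ m ∈ Icc 1 M, u m) * (starRingEnd ℂ) (∑ m ∈ Icc 1 M, u m)‖ := by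
    rw [norm_mul, RCLike.norm_conj, sq]
  rw [h1, identity]
  have h2 : ‖∑ m ∈ Icc 1 M, u m * (starRingEnd ℂ) (u m)‖ ≤ M := by
    calc _ ≤ ∑ m ∈ Icc 1 M, ‖u m * (starRingEnd ℂ) (u m)‖ := norm_sum_le _ _
      _ ≤ ∑ m ∈ Icc 1 M, (1 : ℝ) := sum_le_sum fun m _ => by
          rw [norm_mul, RCLike.norm_conj]
          exact mul_le_one₀ (hu m) (norm_nonneg _) (hu m)
      _ = M := by simp
  have h3 : ‖∑ h ∈ Icc 1 (M - 1), T u M h‖ ≤ ∑ h ∈ Icc 1 (M - 1), ‖T u M h‖ := norm_sum_le _ _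
  calc _ ≤ ‖∑ m ∈ Icc 1 M, u m * (starRingEnd ℂ) (u m)‖ + ‖∑ h ∈ Icc 1 (M - 1), T u M h +
        (starRingEnd ℂ) (∑ h ∈ Icc 1 (M - 1), T u M h)‖ := norm_add_le _ _
    _ ≤ M + (‖∑ h ∈ Icc 1 (M - 1), T u M h‖ +
        ‖(starRingEnd ℂ) (∑ h ∈ Icc 1 (M - 1), T u M h)‖) := by
          gcongr
          exact norm_add_le _ _
    _ = M + 2 * ‖∑ h ∈ Icc 1 (M - 1), T u M h‖ := by
          rw [RCLike.norm_conj]; ring
    _ ≤ _ := by linarith

/-- Many large correlations. -/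
lemma many (u : ℕ → ℂ) (hu : ∀ m, ‖u m‖ ≤ 1) (M : ℕ) {ρ : ℝ} (hρ : 0 < ρ)
    (hM : 2 / ρ ^ 2 ≤ M) (h : ρ * M ≤ ‖∑ m ∈ Icc 1 M, u m‖) :
    ρ ^ 2 / 8 * M ≤ #((Icc 1 (M - 1)).filter fun h => ρ ^ 2 / 8 * M ≤ ‖T u M h‖) := by
  set H := (Icc 1 (M - 1)).filter fun h => ρ ^ 2 / 8 * M ≤ ‖T u M h‖ with hH
  have hρ2 : 0 < ρ ^ 2 := by positivity
  have hM0 : (0 : ℝ) < M := lt_of_lt_of_le (by positivity) hM
  have h1 := vdc u hu M
  have hT : ∀ h, ‖T u M h‖ ≤ M := by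
    intro h
    unfold T
    calc _ ≤ ∑ m ∈ Icc 1 (M - h), ‖u (m + h) * (starRingEnd ℂ) (u m)‖ := norm_sum_le _ _
      _ ≤ ∑ m ∈ Icc 1 (M - h), (1 : ℝ) := sum_le_sum fun m _ => by
          rw [norm_mul, RCLike.norm_conj]
          exact mul_le_one₀ (hu _) (norm_nonneg _) (hu m)
      _ = ((M - h : ℕ) : ℝ) := by simp
      _ ≤ M := by exact_mod_cast Nat.sub_le _ _
  have h2 : ∑ h ∈ Icc 1 (M - 1), ‖T u M h‖ ≤ #H * (M : ℝ) + ρ ^ 2 / 8 * M * M := by
    rw [← sum_filter_add_sum_filter_not (Icc 1 (M - 1)) fun h => ρ ^ 2 / 8 * M ≤ ‖T u M h‖]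
    apply add_le_add
    · calc _ ≤ ∑ h ∈ H, (M : ℝ) := sum_le_sum fun h _ => hT h
        _ = _ := by simp
    · calc _ ≤ ∑ h ∈ (Icc 1 (M - 1)).filter fun h => ¬ ρ ^ 2 / 8 * M ≤ ‖T u M h‖,
            ρ ^ 2 / 8 * M := sum_le_sum fun h hh => by
              rw [mem_filter] at hh
              exact (not_le.1 hh.2).le
        _ = #((Icc 1 (M - 1)).filter fun h => ¬ ρ ^ 2 / 8 * M ≤ ‖T u M h‖) *
            (ρ ^ 2 / 8 * M) := by simp
        _ ≤ M * (ρ ^ 2 / 8 * M) := by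
            gcongr
            calc _ ≤ #(Icc 1 (M - 1)) := card_filter_le _ _
              _ = M - 1 := by simp
              _ ≤ M := Nat.sub_le _ _
        _ = _ := by ring
  have h3 : (ρ * M) ^ 2 ≤ ‖∑ m ∈ Icc 1 M, u m‖ ^ 2 := by
    gcongr
  rw [div_le_iff₀ hρ2] at hM
  have h4 : (ρ * M) ^ 2 ≤ M + 2 * (#H * (M : ℝ) + ρ ^ 2 / 8 * M * M) := by linarith
  have h5 : ρ ^ 2 * M ≤ 1 + 2 * (#H + ρ ^ 2 / 8 * M) := by
    have : (ρ ^ 2 * M) * M ≤ (1 + 2 * (#H + ρ ^ 2 / 8 * M)) * M := by nlinarith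
    exact le_of_mul_le_mul_right this hM0
  nlinarith

/-- The polynomial `P(X + h) - P(X)`. -/
lemma diff_poly (P : ℝ[X]) (t : ℕ) (hP : P.natDegree ≤ t + 1) (h : ℕ) :
    (P.comp (X + C (h : ℝ)) - P).natDegree ≤ t ∧
      (P.comp (X + C (h : ℝ)) - P).coeff t = (t + 1) * h * P.coeff (t + 1) := by
  constructor
  · rw [natDegree_le_iff_coeff_eq_zero]
    intro N hN
    rw [coeff_sub]
    rcases Nat.lt_or_ge (t + 1) N with h' | h'
    · rw [coeff_eq_zero_of_natDegree_lt, coeff_eq_zero_of_natDegree_lt, sub_zero]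
      · exact hP.trans_lt h'
      · exact (natDegree_shift P _ hP _).trans_lt h'
    · have : N = t + 1 := by omega
      rw [this, coeff_shift_top P _ hP, sub_self]
  · rw [coeff_sub, coeff_shift_next P t hP]
    ring

lemma T_eq (P : ℝ[X]) (M h : ℕ) :
    T (fun m => ee (P.eval (m : ℝ))) M h =
      ∑ m ∈ Icc 1 (M - h), ee ((P.comp (X + C (h : ℝ)) - P).eval (m : ℝ)) := by
  unfold T
  refine sum_congr rfl fun m _ => ?_
  rw [← ee_sub]
  congr 1
  simp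

/-- A constant value on a large part of a set. -/
lemma pigeon {H : Finset ℕ} {f : ℕ → ℕ} {Q : ℝ} (hQ : 0 < Q) (hf : ∀ h ∈ H, 1 ≤ f h ∧ (f h : ℝ) ≤ Q)
    (hH : H.Nonempty) : ∃ q : ℕ, 1 ≤ q ∧ (q : ℝ) ≤ Q ∧ (#H : ℝ) / Q ≤ #(H.filter fun h => f h = q) := by
  by_contra hne
  push Not at hne
  have h1 : #H = ∑ q ∈ Icc 1 ⌊Q⌋₊, #(H.filter fun h => f h = q) := by
    apply card_eq_sum_card_fiberwise
    intro h hh
    rw [Finset.mem_coe, mem_Icc]
    exact ⟨(hf h hh).1, Nat.le_floor (hf h hh).2⟩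
  obtain ⟨h0, hh0⟩ := hH
  have hne2 : (Icc 1 ⌊Q⌋₊).Nonempty := ⟨f h0, mem_Icc.2 ⟨(hf h0 hh0).1, Nat.le_floor (hf h0 hh0).2⟩⟩
  have h2 : (#H : ℝ) < ∑ q ∈ Icc 1 ⌊Q⌋₊, (#H : ℝ) / Q := by
    conv_lhs => rw [h1]
    push_cast
    refine sum_lt_sum_of_nonempty hne2 fun q hq => ?_
    rw [mem_Icc] at hq
    exact hne q hq.1 ((Nat.cast_le.2 hq.2).trans (Nat.floor_le hQ.le))
  have h3 : ∑ q ∈ Icc 1 ⌊Q⌋₊, (#H : ℝ) / Q ≤ #H := by
    rw [sum_const, Nat.card_Icc, Nat.add_sub_cancel, nsmul_eq_mul]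
    calc (⌊Q⌋₊ : ℝ) * (#H / Q) ≤ Q * (#H / Q) := by
          gcongr
          exact Nat.floor_le hQ.le
      _ = #H := by field_simp
  linarith

end WeylInv

open WeylInv in
/-- **Inverse Weyl theorem** with polynomial bounds. -/
theorem weyl_inverse (t : ℕ) (ht : 1 ≤ t) : ∃ C : ℕ, 1 ≤ C ∧ ∀ (ρ : ℝ) (M : ℕ) (P : ℝ[X]),
    0 < ρ → ρ ≤ 1 / 2 → (1 / ρ) ^ C ≤ (M : ℝ) → P.natDegree ≤ t →
    ρ * M ≤ ‖∑ m ∈ Icc 1 M, ee (P.eval (m : ℝ))‖ →
    ∃ q : ℕ, 1 ≤ q ∧ (q : ℝ) ≤ (1 / ρ) ^ C ∧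
      nd ((q : ℝ) * P.coeff t) ≤ (1 / ρ) ^ C / (M : ℝ) ^ t := by
  induction t, ht using Nat.le_induction with
  | base =>
    refine ⟨1, le_rfl, fun ρ M P hρ hρ2 hM hP hS => ⟨1, le_rfl, ?_, ?_⟩⟩
    · rw [pow_one, Nat.cast_one, le_div_iff₀ hρ]
      linarith
    · have hM0 : (0 : ℝ) < M := lt_of_lt_of_le (by positivity) hM
      have h1 : ∀ x : ℝ, P.eval x = P.coeff 1 * x + P.coeff 0 := by
        intro x
        rw [eval_eq_sum_range' (n := 2) (by omega)]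
        simp [sum_range_succ]; ring
      simp only [h1] at hS
      have h2 := geom_bound (P.coeff 1) (P.coeff 0) M
      have h3 := nd_le_norm_one_sub_ee (P.coeff 1)
      have h4 : 4 * nd (P.coeff 1) * (ρ * M) ≤ 2 :=
        (mul_le_mul h3 hS (by positivity) (norm_nonneg _)).trans h2
      rw [Nat.cast_one, one_mul, pow_one, pow_one, div_div, le_div_iff₀ (by positivity)]
      linarith
  | succ t ht ih =>
    obtain ⟨C, hC1, hC⟩ := ih
    refine ⟨5 * (2 * C + t + 3), by omega, fun ρ M P hρ hρ2 hM hP hS => ?_⟩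
    -- notation
    set Y : ℝ := 8 / ρ ^ 2 with hY
    have hρi : 2 ≤ 1 / ρ := by
      rw [le_div_iff₀ hρ]; linarith
    have hY32 : 32 ≤ Y := by
      rw [hY, le_div_iff₀ (by positivity)]
      nlinarith
    have hY0 : 0 < Y := by linarith
    have hY5 : Y ≤ (1 / ρ) ^ 5 := by
      have : Y = 8 * (1 / ρ) ^ 2 := by rw [hY]; field_simp
      rw [this, show (1 / ρ) ^ 5 = (1 / ρ) ^ 3 * (1 / ρ) ^ 2 by ring]
      gcongr
      calc (8 : ℝ) = 2 ^ 3 := by norm_num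
        _ ≤ (1 / ρ) ^ 3 := by gcongr
    have hYpow : ∀ n : ℕ, n ≤ 2 * C + t + 3 → Y ^ n ≤ (1 / ρ) ^ (5 * (2 * C + t + 3)) := by
      intro n hn
      calc Y ^ n ≤ Y ^ (2 * C + t + 3) := pow_le_pow_right₀ (by linarith) hn
        _ ≤ ((1 / ρ) ^ 5) ^ (2 * C + t + 3) := by gcongr
        _ = _ := by rw [← pow_mul]
    have hYM : ∀ n : ℕ, n ≤ 2 * C + t + 3 → Y ^ n ≤ M := fun n hn => (hYpow n hn).trans hM
    have hM0 : (0 : ℝ) < M := lt_of_lt_of_le (by positivity) hM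
    have hMp : ∀ n : ℕ, (0 : ℝ) < (M : ℝ) ^ n := fun n => by positivity
    have hρY : ρ ^ 2 / 8 = 1 / Y := by rw [hY]; field_simp
    -- many correlations
    set u : ℕ → ℂ := fun m => ee (P.eval (m : ℝ)) with hu
    have hmany := many u (fun m => (norm_ee _).le) M hρ (by
      calc 2 / ρ ^ 2 ≤ 8 / ρ ^ 2 := by gcongr; norm_num
        _ = Y ^ 1 := by rw [hY, pow_one]
        _ ≤ M := hYM 1 (by omega)) hS
    rw [hρY] at hmany
    set H := (Icc 1 (M - 1)).filter fun h => 1 / Y * M ≤ ‖T u M h‖ with hH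
    have hHne : H.Nonempty := by
      rw [← card_pos]
      have : (0 : ℝ) < #H := lt_of_lt_of_le (by positivity) hmany
      exact_mod_cast this
    -- the induction hypothesis
    have hex : ∀ h ∈ H, ∃ q : ℕ, 1 ≤ q ∧ (q : ℝ) ≤ Y ^ C ∧
        nd ((q : ℝ) * ((t + 1) * h * P.coeff (t + 1))) ≤ Y ^ (C + t) / (M : ℝ) ^ t := by
      intro h hh
      rw [hH, mem_filter, mem_Icc] at hh
      obtain ⟨⟨hh1, hh2⟩, hh3⟩ := hh
      obtain ⟨hd1, hd2⟩ := diff_poly P t hP h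
      have hTM : ‖T u M h‖ ≤ ((M - h : ℕ) : ℝ) := by
        unfold T
        calc _ ≤ ∑ m ∈ Icc 1 (M - h), ‖u (m + h) * (starRingEnd ℂ) (u m)‖ := norm_sum_le _ _
          _ = ∑ m ∈ Icc 1 (M - h), (1 : ℝ) := sum_congr rfl fun m _ => by
              rw [norm_mul, RCLike.norm_conj, hu]
              simp only [norm_ee, mul_one]
          _ = ((M - h : ℕ) : ℝ) := by simp
      have hM' : 1 / Y * M ≤ ((M - h : ℕ) : ℝ) := hh3.trans hTM
      have hM'0 : (0 : ℝ) < ((M - h : ℕ) : ℝ) := lt_of_lt_of_le (by positivity) hM'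
      obtain ⟨q, hq1, hq2, hq3⟩ := hC (1 / Y) (M - h) (P.comp (X + Polynomial.C (h : ℝ)) - P)
        (by positivity) (by
          rw [div_le_div_iff₀ hY0 (by norm_num)]
          linarith) (by
          rw [one_div_one_div]
          refine le_trans ?_ hM'
          rw [one_div, le_inv_mul_iff₀ hY0, ← pow_succ']
          exact hYM _ (by omega)) hd1 (by
          have h1 := T_eq P M h
          rw [← hu] at h1
          rw [← h1]
          refine le_trans ?_ hh3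
          gcongr
          exact_mod_cast Nat.sub_le _ _)
      rw [one_div_one_div] at hq2 hq3
      rw [hd2] at hq3
      refine ⟨q, hq1, hq2, hq3.trans ?_⟩
      rw [div_le_div_iff₀ (by positivity) (hMp t), pow_add, mul_assoc]
      gcongr
      rw [← mul_pow]
      gcongr
      rw [one_div, inv_mul_le_iff₀ hY0] at hM'
      exact hM'
    choose! f hf1 hf2 hf3 using hex
    obtain ⟨q, hq1, hq2, hq3⟩ := pigeon (H := H) (f := f) (Q := Y ^ C) (by positivity)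
      (fun h hh => ⟨hf1 h hh, hf2 h hh⟩) hHne
    set S := H.filter fun h => f h = q with hSdef
    -- Vinogradov's lemma
    have hκ : (1 / Y) ^ (C + 1) * M ≤ #S := by
      refine le_trans ?_ hq3
      rw [le_div_iff₀ (by positivity)]
      refine le_trans (le_of_eq ?_) hmany
      rw [one_div, inv_pow, pow_succ]
      field_simp
    obtain ⟨q', hq'1, hq'2, hq'3⟩ := vino ((q : ℝ) * (t + 1) * P.coeff (t + 1))
      ((1 / Y) ^ (C + 1)) (Y ^ (C + t) / (M : ℝ) ^ t) M S (by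
        intro h hh
        rw [hSdef, mem_filter, hH, mem_filter, mem_Icc] at hh
        rw [mem_Icc]
        omega) (by positivity) (by
        rw [one_div, inv_pow, le_inv_mul_iff₀ (by positivity)]
        calc Y ^ (C + 1) * 4 ≤ Y ^ (C + 1) * Y := by gcongr; linarith
          _ = Y ^ (C + 2) := by ring
          _ ≤ M := hYM _ (by omega)) (by positivity) (by
        rw [div_le_div_iff₀ (hMp t) (by norm_num), one_div, inv_pow, ← div_eq_inv_mul,
          le_div_iff₀ (by positivity)]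
        calc Y ^ (C + t) * 64 * Y ^ (C + 1) ≤ Y ^ (C + t) * Y ^ 2 * Y ^ (C + 1) := by
              gcongr
              nlinarith
          _ = Y ^ (2 * C + t + 3) := by ring
          _ ≤ M := hYM _ le_rfl
          _ = (M : ℝ) ^ 1 := (pow_one _).symm
          _ ≤ (M : ℝ) ^ t := by
              apply pow_le_pow_right₀ _ ht
              calc (1 : ℝ) = Y ^ 0 := (pow_zero _).symm
                _ ≤ M := hYM 0 (by omega)) hκ (by
        intro h hh
        rw [hSdef, mem_filter] at hh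
        have := hf3 h hh.1
        rw [hh.2] at this
        rw [show (h : ℝ) * ((q : ℝ) * (t + 1) * P.coeff (t + 1)) =
          (q : ℝ) * ((t + 1) * h * P.coeff (t + 1)) by ring]
        exact this)
    refine ⟨q' * (q * (t + 1)), Nat.succ_le_of_lt (by positivity), ?_, ?_⟩
    · have ht2 : ((t : ℝ) + 1) ≤ Y ^ t := by
        have h1 : t + 1 ≤ 2 ^ t := Nat.lt_two_pow_self
        calc ((t : ℝ) + 1) ≤ 2 ^ t := by exact_mod_cast h1
          _ ≤ Y ^ t := by gcongr; linarith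
      push_cast
      calc (q' : ℝ) * (q * (t + 1)) ≤ (6 / (1 / Y) ^ (C + 1)) * (Y ^ C * Y ^ t) := by gcongr
        _ = 6 * Y ^ (2 * C + t + 1) := by
            rw [one_div, inv_pow]
            field_simp
            ring
        _ ≤ Y * Y ^ (2 * C + t + 1) := by gcongr; linarith
        _ = Y ^ (2 * C + t + 2) := by ring
        _ ≤ _ := hYpow _ (by omega)
    · push_cast
      rw [show (q' : ℝ) * (q * (t + 1)) * P.coeff (t + 1) =
        q' * ((q : ℝ) * (t + 1) * P.coeff (t + 1)) by ring]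
      refine hq'3.trans ?_
      rw [div_div, div_le_div_iff₀ (by positivity) (hMp _)]
      calc Y ^ (C + t) * (M : ℝ) ^ (t + 1) = Y ^ (2 * C + t + 1) * ((M : ℝ) ^ t *
            ((1 / Y) ^ (C + 1) * M)) := by
            rw [one_div, inv_pow]
            field_simp
            ring
        _ ≤ (1 / ρ) ^ (5 * (2 * C + t + 3)) * ((M : ℝ) ^ t * ((1 / Y) ^ (C + 1) * M)) := by
            gcongr
            exact hYpow _ (by omega)

end Pool.Agent.Lib.MP_663568_nt.Nul
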