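import Mathlib
import Pool.Agent.Lib.MP_663568_nul.WeylInv
import Pool.Agent.Lib.MP_663568_nt.Poly
import Pool.Agent.Lib.MP_927447_nt.DivBound

set_option autoImplicit false
open Finset Polynomial

namespace Pool.Agent.Lib.MP_663568_nt.Nul

open Katai

namespace U56

/-- the conclusion of the inverse Weyl theorem, with exponent `C` -/
def WI (t C : ℕ) : Prop := ∀ (ρ : ℝ) (M : ℕ) (P : ℝ[X]),
    0 < ρ → ρ ≤ 1 / 2 → (1 / ρ) ^ C ≤ (M : ℝ) → P.natDegree ≤ t →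
    ρ * M ≤ ‖∑ m ∈ Icc 1 M, ee (P.eval (m : ℝ))‖ →
    ∃ q : ℕ, 1 ≤ q ∧ (q : ℝ) ≤ (1 / ρ) ^ C ∧
      nd ((q : ℝ) * P.coeff t) ≤ (1 / ρ) ^ C / (M : ℝ) ^ t

theorem sum_Icc_eq (F : ℕ → ℂ) (M : ℕ) : ∑ m ∈ Icc 1 M, F m = ∑ i ∈ range M, F (i + 1) := by
  rw [range_eq_Ico, sum_Ico_add' F 0 M 1]
  refine sum_congr ?_ fun _ _ => rfl
  ext x
  simp only [mem_Icc, mem_Ico]
  omega

/-- sums over several periods -/
theorem sum_period (F : ℕ → ℂ) (N : ℕ) (hF : ∀ m, F (m + N) = F m) (T : ℕ) :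
    ∑ m ∈ Icc 1 (T * N), F m = T * ∑ m ∈ Icc 1 N, F m := by
  rw [sum_Icc_eq, sum_Icc_eq]
  have hF' : ∀ T m, F (T * N + m) = F m := by
    intro T
    induction T with
    | zero => intro m; rw [zero_mul, zero_add]
    | succ T ih =>
      intro m
      rw [add_mul, one_mul, show T * N + N + m = T * N + m + N by ring, hF, ih]
  induction T with
  | zero => simp
  | succ T ih =>
    rw [add_mul, one_mul, sum_range_add, ih]
    have h : ∑ x ∈ range N, F (T * N + x + 1) = ∑ x ∈ range N, F (x + 1) :=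
      sum_congr rfl fun x _ => by rw [add_assoc]; exact hF' T (x + 1)
    rw [h]
    push_cast
    ring

theorem ee_add_int (x : ℝ) (n : ℤ) : ee (x + n) = ee x := by
  rw [ee_add, ee_int, mul_one]

/-- the phases along the multiples of `d` are periodic with period `q / d` -/
theorem period (t q d : ℕ) (hq : 0 < q) (hd : d ∣ q) (c : ℤ) (m : ℕ) :
    ee ((c : ℝ) * ((d : ℝ) * ((m + q / d : ℕ) : ℝ)) ^ t / q)
      = ee ((c : ℝ) * ((d : ℝ) * (m : ℝ)) ^ t / q) := by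
  obtain ⟨e, he⟩ := hd
  have hd0 : 0 < d := Nat.pos_of_ne_zero fun h => by rw [h, zero_mul] at he; omega
  have hqd : q / d = e := by rw [he]; exact Nat.mul_div_cancel_left e hd0
  have h1 : (q : ℤ) ∣ ((d : ℤ) * m + q) ^ t - ((d : ℤ) * m) ^ t := by
    have := sub_dvd_pow_sub_pow ((d : ℤ) * m + q) ((d : ℤ) * m) t
    rwa [add_sub_cancel_left] at this
  obtain ⟨z, hz⟩ := h1
  have hz' : ((d : ℝ) * m + q) ^ t - ((d : ℝ) * m) ^ t = q * z := by
    have := congrArg (fun x : ℤ => (x : ℝ)) hz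
    push_cast at this
    exact this
  have hq' : (q : ℝ) ≠ 0 := by positivity
  rw [hqd]
  have h2 : (c : ℝ) * ((d : ℝ) * ((m + e : ℕ) : ℝ)) ^ t / q
      = (c : ℝ) * ((d : ℝ) * (m : ℝ)) ^ t / q + ((c * z : ℤ) : ℝ) := by
    have h3 : (d : ℝ) * ((m + e : ℕ) : ℝ) = (d : ℝ) * m + q := by
      rw [he]; push_cast; ring
    rw [h3]
    have h4 : ((d : ℝ) * m + q) ^ t = ((d : ℝ) * m) ^ t + q * z := by linarith
    rw [h4]
    push_cast
    field_simp
  rw [h2, ee_add_int]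

/-- the inner sums -/
theorem inner_bound (t : ℕ) (ht : 1 ≤ t) (C : ℕ) (hW : WI t C) (q d : ℕ) (hq : 0 < q)
    (hd : d ∣ q) (a k : ℤ) (ha : IsCoprime a (q : ℤ)) (hk : k ≠ 0) (ρ : ℝ) (hρ : 0 < ρ)
    (hρ2 : ρ ≤ 1 / 2) (hcond : (1 / ρ) ^ C * |(k : ℝ)| * (d : ℝ) ^ t < q) :
    ‖∑ m ∈ Icc 1 (q / d), ee (((k * a : ℤ) : ℝ) * ((d : ℝ) * (m : ℝ)) ^ t / q)‖
      ≤ ρ * ((q / d : ℕ) : ℝ) := by
  by_contra hcon
  push Not at hcon
  have hd0 : 0 < d := Nat.pos_of_dvd_of_pos hd hq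
  have hN : 1 ≤ q / d := Nat.div_pos (Nat.le_of_dvd hq hd) hd0
  set N := q / d with hNdef
  have hq' : (0 : ℝ) < q := by exact_mod_cast hq
  have hC0 : 0 < (1 / ρ) ^ C := by positivity
  obtain ⟨T, hT⟩ := exists_nat_gt ((q : ℝ) * (1 / ρ) ^ C + (1 / ρ) ^ C + 1)
  have hT1 : (1 : ℝ) ≤ T := by nlinarith [mul_pos hq' hC0]
  have hTN : (T : ℝ) ≤ (T * N : ℕ) := by
    push_cast
    have : (1 : ℝ) ≤ N := by exact_mod_cast hN
    nlinarith
  set g : ℝ := ((k * a : ℤ) : ℝ) * (d : ℝ) ^ t / q with hg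
  set P : ℝ[X] := Polynomial.C g * X ^ t with hP
  have heval : ∀ m : ℕ, P.eval (m : ℝ) = ((k * a : ℤ) : ℝ) * ((d : ℝ) * (m : ℝ)) ^ t / q := by
    intro m
    rw [hP, eval_mul, eval_C, eval_pow, eval_X, hg, mul_pow]
    ring
  have hsum : ∑ m ∈ Icc 1 (T * N), ee (P.eval (m : ℝ))
      = T * ∑ m ∈ Icc 1 N, ee (((k * a : ℤ) : ℝ) * ((d : ℝ) * (m : ℝ)) ^ t / q) := by
    simp only [heval]
    exact sum_period (fun m : ℕ => ee (((k * a : ℤ) : ℝ) * ((d : ℝ) * (m : ℝ)) ^ t / q)) N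
      (fun m => period t q d hq hd (k * a) m) T
  obtain ⟨r, hr1, hr2, hr3⟩ := hW ρ (T * N) P hρ hρ2
    (by nlinarith [mul_pos hq' hC0]) (natDegree_C_mul_X_pow_le g t) (by
      rw [hsum, norm_mul, Complex.norm_natCast]
      have h0 : ρ * ((T * N : ℕ) : ℝ) = T * (ρ * N) := by push_cast; ring
      rw [h0]
      exact mul_le_mul_of_nonneg_left hcon.le (by positivity))
  have hcoeff : P.coeff t = g := by
    rw [hP, coeff_C_mul, coeff_X_pow, if_pos rfl, mul_one]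
  rw [hcoeff] at hr3
  -- the distance is below `1 / q`
  have h1 : (1 / ρ) ^ C / ((T * N : ℕ) : ℝ) ^ t < 1 / q := by
    have h2 : ((T * N : ℕ) : ℝ) ≤ ((T * N : ℕ) : ℝ) ^ t :=
      le_self_pow₀ (hT1.trans hTN) (by omega)
    rw [div_lt_div_iff₀ (by linarith) hq']
    nlinarith [mul_pos hq' hC0]
  have h2 : (r : ℝ) * g = (((r : ℤ) * (k * a) * (d : ℤ) ^ t : ℤ) : ℝ) / q := by
    rw [hg]; push_cast; ring
  rw [h2] at hr3
  have h3 : (q : ℤ) ∣ (r : ℤ) * (k * a) * (d : ℤ) ^ t := by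
    by_contra hno
    have := le_nd_div q hq _ hno
    linarith
  have h4 : (q : ℤ) ∣ (r : ℤ) * k * (d : ℤ) ^ t := by
    have h5 : (q : ℤ) ∣ a * ((r : ℤ) * k * (d : ℤ) ^ t) := by
      convert h3 using 1; ring
    exact (IsCoprime.dvd_of_dvd_mul_left ha.symm h5)
  have h5 : (r : ℤ) * k * (d : ℤ) ^ t ≠ 0 := by
    have : (r : ℤ) ≠ 0 := by exact_mod_cast (by omega : r ≠ 0)
    have : (d : ℤ) ≠ 0 := by exact_mod_cast hd0.ne'
    positivity
  have h6 : (q : ℤ) ≤ |(r : ℤ) * k * (d : ℤ) ^ t| :=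
    Int.le_of_dvd (abs_pos.2 h5) ((dvd_abs _ _).2 h4)
  have h7 : (q : ℝ) ≤ r * |(k : ℝ)| * (d : ℝ) ^ t := by
    have : ((q : ℤ) : ℝ) ≤ ((|(r : ℤ) * k * (d : ℤ) ^ t| : ℤ) : ℝ) := by exact_mod_cast h6
    push_cast at this
    rw [abs_mul, abs_mul, Nat.abs_cast, abs_pow, Nat.abs_cast] at this
    exact this
  have h8 : (r : ℝ) * |(k : ℝ)| * (d : ℝ) ^ t ≤ (1 / ρ) ^ C * |(k : ℝ)| * (d : ℝ) ^ t := by
    gcongr
  linarith

/-- detecting coprimality -/
theorem sum_moebius_gcd {b q : ℕ} (hb : b ≠ 0) (hq : q ≠ 0) :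
    ∑ d ∈ q.divisors, (if d ∣ b then ((ArithmeticFunction.moebius d : ℤ) : ℂ) else 0)
      = if Nat.Coprime b q then 1 else 0 := by
  have h1 : q.divisors.filter (fun d => d ∣ b) = (Nat.gcd b q).divisors := by
    ext d
    rw [mem_filter, Nat.mem_divisors, Nat.mem_divisors, Nat.dvd_gcd_iff]
    have : Nat.gcd b q ≠ 0 := fun h => hb (Nat.gcd_eq_zero_iff.1 h).1
    tauto
  rw [← sum_filter, h1]
  have h2 : ∑ d ∈ (Nat.gcd b q).divisors, ArithmeticFunction.moebius d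
      = if Nat.gcd b q = 1 then 1 else 0 := by
    have h3 := ArithmeticFunction.coe_zeta_mul_moebius
    have h4 := congrArg (fun f : ArithmeticFunction ℤ => f (Nat.gcd b q)) h3
    simp only [ArithmeticFunction.coe_zeta_mul_apply, ArithmeticFunction.one_apply] at h4
    exact h4
  have h5 := congrArg (fun x : ℤ => (x : ℂ)) h2
  beta_reduce at h5
  push_cast at h5
  rw [h5]

/-- sums over reduced residues in terms of sums over multiples -/
theorem norm_sum_coprime_le (F : ℕ → ℂ) (q : ℕ) (hq : 2 ≤ q) :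
    ‖∑ b ∈ (range q).filter (fun b => Nat.Coprime b q), F b‖
      ≤ ∑ d ∈ q.divisors, ‖∑ m ∈ Icc 1 (q / d), F (d * m)‖ := by
  have hq0 : q ≠ 0 := by omega
  have h1 : (range q).filter (fun b => Nat.Coprime b q)
      = (Icc 1 q).filter (fun b => Nat.Coprime b q) := by
    ext b
    simp only [mem_filter, mem_range, mem_Icc]
    constructor
    · rintro ⟨h1, h2⟩
      refine ⟨⟨?_, h1.le⟩, h2⟩
      rcases Nat.eq_zero_or_pos b with h | h
      · rw [h, Nat.coprime_zero_left] at h2; omega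
      · exact h
    · rintro ⟨⟨h1, h2⟩, h3⟩
      refine ⟨lt_of_le_of_ne h2 fun h => ?_, h3⟩
      rw [h, Nat.coprime_self] at h3; omega
  have h2 : ∑ b ∈ (Icc 1 q).filter (fun b => Nat.Coprime b q), F b
      = ∑ d ∈ q.divisors, ((ArithmeticFunction.moebius d : ℤ) : ℂ)
        * ∑ m ∈ Icc 1 (q / d), F (d * m) := by
    have h3 : ∀ b ∈ Icc 1 q, (if Nat.Coprime b q then F b else 0)
        = ∑ d ∈ q.divisors, (if d ∣ b then
          ((ArithmeticFunction.moebius d : ℤ) : ℂ) * F b else 0) := by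
      intro b hb
      have hb0 : b ≠ 0 := by have := (mem_Icc.1 hb).1; omega
      have h4 := sum_moebius_gcd hb0 hq0
      have h5 : ∀ d ∈ q.divisors, (if d ∣ b then
          ((ArithmeticFunction.moebius d : ℤ) : ℂ) * F b else 0)
          = (if d ∣ b then ((ArithmeticFunction.moebius d : ℤ) : ℂ) else 0) * F b := by
        intro d _
        split_ifs <;> simp
      rw [sum_congr rfl h5, ← sum_mul, h4]
      split_ifs <;> simp
    rw [sum_filter, sum_congr rfl h3, sum_comm]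
    refine sum_congr rfl fun d hd => ?_
    obtain ⟨hd1, _⟩ := Nat.mem_divisors.1 hd
    have hd0 : 0 < d := Nat.pos_of_dvd_of_pos hd1 (by omega)
    rw [← sum_filter, mul_sum]
    symm
    refine sum_nbij' (fun m => d * m) (fun b => b / d) ?_ ?_ ?_ ?_ ?_
    · intro m hm
      rw [mem_Icc] at hm
      rw [mem_filter, mem_Icc]
      refine ⟨⟨Nat.mul_pos hd0 hm.1, ?_⟩, Dvd.intro m rfl⟩
      calc d * m ≤ d * (q / d) := Nat.mul_le_mul_left d hm.2
        _ ≤ q := Nat.mul_div_le q d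
    · intro b hb
      rw [mem_filter, mem_Icc] at hb
      rw [mem_Icc]
      exact ⟨Nat.div_pos (Nat.le_of_dvd (by omega) hb.2) hd0, Nat.div_le_div_right hb.1.2⟩
    · intro m _
      exact Nat.mul_div_cancel_left m hd0
    · intro b hb
      rw [mem_filter] at hb
      exact Nat.mul_div_cancel' hb.2
    · intro m _
      rfl
  rw [h1, h2]
  refine (norm_sum_le _ _).trans (sum_le_sum fun d _ => ?_)
  rw [norm_mul]
  have h6 : ‖((ArithmeticFunction.moebius d : ℤ) : ℂ)‖ ≤ 1 := by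
    rw [Complex.norm_intCast]
    exact_mod_cast ArithmeticFunction.abs_moebius_le_one
  calc _ ≤ 1 * ‖∑ m ∈ Icc 1 (q / d), F (d * m)‖ := by gcongr
    _ = _ := one_mul _

/-- `q ≤ τ(q) φ(q)` -/
theorem le_card_mul_totient (q : ℕ) (hq : q ≠ 0) : q ≤ q.divisors.card * Nat.totient q := by
  conv_lhs => rw [← Nat.sum_totient q]
  calc ∑ d ∈ q.divisors, Nat.totient d ≤ ∑ _d ∈ q.divisors, Nat.totient q :=
        sum_le_sum fun d hd => Nat.le_of_dvd (Nat.totient_pos.2 (Nat.pos_of_ne_zero hq))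
          (Nat.totient_dvd_of_dvd (Nat.mem_divisors.1 hd).1)
    _ = _ := by rw [sum_const, smul_eq_mul]

theorem exists_root (s : ℕ) (q : ℕ) (hq : 1 ≤ q) (hs : 1 ≤ s) :
    ∃ D : ℕ, 1 ≤ D ∧ D ^ s ≤ q ∧ q < (D + 1) ^ s := by
  have hex : ∃ n : ℕ, q < (n + 1) ^ s :=
    ⟨q, (Nat.lt_succ_self q).trans_le (Nat.le_self_pow (by omega) _)⟩
  classical
  obtain ⟨n, hn, hmin⟩ : ∃ n, q < (n + 1) ^ s ∧ ∀ m < n, ¬ q < (m + 1) ^ s :=
    ⟨Nat.find hex, Nat.find_spec hex, fun m hm => Nat.find_min hex hm⟩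
  have hn1 : 1 ≤ n := by
    by_contra h
    have h0 : n = 0 := by omega
    rw [h0, zero_add, one_pow] at hn
    omega
  refine ⟨n, hn1, ?_, hn⟩
  have h := hmin (n - 1) (by omega)
  rw [Nat.sub_add_cancel hn1] at h
  exact not_lt.1 h

theorem norm_sum_ee_le (f : ℕ → ℝ) (s : Finset ℕ) : ‖∑ m ∈ s, ee (f m)‖ ≤ s.card := by
  refine (norm_sum_le _ _).trans ?_
  simp [norm_ee]

/-- the complete sums over reduced residues are small -/
theorem char_bound (t : ℕ) (ht : 1 ≤ t) (K : ℕ) (ε : ℝ) (hε : 0 < ε) :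
    ∃ q₀ : ℕ, ∀ q : ℕ, q₀ ≤ q → ∀ a : ℤ, IsCoprime a (q : ℤ) → ∀ k : ℤ, k ≠ 0 →
      |(k : ℝ)| ≤ K →
      ‖∑ b ∈ (range q).filter (fun b => Nat.Coprime b q), ee ((k : ℝ) * ((a : ℝ) * (b : ℝ) ^ t / q))‖
        ≤ ε * Nat.totient q := by
  obtain ⟨C, hC1, hW⟩ := weyl_inverse t ht
  obtain ⟨r, hr⟩ : ∃ r, r = C + t := ⟨_, rfl⟩
  obtain ⟨C', hC'0, hdiv⟩ :=
    Pool.Agent.Lib.MP_927447_nt.card_divisors_pow_le (8 * r) (by omega)
  obtain ⟨D₀, hD₀⟩ := exists_nat_gt ((C' : ℝ) * 2 ^ (2 * r) / ε ^ (4 * r))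
  refine ⟨(D₀ + 2) ^ (2 * r) + K ^ 2 + 2, fun q hq a ha k hk hkK => ?_⟩
  have hpow : 1 ≤ (D₀ + 2) ^ (2 * r) := Nat.one_le_pow _ _ (by omega)
  have hq2 : 2 ≤ q := by omega
  have hq0 : (0 : ℝ) < q := by positivity
  obtain ⟨D, hD1, hDq, hqD⟩ := exists_root (2 * r) q (by omega) (by omega)
  have hDD : D₀ + 2 ≤ D := by
    by_contra h
    have h1 : (D + 1) ^ (2 * r) ≤ (D₀ + 2) ^ (2 * r) := Nat.pow_le_pow_left (by omega) _
    omega
  have hD0 : (0 : ℝ) < D := by exact_mod_cast hD1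
  have hD2 : (2 : ℝ) ≤ D := by exact_mod_cast (by omega : 2 ≤ D)
  -- the inner sums
  have hin : ∀ d ∈ q.divisors,
      ‖∑ m ∈ Icc 1 (q / d), ee ((k : ℝ) * ((a : ℝ) * ((d * m : ℕ) : ℝ) ^ t / q))‖ ≤ (q : ℝ) / D := by
    intro d hd
    obtain ⟨hd1, _⟩ := Nat.mem_divisors.1 hd
    have hdpos : 0 < d := Nat.pos_of_dvd_of_pos hd1 (by omega)
    have hdpos' : (1 : ℝ) ≤ d := by exact_mod_cast hdpos
    have hdiv' : ((q / d : ℕ) : ℝ) ≤ (q : ℝ) / d := Nat.cast_div_le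
    by_cases hdD : d ≤ D
    · have hρ : (0 : ℝ) < 1 / D := by positivity
      have hρ2 : (1 : ℝ) / D ≤ 1 / 2 := by
        exact one_div_le_one_div_of_le two_pos hD2
      have hcond : (1 / (1 / (D : ℝ))) ^ C * |(k : ℝ)| * (d : ℝ) ^ t < q := by
        rw [one_div_one_div]
        have h1 : (d : ℝ) ^ t ≤ (D : ℝ) ^ t := by
          have : (d : ℝ) ≤ D := by exact_mod_cast hdD
          gcongr
        have h2 : (D : ℝ) ^ C * |(k : ℝ)| * (d : ℝ) ^ t ≤ K * (D : ℝ) ^ r := by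
          calc (D : ℝ) ^ C * |(k : ℝ)| * (d : ℝ) ^ t ≤ (D : ℝ) ^ C * K * (D : ℝ) ^ t := by gcongr
            _ = K * (D : ℝ) ^ r := by rw [hr, pow_add]; ring
        refine lt_of_le_of_lt h2 ?_
        by_contra hcon
        push Not at hcon
        have h3 : (q : ℝ) ^ 2 ≤ (K : ℝ) ^ 2 * q := by
          calc (q : ℝ) ^ 2 ≤ (K * (D : ℝ) ^ r) ^ 2 := by gcongr
            _ = (K : ℝ) ^ 2 * (D : ℝ) ^ (2 * r) := by rw [mul_pow, ← pow_mul, mul_comm r 2]
            _ ≤ (K : ℝ) ^ 2 * q := by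
                have : ((D ^ (2 * r) : ℕ) : ℝ) ≤ q := by exact_mod_cast hDq
                push_cast at this
                gcongr
        have h4 : (K : ℝ) ^ 2 < q := by
          have : K ^ 2 < q := by omega
          exact_mod_cast this
        nlinarith
      have h5 := inner_bound t ht C hW q d (by omega) hd1 a k ha hk (1 / D) hρ hρ2 hcond
      have h6 : ∀ m ∈ Icc 1 (q / d), ee (((k * a : ℤ) : ℝ) * ((d : ℝ) * (m : ℝ)) ^ t / q)
          = ee ((k : ℝ) * ((a : ℝ) * ((d * m : ℕ) : ℝ) ^ t / q)) := by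
        intro m _
        congr 1
        push_cast
        ring
      rw [sum_congr rfl h6] at h5
      refine h5.trans ?_
      rw [one_div, div_eq_inv_mul]
      have h7 : ((q / d : ℕ) : ℝ) ≤ q := hdiv'.trans (div_le_self hq0.le hdpos')
      gcongr
    · push Not at hdD
      refine (norm_sum_ee_le _ _).trans ?_
      rw [Nat.card_Icc, Nat.add_sub_cancel]
      refine hdiv'.trans ?_
      have : (D : ℝ) ≤ d := by exact_mod_cast hdD.le
      gcongr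
  have hS := norm_sum_coprime_le (fun b => ee ((k : ℝ) * ((a : ℝ) * (b : ℝ) ^ t / q))) q hq2
  refine hS.trans ((sum_le_sum hin).trans ?_)
  rw [sum_const, nsmul_eq_mul]
  set τ := q.divisors.card with hτ
  have h1 : (q : ℝ) ≤ τ * Nat.totient q := by
    have := le_card_mul_totient q (by omega)
    exact_mod_cast this
  -- the divisor bound
  have h2 : (τ : ℝ) ^ 2 ≤ ε * D := by
    by_contra hcon
    push Not at hcon
    have h3 : (ε * D) ^ (4 * r) ≤ ((τ : ℝ) ^ 2) ^ (4 * r) := by gcongr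
    have h4 : ((τ : ℝ) ^ 2) ^ (4 * r) ≤ C' * q := by
      rw [← pow_mul, show 2 * (4 * r) = 8 * r by ring]
      have := hdiv q (by omega)
      exact_mod_cast this
    have h5 : (q : ℝ) ≤ 2 ^ (2 * r) * (D : ℝ) ^ (2 * r) := by
      have h6 : ((q : ℕ) : ℝ) ≤ (((D + 1) ^ (2 * r) : ℕ) : ℝ) := by exact_mod_cast hqD.le
      push_cast at h6
      refine h6.trans ?_
      rw [← mul_pow]
      have : (D : ℝ) + 1 ≤ 2 * D := by linarith
      gcongr
    have h6 : (ε ^ (4 * r) * (D : ℝ) ^ (2 * r)) * (D : ℝ) ^ (2 * r)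
        ≤ (C' * 2 ^ (2 * r)) * (D : ℝ) ^ (2 * r) := by
      calc (ε ^ (4 * r) * (D : ℝ) ^ (2 * r)) * (D : ℝ) ^ (2 * r) = (ε * D) ^ (4 * r) := by
            rw [mul_pow, mul_assoc, ← pow_add]; congr 2; ring
        _ ≤ C' * q := h3.trans h4
        _ ≤ C' * (2 ^ (2 * r) * (D : ℝ) ^ (2 * r)) := by gcongr
        _ = _ := by ring
    have h7 := le_of_mul_le_mul_right h6 (by positivity)
    have h8 : (D : ℝ) ≤ (D : ℝ) ^ (2 * r) := le_self_pow₀ (by linarith) (by omega)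
    have h9 : (C' : ℝ) * 2 ^ (2 * r) < ε ^ (4 * r) * D := by
      rw [div_lt_iff₀ (by positivity)] at hD₀
      have : (D₀ : ℝ) ≤ D := by exact_mod_cast (by omega : D₀ ≤ D)
      calc (C' : ℝ) * 2 ^ (2 * r) < D₀ * ε ^ (4 * r) := hD₀
        _ ≤ D * ε ^ (4 * r) := by gcongr
        _ = _ := mul_comm _ _
    have h10 : ε ^ (4 * r) * D ≤ ε ^ (4 * r) * (D : ℝ) ^ (2 * r) := by gcongr
    linarith
  calc (τ : ℝ) * ((q : ℝ) / D) ≤ τ * (τ * Nat.totient q / D) := by gcongr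
    _ = (τ : ℝ) ^ 2 / D * Nat.totient q := by ring
    _ ≤ ε * Nat.totient q := by
        have : (τ : ℝ) ^ 2 / D ≤ ε := by rwa [div_le_iff₀ hD0]
        gcongr

theorem ee_nd (x : ℝ) (j : ℕ) : ‖ee ((j : ℝ) * x) - 1‖ ≤ 2 * Real.pi * (j * nd x) := by
  obtain ⟨n, hn⟩ := nd_exists x
  have h1 : ee ((j : ℝ) * x) = ee ((j : ℝ) * (x - n)) := by
    have : (j : ℝ) * x = (j : ℝ) * (x - n) + ((j * n : ℤ) : ℝ) := by push_cast; ring
    rw [this, ee_add_int]
  rw [h1, hn]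
  refine (norm_ee_sub_one_le _).trans (le_of_eq ?_)
  rw [abs_mul, Nat.abs_cast]

/-- the kernel is large near the integers -/
theorem kernel_ge (u : ℝ) (K : ℕ) (hK : 1 ≤ K) (hKu : (K : ℝ) * u ≤ 1 / 16) (x : ℝ)
    (hx : nd x ≤ u) : (K : ℝ) / 2 ≤ ‖∑ j ∈ range K, ee ((j : ℝ) * x)‖ := by
  have hu : 0 ≤ u := (nd_nonneg x).trans hx
  have h1 : ‖(∑ j ∈ range K, ee ((j : ℝ) * x)) - K‖ ≤ K / 2 := by
    have h2 : (∑ j ∈ range K, ee ((j : ℝ) * x)) - K = ∑ j ∈ range K, (ee ((j : ℝ) * x) - 1) := by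
      rw [sum_sub_distrib]
      simp
    rw [h2]
    refine (norm_sum_le _ _).trans ?_
    have h3 : ∀ j ∈ range K, ‖ee ((j : ℝ) * x) - 1‖ ≤ 1 / 2 := by
      intro j hj
      refine (ee_nd x j).trans ?_
      have h4 : (j : ℝ) ≤ K := by exact_mod_cast (mem_range.1 hj).le
      have h5 : (j : ℝ) * nd x ≤ 1 / 16 := by
        calc (j : ℝ) * nd x ≤ K * u := mul_le_mul h4 hx (nd_nonneg x) (by positivity)
          _ ≤ _ := hKu
      have h6 := Real.pi_le_four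
      have h7 := Real.pi_pos
      nlinarith
    refine (sum_le_sum h3).trans (le_of_eq ?_)
    rw [sum_const, card_range, nsmul_eq_mul]
    ring
  have h2 : ‖(K : ℂ)‖ ≤ ‖∑ j ∈ range K, ee ((j : ℝ) * x)‖
      + ‖(∑ j ∈ range K, ee ((j : ℝ) * x)) - K‖ := by
    calc ‖(K : ℂ)‖ = ‖(∑ j ∈ range K, ee ((j : ℝ) * x))
          - ((∑ j ∈ range K, ee ((j : ℝ) * x)) - K)‖ := by congr 1; ring
      _ ≤ _ := norm_sub_le _ _
  rw [Complex.norm_natCast] at h2
  linarith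

/-- mean square of the kernel -/
theorem kernel_sum (A : Finset ℕ) (y : ℕ → ℝ) (K : ℕ) (δ : ℝ) (hδ : 0 ≤ δ)
    (h : ∀ k : ℤ, k ≠ 0 → |(k : ℝ)| ≤ K → ‖∑ b ∈ A, ee ((k : ℝ) * y b)‖ ≤ δ) :
    ∑ b ∈ A, ‖∑ j ∈ range K, ee ((j : ℝ) * y b)‖ ^ 2 ≤ K * A.card + (K : ℝ) ^ 2 * δ := by
  have h1 : ((∑ b ∈ A, ‖∑ j ∈ range K, ee ((j : ℝ) * y b)‖ ^ 2 : ℝ) : ℂ)
      = ∑ j ∈ range K, ∑ j' ∈ range K, ∑ b ∈ A, ee ((((j : ℤ) - (j' : ℤ) : ℤ) : ℝ) * y b) := by
    push_cast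
    have h2 : ∀ b ∈ A, ((‖∑ j ∈ range K, ee ((j : ℝ) * y b)‖ : ℂ)) ^ 2
        = ∑ j ∈ range K, ∑ j' ∈ range K, ee (((j : ℝ) - (j' : ℝ)) * y b) := by
      intro b _
      rw [← Complex.mul_conj', map_sum, sum_mul_sum]
      refine sum_congr rfl fun j _ => sum_congr rfl fun j' _ => ?_
      rw [sub_mul, ee_sub]
    rw [sum_congr rfl h2, sum_comm]
    refine sum_congr rfl fun j _ => ?_
    rw [sum_comm]
  have h2 : ∑ b ∈ A, ‖∑ j ∈ range K, ee ((j : ℝ) * y b)‖ ^ 2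
      = ‖((∑ b ∈ A, ‖∑ j ∈ range K, ee ((j : ℝ) * y b)‖ ^ 2 : ℝ) : ℂ)‖ := by
    rw [Complex.norm_real, Real.norm_eq_abs, abs_of_nonneg]
    positivity
  rw [h2, h1]
  refine (norm_sum_le _ _).trans ?_
  have h3 : ∀ j ∈ range K, ‖∑ j' ∈ range K, ∑ b ∈ A, ee ((((j : ℤ) - (j' : ℤ) : ℤ) : ℝ) * y b)‖
      ≤ A.card + K * δ := by
    intro j hj
    refine (norm_sum_le _ _).trans ?_
    have h4 : ∀ j' ∈ range K, ‖∑ b ∈ A, ee ((((j : ℤ) - (j' : ℤ) : ℤ) : ℝ) * y b)‖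
        ≤ (if j = j' then (A.card : ℝ) else 0) + δ := by
      intro j' hj'
      by_cases hjj : j = j'
      · rw [if_pos hjj, hjj]
        refine (norm_sum_ee_le _ _).trans ?_
        linarith
      · rw [if_neg hjj, zero_add]
        refine h _ ?_ ?_
        · intro h0
          apply hjj
          have : (j : ℤ) = j' := by linarith
          exact_mod_cast this
        · have h5 := mem_range.1 hj
          have h6 := mem_range.1 hj'
          have h7 : |(j : ℤ) - (j' : ℤ)| ≤ K := by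
            rw [abs_le]
            constructor <;> omega
          exact_mod_cast h7
    refine (sum_le_sum h4).trans ?_
    rw [sum_add_distrib, sum_ite_eq, if_pos hj, sum_const, card_range, nsmul_eq_mul]
  refine (sum_le_sum h3).trans (le_of_eq ?_)
  rw [sum_const, card_range, nsmul_eq_mul]
  ring

end U56

open U56

/-- Distribution of `a b ^ t / q`, `b` running through the reduced residues modulo `q`. -/
theorem units_equi (t : ℕ) (ht : 1 ≤ t) : ∃ C : ℝ, 0 < C ∧ ∀ u : ℝ, 0 < u → u ≤ 1 →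
    ∃ q₀ : ℕ, ∀ q : ℕ, q₀ ≤ q → ∀ a : ℤ, IsCoprime a (q : ℤ) → ∀ θ : ℝ,
      (((range q).filter fun b : ℕ =>
        Nat.Coprime b q ∧ nd ((a : ℝ) * (b : ℝ) ^ t / q - θ) ≤ u).card : ℝ)
        ≤ C * u * Nat.totient q := by
  refine ⟨256, by norm_num, fun u hu hu1 => ?_⟩
  have hAcard : ∀ q : ℕ, ((range q).filter fun b => Nat.Coprime b q).card = Nat.totient q := by
    intro q
    rw [Nat.totient_eq_card_coprime]
    congr 1
    ext b
    simp only [mem_filter, Nat.coprime_comm]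
  by_cases hu16 : 1 / 16 < u
  · refine ⟨0, fun q _ a _ θ => ?_⟩
    have h1 : ((range q).filter fun b : ℕ =>
        Nat.Coprime b q ∧ nd ((a : ℝ) * (b : ℝ) ^ t / q - θ) ≤ u).card ≤ Nat.totient q := by
      rw [← hAcard q]
      refine card_le_card fun b hb => ?_
      rw [mem_filter] at hb ⊢
      exact ⟨hb.1, hb.2.1⟩
    have h2 : (((range q).filter fun b : ℕ =>
        Nat.Coprime b q ∧ nd ((a : ℝ) * (b : ℝ) ^ t / q - θ) ≤ u).card : ℝ)
          ≤ Nat.totient q := by exact_mod_cast h1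
    have h3 : (0 : ℝ) ≤ Nat.totient q := by positivity
    nlinarith
  · push Not at hu16
    obtain ⟨K, hKdef⟩ : ∃ K : ℕ, K = ⌊1 / (16 * u)⌋₊ := ⟨_, rfl⟩
    have h16 : 1 ≤ 1 / (16 * u) := by
      rw [le_div_iff₀ (by positivity)]
      linarith
    have hK1 : 1 ≤ K := by
      rw [hKdef]
      exact (Nat.one_le_floor_iff _).2 h16
    have hKle : (K : ℝ) ≤ 1 / (16 * u) := by
      rw [hKdef]
      exact Nat.floor_le (by positivity)
    have hKge : 1 / (16 * u) < K + 1 := by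
      rw [hKdef]
      exact Nat.lt_floor_add_one _
    have hK0 : (0 : ℝ) < K := by exact_mod_cast hK1
    have hK1' : (1 : ℝ) ≤ K := by exact_mod_cast hK1
    have hKu : (K : ℝ) * u ≤ 1 / 16 := by
      rw [le_div_iff₀ (by positivity)] at hKle
      linarith
    have hKu2 : 1 ≤ 32 * u * K := by
      rw [div_lt_iff₀ (by positivity)] at hKge
      nlinarith
    obtain ⟨q₀, hq₀⟩ := char_bound t ht K (1 / K) (by positivity)
    refine ⟨q₀, fun q hq a ha θ => ?_⟩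
    obtain ⟨A, hA⟩ : ∃ A, A = (range q).filter fun b => Nat.Coprime b q := ⟨_, rfl⟩
    have hAc : (A.card : ℝ) = Nat.totient q := by rw [hA, hAcard]
    have h1 : ∀ k : ℤ, k ≠ 0 → |(k : ℝ)| ≤ K →
        ‖∑ b ∈ A, ee ((k : ℝ) * ((a : ℝ) * (b : ℝ) ^ t / q - θ))‖ ≤ 1 / K * Nat.totient q := by
      intro k hk hkK
      have h2 := hq₀ q hq a ha k hk hkK
      rw [← hA] at h2
      have h3 : ∑ b ∈ A, ee ((k : ℝ) * ((a : ℝ) * (b : ℝ) ^ t / q - θ))
          = (∑ b ∈ A, ee ((k : ℝ) * ((a : ℝ) * (b : ℝ) ^ t / q))) * ee (-(k * θ)) := by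
        rw [sum_mul]
        refine sum_congr rfl fun b _ => ?_
        rw [← ee_add]
        congr 1
        ring
      rw [h3, norm_mul, norm_ee, mul_one]
      exact h2
    have h2 := kernel_sum A (fun b => (a : ℝ) * (b : ℝ) ^ t / q - θ) K (1 / K * Nat.totient q)
      (by positivity) h1
    obtain ⟨B, hB⟩ : ∃ B, B = (range q).filter fun b : ℕ =>
        Nat.Coprime b q ∧ nd ((a : ℝ) * (b : ℝ) ^ t / q - θ) ≤ u := ⟨_, rfl⟩
    rw [← hB]
    have hBA : B ⊆ A := by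
      intro b hb
      rw [hB, mem_filter] at hb
      rw [hA, mem_filter]
      exact ⟨hb.1, hb.2.1⟩
    have h3 : (B.card : ℝ) * ((K : ℝ) / 2) ^ 2
        ≤ ∑ b ∈ A, ‖∑ j ∈ range K, ee ((j : ℝ) * ((a : ℝ) * (b : ℝ) ^ t / q - θ))‖ ^ 2 := by
      calc (B.card : ℝ) * ((K : ℝ) / 2) ^ 2 = ∑ _b ∈ B, ((K : ℝ) / 2) ^ 2 := by
            rw [sum_const, nsmul_eq_mul]
        _ ≤ ∑ b ∈ B, ‖∑ j ∈ range K, ee ((j : ℝ) * ((a : ℝ) * (b : ℝ) ^ t / q - θ))‖ ^ 2 := by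
            refine sum_le_sum fun b hb => ?_
            rw [hB, mem_filter] at hb
            have := kernel_ge u K hK1 hKu _ hb.2.2
            gcongr
        _ ≤ _ := sum_le_sum_of_subset_of_nonneg hBA fun _ _ _ => by positivity
    have h4 : (B.card : ℝ) * ((K : ℝ) / 2) ^ 2 ≤ 2 * K * Nat.totient q := by
      refine h3.trans (h2.trans (le_of_eq ?_))
      rw [hAc]
      field_simp
      ring
    have h5 : (B.card : ℝ) * K ≤ 8 * Nat.totient q := by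
      have h6 : (K : ℝ) * ((B.card : ℝ) * K) ≤ K * (8 * Nat.totient q) := by nlinarith
      exact le_of_mul_le_mul_left h6 hK0
    have h7 : (0 : ℝ) ≤ B.card := by positivity
    calc (B.card : ℝ) = B.card * 1 := (mul_one _).symm
      _ ≤ B.card * (32 * u * K) := by gcongr
      _ = 32 * u * (B.card * K) := by ring
      _ ≤ 32 * u * (8 * Nat.totient q) := by gcongr
      _ = 256 * u * Nat.totient q := by ring

end Pool.Agent.Lib.MP_663568_nt.Nul
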