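import Mathlib
import Pool.Agent.Lib.MP_663568_nul.Base
import Pool.Agent.Lib.MP_927447_nt.Bounds

/-!
# Selberg weights coprime to a modulus, and the Brun-Titchmarsh inequality

The diagonalisation is adapted from `Pool.Agent.Lib.MP_bf4c7f_nt.Selberg`.
-/

set_option autoImplicit false
open Finset

namespace Pool.Agent.Lib.MP_663568_nt.Nul

namespace Sel

open ArithmeticFunction
open scoped ArithmeticFunction.Moebius

/-- squarefree and coprime to `q` -/
def SC (q k : ℕ) : Prop := Squarefree k ∧ Nat.Coprime k q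

instance (q : ℕ) : DecidablePred (SC q) := fun _ => inferInstanceAs (Decidable (_ ∧ _))

/-- Selberg weights with the normalisation `y_k = 1`. -/
noncomputable def lam (q R d : ℕ) : ℝ :=
  (μ d : ℝ) * d * ∑ k ∈ (Icc 1 R).filter (fun k => SC q k ∧ d ∣ k), (1 / (Nat.totient k : ℝ))

/-- The Selberg sum. -/
noncomputable def GG (q R : ℕ) : ℝ :=
  ∑ k ∈ (Icc 1 R).filter (fun k => SC q k), (1 / (Nat.totient k : ℝ))

lemma sum_moebius_between (k l : ℕ) (hk : 0 < k) (hl : Squarefree l) :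
    ∑ d ∈ l.divisors.filter (fun d => k ∣ d), (μ d : ℝ) = if k = l then (μ k : ℝ) else 0 := by
  have hl0 : l ≠ 0 := hl.ne_zero
  by_cases hkl : k ∣ l
  · obtain ⟨m, rfl⟩ := hkl
    have hm0 : m ≠ 0 := by rintro rfl; simp at hl0
    have hcop : Nat.Coprime k m := Nat.coprime_of_squarefree_mul hl
    have h1 : (k * m).divisors.filter (fun d => k ∣ d) = m.divisors.image (fun e => k * e) := by
      ext d
      simp only [mem_filter, Nat.mem_divisors, mem_image]
      constructor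
      · rintro ⟨⟨h1, _⟩, ⟨e, rfl⟩⟩
        exact ⟨e, ⟨Nat.dvd_of_mul_dvd_mul_left hk h1, hm0⟩, rfl⟩
      · rintro ⟨e, ⟨he, _⟩, rfl⟩
        exact ⟨⟨Nat.mul_dvd_mul_left k he, hl0⟩, dvd_mul_right k e⟩
    rw [h1, Finset.sum_image (by intro a _ b _ hab; exact Nat.eq_of_mul_eq_mul_left hk hab)]
    have h2 : ∀ e ∈ m.divisors, (μ (k * e) : ℝ) = (μ k : ℝ) * (μ e : ℝ) := by
      intro e he
      have hc : Nat.Coprime k e := hcop.coprime_dvd_right (Nat.dvd_of_mem_divisors he)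
      rw [isMultiplicative_moebius.map_mul_of_coprime hc]
      push_cast; ring
    rw [Finset.sum_congr rfl h2, ← Finset.mul_sum]
    have h3 : ∑ e ∈ m.divisors, (μ e : ℝ) = if m = 1 then 1 else 0 := by
      have h4 : ∑ e ∈ m.divisors, (μ e : ℤ) = if m = 1 then 1 else 0 := by
        have := congrArg (fun f : ArithmeticFunction ℤ => f m) coe_zeta_mul_moebius
        simp only [coe_zeta_mul_apply, one_apply] at this
        exact this
      exact_mod_cast congrArg (fun z : ℤ => (z : ℝ)) h4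
    rw [h3]
    by_cases hm : m = 1
    · simp [hm]
    · have : k ≠ k * m := by
        intro h
        apply hm
        exact Nat.eq_of_mul_eq_mul_left hk (by omega)
      simp [hm, this]
  · have : l.divisors.filter (fun d => k ∣ d) = ∅ := by
      rw [Finset.filter_eq_empty_iff]
      intro d hd hkd
      exact hkl (hkd.trans (Nat.dvd_of_mem_divisors hd))
    rw [this, Finset.sum_empty, if_neg]
    rintro rfl
    exact hkl dvd_rfl

/-- Claim A. -/
lemma sum_lam_div (q R k : ℕ) (hk : 0 < k) :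
    ∑ d ∈ (Icc 1 R).filter (fun d => k ∣ d), lam q R d / d
      = if k ≤ R ∧ SC q k then (μ k : ℝ) / (Nat.totient k : ℝ) else 0 := by
  have h1 : ∀ d ∈ (Icc 1 R).filter (fun d => k ∣ d), lam q R d / d
      = ∑ l ∈ (Icc 1 R).filter (fun l => SC q l),
        (if d ∣ l then (μ d : ℝ) * (1 / (Nat.totient l : ℝ)) else 0) := by
    intro d hd
    have hd0 : (d : ℝ) ≠ 0 := by
      have : 1 ≤ d := (mem_Icc.1 (mem_filter.1 hd).1).1
      positivity
    rw [← Finset.sum_filter, Finset.filter_filter, ← Finset.mul_sum]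
    unfold lam
    field_simp
  rw [Finset.sum_congr rfl h1, Finset.sum_comm]
  have h2 : ∀ l ∈ (Icc 1 R).filter (fun l => SC q l),
      ∑ d ∈ (Icc 1 R).filter (fun d => k ∣ d),
        (if d ∣ l then (μ d : ℝ) * (1 / (Nat.totient l : ℝ)) else 0)
      = if k = l then (μ k : ℝ) / (Nat.totient l : ℝ) else 0 := by
    intro l hl
    simp only [mem_filter, mem_Icc] at hl
    obtain ⟨⟨hl1, hl2⟩, hl3⟩ := hl
    rw [← Finset.sum_filter, Finset.filter_filter]
    have h3 : (Icc 1 R).filter (fun a => k ∣ a ∧ a ∣ l) = l.divisors.filter (fun d => k ∣ d) := by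
      ext d
      simp only [mem_filter, mem_Icc, Nat.mem_divisors]
      constructor
      · rintro ⟨_, h5, h6⟩
        exact ⟨⟨h6, by omega⟩, h5⟩
      · rintro ⟨⟨h5, _⟩, h6⟩
        exact ⟨⟨Nat.pos_of_dvd_of_pos h5 hl1, (Nat.le_of_dvd hl1 h5).trans hl2⟩, h6, h5⟩
    rw [h3, ← Finset.sum_mul, sum_moebius_between k l hk hl3.1]
    split_ifs <;> simp [div_eq_mul_inv]
  rw [Finset.sum_congr rfl h2]
  by_cases hkR : k ≤ R ∧ SC q k
  · rw [if_pos hkR, Finset.sum_ite_eq, if_pos]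
    simp only [mem_filter, mem_Icc]
    exact ⟨⟨hk, hkR.1⟩, hkR.2⟩
  · rw [if_neg hkR, Finset.sum_ite_eq, if_neg]
    simp only [mem_filter, mem_Icc]
    tauto

/-- General diagonalisation. -/
lemma diag (R : ℕ) (D : Finset ℕ) (r : ℕ → ℕ) (u : ℕ → ℝ)
    (hr : ∀ d ∈ D, 0 < r d ∧ r d ≤ R) :
    ∑ d ∈ D, ∑ d' ∈ D, u d * u d' * (((r d).gcd (r d') : ℕ) : ℝ)
      = ∑ k ∈ Icc 1 R, (Nat.totient k : ℝ) * (∑ d ∈ D.filter (fun d => k ∣ r d), u d) ^ 2 := by
  have h1 : ∀ d ∈ D, ∀ d' ∈ D, (((r d).gcd (r d') : ℕ) : ℝ)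
      = ∑ k ∈ Icc 1 R, (if k ∣ r d ∧ k ∣ r d' then (Nat.totient k : ℝ) else 0) := by
    intro d hd d' hd'
    have hg : 0 < (r d).gcd (r d') := Nat.gcd_pos_of_pos_left _ (hr d hd).1
    rw [← Finset.sum_filter]
    have h2 : (Icc 1 R).filter (fun k => k ∣ r d ∧ k ∣ r d') = ((r d).gcd (r d')).divisors := by
      ext k
      simp only [mem_filter, mem_Icc, Nat.mem_divisors, Nat.dvd_gcd_iff]
      constructor
      · rintro ⟨_, h⟩
        exact ⟨h, hg.ne'⟩
      · rintro ⟨h, _⟩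
        exact ⟨⟨Nat.pos_of_dvd_of_pos h.1 (hr d hd).1,
          (Nat.le_of_dvd (hr d hd).1 h.1).trans (hr d hd).2⟩, h⟩
    rw [h2]
    exact_mod_cast (Nat.sum_totient ((r d).gcd (r d'))).symm
  have h3 : ∀ k ∈ Icc 1 R, (Nat.totient k : ℝ) * (∑ d ∈ D.filter (fun d => k ∣ r d), u d) ^ 2
      = ∑ d ∈ D, ∑ d' ∈ D, u d * u d' *
        (if k ∣ r d ∧ k ∣ r d' then (Nat.totient k : ℝ) else 0) := by
    intro k _
    rw [Finset.sum_filter, sq, Finset.sum_mul_sum, Finset.mul_sum]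
    apply Finset.sum_congr rfl; intro d _
    rw [Finset.mul_sum]
    apply Finset.sum_congr rfl; intro d' _
    by_cases ha : k ∣ r d <;> by_cases hb : k ∣ r d' <;> simp [ha, hb]
    ring
  rw [Finset.sum_congr rfl h3]
  symm
  rw [Finset.sum_comm]
  apply Finset.sum_congr rfl; intro d hd
  rw [Finset.sum_comm]
  apply Finset.sum_congr rfl; intro d' hd'
  rw [h1 d hd d' hd', Finset.mul_sum]

lemma inv_lcm (a b : ℕ) (ha : 0 < a) (hb : 0 < b) :
    (1 : ℝ) / ((a.lcm b : ℕ) : ℝ) = ((a.gcd b : ℕ) : ℝ) / (a * b) := by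
  have hl : (0 : ℝ) < ((a.lcm b : ℕ) : ℝ) := by exact_mod_cast Nat.lcm_pos ha hb
  have haR : (0 : ℝ) < a := by exact_mod_cast ha
  have hbR : (0 : ℝ) < b := by exact_mod_cast hb
  have h : ((a.gcd b : ℕ) : ℝ) * ((a.lcm b : ℕ) : ℝ) = a * b := by exact_mod_cast Nat.gcd_mul_lcm a b
  rw [div_eq_div_iff hl.ne' (by positivity)]
  linarith

/-- The main term without prime. -/
theorem main_S (q R : ℕ) :
    ∑ d ∈ Icc 1 R, ∑ d' ∈ Icc 1 R, lam q R d * lam q R d' / ((d.lcm d' : ℕ) : ℝ) = GG q R := by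
  have h1 : ∀ d ∈ Icc 1 R, ∀ d' ∈ Icc 1 R, lam q R d * lam q R d' / ((d.lcm d' : ℕ) : ℝ)
      = (lam q R d / d) * (lam q R d' / d') * ((d.gcd d' : ℕ) : ℝ) := by
    intro d hd d' hd'
    have hd0 := (mem_Icc.1 hd).1
    have hd0' := (mem_Icc.1 hd').1
    rw [div_eq_mul_one_div, inv_lcm d d' hd0 hd0']
    have hdR : (0 : ℝ) < d := by exact_mod_cast hd0
    have hdR' : (0 : ℝ) < d' := by exact_mod_cast hd0'
    field_simp
  rw [Finset.sum_congr rfl (fun d hd => Finset.sum_congr rfl (h1 d hd))]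
  have := diag R (Icc 1 R) (fun d => d) (fun d => lam q R d / d)
    (fun d hd => ⟨(mem_Icc.1 hd).1, (mem_Icc.1 hd).2⟩)
  rw [this]
  unfold GG
  rw [Finset.sum_filter]
  apply Finset.sum_congr rfl
  intro k hk
  have hk1 := (mem_Icc.1 hk).1
  have hk2 := (mem_Icc.1 hk).2
  rw [sum_lam_div q R k hk1]
  have hphi : (0 : ℝ) < (Nat.totient k : ℝ) := by exact_mod_cast Nat.totient_pos.2 hk1
  by_cases hsq : SC q k
  · rw [if_pos ⟨hk2, hsq⟩, if_pos hsq]
    have hmu : ((μ k : ℤ) : ℝ) ^ 2 = 1 := by exact_mod_cast moebius_sq_eq_one_of_squarefree hsq.1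
    rw [div_pow, hmu]
    field_simp
  · rw [if_neg (fun h => hsq h.2), if_neg hsq]
    simp


lemma GG_ge_one (q R : ℕ) (hR : 1 ≤ R) : 1 ≤ GG q R := by
  unfold GG
  have h1 : (1 : ℕ) ∈ (Icc 1 R).filter (fun k => SC q k) := by
    simp only [mem_filter, mem_Icc]
    exact ⟨⟨le_refl _, hR⟩, squarefree_one, Nat.coprime_one_left q⟩
  calc (1 : ℝ) = 1 / (Nat.totient 1 : ℝ) := by simp
    _ ≤ _ := Finset.single_le_sum (f := fun k => (1 : ℝ) / (Nat.totient k : ℝ))
        (fun _ _ => by positivity) h1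

lemma lam_one (q R : ℕ) : lam q R 1 = GG q R := by
  unfold lam GG
  simp

/-- products of a divisor of `d` and a number coprime to `d` -/
lemma prod_le_GG (q R d : ℕ) (hd : SC q d) :
    (∑ l ∈ d.divisors, (1 : ℝ) / (Nat.totient l : ℝ)) *
      (∑ m ∈ (Icc 1 (R / d)).filter (fun m => SC q m ∧ Nat.Coprime d m),
        (1 : ℝ) / (Nat.totient m : ℝ)) ≤ GG q R := by
  have hd0 : 0 < d := Nat.pos_of_ne_zero hd.1.ne_zero
  rw [Finset.sum_mul_sum, ← Finset.sum_product']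
  set P := d.divisors ×ˢ (Icc 1 (R / d)).filter (fun m => SC q m ∧ Nat.Coprime d m) with hP
  have hmem : ∀ x ∈ P, x.1 ∣ d ∧ 1 ≤ x.2 ∧ x.2 ≤ R / d ∧ SC q x.2 ∧ Nat.Coprime d x.2 := by
    intro x hx
    simp only [hP, mem_product, Nat.mem_divisors, mem_filter, mem_Icc] at hx
    exact ⟨hx.1.1, hx.2.1.1, hx.2.1.2, hx.2.2.1, hx.2.2.2⟩
  have hinj : Set.InjOn (fun x : ℕ × ℕ => x.1 * x.2) (P : Set (ℕ × ℕ)) := by
    rintro ⟨l, m⟩ hx ⟨l', m'⟩ hy hxy
    obtain ⟨h1, h2, -, -, h5⟩ := hmem _ hx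
    obtain ⟨h1', h2', -, -, h5'⟩ := hmem _ hy
    simp only at h1 h2 h5 h1' h2' h5' hxy
    have e1 : (l * m).gcd d = l := by
      rw [Nat.Coprime.gcd_mul_right_cancel l (Nat.Coprime.symm h5)]
      exact Nat.gcd_eq_left h1
    have e2 : (l' * m').gcd d = l' := by
      rw [Nat.Coprime.gcd_mul_right_cancel l' (Nat.Coprime.symm h5')]
      exact Nat.gcd_eq_left h1'
    have e3 : l = l' := by rw [← e1, ← e2, hxy]
    subst e3
    have hl : 0 < l := Nat.pos_of_dvd_of_pos h1 hd0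
    have e4 : m = m' := Nat.eq_of_mul_eq_mul_left hl hxy
    rw [e4]
  have hterm : ∀ x ∈ P, (1 : ℝ) / (Nat.totient x.1 : ℝ) * (1 / (Nat.totient x.2 : ℝ))
      = 1 / (Nat.totient (x.1 * x.2) : ℝ) := by
    intro x hx
    obtain ⟨h1, h2, -, -, h5⟩ := hmem _ hx
    have hc : Nat.Coprime x.1 x.2 := Nat.Coprime.coprime_dvd_left h1 h5
    rw [Nat.totient_mul hc]
    push_cast
    rw [one_div_mul_one_div]
  rw [Finset.sum_congr rfl hterm,
    ← Finset.sum_image (g := fun x : ℕ × ℕ => x.1 * x.2)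
      (f := fun k : ℕ => (1 : ℝ) / (Nat.totient k : ℝ)) hinj]
  unfold GG
  apply Finset.sum_le_sum_of_subset_of_nonneg
  · intro k hk
    obtain ⟨x, hx, rfl⟩ := Finset.mem_image.1 hk
    obtain ⟨h1, h2, h3, h4, h5⟩ := hmem _ hx
    have hl : 0 < x.1 := Nat.pos_of_dvd_of_pos h1 hd0
    have hc : Nat.Coprime x.1 x.2 := Nat.Coprime.coprime_dvd_left h1 h5
    simp only [mem_filter, mem_Icc]
    refine ⟨⟨Nat.mul_pos hl h2, ?_⟩, ?_, ?_⟩
    · calc x.1 * x.2 ≤ d * (R / d) := Nat.mul_le_mul (Nat.le_of_dvd hd0 h1) h3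
        _ ≤ R := Nat.mul_div_le R d
    · rw [Nat.squarefree_mul hc]
      exact ⟨hd.1.squarefree_of_dvd h1, h4.1⟩
    · exact Nat.Coprime.mul_left (Nat.Coprime.coprime_dvd_left h1 hd.2) h4.2
  · intro j _ _; positivity

lemma lam_ne_zero (q R d : ℕ) (h : lam q R d ≠ 0) : SC q d ∧ d ≤ R := by
  unfold lam at h
  have h1 : ∑ k ∈ (Icc 1 R).filter (fun k => SC q k ∧ d ∣ k), (1 / (Nat.totient k : ℝ)) ≠ 0 :=
    right_ne_zero_of_mul h
  obtain ⟨k, hk, -⟩ := Finset.exists_ne_zero_of_sum_ne_zero h1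
  simp only [mem_filter, mem_Icc] at hk
  obtain ⟨⟨hk1, hk2⟩, hk3, hk4⟩ := hk
  exact ⟨⟨hk3.1.squarefree_of_dvd hk4, Nat.Coprime.coprime_dvd_left hk4 hk3.2⟩,
    (Nat.le_of_dvd hk1 hk4).trans hk2⟩

lemma abs_lam_le (q R d : ℕ) : |lam q R d| ≤ GG q R := by
  by_cases h0 : lam q R d = 0
  · rw [h0, abs_zero]
    exact Finset.sum_nonneg (fun _ _ => by positivity)
  obtain ⟨hsc, -⟩ := lam_ne_zero q R d h0
  have hd1 : 0 < d := Nat.pos_of_ne_zero hsc.1.ne_zero
  have hdR' : (0 : ℝ) < d := by exact_mod_cast hd1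
  have hphid : (0 : ℝ) < (Nat.totient d : ℝ) := by exact_mod_cast Nat.totient_pos.2 hd1
  set T := ∑ m ∈ (Icc 1 (R / d)).filter (fun m => SC q m ∧ Nat.Coprime d m),
        (1 : ℝ) / (Nat.totient m : ℝ) with hT
  have habs : |lam q R d| ≤ d * ∑ k ∈ (Icc 1 R).filter (fun k => SC q k ∧ d ∣ k),
      (1 / (Nat.totient k : ℝ)) := by
    unfold lam
    rw [abs_mul, abs_mul, abs_of_pos hdR']
    have h0 : 0 ≤ ∑ k ∈ (Icc 1 R).filter (fun k => SC q k ∧ d ∣ k),
      (1 / (Nat.totient k : ℝ)) := Finset.sum_nonneg (fun _ _ => by positivity)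
    rw [abs_of_nonneg h0]
    have hmu : |((μ d : ℤ) : ℝ)| ≤ 1 := by exact_mod_cast abs_moebius_le_one
    calc |((μ d : ℤ) : ℝ)| * d * _ ≤ 1 * d * _ := by gcongr
      _ = _ := by rw [one_mul]
  have h2 : ∑ k ∈ (Icc 1 R).filter (fun k => SC q k ∧ d ∣ k), (1 / (Nat.totient k : ℝ))
      ≤ (1 / (Nat.totient d : ℝ)) * T := by
    have hsub : (Icc 1 R).filter (fun k => SC q k ∧ d ∣ k)
        ⊆ ((Icc 1 (R / d)).filter (fun m => SC q m ∧ Nat.Coprime d m)).image
          (fun j => d * j) := by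
      intro k hk
      simp only [mem_filter, mem_Icc] at hk
      obtain ⟨⟨hk1, hk2⟩, hk3, ⟨j, rfl⟩⟩ := hk
      simp only [mem_image, mem_filter, mem_Icc]
      have hcop := Nat.coprime_of_squarefree_mul hk3.1
      refine ⟨j, ⟨⟨?_, ?_⟩, ⟨?_, ?_⟩, hcop⟩, rfl⟩
      · rcases Nat.eq_zero_or_pos j with h | h
        · subst h; simp at hk1
        · exact h
      · rw [Nat.le_div_iff_mul_le hd1, mul_comm]; exact hk2
      · exact hk3.1.squarefree_of_dvd (dvd_mul_left j d)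
      · exact Nat.Coprime.coprime_dvd_left (dvd_mul_left j d) hk3.2
    refine (Finset.sum_le_sum_of_subset_of_nonneg hsub (fun k _ _ => by positivity)).trans ?_
    rw [Finset.sum_image (by intro a _ b _ hab; exact Nat.eq_of_mul_eq_mul_left hd1 hab)]
    rw [hT, Finset.mul_sum]
    apply le_of_eq
    apply Finset.sum_congr rfl
    intro j hj
    have hcop := (mem_filter.1 hj).2.2
    rw [Nat.totient_mul hcop]
    push_cast
    rw [one_div_mul_one_div]
  have h3 := prod_le_GG q R d hsc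
  have h4 : (d : ℝ) * (1 / (Nat.totient d : ℝ)) = ∑ e ∈ d.divisors, (1 : ℝ) / (Nat.totient e : ℝ) := by
    rw [MP_927447_nt.inv_totient_eq d hsc.1]
    field_simp
  calc |lam q R d| ≤ d * ((1 / (Nat.totient d : ℝ)) * T) :=
        habs.trans (mul_le_mul_of_nonneg_left h2 hdR'.le)
    _ = (d * (1 / (Nat.totient d : ℝ))) * T := by ring
    _ ≤ GG q R := by rw [h4]; exact h3

/-- The sum over the squarefree divisors. -/
lemma sum_sqfree_div (q : ℕ) (hq : 1 ≤ q) :
    ∑ l ∈ q.divisors.filter (fun l => Squarefree l), (1 : ℝ) / (Nat.totient l : ℝ)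
      = (q : ℝ) / Nat.totient q := by
  have hq0 : q ≠ 0 := by omega
  have hqR : (0 : ℝ) < q := by exact_mod_cast hq
  have hphi : (0 : ℝ) < (Nat.totient q : ℝ) := by exact_mod_cast Nat.totient_pos.2 hq
  set r := ∏ p ∈ q.primeFactors, p with hr
  have hrsq : Squarefree r := by
    apply Finset.squarefree_prod_of_pairwise_isCoprime
    · intro p hp p' hp' hpp
      have h1 := Nat.prime_of_mem_primeFactors (Finset.mem_coe.1 hp)
      have h2 := Nat.prime_of_mem_primeFactors (Finset.mem_coe.1 hp')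
      rw [Function.onFun, ← Nat.coprime_iff_isRelPrime]
      exact (Nat.coprime_primes h1 h2).2 hpp
    · intro p hp
      exact (Nat.prime_of_mem_primeFactors hp).squarefree
  have hr0 : 0 < r := Nat.pos_of_ne_zero hrsq.ne_zero
  have hrdvd : r ∣ q := Nat.prod_primeFactors_dvd q
  have hrR : (0 : ℝ) < r := by exact_mod_cast hr0
  have hphir : (0 : ℝ) < (Nat.totient r : ℝ) := by exact_mod_cast Nat.totient_pos.2 hr0
  have hpf : r.primeFactors = q.primeFactors := by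
    rw [hr]
    exact Nat.primeFactors_prod (fun p hp => Nat.prime_of_mem_primeFactors hp)
  have e1 : q.divisors.filter (fun l => Squarefree l) = r.divisors := by
    ext l
    simp only [mem_filter, Nat.mem_divisors]
    constructor
    · rintro ⟨⟨h1, _⟩, h2⟩
      refine ⟨?_, hr0.ne'⟩
      calc l = ∏ p ∈ l.primeFactors, p := (Nat.prod_primeFactors_of_squarefree h2).symm
        _ ∣ r := Finset.prod_dvd_prod_of_subset _ _ _ (Nat.primeFactors_mono h1 hq0)
    · rintro ⟨h1, _⟩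
      exact ⟨⟨h1.trans hrdvd, hq0⟩, hrsq.squarefree_of_dvd h1⟩
  rw [e1]
  have h4 : (r : ℝ) * (1 / (Nat.totient r : ℝ)) = ∑ e ∈ r.divisors, (1 : ℝ) / (Nat.totient e : ℝ) := by
    rw [MP_927447_nt.inv_totient_eq r hrsq]
    field_simp
  rw [← h4]
  have h5 : (Nat.totient q : ℝ) = (q : ℝ) * ∏ p ∈ q.primeFactors, (1 - (p : ℝ)⁻¹) := by
    have h2' := congrArg (fun q : ℚ => (q : ℝ)) (Nat.totient_eq_mul_prod_factors q)
    push_cast at h2'
    exact h2'
  have h6 : (Nat.totient r : ℝ) = (r : ℝ) * ∏ p ∈ q.primeFactors, (1 - (p : ℝ)⁻¹) := by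
    have h2' := congrArg (fun q : ℚ => (q : ℝ)) (Nat.totient_eq_mul_prod_factors r)
    rw [hpf] at h2'
    push_cast at h2'
    exact h2'
  set P := ∏ p ∈ q.primeFactors, (1 - (p : ℝ)⁻¹) with hP
  have hP0 : P ≠ 0 := by
    intro h
    rw [h, mul_zero] at h5
    exact hphi.ne' h5
  rw [h5, h6]
  field_simp

/-- Lower bound for the Selberg sum. -/
lemma log_le (q R : ℕ) (hq : 1 ≤ q) :
    Real.log (R + 1 : ℕ) ≤ ((q : ℝ) / Nat.totient q) * GG q R := by
  have hq0 : q ≠ 0 := by omega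
  refine (MP_927447_nt.log_le_GG R).trans ?_
  rw [← sum_sqfree_div q hq]
  unfold GG MP_927447_nt.GG
  rw [Finset.sum_mul_sum, ← Finset.sum_product']
  set P := (q.divisors.filter (fun l => Squarefree l)) ×ˢ (Icc 1 R).filter (fun k => SC q k)
    with hP
  have hinj : Set.InjOn (fun k : ℕ => (k.gcd q, k / k.gcd q))
      (((Icc 1 R).filter (fun k => Squarefree k) : Finset ℕ) : Set ℕ) := by
    intro k hk k' hk' hkk
    simp only [Prod.mk.injEq] at hkk
    have e1 := Nat.mul_div_cancel' (Nat.gcd_dvd_left k q)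
    have e2 := Nat.mul_div_cancel' (Nat.gcd_dvd_left k' q)
    rw [← e1, ← e2, hkk.2, hkk.1]
  have hkey : ∀ k ∈ (Icc 1 R).filter (fun k => Squarefree k),
      Nat.Coprime (k / k.gcd q) q ∧ Nat.Coprime (k.gcd q) (k / k.gcd q) := by
    intro k hk
    have hsq := (mem_filter.1 hk).2
    have e1 := Nat.mul_div_cancel' (Nat.gcd_dvd_left k q)
    have hcop : Nat.Coprime (k.gcd q) (k / k.gcd q) := by
      apply Nat.coprime_of_squarefree_mul
      rw [e1]; exact hsq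
    refine ⟨?_, hcop⟩
    apply Nat.coprime_of_dvd
    intro p hp h1 h2
    have h3 : p ∣ k.gcd q :=
      Nat.dvd_gcd (h1.trans (Nat.div_dvd_of_dvd (Nat.gcd_dvd_left k q))) h2
    exact Nat.not_coprime_of_dvd_of_dvd hp.one_lt h3 h1 hcop
  have hterm : ∀ k ∈ (Icc 1 R).filter (fun k => Squarefree k),
      (1 : ℝ) / (Nat.totient k : ℝ) = (fun x : ℕ × ℕ =>
        (1 : ℝ) / (Nat.totient x.1 : ℝ) * (1 / (Nat.totient x.2 : ℝ)))
        ((fun k : ℕ => (k.gcd q, k / k.gcd q)) k) := by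
    intro k hk
    have e1 := Nat.mul_div_cancel' (Nat.gcd_dvd_left k q)
    have h2 := (hkey k hk).2
    simp only
    conv_lhs => rw [← e1]
    rw [Nat.totient_mul h2]
    push_cast
    rw [one_div_mul_one_div]
  rw [Finset.sum_congr rfl hterm, ← Finset.sum_image (g := fun k : ℕ => (k.gcd q, k / k.gcd q))
    (f := fun x : ℕ × ℕ => (1 : ℝ) / (Nat.totient x.1 : ℝ) * (1 / (Nat.totient x.2 : ℝ))) hinj]
  apply Finset.sum_le_sum_of_subset_of_nonneg
  · intro x hx
    obtain ⟨k, hk, rfl⟩ := Finset.mem_image.1 hx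
    have hsq := (mem_filter.1 hk).2
    have hk1 := mem_Icc.1 (mem_filter.1 hk).1
    have hg : 0 < k.gcd q := Nat.gcd_pos_of_pos_left _ hk1.1
    have e1 := Nat.mul_div_cancel' (Nat.gcd_dvd_left k q)
    simp only [hP, mem_product, mem_filter, Nat.mem_divisors, mem_Icc]
    refine ⟨⟨⟨Nat.gcd_dvd_right k q, hq0⟩, hsq.squarefree_of_dvd (Nat.gcd_dvd_left k q)⟩,
      ⟨?_, ?_⟩, ?_, (hkey k hk).1⟩
    · exact Nat.div_pos (Nat.le_of_dvd hk1.1 (Nat.gcd_dvd_left k q)) hg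
    · exact (Nat.div_le_self _ _).trans hk1.2
    · exact hsq.squarefree_of_dvd (Nat.div_dvd_of_dvd (Nat.gcd_dvd_left k q))
  · intro j _ _; positivity

/-- The number of multiples of `L` in a residue class modulo `q` in an interval. -/
lemma count_le (q L b x y : ℕ) (hq : 1 ≤ q) (hL : 1 ≤ L) (hc : Nat.Coprime L q) :
    |(((Ioc x (x + y)).filter fun m : ℕ => m ≡ b [MOD q] ∧ L ∣ m).card : ℝ)
      - (y : ℝ) / (q * L)| ≤ 1 := by
  obtain ⟨c, hc1, hc2⟩ := Nat.chineseRemainder (Nat.Coprime.symm hc) b 0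
  have e1 : (Ioc x (x + y)).filter (fun m : ℕ => m ≡ b [MOD q] ∧ L ∣ m)
      = (Ioc x (x + y)).filter (fun m : ℕ => m ≡ c [MOD (q * L)]) := by
    apply Finset.filter_congr
    intro m _
    rw [← Nat.modEq_and_modEq_iff_modEq_mul (Nat.Coprime.symm hc)]
    constructor
    · rintro ⟨h1, h2⟩
      exact ⟨h1.trans hc1.symm, ((Nat.modEq_zero_iff_dvd.2 h2)).trans hc2.symm⟩
    · rintro ⟨h1, h2⟩
      exact ⟨h1.trans hc1, Nat.modEq_zero_iff_dvd.1 (h2.trans hc2)⟩
  rw [e1]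
  have hN : 0 < q * L := Nat.mul_pos hq hL
  have h1 := Nat.Ioc_filter_modEq_card x (x + y) hN c
  set n := ((Ioc x (x + y)).filter (fun m : ℕ => m ≡ c [MOD (q * L)])).card with hn
  have hNQ : (0 : ℚ) < ((q * L : ℕ) : ℚ) := by exact_mod_cast hN
  have h2 : |(n : ℚ) - (y : ℚ) / ((q * L : ℕ) : ℚ)| ≤ 1 := by
    have h3 : (n : ℤ) = ⌊(((x + y : ℕ) : ℚ) - c) / ((q * L : ℕ) : ℚ)⌋
        - ⌊((x : ℚ) - c) / ((q * L : ℕ) : ℚ)⌋ := by
      rw [h1, max_eq_left]
      rw [sub_nonneg]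
      apply Int.floor_le_floor
      gcongr
      linarith [(Nat.cast_nonneg y : (0 : ℚ) ≤ y)]
    have h4 : (n : ℚ) = (⌊(((x + y : ℕ) : ℚ) - c) / ((q * L : ℕ) : ℚ)⌋ : ℚ)
        - (⌊((x : ℚ) - c) / ((q * L : ℕ) : ℚ)⌋ : ℚ) := by exact_mod_cast congrArg (fun z : ℤ => (z : ℚ)) h3
    have h5 := Int.floor_le ((((x + y : ℕ) : ℚ) - c) / ((q * L : ℕ) : ℚ))
    have h6 := Int.lt_floor_add_one ((((x + y : ℕ) : ℚ) - c) / ((q * L : ℕ) : ℚ))
    have h7 := Int.floor_le (((x : ℚ) - c) / ((q * L : ℕ) : ℚ))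
    have h8 := Int.lt_floor_add_one (((x : ℚ) - c) / ((q * L : ℕ) : ℚ))
    have h9 : (((x + y : ℕ) : ℚ) - c) / ((q * L : ℕ) : ℚ)
        = ((x : ℚ) - c) / ((q * L : ℕ) : ℚ) + (y : ℚ) / ((q * L : ℕ) : ℚ) := by
      push_cast; ring
    rw [h4, abs_le]
    constructor <;> linarith
  have h3 : ((|(n : ℚ) - (y : ℚ) / ((q * L : ℕ) : ℚ)| : ℚ) : ℝ) ≤ ((1 : ℚ) : ℝ) := by
    rw [Rat.cast_le]; exact h2
  rw [Rat.cast_abs] at h3
  push_cast at h3
  exact h3

end Sel

/-- Selberg's weights. -/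
theorem selberg_weights : ∃ C : ℝ, 0 < C ∧ ∀ q R : ℕ, 1 ≤ q → 2 ≤ R →
    ∃ lam : ℕ → ℝ, lam 1 = 1 ∧ (∀ d, |lam d| ≤ 1) ∧
      (∀ d, lam d ≠ 0 → 1 ≤ d ∧ d ≤ R ∧ Nat.Coprime d q) ∧
      ∑ d ∈ Icc 1 R, ∑ d' ∈ Icc 1 R, lam d * lam d' / (Nat.lcm d d' : ℝ)
        ≤ C * ((q : ℝ) / Nat.totient q) / Real.log R := by
  refine ⟨1, one_pos, fun q R hq hR => ⟨fun d => Sel.lam q R d / Sel.GG q R, ?_, ?_, ?_, ?_⟩⟩
  · have h1 := Sel.GG_ge_one q R (by omega)
    simp only
    rw [Sel.lam_one, div_self (by linarith)]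
  · intro d
    have h1 := Sel.GG_ge_one q R (by omega)
    simp only
    rw [abs_div, abs_of_pos (by linarith : (0:ℝ) < Sel.GG q R), div_le_one (by linarith)]
    exact Sel.abs_lam_le q R d
  · intro d hd
    simp only at hd
    have h0 : Sel.lam q R d ≠ 0 := fun h => hd (by rw [h, zero_div])
    obtain ⟨h1, h2⟩ := Sel.lam_ne_zero q R d h0
    exact ⟨Nat.pos_of_ne_zero h1.1.ne_zero, h2, h1.2⟩
  · have hG := Sel.GG_ge_one q R (by omega)
    have hG0 : (0 : ℝ) < Sel.GG q R := by linarith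
    have hq' : (0 : ℝ) < q := by exact_mod_cast hq
    have hphi : (0 : ℝ) < (Nat.totient q : ℝ) := by exact_mod_cast Nat.totient_pos.2 hq
    have hlog : (0 : ℝ) < Real.log R := Real.log_pos (by exact_mod_cast hR)
    have e1 : ∑ d ∈ Icc 1 R, ∑ d' ∈ Icc 1 R,
        Sel.lam q R d / Sel.GG q R * (Sel.lam q R d' / Sel.GG q R) / (Nat.lcm d d' : ℝ)
        = 1 / Sel.GG q R := by
      have e2 : ∀ d ∈ Icc 1 R, ∀ d' ∈ Icc 1 R,
          Sel.lam q R d / Sel.GG q R * (Sel.lam q R d' / Sel.GG q R) / (Nat.lcm d d' : ℝ)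
          = (1 / (Sel.GG q R) ^ 2) * (Sel.lam q R d * Sel.lam q R d' / (Nat.lcm d d' : ℝ)) := by
        intro d _ d' _
        field_simp
      rw [Finset.sum_congr rfl (fun d hd => Finset.sum_congr rfl (e2 d hd))]
      simp only [← Finset.mul_sum]
      rw [Sel.main_S]
      field_simp
    simp only
    rw [e1, one_mul, div_le_div_iff₀ hG0 hlog, one_mul]
    refine le_trans (Real.log_le_log (by positivity) ?_) (Sel.log_le q R hq)
    push_cast; linarith

namespace Sel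

/-- The sieve bound. -/
lemma sieve (C : ℝ) (q R b x y : ℕ) (hq : 1 ≤ q) (lam : ℕ → ℝ) (h1 : lam 1 = 1)
    (h2 : ∀ d, |lam d| ≤ 1) (h3 : ∀ d, lam d ≠ 0 → 1 ≤ d ∧ d ≤ R ∧ Nat.Coprime d q)
    (hR : 2 ≤ R)
    (h4 : ∑ d ∈ Icc 1 R, ∑ d' ∈ Icc 1 R, lam d * lam d' / (Nat.lcm d d' : ℝ)
        ≤ C * ((q : ℝ) / Nat.totient q) / Real.log R) :
    (((Ioc x (x + y)).filter fun p : ℕ => p.Prime ∧ p ≡ b [MOD q]).card : ℝ)
      ≤ C * y / ((Nat.totient q : ℝ) * Real.log R) + (R : ℝ) ^ 2 + R := by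
  have hq' : (0 : ℝ) < q := by exact_mod_cast hq
  have hphi : (0 : ℝ) < (Nat.totient q : ℝ) := by exact_mod_cast Nat.totient_pos.2 hq
  set S := (Ioc x (x + y)).filter fun p : ℕ => p.Prime ∧ p ≡ b [MOD q] with hS
  set M := (Ioc x (x + y)).filter fun m : ℕ => m ≡ b [MOD q] with hM
  -- split off the primes up to R
  have hsplit : (S.card : ℝ) ≤ ((S.filter fun p => R < p).card : ℝ) + R := by
    have e1 : S.card = (S.filter fun p => R < p).card + (S.filter fun p => ¬ R < p).card := by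
      rw [Finset.card_filter_add_card_filter_not]
    have e2 : (S.filter fun p => ¬ R < p).card ≤ R := by
      calc (S.filter fun p => ¬ R < p).card ≤ (Icc 1 R).card := by
            apply Finset.card_le_card
            intro p hp
            simp only [hS, mem_filter, mem_Ioc, not_lt, mem_Icc] at hp ⊢
            exact ⟨hp.1.2.1.one_lt.le, hp.2⟩
        _ = R := by simp
    rw [e1]
    push_cast
    have : ((S.filter fun p => ¬ R < p).card : ℝ) ≤ R := by exact_mod_cast e2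
    linarith
  -- the weights are at least one on large primes
  have hw : ((S.filter fun p => R < p).card : ℝ)
      ≤ ∑ m ∈ M, (∑ d ∈ (Icc 1 R).filter (fun d => d ∣ m), lam d) ^ 2 := by
    calc ((S.filter fun p => R < p).card : ℝ)
        = ∑ p ∈ S.filter (fun p => R < p), (1 : ℝ) := by simp
      _ ≤ ∑ p ∈ S.filter (fun p => R < p),
          (∑ d ∈ (Icc 1 R).filter (fun d => d ∣ p), lam d) ^ 2 := by
          apply Finset.sum_le_sum
          intro p hp
          have hp1 := (mem_filter.1 hp).2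
          have hp2 : p.Prime := (mem_filter.1 (mem_filter.1 hp).1).2.1
          have e1 : (Icc 1 R).filter (fun d => d ∣ p) = {1} := by
            ext d
            simp only [mem_filter, mem_Icc, mem_singleton]
            constructor
            · rintro ⟨⟨h5, h6⟩, h7⟩
              rcases (Nat.dvd_prime hp2).1 h7 with h8 | h8
              · exact h8
              · omega
            · rintro rfl
              exact ⟨⟨le_refl _, by omega⟩, one_dvd _⟩
          rw [e1, Finset.sum_singleton, h1]; norm_num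
      _ ≤ _ := by
          apply Finset.sum_le_sum_of_subset_of_nonneg
          · intro p hp
            simp only [hS, hM, mem_filter] at hp ⊢
            exact ⟨hp.1.1, hp.1.2.2⟩
          · intro m _ _; positivity
  -- expand the square
  have hexp : ∑ m ∈ M, (∑ d ∈ (Icc 1 R).filter (fun d => d ∣ m), lam d) ^ 2
      = ∑ d ∈ Icc 1 R, ∑ d' ∈ Icc 1 R, lam d * lam d' *
        (((Ioc x (x + y)).filter fun m : ℕ => m ≡ b [MOD q] ∧ Nat.lcm d d' ∣ m).card : ℝ) := by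
    have e1 : ∀ m ∈ M, (∑ d ∈ (Icc 1 R).filter (fun d => d ∣ m), lam d) ^ 2
        = ∑ d ∈ Icc 1 R, ∑ d' ∈ Icc 1 R, lam d * lam d' *
          (if Nat.lcm d d' ∣ m then (1 : ℝ) else 0) := by
      intro m _
      rw [Finset.sum_filter, sq, Finset.sum_mul_sum]
      apply Finset.sum_congr rfl; intro d _
      apply Finset.sum_congr rfl; intro d' _
      by_cases ha : d ∣ m <;> by_cases hb : d' ∣ m
      · rw [if_pos ha, if_pos hb, if_pos (Nat.lcm_dvd ha hb), mul_one]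
      · rw [if_neg hb, if_neg (fun h => hb ((Nat.dvd_lcm_right d d').trans h))]; simp
      · rw [if_neg ha, if_neg (fun h => ha ((Nat.dvd_lcm_left d d').trans h))]; simp
      · rw [if_neg ha, if_neg (fun h => ha ((Nat.dvd_lcm_left d d').trans h))]; simp
    rw [Finset.sum_congr rfl e1, Finset.sum_comm]
    apply Finset.sum_congr rfl; intro d _
    rw [Finset.sum_comm]
    apply Finset.sum_congr rfl; intro d' _
    rw [← Finset.mul_sum]
    congr 1
    rw [← Finset.sum_filter, hM, Finset.filter_filter]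
    simp
  -- each term
  have hterm : ∀ d ∈ Icc 1 R, ∀ d' ∈ Icc 1 R, lam d * lam d' *
        (((Ioc x (x + y)).filter fun m : ℕ => m ≡ b [MOD q] ∧ Nat.lcm d d' ∣ m).card : ℝ)
      ≤ ((y : ℝ) / q) * (lam d * lam d' / (Nat.lcm d d' : ℝ)) + 1 := by
    intro d hd d' hd'
    by_cases h0 : lam d * lam d' = 0
    · rw [h0]; simp
    obtain ⟨a1, -, a3⟩ := h3 d (left_ne_zero_of_mul h0)
    obtain ⟨a1', -, a3'⟩ := h3 d' (right_ne_zero_of_mul h0)
    have hL : 1 ≤ Nat.lcm d d' := Nat.lcm_pos a1 a1'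
    have hLR : (0 : ℝ) < (Nat.lcm d d' : ℝ) := by exact_mod_cast hL
    have hc : Nat.Coprime (Nat.lcm d d') q :=
      Nat.Coprime.coprime_dvd_left (Nat.lcm_dvd_mul d d') (Nat.Coprime.mul_left a3 a3')
    have h5 := count_le q (Nat.lcm d d') b x y hq hL hc
    set n := (((Ioc x (x + y)).filter fun m : ℕ => m ≡ b [MOD q] ∧ Nat.lcm d d' ∣ m).card : ℝ)
      with hn
    have h6 : |lam d * lam d'| ≤ 1 := by
      rw [abs_mul]
      exact mul_le_one₀ (h2 d) (abs_nonneg _) (h2 d')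
    have e1 : ((y : ℝ) / q) * (lam d * lam d' / (Nat.lcm d d' : ℝ))
        = lam d * lam d' * ((y : ℝ) / (q * (Nat.lcm d d' : ℝ))) := by
      field_simp
    rw [e1]
    have h7 : lam d * lam d' * (n - (y : ℝ) / (q * (Nat.lcm d d' : ℝ))) ≤ 1 := by
      refine (le_abs_self _).trans ?_
      rw [abs_mul]
      exact mul_le_one₀ h6 (abs_nonneg _) h5
    linarith
  have hsum : ∑ d ∈ Icc 1 R, ∑ d' ∈ Icc 1 R, lam d * lam d' *
        (((Ioc x (x + y)).filter fun m : ℕ => m ≡ b [MOD q] ∧ Nat.lcm d d' ∣ m).card : ℝ)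
      ≤ ((y : ℝ) / q) * (∑ d ∈ Icc 1 R, ∑ d' ∈ Icc 1 R, lam d * lam d' / (Nat.lcm d d' : ℝ))
        + (R : ℝ) ^ 2 := by
    calc _ ≤ ∑ d ∈ Icc 1 R, ∑ d' ∈ Icc 1 R,
          (((y : ℝ) / q) * (lam d * lam d' / (Nat.lcm d d' : ℝ)) + 1) :=
          Finset.sum_le_sum (fun d hd => Finset.sum_le_sum (hterm d hd))
      _ = _ := by
          simp only [Finset.sum_add_distrib, ← Finset.mul_sum]
          simp
          ring
  have hmain : ((y : ℝ) / q) * (∑ d ∈ Icc 1 R, ∑ d' ∈ Icc 1 R,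
        lam d * lam d' / (Nat.lcm d d' : ℝ)) ≤ C * y / ((Nat.totient q : ℝ) * Real.log R) := by
    calc _ ≤ ((y : ℝ) / q) * (C * ((q : ℝ) / Nat.totient q) / Real.log R) := by
          gcongr
      _ = _ := by field_simp
  linarith [hsplit, hw, hexp, hsum, hmain]

end Sel

/-- The Brun-Titchmarsh inequality (small moduli). -/
theorem brun_titchmarsh : ∃ C : ℝ, 0 < C ∧ ∀ q b x y : ℕ, 1 ≤ q → Nat.Coprime b q → 2 ≤ y →
    q ^ 2 ≤ y →
    (((Ioc x (x + y)).filter fun p : ℕ => p.Prime ∧ p ≡ b [MOD q]).card : ℝ)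
      ≤ C * y / ((Nat.totient q : ℝ) * Real.log y) := by
  obtain ⟨C, hC, hw⟩ := selberg_weights
  refine ⟨16 * C + 256, by positivity, fun q b x y hq _ hy hqy => ?_⟩
  have hq' : (1 : ℝ) ≤ q := by exact_mod_cast hq
  have hy' : (2 : ℝ) ≤ y := by exact_mod_cast hy
  have hphi : (0 : ℝ) < (Nat.totient q : ℝ) := by exact_mod_cast Nat.totient_pos.2 hq
  have hphiq : (Nat.totient q : ℝ) ≤ q := by exact_mod_cast Nat.totient_le q
  have hlogy : (0 : ℝ) < Real.log y := Real.log_pos (by linarith)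
  set R := Nat.sqrt (Nat.sqrt (Nat.sqrt y)) with hR
  have hR1 : R ^ 8 ≤ y := by
    have a1 : R ^ 2 ≤ Nat.sqrt (Nat.sqrt y) := Nat.sqrt_le' _
    have a2 : (Nat.sqrt (Nat.sqrt y)) ^ 2 ≤ Nat.sqrt y := Nat.sqrt_le' _
    have a3 : (Nat.sqrt y) ^ 2 ≤ y := Nat.sqrt_le' _
    calc R ^ 8 = ((R ^ 2) ^ 2) ^ 2 := by ring
      _ ≤ ((Nat.sqrt (Nat.sqrt y)) ^ 2) ^ 2 := by gcongr
      _ ≤ (Nat.sqrt y) ^ 2 := by gcongr
      _ ≤ y := a3
  have hR2 : y < (R + 1) ^ 8 := by
    have a1 : Nat.sqrt (Nat.sqrt y) < (R + 1) ^ 2 := Nat.lt_succ_sqrt' _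
    have a2 : Nat.sqrt y < (Nat.sqrt (Nat.sqrt y) + 1) ^ 2 := Nat.lt_succ_sqrt' _
    have a3 : y < (Nat.sqrt y + 1) ^ 2 := Nat.lt_succ_sqrt' _
    calc y < (Nat.sqrt y + 1) ^ 2 := a3
      _ ≤ ((Nat.sqrt (Nat.sqrt y) + 1) ^ 2) ^ 2 := by gcongr; omega
      _ ≤ (((R + 1) ^ 2) ^ 2) ^ 2 := by gcongr; omega
      _ = (R + 1) ^ 8 := by ring
  by_cases hR3 : 2 ≤ R
  · obtain ⟨lam, h1, h2, h3, h4⟩ := hw q R hq hR3
    have h5 := Sel.sieve C q R b x y hq lam h1 h2 h3 hR3 h4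
    refine h5.trans ?_
    have hRR : (2 : ℝ) ≤ R := by exact_mod_cast hR3
    have hlogR : 0 < Real.log R := Real.log_pos (by linarith)
    have hl1 : Real.log y ≤ 8 * Real.log (R + 1 : ℕ) := by
      have : (y : ℝ) ≤ ((R + 1 : ℕ) : ℝ) ^ 8 := by exact_mod_cast hR2.le
      calc Real.log y ≤ Real.log (((R + 1 : ℕ) : ℝ) ^ 8) := Real.log_le_log (by linarith) this
        _ = 8 * Real.log (R + 1 : ℕ) := by rw [Real.log_pow]; norm_num
    have hl2 : Real.log (R + 1 : ℕ) ≤ 2 * Real.log R := by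
      have : ((R + 1 : ℕ) : ℝ) ≤ (R : ℝ) ^ 2 := by push_cast; nlinarith
      calc Real.log (R + 1 : ℕ) ≤ Real.log ((R : ℝ) ^ 2) := Real.log_le_log (by positivity) this
        _ = 2 * Real.log R := by rw [Real.log_pow]; norm_num
    have hl3 : Real.log (R + 1 : ℕ) ≤ R := by
      have := Real.log_le_sub_one_of_pos (show (0 : ℝ) < ((R + 1 : ℕ) : ℝ) by positivity)
      push_cast at this ⊢
      linarith
    have t1 : C * y / ((Nat.totient q : ℝ) * Real.log R)
        ≤ (16 * C) * y / ((Nat.totient q : ℝ) * Real.log y) := by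
      rw [div_le_div_iff₀ (by positivity) (by positivity)]
      have : Real.log y ≤ 16 * Real.log R := by linarith
      calc C * y * ((Nat.totient q : ℝ) * Real.log y)
          ≤ C * y * ((Nat.totient q : ℝ) * (16 * Real.log R)) := by gcongr
        _ = _ := by ring
    have t2 : (R : ℝ) ^ 2 + R ≤ 256 * y / ((Nat.totient q : ℝ) * Real.log y) := by
      rw [le_div_iff₀ (by positivity)]
      have b1 : (R : ℝ) ^ 4 * q ≤ y := by
        have c1 : ((R : ℝ) ^ 4) ^ 2 ≤ y := by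
          have : ((R ^ 8 : ℕ) : ℝ) ≤ y := by exact_mod_cast hR1
          push_cast at this
          have e : ((R : ℝ) ^ 4) ^ 2 = (R : ℝ) ^ 8 := by ring
          rw [e]; exact this
        have c2 : (q : ℝ) ^ 2 ≤ y := by exact_mod_cast hqy
        have c3 : ((R : ℝ) ^ 4 * q) ^ 2 ≤ (y : ℝ) ^ 2 := by
          rw [mul_pow]
          calc ((R : ℝ) ^ 4) ^ 2 * (q : ℝ) ^ 2 ≤ y * y := by gcongr
            _ = (y : ℝ) ^ 2 := by ring
        exact le_of_sq_le_sq c3 (by linarith)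
      have b2 : (R : ℝ) ^ 2 + R ≤ 2 * (R : ℝ) ^ 2 := by nlinarith
      have b3 : Real.log y ≤ 8 * R := by linarith
      calc ((R : ℝ) ^ 2 + R) * ((Nat.totient q : ℝ) * Real.log y)
          ≤ (2 * (R : ℝ) ^ 2) * (q * (8 * R)) := by gcongr
        _ = 16 * ((R : ℝ) ^ 3 * q) := by ring
        _ ≤ 16 * ((R : ℝ) ^ 4 * q) := by
            have : (R : ℝ) ^ 3 ≤ (R : ℝ) ^ 4 := pow_le_pow_right₀ (by linarith) (by norm_num)
            gcongr
        _ ≤ 256 * y := by nlinarith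
    have t3 : (16 * C + 256) * y / ((Nat.totient q : ℝ) * Real.log y)
        = (16 * C) * y / ((Nat.totient q : ℝ) * Real.log y)
          + 256 * y / ((Nat.totient q : ℝ) * Real.log y) := by ring
    rw [t3]
    linarith
  · -- small y
    have hyb : y < 256 := by
      calc y < (R + 1) ^ 8 := hR2
        _ ≤ 2 ^ 8 := by gcongr; omega
        _ = 256 := by norm_num
    have hyb' : (y : ℝ) < 256 := by exact_mod_cast hyb
    have hqb : (q : ℝ) ≤ 16 := by
      have : q ≤ 16 := by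
        by_contra h
        have : 17 ≤ q := by omega
        nlinarith
      exact_mod_cast this
    have hcard : (((Ioc x (x + y)).filter fun p : ℕ => p.Prime ∧ p ≡ b [MOD q]).card : ℝ)
        ≤ y := by
      have : ((Ioc x (x + y)).filter fun p : ℕ => p.Prime ∧ p ≡ b [MOD q]).card ≤ y := by
        calc _ ≤ (Ioc x (x + y)).card := Finset.card_filter_le _ _
          _ = y := by simp
      exact_mod_cast this
    refine hcard.trans ?_
    rw [le_div_iff₀ (by positivity)]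
    have hl : Real.log y ≤ 16 := by
      have e1 : Real.log y ≤ Real.log 256 := Real.log_le_log (by linarith) hyb'.le
      have e2 : Real.log 256 = 8 * Real.log 2 := by
        rw [show (256 : ℝ) = 2 ^ 8 by norm_num, Real.log_pow]; norm_num
      have e3 := Real.log_two_lt_d9
      linarith
    calc (y : ℝ) * ((Nat.totient q : ℝ) * Real.log y) ≤ y * (16 * 16) := by gcongr; linarith
      _ = 256 * y := by ring
      _ ≤ (16 * C + 256) * y := by nlinarith

end Pool.Agent.Lib.MP_663568_nt.Nul
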