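import Mathlib
import Pool.Agent.Lib.MP_663568_nul.Units
import Pool.Agent.Lib.MP_663568_nul.Sel

set_option autoImplicit false
open Finset Polynomial

namespace Pool.Agent.Lib.MP_663568_nt.Nul

open Katai

namespace FrostAux

/-- The square of a short exponential sum majorises the indicator of `nd x ≤ u`. -/
lemma majorant {K : ℕ} (hK : 0 < K) {u x : ℝ} (hKu : 8 * u * K ≤ 1) (hx : nd x ≤ u) :
    1 ≤ 4 / (K : ℝ) ^ 2 * ‖∑ j ∈ range K, ee ((j : ℝ) * x)‖ ^ 2 := by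
  obtain ⟨n, hn⟩ := nd_exists x
  set y := x - n with hy
  have hKr : (0 : ℝ) < K := by exact_mod_cast hK
  have h1 : ∀ j : ℕ, ee ((j : ℝ) * x) = ee ((j : ℝ) * y) := by
    intro j
    have : (j : ℝ) * x = (j : ℝ) * y + ((j * n : ℤ) : ℝ) := by rw [hy]; push_cast; ring
    rw [this, ee_add, ee_int, mul_one]
  have hyu : |y| ≤ u := by rw [← hn]; exact hx
  have h2 : ∀ j ∈ range K, (1 : ℝ) / 2 ≤ (ee ((j : ℝ) * y)).re := by
    intro j hj
    rw [mem_range] at hj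
    have hjr : (j : ℝ) ≤ K := by exact_mod_cast hj.le
    have e1 : (ee ((j : ℝ) * y)).re = Real.cos (2 * Real.pi * (j * y)) := by
      rw [ee, show (2 * Real.pi * Complex.I * ((j * y : ℝ) : ℂ) : ℂ)
        = ((2 * Real.pi * (j * y) : ℝ) : ℂ) * Complex.I by push_cast; ring]
      rw [Complex.exp_ofReal_mul_I_re]
    rw [e1]
    have h3 := Real.one_sub_sq_div_two_le_cos (x := 2 * Real.pi * (j * y))
    have h4 : |(j : ℝ) * y| ≤ 1 / 8 := by
      rw [abs_mul, abs_of_nonneg (by positivity : (0 : ℝ) ≤ j)]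
      calc (j : ℝ) * |y| ≤ K * u := by gcongr
        _ ≤ 1 / 8 := by linarith
    have h5 : ((j : ℝ) * y) ^ 2 ≤ 1 / 64 := by
      rw [← sq_abs]
      nlinarith [abs_nonneg ((j : ℝ) * y)]
    have hpi := Real.pi_lt_d2
    have hpi0 := Real.pi_pos
    have h6 : Real.pi ^ 2 ≤ 10 := by nlinarith
    have h7 : (2 * Real.pi * (j * y)) ^ 2 / 2 = 2 * Real.pi ^ 2 * (j * y) ^ 2 := by ring
    rw [h7] at h3
    have h8 : 2 * Real.pi ^ 2 * ((j : ℝ) * y) ^ 2 ≤ 2 * 10 * (1 / 64) := by gcongr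
    linarith
  have h3 : (K : ℝ) / 2 ≤ ‖∑ j ∈ range K, ee ((j : ℝ) * x)‖ := by
    refine le_trans ?_ (Complex.re_le_norm _)
    rw [Complex.re_sum]
    calc (K : ℝ) / 2 = ∑ j ∈ range K, (1 : ℝ) / 2 := by simp; ring
      _ ≤ _ := sum_le_sum fun j hj => by rw [h1 j]; exact h2 j hj
  have h4 : ((K : ℝ) / 2) ^ 2 ≤ ‖∑ j ∈ range K, ee ((j : ℝ) * x)‖ ^ 2 := by gcongr
  calc (1 : ℝ) = 4 / (K : ℝ) ^ 2 * ((K : ℝ) / 2) ^ 2 := by field_simp; norm_num
    _ ≤ _ := by gcongr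

/-- Expansion of the majorant. -/
lemma expand (K : ℕ) (I : Finset ℕ) (g : ℕ → ℝ) (θ : ℝ) (w : ℕ → ℝ) (hw : ∀ m, 0 ≤ w m)
    (E0 E1 : ℝ) (hE1 : 0 ≤ E1) (h0 : ∑ m ∈ I, w m ≤ E0)
    (h1 : ∀ k : ℤ, k ≠ 0 → |k| < K → ‖∑ m ∈ I, (w m : ℂ) * ee (k * g m)‖ ≤ E1) :
    ∑ m ∈ I, w m * ‖∑ j ∈ range K, ee ((j : ℝ) * (g m - θ))‖ ^ 2 ≤ K * E0 + K ^ 2 * E1 := by
  have hc : ((∑ m ∈ I, w m * ‖∑ j ∈ range K, ee ((j : ℝ) * (g m - θ))‖ ^ 2 : ℝ) : ℂ)
      = ∑ j ∈ range K, ∑ j' ∈ range K, ee (((j' : ℝ) - j) * θ) *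
        ∑ m ∈ I, (w m : ℂ) * ee (((j : ℤ) - j' : ℤ) * g m) := by
    push_cast
    have e1 : ∀ m, ((‖∑ j ∈ range K, ee ((j : ℝ) * (g m - θ))‖ : ℝ) : ℂ) ^ 2
        = ∑ j ∈ range K, ∑ j' ∈ range K, ee (((j' : ℝ) - j) * θ) * ee (((j : ℝ) - j') * g m) := by
      intro m
      rw [← Complex.mul_conj', map_sum, sum_mul_sum]
      refine sum_congr rfl fun j _ => sum_congr rfl fun j' _ => ?_
      rw [conj_ee, ← ee_add, ← ee_add]
      congr 1; ring
    simp_rw [e1]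
    calc _ = ∑ m ∈ I, ∑ j ∈ range K, ∑ j' ∈ range K,
          (w m : ℂ) * (ee (((j' : ℝ) - j) * θ) * ee (((j : ℝ) - j') * g m)) := by
          refine sum_congr rfl fun m _ => ?_
          rw [mul_sum]
          refine sum_congr rfl fun j _ => ?_
          rw [mul_sum]
      _ = ∑ j ∈ range K, ∑ j' ∈ range K, ∑ m ∈ I,
          (w m : ℂ) * (ee (((j' : ℝ) - j) * θ) * ee (((j : ℝ) - j') * g m)) := by
          rw [sum_comm]
          refine sum_congr rfl fun j _ => ?_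
          rw [sum_comm]
      _ = _ := by
          refine sum_congr rfl fun j _ => sum_congr rfl fun j' _ => ?_
          rw [mul_sum]
          refine sum_congr rfl fun m _ => ?_
          ring
  have hpos : 0 ≤ ∑ m ∈ I, w m * ‖∑ j ∈ range K, ee ((j : ℝ) * (g m - θ))‖ ^ 2 :=
    sum_nonneg fun m _ => mul_nonneg (hw m) (by positivity)
  have hS0 : 0 ≤ ∑ m ∈ I, w m := sum_nonneg fun m _ => hw m
  have hle : ∀ j ∈ range K, ∀ j' ∈ range K, ‖ee (((j' : ℝ) - j) * θ) *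
        ∑ m ∈ I, (w m : ℂ) * ee (((j : ℤ) - j' : ℤ) * g m)‖ ≤ (if j = j' then E0 else 0) + E1 := by
    intro j hj j' hj'
    rw [mem_range] at hj hj'
    rw [norm_mul, norm_ee, one_mul]
    by_cases hjj : j = j'
    · subst hjj
      simp only [sub_self, Int.cast_zero, zero_mul, if_true]
      have : ∑ m ∈ I, (w m : ℂ) * ee 0 = ((∑ m ∈ I, w m : ℝ) : ℂ) := by
        have h00 : ee 0 = 1 := by simpa using ee_int 0
        rw [h00]; push_cast; simp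
      rw [this, Complex.norm_real, Real.norm_eq_abs, abs_of_nonneg hS0]
      linarith
    · rw [if_neg hjj, zero_add]
      apply h1
      · omega
      · rw [abs_lt]; constructor <;> omega
  calc _ = ‖((∑ m ∈ I, w m * ‖∑ j ∈ range K, ee ((j : ℝ) * (g m - θ))‖ ^ 2 : ℝ) : ℂ)‖ := by
        rw [Complex.norm_real, Real.norm_eq_abs, abs_of_nonneg hpos]
    _ ≤ ∑ j ∈ range K, ∑ j' ∈ range K, ‖ee (((j' : ℝ) - j) * θ) *
        ∑ m ∈ I, (w m : ℂ) * ee (((j : ℤ) - j' : ℤ) * g m)‖ := by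
        rw [hc]
        exact (norm_sum_le _ _).trans (sum_le_sum fun j _ => norm_sum_le _ _)
    _ ≤ ∑ j ∈ range K, ∑ j' ∈ range K, ((if j = j' then E0 else 0) + E1) :=
        sum_le_sum fun j hj => sum_le_sum fun j' hj' => hle j hj j' hj'
    _ = K * E0 + K ^ 2 * E1 := by
        have : ∀ j ∈ range K, ∑ j' ∈ range K, ((if j = j' then E0 else 0) + E1) = E0 + K * E1 := by
          intro j hj
          rw [sum_add_distrib, sum_ite_eq, if_pos hj]; simp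
        rw [sum_congr rfl this]; simp; ring

/-- Selberg's square. -/
noncomputable def sw (R : ℕ) (lam : ℕ → ℝ) (m : ℕ) : ℝ :=
  (∑ d ∈ Icc 1 R, if d ∣ m then lam d else 0) ^ 2

lemma sw_nonneg (R : ℕ) (lam : ℕ → ℝ) (m : ℕ) : 0 ≤ sw R lam m := sq_nonneg _

lemma sw_prime {R : ℕ} (hR : 1 ≤ R) {lam : ℕ → ℝ} (h1 : lam 1 = 1) {p : ℕ} (hp : p.Prime)
    (hpR : R < p) : sw R lam p = 1 := by
  have : ∑ d ∈ Icc 1 R, (if d ∣ p then lam d else 0) = lam 1 := by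
    rw [sum_eq_single 1]
    · simp
    · intro d hd hd1
      rw [mem_Icc] at hd
      rw [if_neg]
      intro h
      rcases (Nat.dvd_prime hp).mp h with h | h
      · exact hd1 h
      · omega
    · intro h
      exact absurd (mem_Icc.mpr ⟨le_refl _, hR⟩) h
  rw [sw, this, h1]; norm_num

lemma sw_sum (R : ℕ) (lam : ℕ → ℝ) (I : Finset ℕ) (f : ℕ → ℂ) :
    ∑ m ∈ I, (sw R lam m : ℂ) * f m = ∑ d ∈ Icc 1 R, ∑ d' ∈ Icc 1 R, (lam d : ℂ) * lam d' *
      ∑ m ∈ I.filter (fun m => Nat.lcm d d' ∣ m), f m := by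
  have e1 : ∀ m, (sw R lam m : ℂ) = ∑ d ∈ Icc 1 R, ∑ d' ∈ Icc 1 R,
      (lam d : ℂ) * lam d' * (if Nat.lcm d d' ∣ m then 1 else 0) := by
    intro m
    rw [sw]; push_cast
    rw [sq, sum_mul_sum]
    refine sum_congr rfl fun d _ => sum_congr rfl fun d' _ => ?_
    by_cases h1 : d ∣ m <;> by_cases h2 : d' ∣ m
    · rw [if_pos h1, if_pos h2, if_pos (Nat.lcm_dvd h1 h2), mul_one]
    · rw [if_neg h2, if_neg (fun h => h2 ((Nat.dvd_lcm_right d d').trans h))]; simp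
    · rw [if_neg h1, if_neg (fun h => h1 ((Nat.dvd_lcm_left d d').trans h))]; simp
    · rw [if_neg h1, if_neg (fun h => h1 ((Nat.dvd_lcm_left d d').trans h))]; simp
  simp_rw [e1]
  calc _ = ∑ m ∈ I, ∑ d ∈ Icc 1 R, ∑ d' ∈ Icc 1 R,
        (lam d : ℂ) * lam d' * (if Nat.lcm d d' ∣ m then f m else 0) := by
        refine sum_congr rfl fun m _ => ?_
        rw [sum_mul]
        refine sum_congr rfl fun d _ => ?_
        rw [sum_mul]
        refine sum_congr rfl fun d' _ => ?_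
        split_ifs <;> simp
    _ = ∑ d ∈ Icc 1 R, ∑ d' ∈ Icc 1 R, ∑ m ∈ I,
        (lam d : ℂ) * lam d' * (if Nat.lcm d d' ∣ m then f m else 0) := by
        rw [sum_comm]
        refine sum_congr rfl fun j _ => ?_
        rw [sum_comm]
    _ = _ := by
        refine sum_congr rfl fun d _ => sum_congr rfl fun d' _ => ?_
        rw [← mul_sum, sum_filter]

/-- Multiples of `e` in an interval. -/
lemma sum_mult (e a b : ℕ) (he : 0 < e) (f : ℕ → ℂ) :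
    ∑ m ∈ (Ioc a b).filter (fun m => e ∣ m), f m = ∑ m ∈ Ioc (a / e) (b / e), f (e * m) := by
  symm
  apply sum_nbij (fun m => e * m)
  · intro m hm
    rw [mem_Ioc] at hm
    rw [mem_filter, mem_Ioc]
    refine ⟨⟨?_, ?_⟩, Dvd.intro _ rfl⟩
    · have := (Nat.div_lt_iff_lt_mul he).mp hm.1
      rwa [mul_comm] at this
    · have := (Nat.le_div_iff_mul_le he).mp hm.2
      rwa [mul_comm] at this
  · intro x _ y _ h
    exact Nat.eq_of_mul_eq_mul_left he h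
  · intro m hm
    rw [mem_coe, mem_filter, mem_Ioc] at hm
    obtain ⟨⟨h1, h2⟩, c, rfl⟩ := hm
    refine ⟨c, ?_, rfl⟩
    rw [mem_coe, mem_Ioc]
    exact ⟨(Nat.div_lt_iff_lt_mul he).mpr (by rwa [mul_comm]),
      (Nat.le_div_iff_mul_le he).mpr (by rwa [mul_comm])⟩
  · intro m _; rfl

/-- The number of multiples of `e` in `(Y, 4 Y]`. -/
lemma card_mult (e Y : ℕ) (he : 0 < e) :
    |((((Ioc Y (4 * Y)).filter (fun m => e ∣ m)).card : ℕ) : ℝ) - 3 * Y / e| ≤ 1 := by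
  have h := sum_mult e Y (4 * Y) he (fun _ => 1)
  simp only [sum_const, nsmul_eq_mul, mul_one, Nat.card_Ioc] at h
  have h1 : ((Ioc Y (4 * Y)).filter (fun m => e ∣ m)).card = 4 * Y / e - Y / e := by
    exact_mod_cast h
  rw [h1]
  have hle : Y / e ≤ 4 * Y / e := Nat.div_le_div_right (by omega)
  rw [Nat.cast_sub hle]
  have her : (0 : ℝ) < e := by exact_mod_cast he
  have a1 : ((4 * Y / e : ℕ) : ℝ) ≤ 4 * Y / e := by
    have := @Nat.cast_div_le ℝ _ _ _ (4 * Y) e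
    push_cast at this; exact this
  have a2 : (4 * Y : ℝ) / e < ((4 * Y / e : ℕ) : ℝ) + 1 := by
    rw [div_lt_iff₀ her]
    have := Nat.lt_div_mul_add he (a := 4 * Y)
    have h3 : ((4 * Y : ℕ) : ℝ) < ((4 * Y / e : ℕ) : ℝ) * e + e := by exact_mod_cast this
    push_cast at h3; linarith
  have b1 : ((Y / e : ℕ) : ℝ) ≤ Y / e := Nat.cast_div_le
  have b2 : (Y : ℝ) / e < ((Y / e : ℕ) : ℝ) + 1 := by
    rw [div_lt_iff₀ her]
    have := Nat.lt_div_mul_add he (a := Y)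
    have h3 : ((Y : ℕ) : ℝ) < ((Y / e : ℕ) : ℝ) * e + e := by exact_mod_cast this
    linarith
  have c1 : (3 : ℝ) * Y / e = 4 * Y / e - Y / e := by ring
  rw [c1, abs_le]
  constructor <;> linarith

/-- Total mass of Selberg's square on `(Y, 4 Y]`. -/
lemma sw_total (R Y : ℕ) (lam : ℕ → ℝ) (hlam : ∀ d, |lam d| ≤ 1) (Q : ℝ)
    (hQ : ∑ d ∈ Icc 1 R, ∑ d' ∈ Icc 1 R, lam d * lam d' / (Nat.lcm d d' : ℝ) ≤ Q) :
    ∑ m ∈ Ioc Y (4 * Y), sw R lam m ≤ 3 * Y * Q + R ^ 2 := by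
  have h := sw_sum R lam (Ioc Y (4 * Y)) (fun _ => 1)
  have h1 : ∑ m ∈ Ioc Y (4 * Y), sw R lam m = ∑ d ∈ Icc 1 R, ∑ d' ∈ Icc 1 R, lam d * lam d' *
      ((((Ioc Y (4 * Y)).filter (fun m => Nat.lcm d d' ∣ m)).card : ℕ) : ℝ) := by
    have h2 : ((∑ m ∈ Ioc Y (4 * Y), sw R lam m : ℝ) : ℂ)
        = ((∑ d ∈ Icc 1 R, ∑ d' ∈ Icc 1 R, lam d * lam d' *
      ((((Ioc Y (4 * Y)).filter (fun m => Nat.lcm d d' ∣ m)).card : ℕ) : ℝ) : ℝ) : ℂ) := by
      push_cast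
      simpa using h
    exact_mod_cast h2
  rw [h1]
  calc _ ≤ ∑ d ∈ Icc 1 R, ∑ d' ∈ Icc 1 R, (3 * Y * (lam d * lam d' / (Nat.lcm d d' : ℝ)) + 1) := by
        refine sum_le_sum fun d hd => sum_le_sum fun d' hd' => ?_
        rw [mem_Icc] at hd hd'
        have he : 0 < Nat.lcm d d' := Nat.lcm_pos hd.1 hd'.1
        have hc := card_mult (Nat.lcm d d') Y he
        set c := ((((Ioc Y (4 * Y)).filter (fun m => Nat.lcm d d' ∣ m)).card : ℕ) : ℝ)
        have hl : |lam d * lam d'| ≤ 1 := by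
          rw [abs_mul]
          exact mul_le_one₀ (hlam d) (abs_nonneg _) (hlam d')
        have e1 : lam d * lam d' * c = 3 * Y * (lam d * lam d' / (Nat.lcm d d' : ℝ))
            + lam d * lam d' * (c - 3 * Y / (Nat.lcm d d' : ℝ)) := by ring
        rw [e1]
        have e2 : lam d * lam d' * (c - 3 * Y / (Nat.lcm d d' : ℝ)) ≤ 1 := by
          refine (le_abs_self _).trans ?_
          rw [abs_mul]
          exact mul_le_one₀ hl (abs_nonneg _) hc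
        linarith
    _ = 3 * Y * (∑ d ∈ Icc 1 R, ∑ d' ∈ Icc 1 R, lam d * lam d' / (Nat.lcm d d' : ℝ)) + R ^ 2 := by
        simp only [sum_add_distrib, mul_sum]
        simp; ring
    _ ≤ _ := by gcongr

/-- Selberg's square against a function small along multiples. -/
lemma sw_small (R : ℕ) (lam : ℕ → ℝ) (hlam : ∀ d, |lam d| ≤ 1) (I : Finset ℕ) (f : ℕ → ℂ) (D : ℝ)
    (hD : ∀ e, 1 ≤ e → e ≤ R ^ 2 → ‖∑ m ∈ I.filter (fun m => e ∣ m), f m‖ ≤ D) :
    ‖∑ m ∈ I, (sw R lam m : ℂ) * f m‖ ≤ R ^ 2 * D := by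
  rw [sw_sum]
  calc _ ≤ ∑ d ∈ Icc 1 R, ∑ d' ∈ Icc 1 R, ‖(lam d : ℂ) * lam d' *
      ∑ m ∈ I.filter (fun m => Nat.lcm d d' ∣ m), f m‖ :=
        (norm_sum_le _ _).trans (sum_le_sum fun j _ => norm_sum_le _ _)
    _ ≤ ∑ d ∈ Icc 1 R, ∑ d' ∈ Icc 1 R, D := by
        refine sum_le_sum fun d hd => sum_le_sum fun d' hd' => ?_
        rw [mem_Icc] at hd hd'
        rw [norm_mul, norm_mul, Complex.norm_real, Complex.norm_real, Real.norm_eq_abs,
          Real.norm_eq_abs]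
        have hl : |lam d| * |lam d'| ≤ 1 := mul_le_one₀ (hlam d) (abs_nonneg _) (hlam d')
        have h1 := hD (Nat.lcm d d') (Nat.lcm_pos hd.1 hd'.1) (by
          calc Nat.lcm d d' ≤ d * d' := Nat.le_of_dvd (Nat.mul_pos hd.1 hd'.1) (Nat.lcm_dvd_mul d d')
            _ ≤ R * R := Nat.mul_le_mul hd.2 hd'.2
            _ = R ^ 2 := by ring)
        calc _ ≤ 1 * ‖∑ m ∈ I.filter (fun m => Nat.lcm d d' ∣ m), f m‖ := by gcongr
          _ ≤ D := by linarith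
    _ = R ^ 2 * D := by simp; ring

end FrostAux

end Pool.Agent.Lib.MP_663568_nt.Nul
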