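import Mathlib
import Pool.Agent.Lib.MP_663568_nul.FrostAux

set_option autoImplicit false
open Finset Polynomial

namespace Pool.Agent.Lib.MP_663568_nt.Nul

open Katai

namespace FrostAux

lemma sum_Ioc_eq (a b : ℕ) (hab : a ≤ b) (f : ℕ → ℂ) :
    ∑ m ∈ Ioc a b, f m = ∑ m ∈ Icc 1 b, f m - ∑ m ∈ Icc 1 a, f m := by
  rw [eq_sub_iff_add_eq, ← sum_union]
  · apply sum_congr _ (fun _ _ => rfl)
    ext x; simp only [mem_union, mem_Icc, mem_Ioc]; omega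
  · rw [disjoint_left]; intro x; simp only [mem_Icc, mem_Ioc]; omega

/-- A large frequency gives a rational approximation of `β`. -/
lemma bad_freq (t : ℕ) (ht : 1 ≤ t) (Cw : ℕ) (hCw : 1 ≤ Cw)
    (hW : ∀ (ρ : ℝ) (M : ℕ) (P : ℝ[X]),
      0 < ρ → ρ ≤ 1 / 2 → (1 / ρ) ^ Cw ≤ (M : ℝ) → P.natDegree ≤ t →
      ρ * M ≤ ‖∑ m ∈ Icc 1 M, ee (P.eval (m : ℝ))‖ →
      ∃ q : ℕ, 1 ≤ q ∧ (q : ℝ) ≤ (1 / ρ) ^ Cw ∧
        nd ((q : ℝ) * P.coeff t) ≤ (1 / ρ) ^ Cw / (M : ℝ) ^ t)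
    (n : ℕ) (hn : n = 5 * Cw + 5 * t + 3) (z : ℝ) (hz : 16 ≤ z) (Y : ℕ) (hY : (Y : ℝ) = z ^ (8 * n))
    (K R : ℕ) (hK : (K : ℝ) ≤ z) (hR : (R : ℝ) ≤ z) (β : ℝ) (k : ℤ) (hk0 : k ≠ 0) (hk : |k| < K)
    (e : ℕ) (he : 1 ≤ e) (heR : e ≤ R ^ 2)
    (hbig : (Y : ℝ) / z ^ 4 < ‖∑ m ∈ (Ioc Y (4 * Y)).filter (fun m => e ∣ m),
      ee (k * ((m : ℝ) ^ t * β))‖) :
    ∃ q : ℕ, 1 ≤ q ∧ (q : ℝ) ≤ z ^ n ∧ nd ((q : ℝ) * β) ≤ z ^ n / (Y : ℝ) ^ t := by
  have hz1 : (1 : ℝ) ≤ z := by linarith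
  have hz0 : (0 : ℝ) < z := by linarith
  have hY0 : (0 : ℝ) < Y := by rw [hY]; positivity
  have he0 : (0 : ℝ) < e := by exact_mod_cast he
  have hez : (e : ℝ) ≤ z ^ 2 := by
    calc (e : ℝ) ≤ (R : ℝ) ^ 2 := by exact_mod_cast heR
      _ ≤ z ^ 2 := by gcongr
  set g : ℝ := k * ((e : ℝ) ^ t * β) with hg
  set P : ℝ[X] := C g * X ^ t with hP
  have hPe : ∀ m : ℕ, P.eval (m : ℝ) = k * (((e * m : ℕ) : ℝ) ^ t * β) := by
    intro m; rw [hP, hg]; simp; ring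
  have hdiv : Y / e ≤ 4 * Y / e := Nat.div_le_div_right (by omega)
  rw [sum_mult e Y (4 * Y) he, sum_Ioc_eq _ _ hdiv] at hbig
  have hex : ∃ M : ℕ, M ≤ 4 * Y / e ∧ (Y : ℝ) / z ^ 4 / 2 < ‖∑ m ∈ Icc 1 M, ee (P.eval (m : ℝ))‖ := by
    simp only [hPe]
    by_contra hcon
    push Not at hcon
    have h1 := hcon _ (le_refl (4 * Y / e))
    have h2 := hcon _ hdiv
    have h3 := norm_sub_le (∑ m ∈ Icc 1 (4 * Y / e), ee (k * (((e * m : ℕ) : ℝ) ^ t * β)))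
      (∑ m ∈ Icc 1 (Y / e), ee (k * (((e * m : ℕ) : ℝ) ^ t * β)))
    linarith
  obtain ⟨M, hM, hMb⟩ := hex
  have hM4 : (M : ℝ) ≤ 4 * Y := by
    have : M ≤ 4 * Y := hM.trans (Nat.div_le_self _ _)
    exact_mod_cast this
  have hMn : ‖∑ m ∈ Icc 1 M, ee (P.eval (m : ℝ))‖ ≤ M := by
    calc _ ≤ ∑ m ∈ Icc 1 M, ‖ee (P.eval (m : ℝ))‖ := norm_sum_le _ _
      _ = M := by simp [norm_ee]
  have hMlow : z ^ (8 * n - 4) / 2 < M := by
    refine lt_of_eq_of_lt ?_ (hMb.trans_le hMn)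
    rw [hY]
    have : z ^ (8 * n) = z ^ (8 * n - 4) * z ^ 4 := by rw [← pow_add]; congr 1; omega
    rw [this]; field_simp
  set ρ : ℝ := 1 / (8 * z ^ 4) with hρ
  have hρ0 : 0 < ρ := by positivity
  have hρi : 1 / ρ = 8 * z ^ 4 := by rw [hρ]; simp
  have hpow : (1 / ρ) ^ Cw ≤ z ^ (5 * Cw) := by
    rw [hρi, pow_mul]
    gcongr
    calc 8 * z ^ 4 ≤ z * z ^ 4 := by gcongr; linarith
      _ = z ^ 5 := by ring
  have hpow2 : z ^ (5 * Cw) ≤ z ^ (8 * n - 4) / 2 := by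
    have h1 : z ^ (5 * Cw + 1) ≤ z ^ (8 * n - 4) := by
      apply pow_le_pow_right₀ hz1; omega
    rw [pow_succ] at h1
    have : z ^ (5 * Cw) * 2 ≤ z ^ (5 * Cw) * z := by gcongr; linarith
    linarith
  obtain ⟨q', hq1, hq2, hq3⟩ := hW ρ M P hρ0 (by
      rw [hρ, div_le_div_iff₀ (by positivity) (by norm_num)]
      have : (1 : ℝ) ≤ z ^ 4 := one_le_pow₀ hz1
      linarith)
    ((hpow.trans hpow2).trans hMlow.le) (by
      rw [hP]; exact (natDegree_C_mul_X_pow_le _ _)) (by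
      refine le_trans ?_ hMb.le
      rw [hρ]
      rw [div_mul_eq_mul_div, one_mul, div_div, div_le_div_iff₀ (by positivity) (by positivity)]
      have : (M : ℝ) * (z ^ 4 * 2) ≤ 4 * Y * (z ^ 4 * 2) := by gcongr
      linarith)
  have hcoeff : P.coeff t = g := by rw [hP]; simp
  rw [hcoeff] at hq3
  have hkz : ((k.natAbs : ℕ) : ℝ) ≤ z := by
    have : k.natAbs ≤ K := by
      rw [Int.abs_eq_natAbs] at hk
      omega
    calc ((k.natAbs : ℕ) : ℝ) ≤ K := by exact_mod_cast this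
      _ ≤ z := hK
  refine ⟨q' * k.natAbs * e ^ t, ?_, ?_, ?_⟩
  · have : 0 < k.natAbs := Int.natAbs_pos.mpr hk0
    have : 0 < q' * k.natAbs * e ^ t := by positivity
    exact this
  · push_cast
    calc (q' : ℝ) * (k.natAbs : ℕ) * (e : ℝ) ^ t ≤ z ^ (5 * Cw) * z * (z ^ 2) ^ t := by
          gcongr
          exact hq2.trans hpow
      _ = z ^ (5 * Cw + 1 + 2 * t) := by rw [← pow_mul, pow_add, pow_add, pow_one]
      _ ≤ z ^ n := by apply pow_le_pow_right₀ hz1; omega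
  · have e1 : nd (((q' * k.natAbs * e ^ t : ℕ) : ℝ) * β) = nd ((q' : ℝ) * g) := by
      rcases Int.natAbs_eq k with h | h
      · have : ((q' * k.natAbs * e ^ t : ℕ) : ℝ) * β = (q' : ℝ) * g := by
          rw [hg]
          have h' : (k : ℝ) = (k.natAbs : ℕ) := by
            conv_lhs => rw [h]
            simp
          rw [h']; push_cast; ring
        rw [this]
      · have : ((q' * k.natAbs * e ^ t : ℕ) : ℝ) * β = -((q' : ℝ) * g) := by
          rw [hg]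
          have h' : (k : ℝ) = -((k.natAbs : ℕ) : ℝ) := by
            conv_lhs => rw [h]
            simp
          rw [h']; push_cast; ring
        rw [this, nd_neg]
    rw [e1]
    refine hq3.trans ?_
    rw [div_le_div_iff₀ (by have : 0 < (M : ℝ) := lt_of_le_of_lt (by positivity) hMlow
                            positivity) (by positivity)]
    have hYM : (Y : ℝ) ≤ 2 * z ^ 4 * M := by
      have h1 : (Y : ℝ) / z ^ 4 / 2 < M := hMb.trans_le hMn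
      rw [div_div, div_lt_iff₀ (by positivity)] at h1
      linarith
    have hYt : (Y : ℝ) ^ t ≤ (z ^ 5) ^ t * (M : ℝ) ^ t := by
      rw [← mul_pow]
      gcongr
      refine hYM.trans ?_
      gcongr
      calc 2 * z ^ 4 ≤ z * z ^ 4 := by gcongr; linarith
        _ = z ^ 5 := by ring
    calc (1 / ρ) ^ Cw * (Y : ℝ) ^ t ≤ z ^ (5 * Cw) * ((z ^ 5) ^ t * (M : ℝ) ^ t) := by gcongr
      _ = z ^ (5 * Cw + 5 * t) * (M : ℝ) ^ t := by rw [← pow_mul, pow_add]; ring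
      _ ≤ z ^ n * (M : ℝ) ^ t := by
          gcongr
          omega

/-- Reduced fractions. -/
lemma reduce (β : ℝ) (q' : ℕ) (hq' : 1 ≤ q') (A B : ℝ) (h1 : (q' : ℝ) ≤ A)
    (h2 : nd ((q' : ℝ) * β) ≤ B) :
    ∃ (q : ℕ) (a : ℤ), 1 ≤ q ∧ (q : ℝ) ≤ A ∧ IsCoprime a (q : ℤ) ∧ |β - a / q| ≤ B ∧
      nd ((q : ℝ) * β) ≤ B := by
  obtain ⟨m, hm⟩ := nd_exists ((q' : ℝ) * β)
  have hq0 : (0 : ℝ) < q' := by exact_mod_cast hq'
  have hq1 : (1 : ℝ) ≤ q' := by exact_mod_cast hq'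
  set r : ℚ := (m : ℚ) / q' with hr
  have hrr : (r : ℝ) = m / q' := by rw [hr]; push_cast; ring
  have hdvd : (r.den : ℤ) ∣ (q' : ℤ) := by
    have h := Rat.den_dvd m (q' : ℤ)
    rw [hr]
    exact_mod_cast h
  have hdle : r.den ≤ q' := by
    have : r.den ∣ q' := by exact_mod_cast hdvd
    exact Nat.le_of_dvd (by omega) this
  have hden0 : (0 : ℝ) < r.den := by exact_mod_cast r.den_pos
  have hden1 : (1 : ℝ) ≤ r.den := by exact_mod_cast r.den_pos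
  have hrd : (r : ℝ) = r.num / r.den := by
    exact_mod_cast (Rat.num_div_den r).symm
  have hkey : |β - r.num / r.den| = nd ((q' : ℝ) * β) / q' := by
    rw [← hrd, hrr, hm, eq_div_iff hq0.ne', ← abs_of_pos hq0, ← abs_mul, abs_of_pos hq0]
    congr 1; field_simp
  have hdler : (r.den : ℝ) ≤ q' := by exact_mod_cast hdle
  refine ⟨r.den, r.num, r.den_pos, hdler.trans h1, ?_, ?_, ?_⟩
  · rw [Int.isCoprime_iff_nat_coprime]
    simpa using r.reduced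
  · rw [hkey]
    refine le_trans ?_ h2
    exact div_le_self (nd_nonneg _) hq1
  · refine (nd_le _ r.num).trans ?_
    have e1 : (r.den : ℝ) * β - r.num = r.den * (β - r.num / r.den) := by field_simp
    rw [e1, abs_mul, hkey, abs_of_pos hden0]
    calc (r.den : ℝ) * (nd ((q' : ℝ) * β) / q') = nd ((q' : ℝ) * β) * (r.den / q') := by ring
      _ ≤ nd ((q' : ℝ) * β) * 1 := by
          gcongr
          · exact nd_nonneg _
          · rw [div_le_one hq0]; exact hdler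
      _ ≤ B := by linarith

end FrostAux

end Pool.Agent.Lib.MP_663568_nt.Nul
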