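import Mathlib
import Pool.Agent.Lib.MP_663568_nul.FrostBad

set_option autoImplicit false
open Finset Polynomial

namespace Pool.Agent.Lib.MP_663568_nt.Nul

open Katai

namespace FrostAux

/-- Primes in a short interval, `β` close to `a / q`. -/
lemma local_count (t : ℕ) (CB CU u τ β θ : ℝ) (q : ℕ) (a : ℤ) (Y x y : ℕ) (hq : 1 ≤ q)
    (hqY : q ≤ Y) (hYx : Y ≤ x) (hy : 2 ≤ y) (hCB : 0 < CB) (hτ0 : 0 ≤ τ)
    (hBT : ∀ b : ℕ, Nat.Coprime b q →
      (((Ioc x (x + y)).filter fun p : ℕ => p.Prime ∧ p ≡ b [MOD q]).card : ℝ)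
        ≤ CB * y / ((Nat.totient q : ℝ) * Real.log y))
    (hU : ∀ θ : ℝ, (((range q).filter fun b : ℕ =>
        Nat.Coprime b q ∧ nd ((a : ℝ) * (b : ℝ) ^ t / q - θ) ≤ 2 * u).card : ℝ)
        ≤ CU * (2 * u) * Nat.totient q)
    (hτ : |β - a / q| ≤ τ) (hτu : τ * (y * t * (4 * (Y : ℝ)) ^ (t - 1)) ≤ u) :
    (((Ioc x (x + y)).filter fun p : ℕ => p.Prime ∧ p ≤ 4 * Y ∧
      nd ((p : ℝ) ^ t * β - θ) ≤ u).card : ℝ) ≤ 2 * CU * CB * u * y / Real.log y := by
  set θ' : ℝ := θ - (β - a / q) * (x : ℝ) ^ t with hθ'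
  set Rs := (range q).filter fun b : ℕ =>
        Nat.Coprime b q ∧ nd ((a : ℝ) * (b : ℝ) ^ t / q - θ') ≤ 2 * u with hRs
  have hq0 : (0 : ℝ) < q := by exact_mod_cast hq
  have hsub : ((Ioc x (x + y)).filter fun p : ℕ => p.Prime ∧ p ≤ 4 * Y ∧
      nd ((p : ℝ) ^ t * β - θ) ≤ u) ⊆ Rs.biUnion (fun b =>
        (Ioc x (x + y)).filter fun p : ℕ => p.Prime ∧ p ≡ b [MOD q]) := by
    intro p hp
    rw [mem_filter, mem_Ioc] at hp
    obtain ⟨⟨hp1, hp2⟩, hpp, hp4, hpn⟩ := hp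
    rw [mem_biUnion]
    refine ⟨p % q, ?_, ?_⟩
    · rw [hRs, mem_filter, mem_range]
      refine ⟨Nat.mod_lt _ hq, ?_, ?_⟩
      · have h1 : Nat.gcd (p % q) q = Nat.gcd p q := (Nat.mod_modEq p q).gcd_eq
        rw [Nat.Coprime, h1]
        rw [← Nat.Coprime, Nat.Prime.coprime_iff_not_dvd hpp]
        intro h
        have := Nat.le_of_dvd hq h
        omega
      · have hmod : (q : ℤ) ∣ (p : ℤ) ^ t - ((p % q : ℕ) : ℤ) ^ t := by
          have h1 : (p % q) ^ t ≡ p ^ t [MOD q] := (Nat.mod_modEq p q).pow t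
          have h2 := (Nat.modEq_iff_dvd.mp h1)
          exact_mod_cast h2
        obtain ⟨c, hc⟩ := hmod
        have hcr : (p : ℝ) ^ t = ((p % q : ℕ) : ℝ) ^ t + q * c := by
          have : ((p : ℤ) ^ t - ((p % q : ℕ) : ℤ) ^ t : ℤ) = (q : ℤ) * c := hc
          have h3 : (p : ℝ) ^ t - ((p % q : ℕ) : ℝ) ^ t = q * c := by exact_mod_cast this
          linarith
        have e1 : (a : ℝ) * ((p % q : ℕ) : ℝ) ^ t / q - θ'
            = ((p : ℝ) ^ t * β - θ - (β - a / q) * ((p : ℝ) ^ t - (x : ℝ) ^ t))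
              - ((a * c : ℤ) : ℝ) := by
          have h4 : ((p % q : ℕ) : ℝ) ^ t = (p : ℝ) ^ t - q * c := by linarith
          rw [h4, hθ']; push_cast; field_simp; ring
        rw [e1, nd_sub_int]
        have hpx : |(p : ℝ) ^ t - (x : ℝ) ^ t| ≤ y * t * (4 * (Y : ℝ)) ^ (t - 1) := by
          have h5 := abs_pow_sub_pow_le (p : ℝ) (x : ℝ) t
          have h6 : |(p : ℝ) - x| ≤ y := by
            have a1 : (x : ℝ) < p := by exact_mod_cast hp1
            have a2 : (p : ℝ) ≤ x + y := by exact_mod_cast hp2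
            rw [abs_le]; constructor <;> linarith
          have h7 : max |(p : ℝ)| |(x : ℝ)| ≤ 4 * (Y : ℝ) := by
            rw [abs_of_nonneg (by positivity), abs_of_nonneg (by positivity)]
            apply max_le
            · exact_mod_cast hp4
            · have : x ≤ 4 * Y := by omega
              exact_mod_cast this
          refine h5.trans ?_
          gcongr
        calc nd ((p : ℝ) ^ t * β - θ - (β - a / q) * ((p : ℝ) ^ t - (x : ℝ) ^ t))
            ≤ nd ((p : ℝ) ^ t * β - θ) + |(p : ℝ) ^ t * β - θ -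
              (β - a / q) * ((p : ℝ) ^ t - (x : ℝ) ^ t) - ((p : ℝ) ^ t * β - θ)| :=
              nd_le_add_abs _ _
          _ = nd ((p : ℝ) ^ t * β - θ) + |β - a / q| * |(p : ℝ) ^ t - (x : ℝ) ^ t| := by
              rw [← abs_mul]; congr 1; rw [← abs_neg]; congr 1; ring
          _ ≤ u + τ * (y * t * (4 * (Y : ℝ)) ^ (t - 1)) := by gcongr
          _ ≤ 2 * u := by linarith
    · rw [mem_filter, mem_Ioc]
      exact ⟨⟨hp1, hp2⟩, hpp, (Nat.mod_modEq p q).symm⟩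
  have hφ : (0 : ℝ) < Nat.totient q := by exact_mod_cast Nat.totient_pos.mpr hq
  have hlog : 0 < Real.log y := Real.log_pos (by exact_mod_cast hy)
  calc _ ≤ ((Rs.biUnion (fun b =>
        (Ioc x (x + y)).filter fun p : ℕ => p.Prime ∧ p ≡ b [MOD q])).card : ℝ) := by
        exact_mod_cast card_le_card hsub
    _ ≤ ∑ b ∈ Rs, (((Ioc x (x + y)).filter fun p : ℕ => p.Prime ∧ p ≡ b [MOD q]).card : ℝ) := by
        exact_mod_cast card_biUnion_le
    _ ≤ ∑ b ∈ Rs, CB * y / ((Nat.totient q : ℝ) * Real.log y) := by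
        refine sum_le_sum fun b hb => hBT b ?_
        rw [hRs, mem_filter] at hb
        exact hb.2.1
    _ = (Rs.card : ℝ) * (CB * y / ((Nat.totient q : ℝ) * Real.log y)) := by simp
    _ ≤ (CU * (2 * u) * Nat.totient q) * (CB * y / ((Nat.totient q : ℝ) * Real.log y)) := by
        gcongr
        exact hU θ'
    _ = 2 * CU * CB * u * y / Real.log y := by field_simp

/-- Summation over short intervals. -/
lemma total_count (t : ℕ) (B u β θ : ℝ) (Y y : ℕ) (hy : 1 ≤ y) (hyY : y ≤ Y) (hB : 0 ≤ B)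
    (h : ∀ x, Y ≤ x → (((Ioc x (x + y)).filter fun p : ℕ => p.Prime ∧ p ≤ 4 * Y ∧
      nd ((p : ℝ) ^ t * β - θ) ≤ u).card : ℝ) ≤ B * y) :
    (((Ioc Y (4 * Y)).filter fun p : ℕ => p.Prime ∧ nd ((p : ℝ) ^ t * β - θ) ≤ u).card : ℝ)
      ≤ 4 * B * Y := by
  have hsub : ((Ioc Y (4 * Y)).filter fun p : ℕ => p.Prime ∧ nd ((p : ℝ) ^ t * β - θ) ≤ u) ⊆
      (range (3 * Y / y + 1)).biUnion (fun i => (Ioc (Y + i * y) (Y + i * y + y)).filter
        fun p : ℕ => p.Prime ∧ p ≤ 4 * Y ∧ nd ((p : ℝ) ^ t * β - θ) ≤ u) := by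
    intro p hp
    rw [mem_filter, mem_Ioc] at hp
    obtain ⟨⟨hp1, hp2⟩, hpp, hpn⟩ := hp
    rw [mem_biUnion]
    obtain ⟨s, hs⟩ : ∃ s, p = Y + 1 + s := ⟨p - (Y + 1), by omega⟩
    refine ⟨s / y, ?_, ?_⟩
    · rw [mem_range]
      have : s / y ≤ 3 * Y / y := Nat.div_le_div_right (by omega)
      omega
    · rw [mem_filter, mem_Ioc]
      have h1 := Nat.div_mul_le_self s y
      have h2 := Nat.lt_div_mul_add hy (a := s)
      refine ⟨⟨by omega, by omega⟩, hpp, hp2, hpn⟩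
  have hy0 : (0 : ℝ) < y := by exact_mod_cast hy
  have hI : ((3 * Y / y + 1 : ℕ) : ℝ) * y ≤ 4 * Y := by
    have h1 : (3 * Y / y + 1) * y ≤ 4 * Y := by
      have := Nat.div_mul_le_self (3 * Y) y
      nlinarith
    exact_mod_cast h1
  calc _ ≤ (((range (3 * Y / y + 1)).biUnion (fun i => (Ioc (Y + i * y) (Y + i * y + y)).filter
        fun p : ℕ => p.Prime ∧ p ≤ 4 * Y ∧ nd ((p : ℝ) ^ t * β - θ) ≤ u)).card : ℝ) := by
        exact_mod_cast card_le_card hsub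
    _ ≤ ∑ i ∈ range (3 * Y / y + 1), (((Ioc (Y + i * y) (Y + i * y + y)).filter
        fun p : ℕ => p.Prime ∧ p ≤ 4 * Y ∧ nd ((p : ℝ) ^ t * β - θ) ≤ u).card : ℝ) := by
        exact_mod_cast card_biUnion_le
    _ ≤ ∑ i ∈ range (3 * Y / y + 1), B * y :=
        sum_le_sum fun i _ => h (Y + i * y) (Nat.le_add_right _ _)
    _ = B * (((3 * Y / y + 1 : ℕ) : ℝ) * y) := by
        rw [sum_const, card_range, nsmul_eq_mul]; ring
    _ ≤ B * (4 * Y) := by gcongr
    _ = _ := by ring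

/-- Uniform lower bound for the distances of small multiples. -/
lemma exists_delta (B : Set ℝ) (hB : IsCompact B) (hirr : ∀ x ∈ B, Irrational x) (q₀ : ℕ) :
    ∃ δ : ℝ, 0 < δ ∧ ∀ β ∈ B, ∀ q : ℕ, 1 ≤ q → q < q₀ → δ ≤ nd ((q : ℝ) * β) := by
  induction q₀ with
  | zero => exact ⟨1, one_pos, fun β _ q _ hq => by omega⟩
  | succ q₀ ih =>
    obtain ⟨δ, hδ, h⟩ := ih
    rcases B.eq_empty_or_nonempty with rfl | hne
    · exact ⟨1, one_pos, fun β hβ => absurd hβ (Set.notMem_empty _)⟩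
    rcases Nat.eq_zero_or_pos q₀ with rfl | hq
    · exact ⟨1, one_pos, fun β _ q _ hq => by omega⟩
    obtain ⟨b, hb, hmin⟩ := hB.exists_isMinOn hne (f := fun β => nd ((q₀ : ℝ) * β))
      (continuous_nd.comp (continuous_const.mul continuous_id)).continuousOn
    have hpos : 0 < nd ((q₀ : ℝ) * b) := nd_pos_of_irrational (hirr b hb) hq
    refine ⟨min δ (nd ((q₀ : ℝ) * b)), lt_min hδ hpos, ?_⟩
    intro β hβ q hq1 hq2
    rcases Nat.lt_succ_iff_lt_or_eq.mp hq2 with h3 | h3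
    · exact (min_le_left _ _).trans (h β hβ q hq1 h3)
    · subst h3
      exact (min_le_right _ _).trans (hmin hβ)

end FrostAux

end Pool.Agent.Lib.MP_663568_nt.Nul
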