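import Mathlib
import Pool.Agent.Lib.MP_663568_nul.FrostLoc

set_option autoImplicit false
open Finset Polynomial

namespace Pool.Agent.Lib.MP_663568_nt.Nul

open Katai

namespace FrostAux

/-- No large frequency. -/
lemma case_one (t K R Y : ℕ) (hK : 0 < K) (hR : 1 ≤ R) (hRY : R ≤ Y) (lam : ℕ → ℝ)
    (h1 : lam 1 = 1) (hlam : ∀ d, |lam d| ≤ 1) (Q D u β θ : ℝ) (hu : 8 * u * K ≤ 1)
    (hQ : ∑ d ∈ Icc 1 R, ∑ d' ∈ Icc 1 R, lam d * lam d' / (Nat.lcm d d' : ℝ) ≤ Q) (hD : 0 ≤ D)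
    (hall : ∀ k : ℤ, k ≠ 0 → |k| < K → ∀ e, 1 ≤ e → e ≤ R ^ 2 →
      ‖∑ m ∈ (Ioc Y (4 * Y)).filter (fun m => e ∣ m), ee (k * ((m : ℝ) ^ t * β))‖ ≤ D) :
    (((Ioc Y (4 * Y)).filter fun p : ℕ => p.Prime ∧ nd ((p : ℝ) ^ t * β - θ) ≤ u).card : ℝ)
      ≤ 4 / K * (3 * Y * Q + R ^ 2) + 4 * (R ^ 2 * D) := by
  have hKr : (0 : ℝ) < K := by exact_mod_cast hK
  have hex := expand K (Ioc Y (4 * Y)) (fun m => (m : ℝ) ^ t * β) θ (sw R lam) (sw_nonneg R lam)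
    (3 * Y * Q + R ^ 2) (R ^ 2 * D) (by positivity) (sw_total R Y lam hlam Q hQ)
    (fun k hk0 hk => sw_small R lam hlam _ _ D (hall k hk0 hk))
  have hle : (((Ioc Y (4 * Y)).filter fun p : ℕ =>
      p.Prime ∧ nd ((p : ℝ) ^ t * β - θ) ≤ u).card : ℝ)
      ≤ 4 / (K : ℝ) ^ 2 * ∑ m ∈ Ioc Y (4 * Y), sw R lam m *
        ‖∑ j ∈ range K, ee ((j : ℝ) * ((m : ℝ) ^ t * β - θ))‖ ^ 2 := by
    rw [mul_sum, card_eq_sum_ones, sum_filter]
    push_cast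
    refine sum_le_sum fun m hm => ?_
    rw [mem_Ioc] at hm
    split_ifs with h
    · rw [sw_prime hR h1 h.1 (by omega), one_mul]
      simpa using majorant hK hu h.2
    · have := sw_nonneg R lam m
      positivity
  refine hle.trans ?_
  calc _ ≤ 4 / (K : ℝ) ^ 2 * (K * (3 * Y * Q + R ^ 2) + K ^ 2 * (R ^ 2 * D)) := by gcongr
    _ = _ := by field_simp

lemma tau_bound (t n Y y : ℕ) (ht : 1 ≤ t) (hn : 1 ≤ n) (z u : ℝ) (hz1 : 1 ≤ z) (hu0 : 0 < u)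
    (hzY : (Y : ℝ) = z ^ (8 * n)) (hyz : (y : ℝ) ≤ z ^ (6 * n)) (hzt : t * 4 ^ t / u ≤ z) :
    z ^ n / (Y : ℝ) ^ t * (y * t * (4 * (Y : ℝ)) ^ (t - 1)) ≤ u := by
  obtain ⟨s, rfl⟩ : ∃ s, t = s + 1 := ⟨t - 1, by omega⟩
  have hz0 : 0 < z := by linarith
  have hY0 : (0 : ℝ) < Y := by rw [hzY]; positivity
  have hsplit : (Y : ℝ) = z ^ n * z ^ (6 * n) * z ^ n := by
    rw [hzY, ← pow_add, ← pow_add]; congr 1; ring
  have hznz : z ≤ z ^ n := le_self_pow₀ hz1 (by omega)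
  simp only [Nat.add_sub_cancel]
  calc z ^ n / (Y : ℝ) ^ (s + 1) * (y * ((s + 1 : ℕ) : ℝ) * (4 * (Y : ℝ)) ^ s)
      ≤ z ^ n / (Y : ℝ) ^ (s + 1) * (z ^ (6 * n) * ((s + 1 : ℕ) : ℝ) * (4 * (Y : ℝ)) ^ s) := by
        gcongr
    _ = ((s + 1 : ℕ) : ℝ) * 4 ^ s * (z ^ n * z ^ (6 * n)) * ((Y : ℝ) ^ s / (Y : ℝ) ^ (s + 1)) := by
        rw [mul_pow]; ring
    _ = ((s + 1 : ℕ) : ℝ) * 4 ^ s * (z ^ n * z ^ (6 * n)) * (1 / Y) := by
        congr 1
        rw [pow_succ]; field_simp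
    _ = ((s + 1 : ℕ) : ℝ) * 4 ^ s / z ^ n := by
        rw [hsplit]; field_simp
    _ ≤ u := by
        rw [div_le_iff₀ (by positivity)]
        rw [div_le_iff₀ hu0] at hzt
        calc ((s + 1 : ℕ) : ℝ) * 4 ^ s ≤ ((s + 1 : ℕ) : ℝ) * 4 ^ (s + 1) := by
              gcongr
              · norm_num
              · omega
          _ ≤ z * u := hzt
          _ ≤ z ^ n * u := by gcongr
          _ = u * z ^ n := by ring

/-- A large frequency. -/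
lemma case_two (t n Y q q₀ : ℕ) (a : ℤ) (CB CU u z δ β θ : ℝ) (ht : 1 ≤ t) (hn1 : 1 ≤ n)
    (hCB : 0 < CB) (hCU : 0 < CU) (hz16 : 16 ≤ z) (hu0 : 0 < u)
    (hBT : ∀ q b x y : ℕ, 1 ≤ q → Nat.Coprime b q → 2 ≤ y → q ^ 2 ≤ y →
    (((Ioc x (x + y)).filter fun p : ℕ => p.Prime ∧ p ≡ b [MOD q]).card : ℝ)
      ≤ CB * y / ((Nat.totient q : ℝ) * Real.log y))
    (hq₀ : ∀ q : ℕ, q₀ ≤ q → ∀ a : ℤ, IsCoprime a (q : ℤ) → ∀ θ : ℝ,
      (((range q).filter fun b : ℕ =>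
        Nat.Coprime b q ∧ nd ((a : ℝ) * (b : ℝ) ^ t / q - θ) ≤ 2 * u).card : ℝ)
        ≤ CU * (2 * u) * Nat.totient q)
    (hδ : 0 < δ) (hzt : t * 4 ^ t / u ≤ z) (hzδ : 2 / δ ≤ z)
    (hδB : ∀ q : ℕ, 1 ≤ q → q < q₀ → δ ≤ nd ((q : ℝ) * β))
    (hzY : (Y : ℝ) = z ^ (8 * n)) (hlogY : Real.log Y = 8 * n * Real.log z)
    (hq1 : 1 ≤ q) (hqz : (q : ℝ) ≤ z ^ n) (hcop : IsCoprime a (q : ℤ))
    (hβa : |β - a / q| ≤ z ^ n / (Y : ℝ) ^ t) (hqβ : nd ((q : ℝ) * β) ≤ z ^ n / (Y : ℝ) ^ t) :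
    (((Ioc Y (4 * Y)).filter fun p : ℕ => p.Prime ∧ nd ((p : ℝ) ^ t * β - θ) ≤ u).card : ℝ)
      ≤ (16 * CU * CB) * (u * Y / Real.log Y) := by
  have hz1 : (1 : ℝ) ≤ z := by linarith
  have hz0 : 0 < z := by linarith
  have hY0 : (0 : ℝ) < Y := by rw [hzY]; positivity
  have hlz : 0 < Real.log z := Real.log_pos (by linarith)
  have hnr : (1 : ℝ) ≤ n := by exact_mod_cast hn1
  have hlY : 0 < Real.log Y := by rw [hlogY]; positivity
  have hYt : (Y : ℝ) ≤ (Y : ℝ) ^ t := by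
    apply le_self_pow₀ _ (by omega)
    rw [hzY]; exact one_le_pow₀ hz1
  have hsplit : (Y : ℝ) = z ^ n * z ^ (6 * n) * z ^ n := by
    rw [hzY, ← pow_add, ← pow_add]; congr 1; ring
  have hznz : z ≤ z ^ n := le_self_pow₀ hz1 (by omega)
  have hqq : q₀ ≤ q := by
    by_contra hlt
    push Not at hlt
    have h1 := hδB q hq1 hlt
    have h2 : z ^ n / (Y : ℝ) ^ t ≤ 1 / z := by
      rw [div_le_div_iff₀ (by positivity) hz0, one_mul]
      refine le_trans ?_ hYt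
      rw [hsplit]
      have h3 : z ≤ z ^ (6 * n) * z ^ n := by
        calc z ≤ z ^ n := hznz
          _ = 1 * z ^ n := by ring
          _ ≤ z ^ (6 * n) * z ^ n := by
              gcongr
              exact one_le_pow₀ hz1
      calc z ^ n * z ≤ z ^ n * (z ^ (6 * n) * z ^ n) := by gcongr
        _ = _ := by ring
    have h4 : 1 / z < δ := by
      rw [div_lt_iff₀ hz0]
      rw [div_le_iff₀ hδ] at hzδ
      linarith
    linarith
  obtain ⟨y, hyz, hylt⟩ : ∃ y : ℕ, (y : ℝ) ≤ z ^ (6 * n) ∧ z ^ (6 * n) < y + 1 :=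
    ⟨⌊z ^ (6 * n)⌋₊, Nat.floor_le (by positivity), Nat.lt_floor_add_one _⟩
  have h4n : z ^ (4 * n) ≤ y := by
    have h1 : z ^ (6 * n) = z ^ (4 * n) * z ^ (2 * n) := by rw [← pow_add]; congr 1; ring
    have h2 : z ≤ z ^ (2 * n) := le_self_pow₀ hz1 (by omega)
    have h3 : 1 ≤ z ^ (4 * n) := one_le_pow₀ hz1
    nlinarith
  have hy2 : 2 ≤ y := by
    have h2 : z ≤ z ^ (4 * n) := le_self_pow₀ hz1 (by omega)
    have : (2 : ℝ) ≤ y := by linarith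
    exact_mod_cast this
  have hyY : y ≤ Y := by
    have : (y : ℝ) ≤ Y := by
      refine hyz.trans ?_
      rw [hzY]; apply pow_le_pow_right₀ hz1; omega
    exact_mod_cast this
  have hqY : q ≤ Y := by
    have : (q : ℝ) ≤ Y := by
      refine hqz.trans ?_
      rw [hzY]; apply pow_le_pow_right₀ hz1; omega
    exact_mod_cast this
  have hqy : q ^ 2 ≤ y := by
    have : ((q ^ 2 : ℕ) : ℝ) ≤ y := by
      push_cast
      calc (q : ℝ) ^ 2 ≤ (z ^ n) ^ 2 := by gcongr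
        _ = z ^ (n * 2) := by rw [pow_mul]
        _ ≤ z ^ (4 * n) := by apply pow_le_pow_right₀ hz1; omega
        _ ≤ y := h4n
    exact_mod_cast this
  have hly : Real.log Y ≤ 2 * Real.log y := by
    have h1 := Real.log_le_log (by positivity) h4n
    rw [Real.log_pow] at h1
    rw [hlogY]; push_cast at h1; linarith
  have hly0 : 0 < Real.log y := by linarith
  have hτu := tau_bound t n Y y ht hn1 z u hz1 hu0 hzY hyz hzt
  have hloc : ∀ x, Y ≤ x → (((Ioc x (x + y)).filter fun p : ℕ => p.Prime ∧ p ≤ 4 * Y ∧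
      nd ((p : ℝ) ^ t * β - θ) ≤ u).card : ℝ) ≤ (2 * CU * CB * u / Real.log y) * y := by
    intro x hx
    have := local_count t CB CU u (z ^ n / (Y : ℝ) ^ t) β θ q a Y x y hq1 hqY hx hy2 hCB
      (by positivity) (fun b hb => hBT q b x y hq1 hb hy2 hqy) (fun θ => hq₀ q hqq a hcop θ)
      hβa hτu
    refine this.trans (le_of_eq ?_)
    ring
  refine (total_count t _ u β θ Y y (by omega) hyY (by positivity) hloc).trans ?_
  calc 4 * (2 * CU * CB * u / Real.log y) * Y = 8 * CU * CB * u * Y * (1 / Real.log y) := by ring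
    _ ≤ 8 * CU * CB * u * Y * (2 / Real.log Y) := by
        gcongr 8 * CU * CB * u * Y * ?_
        rw [div_le_div_iff₀ hly0 hlY]
        linarith
    _ = (16 * CU * CB) * (u * Y / Real.log Y) := by ring

/-- Large `u`. -/
lemma case_zero (t Y : ℕ) (CB u β θ : ℝ) (hCB : 0 < CB) (hY : 2 ≤ Y) (hu8 : 1 / 8 < u)
    (hBT : ∀ q b x y : ℕ, 1 ≤ q → Nat.Coprime b q → 2 ≤ y → q ^ 2 ≤ y →
    (((Ioc x (x + y)).filter fun p : ℕ => p.Prime ∧ p ≡ b [MOD q]).card : ℝ)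
      ≤ CB * y / ((Nat.totient q : ℝ) * Real.log y)) :
    (((Ioc Y (4 * Y)).filter fun p : ℕ => p.Prime ∧ nd ((p : ℝ) ^ t * β - θ) ≤ u).card : ℝ)
      ≤ (24 * CB) * (u * Y / Real.log Y) := by
  have hYr : (2 : ℝ) ≤ Y := by exact_mod_cast hY
  have hlog : 0 < Real.log Y := Real.log_pos (by linarith)
  have h1 := hBT 1 0 Y (3 * Y) le_rfl (by simp) (by omega) (by omega)
  have h2 : (((Ioc Y (4 * Y)).filter fun p : ℕ =>
      p.Prime ∧ nd ((p : ℝ) ^ t * β - θ) ≤ u).card : ℝ) ≤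
      (((Ioc Y (Y + 3 * Y)).filter fun p : ℕ => p.Prime ∧ p ≡ 0 [MOD 1]).card : ℝ) := by
    have : ((Ioc Y (4 * Y)).filter fun p : ℕ => p.Prime ∧ nd ((p : ℝ) ^ t * β - θ) ≤ u) ⊆
      ((Ioc Y (Y + 3 * Y)).filter fun p : ℕ => p.Prime ∧ p ≡ 0 [MOD 1]) := by
      intro p hp
      rw [mem_filter, mem_Ioc] at hp ⊢
      exact ⟨⟨hp.1.1, by omega⟩, hp.2.1, Nat.modEq_one⟩
    exact_mod_cast card_le_card this
  refine h2.trans (h1.trans ?_)
  have h3 : Real.log Y ≤ Real.log ((3 * Y : ℕ) : ℝ) := by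
    apply Real.log_le_log (by linarith)
    push_cast; linarith
  simp only [Nat.totient_one, Nat.cast_one, one_mul]
  calc CB * ((3 * Y : ℕ) : ℝ) / Real.log ((3 * Y : ℕ) : ℝ)
      ≤ CB * ((3 * Y : ℕ) : ℝ) / Real.log Y := by gcongr
    _ = (24 * CB) * (1 / 8 * Y / Real.log Y) := by push_cast; ring
    _ ≤ (24 * CB) * (u * Y / Real.log Y) := by gcongr

/-- Numerical end of the first case. -/
lemma case_one_num (n Y K R : ℕ) (CS u z : ℝ) (hn1 : 1 ≤ n) (hCS : 0 < CS) (hz16 : 16 ≤ z)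
    (hu0 : 0 < u) (hu1 : u ≤ 1) (hzY : (Y : ℝ) = z ^ (8 * n))
    (hlogY : Real.log Y = 8 * n * Real.log z) (hcmp : Real.log Y ≤ u * z ^ 2 / 4)
    (hKi : 1 / (K : ℝ) ≤ 16 * u) (hRz : (R : ℝ) ≤ z) (hlR : Real.log z ≤ 2 * Real.log R)
    (Q : ℝ) (hQ : Q ≤ CS * (((1 : ℕ) : ℝ) / Nat.totient 1) / Real.log R) :
    4 / K * (3 * Y * Q + R ^ 2) + 4 * (R ^ 2 * (Y / z ^ 4))
      ≤ (3072 * n * CS + 65) * (u * Y / Real.log Y) := by
  have hz1 : (1 : ℝ) ≤ z := by linarith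
  have hz0 : 0 < z := by linarith
  have hY0 : (0 : ℝ) < Y := by rw [hzY]; positivity
  have hlz : 0 < Real.log z := Real.log_pos (by linarith)
  have hnr : (1 : ℝ) ≤ n := by exact_mod_cast hn1
  have hlY : 0 < Real.log Y := by rw [hlogY]; positivity
  have hlR0 : 0 < Real.log R := by linarith
  have hQ' : Q ≤ 16 * n * CS / Real.log Y := by
    refine hQ.trans ?_
    rw [hlogY]
    simp only [Nat.totient_one, Nat.cast_one, div_one, mul_one]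
    rw [div_le_div_iff₀ hlR0 (by positivity)]
    have : CS * (8 * n * Real.log z) ≤ CS * (8 * n * (2 * Real.log R)) := by gcongr
    linarith
  have hz2 : z ^ 2 ≤ Y / Real.log Y := by
    rw [le_div_iff₀ hlY]
    calc z ^ 2 * Real.log Y ≤ z ^ 2 * (u * z ^ 2 / 4) := by gcongr
      _ ≤ z ^ 2 * z ^ 2 := by
          gcongr
          nlinarith [sq_nonneg z]
      _ = z ^ 4 := by ring
      _ ≤ z ^ (8 * n) := by apply pow_le_pow_right₀ hz1; omega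
      _ = Y := hzY.symm
  have hz3 : 4 * (z ^ 2 * (Y / z ^ 4)) ≤ u * (Y / Real.log Y) := by
    have e1 : 4 * (z ^ 2 * (Y / z ^ 4)) = 4 * Y / z ^ 2 := by field_simp
    rw [e1, ← mul_div_assoc, div_le_div_iff₀ (by positivity) hlY]
    nlinarith
  calc _ ≤ 4 * (1 / K) * (3 * Y * (16 * n * CS / Real.log Y) + z ^ 2)
        + 4 * (z ^ 2 * (Y / z ^ 4)) := by
        rw [show (4 : ℝ) / K = 4 * (1 / K) by ring]
        gcongr
    _ ≤ 4 * (16 * u) * (3 * Y * (16 * n * CS / Real.log Y) + z ^ 2)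
        + 4 * (z ^ 2 * (Y / z ^ 4)) := by
        gcongr
    _ ≤ 4 * (16 * u) * (3 * Y * (16 * n * CS / Real.log Y) + Y / Real.log Y)
        + u * (Y / Real.log Y) := by gcongr
    _ = (3072 * n * CS + 65) * (u * Y / Real.log Y) := by ring

end FrostAux

open FrostAux

/-- Primes `p` in `(Y, 4Y]` with `p ^ t * β` in an interval modulo one: upper bound of the right
order, uniformly for `β` in a compact set of irrational numbers. -/
theorem frost (t : ℕ) (ht : 1 ≤ t) : ∃ C : ℝ, 0 < C ∧ ∀ B : Set ℝ, IsCompact B →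
    (∀ x ∈ B, Irrational x) → ∀ u : ℝ, 0 < u → u ≤ 1 → ∃ Y₀ : ℕ, ∀ Y : ℕ, Y₀ ≤ Y →
    ∀ β ∈ B, ∀ θ : ℝ,
      (((Ioc Y (4 * Y)).filter fun p : ℕ => p.Prime ∧ nd ((p : ℝ) ^ t * β - θ) ≤ u).card : ℝ)
        ≤ C * u * Y / Real.log Y := by
  obtain ⟨Cw, hCw1, hW⟩ := weyl_inverse t ht
  obtain ⟨CS, hCS, hS⟩ := selberg_weights
  obtain ⟨CB, hCB, hBT⟩ := brun_titchmarsh
  obtain ⟨CU, hCU, hU⟩ := units_equi t ht
  obtain ⟨n, hn⟩ : ∃ n : ℕ, n = 5 * Cw + 5 * t + 3 := ⟨_, rfl⟩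
  have hn1 : 1 ≤ n := by omega
  refine ⟨24 * CB + (3072 * n * CS + 65) + 16 * CU * CB, by positivity,
    fun B hB hirr u hu0 hu1 => ?_⟩
  have hfin : ∀ (A : ℝ) (Y : ℕ), 2 ≤ Y → ∀ N : ℝ, N ≤ A * (u * Y / Real.log Y) →
      A ≤ 24 * CB + (3072 * n * CS + 65) + 16 * CU * CB →
      N ≤ (24 * CB + (3072 * n * CS + 65) + 16 * CU * CB) * u * Y / Real.log Y := by
    intro A Y hY N h1 h2
    have hYr : (2 : ℝ) ≤ Y := by exact_mod_cast hY
    have hlog : 0 < Real.log Y := Real.log_pos (by linarith)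
    calc N ≤ A * (u * Y / Real.log Y) := h1
      _ ≤ (24 * CB + (3072 * n * CS + 65) + 16 * CU * CB) * (u * Y / Real.log Y) := by gcongr
      _ = _ := by ring
  have hpos1 : 0 < 24 * CB := by positivity
  have hpos2 : 0 < 3072 * n * CS + 65 := by positivity
  have hpos3 : 0 < 16 * CU * CB := by positivity
  by_cases hu8 : 1 / 8 < u
  · exact ⟨2, fun Y hY β _ θ => hfin _ Y hY _ (case_zero t Y CB u β θ hCB hY hu8 hBT)
      (by linarith)⟩
  push Not at hu8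
  obtain ⟨q₀, hq₀⟩ := hU (2 * u) (by positivity) (by linarith)
  obtain ⟨δ, hδ, hδB⟩ := exists_delta B hB hirr q₀
  obtain ⟨Z, hZ⟩ : ∃ Z : ℝ, Z = 16 + 1 / u + t * 4 ^ t / u + 2 / δ + 32 * n / u := ⟨_, rfl⟩
  have a1 : 0 < 1 / u := by positivity
  have a2 : 0 ≤ t * 4 ^ t / u := by positivity
  have a3 : 0 < 2 / δ := by positivity
  have a4 : 0 ≤ 32 * n / u := by positivity
  refine ⟨⌈Z ^ (8 * n)⌉₊, fun Y hYY β hβ θ => ?_⟩
  have hYZ : Z ^ (8 * n) ≤ Y := Nat.ceil_le.mp hYY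
  have hn8 : 8 * n ≠ 0 := by omega
  obtain ⟨z, hz0', hzY⟩ : ∃ z : ℝ, 0 ≤ z ∧ (Y : ℝ) = z ^ (8 * n) :=
    ⟨(Y : ℝ) ^ (((8 * n : ℕ) : ℝ)⁻¹), by positivity,
      (Real.rpow_inv_natCast_pow (by positivity) hn8).symm⟩
  have hZz : Z ≤ z := by
    rw [hzY] at hYZ
    exact le_of_pow_le_pow_left₀ hn8 hz0' hYZ
  have hz16 : 16 ≤ z := by linarith
  have hz1 : (1 : ℝ) ≤ z := by linarith
  have hz0 : 0 < z := by linarith
  have hzu : 1 / u ≤ z := by linarith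
  have hzt : t * 4 ^ t / u ≤ z := by linarith
  have hzδ : 2 / δ ≤ z := by linarith
  have hzn : 32 * n / u ≤ z := by linarith
  have hzYle : z ≤ Y := by
    rw [hzY]; exact le_self_pow₀ hz1 hn8
  have hY2 : 2 ≤ Y := by
    have : (2 : ℝ) ≤ Y := by linarith
    exact_mod_cast this
  have hlz : 0 < Real.log z := Real.log_pos (by linarith)
  have hlogY : Real.log Y = 8 * n * Real.log z := by rw [hzY, Real.log_pow]; push_cast; ring
  have hnr : (1 : ℝ) ≤ n := by exact_mod_cast hn1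
  -- comparison of `log Y` and `z`
  have hlogz : Real.log z ≤ z := (Real.log_le_sub_one_of_pos hz0).trans (by linarith)
  have hcmp : Real.log Y ≤ u * z ^ 2 / 4 := by
    rw [hlogY]
    have h1 : 32 * n ≤ z * u := by rwa [div_le_iff₀ hu0] at hzn
    nlinarith
  -- the parameters
  obtain ⟨K, hKle, hKlt⟩ : ∃ K : ℕ, (K : ℝ) ≤ 1 / (8 * u) ∧ 1 / (8 * u) < K + 1 :=
    ⟨⌊1 / (8 * u)⌋₊, Nat.floor_le (by positivity), Nat.lt_floor_add_one _⟩
  have h8 : 1 ≤ 1 / (8 * u) := by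
    rw [le_div_iff₀ (by positivity)]; linarith
  have hK1 : 1 ≤ K := by
    have : (0 : ℝ) < K := by linarith
    exact_mod_cast this
  have hK1r : (1 : ℝ) ≤ K := by exact_mod_cast hK1
  have hKu : 8 * u * K ≤ 1 := by
    rw [le_div_iff₀ (by positivity)] at hKle
    linarith
  have hKi : 1 / (K : ℝ) ≤ 16 * u := by
    rw [div_lt_iff₀ (by positivity)] at hKlt
    rw [div_le_iff₀ (by positivity)]
    nlinarith
  have hKz : (K : ℝ) ≤ z := by
    refine (hKle.trans ?_).trans hzu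
    apply div_le_div_of_nonneg_left (by norm_num) hu0
    linarith
  obtain ⟨R, hRz, hRlt⟩ : ∃ R : ℕ, (R : ℝ) ≤ z ∧ z < R + 1 :=
    ⟨⌊z⌋₊, Nat.floor_le hz0', Nat.lt_floor_add_one _⟩
  have hR2 : 2 ≤ R := by
    have : (1 : ℝ) < R := by linarith
    exact_mod_cast this
  have hRY : R ≤ Y := by
    have : (R : ℝ) ≤ Y := hRz.trans hzYle
    exact_mod_cast this
  have hlR : Real.log z ≤ 2 * Real.log R := by
    have h1 : z ≤ (R : ℝ) ^ 2 := by nlinarith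
    have h2 := Real.log_le_log hz0 h1
    rw [Real.log_pow] at h2
    push_cast at h2; linarith
  obtain ⟨lam, hl1, hl2, -, hl4⟩ := hS 1 R le_rfl hR2
  by_cases hall : ∀ k : ℤ, k ≠ 0 → |k| < K → ∀ e, 1 ≤ e → e ≤ R ^ 2 →
      ‖∑ m ∈ (Ioc Y (4 * Y)).filter (fun m => e ∣ m), ee (k * ((m : ℝ) ^ t * β))‖ ≤ Y / z ^ 4
  · -- no large frequency
    have h1 := case_one t K R Y (by omega) (by omega) hRY lam hl1 hl2 _ (Y / z ^ 4) u β θ hKu
      (le_refl _) (by positivity) hall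
    exact hfin _ Y hY2 _ (h1.trans (case_one_num n Y K R CS u z hn1 hCS hz16 hu0 hu1 hzY hlogY hcmp
      hKi hRz hlR _ hl4)) (by linarith)
  · -- a large frequency: `β` is close to a rational number
    push Not at hall
    obtain ⟨k, hk0, hk, e, he, heR, hbig⟩ := hall
    obtain ⟨q', hq'1, hq'2, hq'3⟩ := bad_freq t ht Cw hCw1 hW n hn z hz16 Y hzY K R hKz hRz β k hk0
      hk e he heR hbig
    obtain ⟨q, a, hq1, hqz, hcop, hβa, hqβ⟩ := reduce β q' hq'1 _ _ hq'2 hq'3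
    exact hfin _ Y hY2 _ (case_two t n Y q q₀ a CB CU u z δ β θ ht hn1 hCB hCU hz16 hu0 hBT hq₀ hδ
      hzt hzδ (fun q h1 h2 => hδB β hβ q h1 h2) hzY hlogY hq1 hqz hcop hβa hqβ) (by linarith)

end Pool.Agent.Lib.MP_663568_nt.Nul
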