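import Mathlib
import Pool.Agent.Lib.MP_663568_nul.Frost

set_option autoImplicit false
open Finset Polynomial

namespace Pool.Agent.Lib.MP_663568_nt.Nul

open Katai

namespace EqA

/-- primes of `(4 ^ a, 4 ^ b]` -/
def blk (a b : ℕ) : Finset ℕ := (Ioc (4 ^ a) (4 ^ b)).filter Nat.Prime

lemma mem_blk {a b p : ℕ} : p ∈ blk a b ↔ (4 ^ a < p ∧ p ≤ 4 ^ b) ∧ p.Prime := by
  simp [blk]

lemma blk_succ {a b : ℕ} (hab : a ≤ b) : blk a (b + 1) = blk a b ∪ blk b (b + 1) := by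
  unfold blk
  rw [← filter_union, Ioc_union_Ioc_eq_Ioc]
  · exact Nat.pow_le_pow_right (by norm_num) hab
  · exact Nat.pow_le_pow_right (by norm_num) (by omega)

lemma sum_blk (f : ℕ → ℝ) {a b : ℕ} (hab : a ≤ b) :
    ∑ p ∈ blk a b, f p = ∑ j ∈ Ico a b, ∑ p ∈ blk j (j + 1), f p := by
  induction b, hab using Nat.le_induction with
  | base => simp [blk]
  | succ b hb ih =>
    rw [sum_Ico_succ_top hb, ← ih, blk_succ hb, sum_union]
    rw [disjoint_left]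
    intro x hx hx'
    rw [mem_blk] at hx hx'
    omega

lemma pow_aux (j : ℕ) (hj : 7 ≤ j) : 8 * j + 9 ≤ 2 ^ j := by
  induction j, hj using Nat.le_induction with
  | base => norm_num
  | succ j hj ih => rw [pow_succ]; omega

/-- Chebyshev's lower bound in the form needed here -/
lemma cheb (j : ℕ) (hj : 7 ≤ j) : 1 / (8 * ((j : ℝ) + 1)) ≤ WW (blk j (j + 1)) := by
  have h1 : Chebyshev.theta ((4 ^ (j + 1) : ℕ) : ℝ) - Chebyshev.theta ((4 ^ j : ℕ) : ℝ)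
      = ∑ p ∈ blk j (j + 1), Real.log p := by
    rw [Chebyshev.theta_eq_sum_Icc, Chebyshev.theta_eq_sum_Icc, Nat.floor_natCast,
      Nat.floor_natCast, blk, sum_filter, sum_filter, sum_filter, sub_eq_iff_eq_add', eq_comm]
    rw [← sum_union]
    · apply sum_congr _ (fun _ _ => rfl)
      ext x
      have : 4 ^ j ≤ 4 ^ (j + 1) := Nat.pow_le_pow_right (by norm_num) (by omega)
      simp only [mem_union, mem_Icc, mem_Ioc]; omega
    · rw [disjoint_left]; intro x; simp only [mem_Icc, mem_Ioc]; omega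
  have h2 := Chebyshev.theta_ge (4 ^ (j + 1))
  have h3 := Chebyshev.theta_le_log4_mul_x (x := ((4 ^ j : ℕ) : ℝ)) (by positivity)
  have hl2 : 0 < Real.log 2 := Real.log_pos (by norm_num)
  have hl4 : Real.log 4 = 2 * Real.log 2 := by
    rw [show (4 : ℝ) = 2 ^ 2 by norm_num, Real.log_pow]; norm_num
  have h4 : Real.log (((4 ^ (j + 1) : ℕ) : ℝ) + 1) ≤ (j + 2) * (2 * Real.log 2) := by
    have : Real.log (((4 ^ (j + 1) : ℕ) : ℝ) + 1) ≤ Real.log ((4 : ℝ) ^ (j + 2)) := by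
      apply Real.log_le_log (by positivity)
      have h1 : (1 : ℝ) ≤ 4 ^ (j + 1) := one_le_pow₀ (by norm_num)
      push_cast
      rw [show j + 2 = (j + 1) + 1 by ring, pow_succ _ (j + 1)]
      linarith
    rw [Real.log_pow, hl4] at this
    push_cast at this ⊢
    exact this
  have h5 : Real.log ((4 ^ (j + 1) : ℕ) : ℝ) = (j + 1) * (2 * Real.log 2) := by
    push_cast
    rw [Real.log_pow, hl4]; push_cast; ring
  have h6 : √((4 ^ (j + 1) : ℕ) : ℝ) = 2 ^ (j + 1) := by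
    push_cast
    rw [show (4 : ℝ) = 2 ^ 2 by norm_num, ← pow_mul, mul_comm, pow_mul]
    exact Real.sqrt_sq (by positivity)
  rw [h5, h6] at h2
  rw [hl4] at h3
  have h7 := pow_aux j hj
  have h7' : 8 * (j : ℝ) + 9 ≤ 2 ^ j := by exact_mod_cast h7
  have h8 : (4 : ℝ) ^ j = 2 ^ j * 2 ^ j := by
    rw [show (4 : ℝ) = 2 * 2 by norm_num, mul_pow]
  have h9 : Real.log 2 * 4 ^ j ≤ ∑ p ∈ blk j (j + 1), Real.log p := by
    rw [← h1]
    have e1 : ((4 ^ (j + 1) : ℕ) : ℝ) = 4 * (2 ^ j * 2 ^ j) := by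
      push_cast; rw [pow_succ, h8]; ring
    have e2 : ((4 ^ j : ℕ) : ℝ) = 2 ^ j * 2 ^ j := by push_cast; rw [h8]
    rw [e1] at h2 h4 ⊢
    rw [e2] at h3 ⊢
    rw [h8]
    set x : ℝ := 2 ^ j with hx
    have e3 : (2 : ℝ) ^ (j + 1) = 2 * x := by rw [pow_succ, hx]; ring
    rw [e3] at h2
    have hx0 : 0 < x := by positivity
    have hj0 : (0 : ℝ) ≤ j := by positivity
    have key : 2 * ((j : ℝ) + 2) + 8 * x * (j + 1) ≤ x * x := by nlinarith
    have key2 := mul_le_mul_of_nonneg_left key hl2.le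
    nlinarith
  have h10 : ∑ p ∈ blk j (j + 1), Real.log p
      ≤ ((j + 1) * (2 * Real.log 2)) * (4 ^ (j + 1) * WW (blk j (j + 1))) := by
    rw [WW, mul_sum, mul_sum]
    apply sum_le_sum
    intro p hp
    rw [mem_blk] at hp
    have hp0 : (0 : ℝ) < p := by exact_mod_cast hp.2.pos
    have hp1 : (p : ℝ) ≤ 4 ^ (j + 1) := by exact_mod_cast hp.1.2
    have a1 : Real.log p ≤ (j + 1) * (2 * Real.log 2) := by
      rw [← h5]
      apply Real.log_le_log hp0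
      exact_mod_cast hp.1.2
    have a2 : 1 ≤ 4 ^ (j + 1) * (1 / (p : ℝ)) := by
      rw [mul_one_div, one_le_div hp0]; exact hp1
    calc Real.log p ≤ ((j + 1) * (2 * Real.log 2)) * 1 := by rw [mul_one]; exact a1
      _ ≤ _ := by gcongr
  have h11 : Real.log 2 * 4 ^ j * 1
      ≤ Real.log 2 * 4 ^ j * (8 * ((j : ℝ) + 1) * WW (blk j (j + 1))) := by
    calc _ ≤ _ := by rw [mul_one]; exact h9
      _ ≤ _ := h10
      _ = _ := by rw [pow_succ]; ring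
  have h12 := le_of_mul_le_mul_left h11 (by positivity)
  rw [div_le_iff₀ (by positivity)]
  linarith

lemma WW_blk_ge (a : ℕ) (ha : 7 ≤ a) (W : ℝ) : ∃ b, a ≤ b ∧ W ≤ WW (blk a b) := by
  have h1 := Real.tendsto_sum_range_one_div_nat_succ_atTop
  have h2 := (h1.eventually_ge_atTop (8 * W + ∑ i ∈ range a, 1 / ((i : ℝ) + 1))).and
    (Filter.eventually_ge_atTop a)
  obtain ⟨n, hn, han⟩ := h2.exists
  refine ⟨n, han, ?_⟩
  have h3 : WW (blk a n) = ∑ j ∈ Ico a n, WW (blk j (j + 1)) := sum_blk (fun p => 1 / (p : ℝ)) han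
  rw [h3]
  have h4 : ∑ j ∈ Ico a n, 1 / (8 * ((j : ℝ) + 1)) ≤ ∑ j ∈ Ico a n, WW (blk j (j + 1)) := by
    apply sum_le_sum
    intro j hj
    rw [mem_Ico] at hj
    exact cheb j (by omega)
  have h5 : ∑ j ∈ Ico a n, 1 / (8 * ((j : ℝ) + 1))
      = (1 / 8) * (∑ j ∈ range n, 1 / ((j : ℝ) + 1) - ∑ j ∈ range a, 1 / ((j : ℝ) + 1)) := by
    rw [← sum_Ico_eq_sub _ han, mul_sum]
    apply sum_congr rfl
    intro j _
    field_simp
  linarith

/-- bad primes -/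
lemma bad (t : ℕ) (ht : 1 ≤ t) : ∃ C : ℝ, 0 < C ∧ ∀ B : Set ℝ, IsCompact B →
    (∀ x ∈ B, Irrational x) → ∀ u : ℝ, 0 < u → u ≤ 1 → ∃ j₁ : ℕ, ∀ a b : ℕ, j₁ ≤ a → a ≤ b →
    ∀ β ∈ B, ∀ θ : ℝ,
      ∑ p ∈ (blk a b).filter (fun p : ℕ => nd ((p : ℝ) ^ t * β - θ) ≤ u), (1 : ℝ) / p
        ≤ C * u * WW (blk a b) := by
  obtain ⟨C, hC, hfr⟩ := frost t ht
  refine ⟨16 * C, by positivity, fun B hB hirr u hu hu1 => ?_⟩
  obtain ⟨Y₀, hY⟩ := hfr B hB hirr u hu hu1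
  refine ⟨max 7 Y₀, fun a b ha hab β hβ θ => ?_⟩
  have ha7 : 7 ≤ a := (le_max_left _ _).trans ha
  have haY : Y₀ ≤ a := (le_max_right _ _).trans ha
  have h3 : WW (blk a b) = ∑ j ∈ Ico a b, WW (blk j (j + 1)) := sum_blk (fun p => 1 / (p : ℝ)) hab
  rw [sum_filter, sum_blk _ hab, h3, mul_sum]
  apply sum_le_sum
  intro j hj
  rw [mem_Ico] at hj
  have h4 := cheb j (by omega)
  have hj4 : j < 4 ^ j := Nat.lt_pow_self (by norm_num)
  have h5 := hY (4 ^ j) (by omega) β hβ θ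
  have hl2 : 0 < Real.log 2 := Real.log_pos (by norm_num)
  have hl4 : 1 ≤ Real.log 4 := by
    rw [show (4 : ℝ) = 2 ^ 2 by norm_num, Real.log_pow]
    have := Real.log_two_gt_d9
    norm_num; linarith
  have hj0 : (7 : ℝ) ≤ j := by
    have : 7 ≤ j := by omega
    exact_mod_cast this
  have h6 : Real.log ((4 ^ j : ℕ) : ℝ) = j * Real.log 4 := by
    push_cast; rw [Real.log_pow]
  rw [h6] at h5
  rw [← sum_filter]
  have h7 : ∑ p ∈ (blk j (j + 1)).filter (fun p : ℕ => nd ((p : ℝ) ^ t * β - θ) ≤ u), (1 : ℝ) / p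
      ≤ (((Ioc (4 ^ j) (4 * 4 ^ j)).filter fun p : ℕ =>
        p.Prime ∧ nd ((p : ℝ) ^ t * β - θ) ≤ u).card : ℝ) * (1 / 4 ^ j) := by
    have e : (blk j (j + 1)).filter (fun p : ℕ => nd ((p : ℝ) ^ t * β - θ) ≤ u)
        = (Ioc (4 ^ j) (4 * 4 ^ j)).filter fun p : ℕ =>
          p.Prime ∧ nd ((p : ℝ) ^ t * β - θ) ≤ u := by
      rw [blk, filter_filter, pow_succ, mul_comm 4]
    rw [e, ← nsmul_eq_mul]
    apply sum_le_card_nsmul
    intro p hp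
    rw [mem_filter, mem_Ioc] at hp
    apply one_div_le_one_div_of_le (by positivity)
    exact_mod_cast hp.1.1.le
  calc _ ≤ _ := h7
    _ ≤ (C * u * ((4 ^ j : ℕ) : ℝ) / (j * Real.log 4)) * (1 / 4 ^ j) := by gcongr
    _ = C * u / (j * Real.log 4) := by push_cast; field_simp
    _ ≤ C * u / (j * 1) := by gcongr
    _ ≤ 16 * C * u * (1 / (8 * ((j : ℝ) + 1))) := by
        rw [mul_one, mul_one_div, div_le_div_iff₀ (by positivity) (by positivity)]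
        have : 0 < C * u := by positivity
        nlinarith
    _ ≤ _ := by gcongr

lemma expand (P S : Finset ℕ) (w : ℕ → ℝ) (hw : ∀ p, 0 ≤ w p) (x : ℕ → ℕ → ℝ) :
    ∑ m ∈ S, ‖∑ p ∈ P, (w p : ℂ) * ee (x p m)‖ ^ 2
      ≤ ∑ p' ∈ P, w p' * ∑ p ∈ P, w p * ‖∑ m ∈ S, ee (x p m - x p' m)‖ := by
  have h1 : ((∑ m ∈ S, ‖∑ p ∈ P, (w p : ℂ) * ee (x p m)‖ ^ 2 : ℝ) : ℂ)
      = ∑ p' ∈ P, (w p' : ℂ) * ∑ p ∈ P, (w p : ℂ) * ∑ m ∈ S, ee (x p m - x p' m) := by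
    have e1 : ∀ m ∈ S, ((‖∑ p ∈ P, (w p : ℂ) * ee (x p m)‖ : ℝ) : ℂ) ^ 2
        = ∑ p' ∈ P, ∑ p ∈ P, (w p' : ℂ) * ((w p : ℂ) * ee (x p m - x p' m)) := by
      intro m _
      rw [← Complex.mul_conj', map_sum, sum_mul_sum, sum_comm]
      refine sum_congr rfl fun p' _ => sum_congr rfl fun p _ => ?_
      rw [map_mul, Complex.conj_ofReal, ee_sub]
      ring
    push_cast
    rw [sum_congr rfl e1, sum_comm]
    refine sum_congr rfl fun p' _ => ?_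
    rw [sum_comm, mul_sum]
    refine sum_congr rfl fun p _ => ?_
    rw [mul_sum, mul_sum]
  have h2 : ∑ m ∈ S, ‖∑ p ∈ P, (w p : ℂ) * ee (x p m)‖ ^ 2
      = ‖((∑ m ∈ S, ‖∑ p ∈ P, (w p : ℂ) * ee (x p m)‖ ^ 2 : ℝ) : ℂ)‖ := by
    rw [Complex.norm_real, Real.norm_of_nonneg (sum_nonneg fun _ _ => by positivity)]
  rw [h2, h1]
  refine (norm_sum_le _ _).trans (sum_le_sum fun p' _ => ?_)
  rw [norm_mul, Complex.norm_real, Real.norm_of_nonneg (hw _)]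
  refine mul_le_mul_of_nonneg_left ?_ (hw _)
  refine (norm_sum_le _ _).trans (sum_le_sum fun p _ => ?_)
  rw [norm_mul, Complex.norm_real, Real.norm_of_nonneg (hw _)]

/-- one dyadic scale -/
lemma scale (t : ℕ) (ht : 1 ≤ t) : ∃ (D : ℕ) (C : ℝ), 1 ≤ D ∧ 0 < C ∧ ∀ B : Set ℝ, IsCompact B →
    (∀ x ∈ B, Irrational x) → ∀ (k₀ i : ℕ), D ≤ i → ∃ j₁ : ℕ, ∀ a b : ℕ, j₁ ≤ a → a ≤ b →
    ∀ β ∈ B, ∀ k ∈ Icc 1 k₀,
      ∑ m ∈ Ico (2 ^ i : ℕ) (2 ^ (i + 1)),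
        ‖∑ p ∈ blk a b, ((1 / (p : ℝ) : ℝ) : ℂ) * ee ((k : ℝ) * (m : ℝ) ^ t * (p : ℝ) ^ t * β)‖ ^ 2
      ≤ C * 2 ^ i * (1 / 2) ^ (i / D) * WW (blk a b) ^ 2 := by
  obtain ⟨C₀, hC₀, hinv⟩ := weyl_inverse t ht
  obtain ⟨C, hC, hbad⟩ := bad t ht
  refine ⟨4 * C₀, 1 + C, by omega, by positivity, fun B hB hirr k₀ i hi => ?_⟩
  set r := i / (4 * C₀) with hr
  have hr1 : 1 ≤ r := (Nat.one_le_div_iff (by omega)).mpr hi
  have hrle : r * (4 * C₀) ≤ i := Nat.div_mul_le_self _ _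
  set X := 2 ^ i with hX
  set Q := 2 ^ (r * C₀) with hQ
  have hQX : Q ≤ X := Nat.pow_le_pow_right (by norm_num) (by nlinarith)
  have hX0 : (0 : ℝ) < X := by rw [hX]; positivity
  have hQ0 : (0 : ℝ) < Q := by rw [hQ]; positivity
  set u : ℝ := (Q : ℝ) / (X : ℝ) ^ t with hu
  have hu0 : 0 < u := by positivity
  have hX1 : (1 : ℝ) ≤ X := by exact_mod_cast Nat.one_le_two_pow
  have hXt : (X : ℝ) ≤ (X : ℝ) ^ t := le_self_pow₀ hX1 (by omega)
  have hu1 : u ≤ 1 := by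
    rw [hu, div_le_one (by positivity)]
    calc (Q : ℝ) ≤ X := by exact_mod_cast hQX
      _ ≤ _ := hXt
  have huX : u ≤ Q / X := by rw [hu]; gcongr
  -- compact set of multiples
  set B' : Set ℝ := ⋃ q ∈ Icc 1 Q, ⋃ k ∈ Icc 1 k₀, (fun β : ℝ => (q : ℝ) * k * β) '' B with hB'
  have hB'c : IsCompact B' := by
    apply (Icc 1 Q).isCompact_biUnion; intro q _
    apply (Icc 1 k₀).isCompact_biUnion; intro k _
    exact hB.image (by fun_prop)
  have hB'i : ∀ α ∈ B', Irrational α := by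
    intro α hα
    simp only [hB', Set.mem_iUnion, Set.mem_image] at hα
    obtain ⟨q, hq, k, hk, β, hβ, rfl⟩ := hα
    rw [mem_Icc] at hq hk
    have h0 : q * k ≠ 0 := by
      apply mul_ne_zero <;> omega
    have := (hirr β hβ).natCast_mul h0
    push_cast at this
    exact this
  obtain ⟨j₁, hj₁⟩ := hbad B' hB'c hB'i u hu0 hu1
  refine ⟨j₁, fun a b ha hab β hβ k hk => ?_⟩
  set ρ : ℝ := (1 / 2) ^ r with hρ
  have hρ0 : 0 < ρ := by positivity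
  have hρ2 : ρ ≤ 1 / 2 := by
    calc ρ ≤ (1 / 2) ^ 1 := pow_le_pow_of_le_one (by norm_num) (by norm_num) hr1
      _ = _ := by norm_num
  have hρQ : (1 / ρ) ^ C₀ = (Q : ℝ) := by
    have h1 : 1 / ρ = 2 ^ r := by rw [hρ, one_div_pow, one_div_one_div]
    rw [h1, hQ, ← pow_mul]; push_cast; rfl
  set W := WW (blk a b) with hW
  have hW0 : 0 ≤ W := WW_nonneg _
  have hpair : ∀ p p' : ℕ, ‖∑ m ∈ Ico X (2 ^ (i + 1)),
      ee ((k : ℝ) * (m : ℝ) ^ t * (p : ℝ) ^ t * β - (k : ℝ) * (m : ℝ) ^ t * (p' : ℝ) ^ t * β)‖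
      ≤ ρ * X + X * ∑ q ∈ Icc 1 Q,
        if nd ((p : ℝ) ^ t * ((q : ℝ) * k * β) - (q : ℝ) * k * (p' : ℝ) ^ t * β) ≤ u
          then (1 : ℝ) else 0 := by
    intro p p'
    set z : ℝ := k * ((p : ℝ) ^ t - (p' : ℝ) ^ t) * β with hz
    set R : ℝ[X] := Polynomial.C z * (Polynomial.X + Polynomial.C ((X : ℝ) - 1)) ^ t with hR
    have e1 : ∑ m ∈ Ico X (2 ^ (i + 1)),
        ee ((k : ℝ) * (m : ℝ) ^ t * (p : ℝ) ^ t * β - (k : ℝ) * (m : ℝ) ^ t * (p' : ℝ) ^ t * β)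
        = ∑ m ∈ Icc 1 X, ee (R.eval (m : ℝ)) := by
      symm
      have hXX : 2 ^ (i + 1) = X + X := by rw [pow_succ, hX]; ring
      have hXp : 1 ≤ X := Nat.one_le_two_pow
      rw [hXX]
      refine sum_nbij' (fun m => m + (X - 1)) (fun m => m - (X - 1)) ?_ ?_ ?_ ?_ ?_
      · intro m hm; rw [mem_Icc] at hm; rw [mem_Ico]; omega
      · intro m hm; rw [mem_Ico] at hm; rw [mem_Icc]; omega
      · intro m hm; simp
      · intro m hm; rw [mem_Ico] at hm; omega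
      · intro m hm
        have hc : ((m + (X - 1) : ℕ) : ℝ) = m + ((X : ℝ) - 1) := by
          rw [Nat.cast_add, Nat.cast_sub hXp]; simp
        rw [hc, hR]
        congr 1
        simp only [eval_mul, eval_C, eval_pow, eval_add, eval_X]
        rw [hz]; ring
    have hn : ‖∑ m ∈ Icc 1 X, ee (R.eval (m : ℝ))‖ ≤ X := by
      calc _ ≤ ∑ m ∈ Icc 1 X, ‖ee (R.eval (m : ℝ))‖ := norm_sum_le _ _
        _ = _ := by simp [norm_ee]
    rw [e1]
    rcases lt_or_ge ‖∑ m ∈ Icc 1 X, ee (R.eval (m : ℝ))‖ (ρ * X) with h | h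
    · refine h.le.trans (le_add_of_nonneg_right ?_)
      apply mul_nonneg hX0.le
      apply sum_nonneg; intro q _; split_ifs <;> norm_num
    · have hdeg : R.natDegree ≤ t := by
        rw [hR]
        refine (natDegree_C_mul_le _ _).trans ?_
        refine (natDegree_pow_le).trans ?_
        rw [natDegree_X_add_C, mul_one]
      obtain ⟨q, hq1, hqQ, hnd⟩ := hinv ρ X R hρ0 hρ2 (by rw [hρQ]; exact_mod_cast hQX) hdeg h
      have hcoef : R.coeff t = z := by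
        rw [hR, coeff_C_mul, coeff_X_add_C_pow]; simp
      rw [hρQ] at hqQ hnd
      rw [hcoef] at hnd
      have hqm : q ∈ Icc 1 Q := by rw [mem_Icc]; exact ⟨hq1, by exact_mod_cast hqQ⟩
      have h1 : (1 : ℝ) ≤ ∑ q ∈ Icc 1 Q,
          if nd ((p : ℝ) ^ t * ((q : ℝ) * k * β) - (q : ℝ) * k * (p' : ℝ) ^ t * β) ≤ u
            then (1 : ℝ) else 0 := by
        refine le_trans ?_ (single_le_sum (f := fun q : ℕ =>
          if nd ((p : ℝ) ^ t * ((q : ℝ) * k * β) - (q : ℝ) * k * (p' : ℝ) ^ t * β) ≤ u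
            then (1 : ℝ) else 0) (fun q _ => by split_ifs <;> norm_num) hqm)
        rw [if_pos]
        have e2 : (p : ℝ) ^ t * ((q : ℝ) * k * β) - (q : ℝ) * k * (p' : ℝ) ^ t * β
            = (q : ℝ) * z := by rw [hz]; ring
        rw [e2]; exact hnd
      calc _ ≤ (X : ℝ) := hn
        _ = X * 1 := by ring
        _ ≤ X * _ := mul_le_mul_of_nonneg_left h1 hX0.le
        _ ≤ _ := le_add_of_nonneg_left (by positivity)
  refine (expand (blk a b) (Ico X (2 ^ (i + 1))) (fun p => 1 / (p : ℝ)) (fun p => by positivity)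
    (fun p m => (k : ℝ) * (m : ℝ) ^ t * (p : ℝ) ^ t * β)).trans ?_
  have hinner : ∀ p' : ℕ, ∑ p ∈ blk a b, 1 / (p : ℝ) * ‖∑ m ∈ Ico X (2 ^ (i + 1)),
      ee ((k : ℝ) * (m : ℝ) ^ t * (p : ℝ) ^ t * β - (k : ℝ) * (m : ℝ) ^ t * (p' : ℝ) ^ t * β)‖
      ≤ (1 + C) * (ρ * X) * W := by
    intro p'
    have hq : ∀ q ∈ Icc 1 Q, ∑ p ∈ blk a b, 1 / (p : ℝ) *
        (if nd ((p : ℝ) ^ t * ((q : ℝ) * k * β) - (q : ℝ) * k * (p' : ℝ) ^ t * β) ≤ u
          then (1 : ℝ) else 0) ≤ C * u * W := by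
      intro q hq
      have hmem : (q : ℝ) * k * β ∈ B' := by
        simp only [hB', Set.mem_iUnion, Set.mem_image]
        exact ⟨q, hq, k, hk, β, hβ, rfl⟩
      have := hj₁ a b ha hab _ hmem ((q : ℝ) * k * (p' : ℝ) ^ t * β)
      rw [sum_filter] at this
      simpa only [mul_ite, mul_one, mul_zero] using this
    calc _ ≤ ∑ p ∈ blk a b, 1 / (p : ℝ) * (ρ * X + X * ∑ q ∈ Icc 1 Q,
          if nd ((p : ℝ) ^ t * ((q : ℝ) * k * β) - (q : ℝ) * k * (p' : ℝ) ^ t * β) ≤ u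
          then (1 : ℝ) else 0) := by
          apply sum_le_sum; intro p _
          apply mul_le_mul_of_nonneg_left (hpair p p') (by positivity)
      _ = ρ * X * W + X * ∑ q ∈ Icc 1 Q, ∑ p ∈ blk a b, 1 / (p : ℝ) *
          (if nd ((p : ℝ) ^ t * ((q : ℝ) * k * β) - (q : ℝ) * k * (p' : ℝ) ^ t * β) ≤ u
          then (1 : ℝ) else 0) := by
          rw [sum_comm, mul_sum, hW, WW, mul_sum, ← sum_add_distrib]
          apply sum_congr rfl; intro p _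
          rw [mul_add, ← mul_sum]; ring
      _ ≤ ρ * X * W + X * ∑ q ∈ Icc 1 Q, C * u * W := by
          gcongr with q hq'; exact hq q hq'
      _ = ρ * X * W + X * (Q * (C * u * W)) := by
          rw [sum_const, nsmul_eq_mul]; simp
      _ ≤ ρ * X * W + X * (Q * (C * (Q / X) * W)) := by gcongr
      _ = ρ * X * W + C * (Q * Q) * W := by field_simp
      _ ≤ ρ * X * W + C * (ρ * X) * W := by
          have hQQ : (Q : ℝ) * Q ≤ ρ * X := by
            have h1 : 2 ^ r * (Q * Q) ≤ X := by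
              rw [hQ, hX, ← pow_add, ← pow_add]
              apply Nat.pow_le_pow_right (by norm_num)
              nlinarith
            have h2 : (2 : ℝ) ^ r * (Q * Q) ≤ X := by exact_mod_cast h1
            have h3 : ρ * 2 ^ r = 1 := by
              rw [hρ, ← mul_pow]; norm_num
            calc (Q : ℝ) * Q = ρ * (2 ^ r * (Q * Q)) := by rw [← mul_assoc, h3, one_mul]
              _ ≤ _ := by gcongr
          gcongr
      _ = _ := by ring
  calc _ ≤ ∑ p' ∈ blk a b, 1 / (p' : ℝ) * ((1 + C) * (ρ * X) * W) := by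
        apply sum_le_sum; intro p' _
        exact mul_le_mul_of_nonneg_left (hinner p') (by positivity)
    _ = W * ((1 + C) * (ρ * X) * W) := by rw [← sum_mul, hW, WW]
    _ = _ := by rw [hX]; push_cast; ring

lemma dyadic (g : ℕ → ℝ) (hg : ∀ m, 0 ≤ g m) {a b : ℕ} (hab : a ≤ b) :
    ∑ m ∈ Ico (2 ^ a : ℕ) (2 ^ b), (1 / (m : ℝ)) * g m
      ≤ ∑ i ∈ Ico a b, (1 / 2 : ℝ) ^ i * ∑ m ∈ Ico (2 ^ i : ℕ) (2 ^ (i + 1)), g m := by
  induction b, hab using Nat.le_induction with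
  | base => simp
  | succ b hb ih =>
    rw [sum_Ico_succ_top hb, ← sum_Ico_consecutive _ (Nat.pow_le_pow_right (by norm_num) hb)
      (Nat.pow_le_pow_right (by norm_num) (Nat.le_succ b))]
    refine add_le_add ih ?_
    rw [mul_sum]
    apply sum_le_sum
    intro m hm
    rw [mem_Ico] at hm
    refine mul_le_mul_of_nonneg_right ?_ (hg m)
    rw [one_div_pow]
    apply one_div_le_one_div_of_le (by positivity)
    exact_mod_cast hm.1

lemma geo_aux (r : ℕ) : ((r : ℝ) + 1) ^ 2 * (1 / 2) ^ r ≤ 4 := by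
  have h : ∀ r : ℕ, (r + 1) ^ 2 ≤ 4 * 2 ^ r := by
    intro r
    rcases Nat.lt_or_ge r 3 with h | h
    · interval_cases r <;> norm_num
    · induction r, h using Nat.le_induction with
      | base => norm_num
      | succ r hr ih => rw [pow_succ 2 r]; nlinarith
  have h2 : ((r : ℝ) + 1) ^ 2 ≤ 4 * 2 ^ r := by exact_mod_cast h r
  calc ((r : ℝ) + 1) ^ 2 * (1 / 2) ^ r ≤ 4 * 2 ^ r * (1 / 2) ^ r := by gcongr
    _ = 4 := by rw [mul_assoc, ← mul_pow]; norm_num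

lemma tail (D : ℕ) (hD : 1 ≤ D) {a b : ℕ} (ha : 1 ≤ a) (hab : a ≤ b) :
    ∑ i ∈ Ico a b, (1 / 2 : ℝ) ^ (i / D) ≤ 4 * (D : ℝ) ^ 2 / a := by
  have h1 : ∀ i : ℕ, 1 ≤ i → (1 / 2 : ℝ) ^ (i / D) ≤ 4 * (D : ℝ) ^ 2 * (1 / i - 1 / (i + 1)) := by
    intro i hi
    have hD0 : (0 : ℝ) < D := by exact_mod_cast hD
    have hi0 : (0 : ℝ) < i := by exact_mod_cast hi
    have h2 : (i : ℝ) + 1 ≤ D * ((i / D : ℕ) + 1) := by
      have := Nat.lt_mul_div_succ i hD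
      have h3 : i + 1 ≤ D * (i / D + 1) := this
      exact_mod_cast h3
    have h3 := geo_aux (i / D)
    have h4 : ((i : ℝ) + 1) ^ 2 * (1 / 2 : ℝ) ^ (i / D) ≤ 4 * (D : ℝ) ^ 2 := by
      calc ((i : ℝ) + 1) ^ 2 * (1 / 2 : ℝ) ^ (i / D)
          ≤ (D * ((i / D : ℕ) + 1)) ^ 2 * (1 / 2 : ℝ) ^ (i / D) := by gcongr
        _ = (D : ℝ) ^ 2 * ((((i / D : ℕ) : ℝ) + 1) ^ 2 * (1 / 2 : ℝ) ^ (i / D)) := by ring
        _ ≤ (D : ℝ) ^ 2 * 4 := by gcongr
        _ = _ := by ring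
    have h5 : (1 : ℝ) / i - 1 / (i + 1) = 1 / (i * (i + 1)) := by field_simp; ring
    rw [h5, mul_one_div, le_div_iff₀ (by positivity)]
    refine le_trans ?_ h4
    have : (0 : ℝ) ≤ (1 / 2 : ℝ) ^ (i / D) := by positivity
    nlinarith
  calc _ ≤ ∑ i ∈ Ico a b, 4 * (D : ℝ) ^ 2 * (1 / (i : ℝ) - 1 / (i + 1)) := by
        apply sum_le_sum; intro i hi; rw [mem_Ico] at hi; exact h1 i (by omega)
    _ = 4 * (D : ℝ) ^ 2 * (1 / (a : ℝ) - 1 / b) := by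
        rw [← mul_sum]
        congr 1
        induction b, hab using Nat.le_induction with
        | base => simp
        | succ b hb ih => rw [sum_Ico_succ_top hb, ih]; push_cast; ring
    _ ≤ _ := by
        rw [mul_sub, mul_one_div]
        have : (0 : ℝ) ≤ 4 * (D : ℝ) ^ 2 * (1 / b) := by positivity
        linarith

lemma cs (P : Finset ℕ) (T : ℕ → ℂ) :
    ‖∑ p ∈ P, ((1 / (p : ℝ) : ℝ) : ℂ) * T p‖ ^ 2 ≤ WW P * ∑ p ∈ P, (1 / (p : ℝ)) * ‖T p‖ ^ 2 := by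
  have h1 : ‖∑ p ∈ P, ((1 / (p : ℝ) : ℝ) : ℂ) * T p‖ ≤ ∑ p ∈ P, (1 / (p : ℝ)) * ‖T p‖ := by
    refine (norm_sum_le _ _).trans (le_of_eq (sum_congr rfl fun p _ => ?_))
    rw [norm_mul, Complex.norm_real, Real.norm_of_nonneg (by positivity)]
  calc _ ≤ (∑ p ∈ P, (1 / (p : ℝ)) * ‖T p‖) ^ 2 := by gcongr
    _ ≤ _ := by
      rw [WW]
      apply sum_sq_le_sum_mul_sum_of_sq_le_mul
      · intro p _; positivity
      · intro p _; positivity
      · intro p _; exact le_of_eq (by ring)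

lemma main_aux (D : ℕ) (hD : 1 ≤ D) (C η : ℝ) (hC : 0 < C) (hη : 0 < η) (a₀ b₀ : ℕ)
    (ha₀ : 1 ≤ a₀) (hb₀ : a₀ ≤ b₀) (haC : C * (4 * (D : ℝ) ^ 2) / η ^ 2 ≤ a₀) (P : Finset ℕ)
    (hP : P ⊆ Ico (2 ^ (2 * a₀) : ℕ) (2 ^ (2 * b₀ + 1))) (W : ℝ) (hW : W = WW P) (hW1 : 1 ≤ W)
    (W' : ℝ) (hW0' : 0 ≤ W') (T : ℕ → ℂ)
    (hT : ∀ i ∈ Ico (2 * a₀) (2 * b₀ + 1), ∑ m ∈ Ico (2 ^ i : ℕ) (2 ^ (i + 1)), ‖T m‖ ^ 2
      ≤ C * 2 ^ i * (1 / 2) ^ (i / D) * W' ^ 2) :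
    ‖∑ p ∈ P, ((1 / (p : ℝ) : ℝ) : ℂ) * T p‖ ≤ η * (W * W') := by
  have h7 : (0 : ℝ) < a₀ := by exact_mod_cast (by omega : 0 < a₀)
  have hW0 : 0 ≤ W := by linarith
  have hW2 : 0 ≤ W' ^ 2 := sq_nonneg _
  have hCW : 0 ≤ C * W' ^ 2 := mul_nonneg hC.le hW2
  have h2 : ∑ p ∈ P, (1 / (p : ℝ)) * ‖T p‖ ^ 2 ≤ η ^ 2 * W' ^ 2 := by
    calc _ ≤ ∑ m ∈ Ico (2 ^ (2 * a₀) : ℕ) (2 ^ (2 * b₀ + 1)), (1 / (m : ℝ)) * ‖T m‖ ^ 2 := by
          apply sum_le_sum_of_subset_of_nonneg hP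
          intro m _ _; positivity
      _ ≤ ∑ i ∈ Ico (2 * a₀) (2 * b₀ + 1), (1 / 2 : ℝ) ^ i *
            ∑ m ∈ Ico (2 ^ i : ℕ) (2 ^ (i + 1)), ‖T m‖ ^ 2 :=
          dyadic (fun m => ‖T m‖ ^ 2) (fun m => by positivity) (by omega)
      _ ≤ ∑ i ∈ Ico (2 * a₀) (2 * b₀ + 1), (1 / 2 : ℝ) ^ i *
            (C * 2 ^ i * (1 / 2) ^ (i / D) * W' ^ 2) := by
          apply sum_le_sum; intro i hi
          exact mul_le_mul_of_nonneg_left (hT i hi) (by positivity)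
      _ = (C * W' ^ 2) * ∑ i ∈ Ico (2 * a₀) (2 * b₀ + 1), (1 / 2 : ℝ) ^ (i / D) := by
          rw [mul_sum]; apply sum_congr rfl; intro i _
          have : (1 / 2 : ℝ) ^ i * 2 ^ i = 1 := by rw [← mul_pow]; norm_num
          linear_combination (C * (1 / 2) ^ (i / D) * W' ^ 2) * this
      _ ≤ (C * W' ^ 2) * (4 * (D : ℝ) ^ 2 / ((2 * a₀ : ℕ) : ℝ)) :=
          mul_le_mul_of_nonneg_left (tail D hD (by omega) (by omega)) hCW
      _ ≤ (C * W' ^ 2) * (4 * (D : ℝ) ^ 2 / (a₀ : ℝ)) := by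
          have : ((2 * a₀ : ℕ) : ℝ) = 2 * a₀ := by push_cast; ring
          rw [this]
          refine mul_le_mul_of_nonneg_left ?_ hCW
          apply div_le_div_of_nonneg_left (by positivity) h7
          linarith
      _ = (C * (4 * (D : ℝ) ^ 2) / a₀) * W' ^ 2 := by ring
      _ ≤ η ^ 2 * W' ^ 2 := by
          refine mul_le_mul_of_nonneg_right ?_ hW2
          rw [div_le_iff₀ (by positivity)] at haC ⊢
          linarith
  have h3 := cs P T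
  rw [← hW] at h3
  have h4 : ‖∑ p ∈ P, ((1 / (p : ℝ) : ℝ) : ℂ) * T p‖ ^ 2 ≤ (η * (W * W')) ^ 2 := by
    have h5 : 0 ≤ η ^ 2 * W' ^ 2 := mul_nonneg (sq_nonneg _) hW2
    calc _ ≤ _ := h3
      _ ≤ W * (η ^ 2 * W' ^ 2) := mul_le_mul_of_nonneg_left h2 hW0
      _ ≤ (W * W) * (η ^ 2 * W' ^ 2) := by
          refine mul_le_mul_of_nonneg_right ?_ h5
          nlinarith
      _ = _ := by ring
  exact (pow_le_pow_iff_left₀ (norm_nonneg _) (by positivity) (by norm_num)).mp h4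

/-- exponential sums over two far apart sets of primes -/
lemma main (t : ℕ) (ht : 1 ≤ t) (B : Set ℝ) (hB : IsCompact B) (hirr : ∀ x ∈ B, Irrational x)
    (k₀ : ℕ) (η : ℝ) (hη : 0 < η) (P₀ : ℕ) (W₀ : ℝ) :
    ∃ P P' : Finset ℕ, (∀ p ∈ P, p.Prime ∧ P₀ ≤ p) ∧ (∀ p ∈ P', p.Prime ∧ P₀ ≤ p) ∧
      W₀ ≤ WW P ∧ W₀ ≤ WW P' ∧
      ∀ β ∈ B, ∀ k ∈ Icc 1 k₀,
        ‖∑ p ∈ P, ∑ p' ∈ P', ((1 / ((p : ℝ) * p') : ℝ) : ℂ) * ee ((k : ℝ) * (((p : ℝ) * p') ^ t * β))‖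
        ≤ η * (WW P * WW P') := by
  obtain ⟨D, C, hD, hC, hsc⟩ := scale t ht
  obtain ⟨a₀, ha7, haD, haP, haC⟩ : ∃ a₀ : ℕ, 7 ≤ a₀ ∧ D ≤ a₀ ∧ P₀ ≤ a₀ ∧
      C * (4 * (D : ℝ) ^ 2) / η ^ 2 ≤ a₀ :=
    ⟨7 + D + P₀ + ⌈C * (4 * (D : ℝ) ^ 2) / η ^ 2⌉₊, by omega, by omega, by omega,
      (Nat.le_ceil _).trans (by exact_mod_cast (by omega))⟩
  obtain ⟨b₀, hb₀, hW₁⟩ := WW_blk_ge a₀ ha7 (max W₀ 1)
  have hsel : ∀ i ∈ Ico (2 * a₀) (2 * b₀ + 1), ∃ j₁ : ℕ, ∀ a b : ℕ, j₁ ≤ a → a ≤ b →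
    ∀ β ∈ B, ∀ k ∈ Icc 1 k₀,
      ∑ m ∈ Ico (2 ^ i : ℕ) (2 ^ (i + 1)),
        ‖∑ p ∈ blk a b, ((1 / (p : ℝ) : ℝ) : ℂ) * ee ((k : ℝ) * (m : ℝ) ^ t * (p : ℝ) ^ t * β)‖ ^ 2
      ≤ C * 2 ^ i * (1 / 2) ^ (i / D) * WW (blk a b) ^ 2 := by
    intro i hi
    rw [mem_Ico] at hi
    exact hsc B hB hirr k₀ i (by omega)
  choose! j₁ hj₁ using hsel
  obtain ⟨a₁, ha₁, hsup⟩ : ∃ a₁, a₀ ≤ a₁ ∧ (Ico (2 * a₀) (2 * b₀ + 1)).sup j₁ ≤ a₁ :=
    ⟨_, le_max_left _ _, le_max_right _ _⟩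
  obtain ⟨b₁, hb₁, hW₂⟩ := WW_blk_ge a₁ (by omega) (max W₀ 1)
  have hbig : ∀ a : ℕ, a < 4 ^ a := fun a => Nat.lt_pow_self (by norm_num)
  refine ⟨blk a₀ b₀, blk a₁ b₁, ?_, ?_, (le_max_left _ _).trans hW₁, (le_max_left _ _).trans hW₂,
    ?_⟩
  · intro p hp
    rw [mem_blk] at hp
    refine ⟨hp.2, ?_⟩
    have := hbig a₀
    omega
  · intro p hp
    rw [mem_blk] at hp
    refine ⟨hp.2, ?_⟩
    have := hbig a₁
    omega
  intro β hβ k hk
  have e1 : ∑ p ∈ blk a₀ b₀, ∑ p' ∈ blk a₁ b₁, ((1 / ((p : ℝ) * p') : ℝ) : ℂ) *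
      ee ((k : ℝ) * (((p : ℝ) * p') ^ t * β)) = ∑ p ∈ blk a₀ b₀, ((1 / (p : ℝ) : ℝ) : ℂ) *
        ∑ p' ∈ blk a₁ b₁, ((1 / (p' : ℝ) : ℝ) : ℂ) *
          ee ((k : ℝ) * (p : ℝ) ^ t * (p' : ℝ) ^ t * β) := by
    apply sum_congr rfl; intro p _
    rw [mul_sum]
    apply sum_congr rfl; intro p' _
    have e2 : ((1 / ((p : ℝ) * p') : ℝ) : ℂ) = ((1 / (p : ℝ) : ℝ) : ℂ) * ((1 / (p' : ℝ) : ℝ) : ℂ) := by
      rw [← Complex.ofReal_mul]
      congr 1
      field_simp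
    have e3 : (k : ℝ) * (((p : ℝ) * p') ^ t * β) = (k : ℝ) * (p : ℝ) ^ t * (p' : ℝ) ^ t * β := by
      rw [mul_pow]; ring
    rw [e2, e3, mul_assoc]
  rw [e1]
  refine main_aux D hD C η hC hη a₀ b₀ (by omega) hb₀ haC (blk a₀ b₀) ?_ _ rfl
    ((le_max_right _ _).trans hW₁) _ (WW_nonneg _)
    (fun m : ℕ => ∑ p' ∈ blk a₁ b₁, ((1 / (p' : ℝ) : ℝ) : ℂ) *
          ee ((k : ℝ) * (m : ℝ) ^ t * (p' : ℝ) ^ t * β)) ?_
  · intro p hp
    rw [mem_blk] at hp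
    have h3 : (4 : ℕ) ^ a₀ = 2 ^ (2 * a₀) := by rw [pow_mul]; norm_num
    have h4 : (4 : ℕ) ^ b₀ = 2 ^ (2 * b₀) := by rw [pow_mul]; norm_num
    have h5 : 0 < 2 ^ (2 * b₀) := by positivity
    rw [mem_Ico, pow_succ]
    omega
  · intro i hi
    exact hj₁ i hi a₁ b₁ ((le_sup (f := j₁) hi).trans hsup) hb₁ β hβ k hk

/-- trigonometric approximation of a continuous function on the circle -/
lemma trig (u : C(UnitAddCircle, ℂ)) (η : ℝ) (hη : 0 < η) :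
    ∃ (M : Finset ℤ) (a : ℤ → ℂ), ∀ r : ℝ, ‖u (r : UnitAddCircle) - ∑ m ∈ M, a m * ee (m * r)‖ ≤ η := by
  have h : u ∈ (Submodule.span ℂ (Set.range (fourier (T := (1 : ℝ))))).topologicalClosure := by
    rw [span_fourier_closure_eq_top]; trivial
  have h' : u ∈ closure ((Submodule.span ℂ (Set.range (fourier (T := (1 : ℝ)))) :
      Set C(UnitAddCircle, ℂ))) := h
  obtain ⟨T, hT, hd⟩ := Metric.mem_closure_iff.mp h' η hη
  obtain ⟨c, hc⟩ := (Finsupp.mem_span_range_iff_exists_finsupp).mp hT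
  refine ⟨c.support, c, fun r => ?_⟩
  have h1 : T (r : UnitAddCircle) = ∑ m ∈ c.support, c m * ee (m * r) := by
    rw [← hc, Finsupp.sum, ContinuousMap.coe_sum, Finset.sum_apply]
    refine Finset.sum_congr rfl fun m _ => ?_
    rw [ContinuousMap.coe_smul, Pi.smul_apply, smul_eq_mul, fourier_coe_apply, ee]
    congr 2
    push_cast
    ring
  rw [← h1]
  have h2 : ‖u (r : UnitAddCircle) - T r‖ ≤ ‖u - T‖ := (u - T).norm_coe_le_norm _
  rw [dist_eq_norm] at hd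
  exact h2.trans hd.le

lemma integral_ee (m : ℤ) (hm : m ≠ 0) : ∫ x in (0 : ℝ)..1, ee (m * x) = 0 := by
  have hc : (2 * Real.pi * Complex.I * m : ℂ) ≠ 0 := by
    have : (m : ℂ) ≠ 0 := by exact_mod_cast hm
    have h2 : (2 * Real.pi * Complex.I : ℂ) ≠ 0 := by simp [Real.pi_ne_zero]
    exact mul_ne_zero h2 this
  have h1 : ∀ x : ℝ, ee (m * x) = Complex.exp ((2 * Real.pi * Complex.I * m : ℂ) * x) := by
    intro x; rw [ee]; congr 1; push_cast; ring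
  simp only [h1]
  rw [integral_exp_mul_complex hc]
  have h2 := ee_int m
  have h3 : Complex.exp ((2 * Real.pi * Complex.I * m : ℂ) * ((1 : ℝ) : ℂ)) = 1 := by
    rw [← h2, ee]; congr 1; push_cast; ring
  rw [h3]
  simp

/-- trigonometric approximation with the mean separated -/
lemma trig_real (φ : ℝ → ℝ) (hφ : Continuous φ) (hper : ∀ x, φ (x + 1) = φ x) (ε : ℝ)
    (hε : 0 < ε) : ∃ (M : Finset ℤ) (a : ℤ → ℂ) (c : ℝ), 0 ∉ M ∧
      c ≤ (∫ x in (0 : ℝ)..1, φ x) + ε ∧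
      ∀ x, φ x ≤ c + (∑ m ∈ M, a m * ee (m * x)).re + ε := by
  have hp : Function.Periodic (fun x : ℝ => (φ x : ℂ)) 1 := fun x => by simp only [hper]
  let u : C(UnitAddCircle, ℂ) := ⟨hp.lift, by
    rw [(QuotientAddGroup.isQuotientMap_mk (AddSubgroup.zmultiples (1 : ℝ))).continuous_iff]
    have : (hp.lift ∘ (QuotientAddGroup.mk : ℝ → ℝ ⧸ AddSubgroup.zmultiples (1 : ℝ)))
        = fun x : ℝ => (φ x : ℂ) := by
      funext x
      exact hp.lift_coe x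
    rw [this]
    exact Complex.continuous_ofReal.comp hφ⟩
  have hu : ∀ r : ℝ, u (r : UnitAddCircle) = (φ r : ℂ) := fun r => hp.lift_coe r
  obtain ⟨M, a, h⟩ := trig u ε hε
  simp only [hu] at h
  set c : ℝ := if (0 : ℤ) ∈ M then (a 0).re else 0 with hc
  have hsplit : ∀ x : ℝ, (∑ m ∈ M, a m * ee (m * x)).re
      = c + (∑ m ∈ M.erase 0, a m * ee (m * x)).re := by
    intro x
    by_cases h0 : (0 : ℤ) ∈ M
    · rw [hc, if_pos h0, ← Finset.add_sum_erase M _ h0]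
      have : ee (((0 : ℤ) : ℝ) * x) = 1 := by
        rw [Int.cast_zero, zero_mul]; simpa using ee_int 0
      rw [this, mul_one, Complex.add_re]
    · rw [hc, if_neg h0, erase_eq_of_notMem h0, zero_add]
  refine ⟨M.erase 0, a, c, by simp, ?_, ?_⟩
  · have hcont : Continuous fun x : ℝ => ∑ m ∈ M.erase 0, a m * ee (m * x) := by
      have := continuous_ee
      fun_prop
    have hint : (∫ x in (0 : ℝ)..1, (∑ m ∈ M.erase 0, a m * ee (m * x)).re) = 0 := by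
      have h1 : (∫ x in (0 : ℝ)..1, ∑ m ∈ M.erase 0, a m * ee (m * x)) = 0 := by
        rw [intervalIntegral.integral_finsetSum]
        · apply sum_eq_zero; intro m hm
          rw [intervalIntegral.integral_const_mul, integral_ee m (ne_of_mem_erase hm), mul_zero]
        · intro m _
          have := continuous_ee
          exact (by fun_prop : Continuous fun x : ℝ => a m * ee (m * x)).intervalIntegrable _ _
      have h2 := Complex.reCLM.intervalIntegral_comp_comm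
        (hcont.intervalIntegrable (μ := MeasureTheory.volume) 0 1)
      simp only [Complex.reCLM_apply] at h2
      rw [h2, h1]; simp
    have hcont' : Continuous fun x : ℝ => (∑ m ∈ M.erase 0, a m * ee (m * x)).re :=
      Complex.continuous_re.comp hcont
    have h1 : c = ∫ x in (0 : ℝ)..1, (c + (∑ m ∈ M.erase 0, a m * ee (m * x)).re) := by
      rw [intervalIntegral.integral_add (by simp) (hcont'.intervalIntegrable _ _), hint]
      simp
    have h2 : (∫ x in (0 : ℝ)..1, (c + (∑ m ∈ M.erase 0, a m * ee (m * x)).re))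
        ≤ ∫ x in (0 : ℝ)..1, (φ x + ε) := by
      apply intervalIntegral.integral_mono_on (by norm_num)
      · exact (continuous_const.add hcont').intervalIntegrable _ _
      · exact (hφ.add continuous_const).intervalIntegrable _ _
      · intro x _
        rw [← hsplit]
        have h3 := (Complex.abs_re_le_norm _).trans (h x)
        rw [Complex.sub_re, Complex.ofReal_re, abs_le] at h3
        linarith [h3.1]
    rw [← h1, intervalIntegral.integral_add (hφ.intervalIntegrable _ _) (by simp)] at h2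
    simpa using h2
  · intro x
    rw [← hsplit]
    have h3 := (Complex.abs_re_le_norm _).trans (h x)
    rw [Complex.sub_re, Complex.ofReal_re, abs_le] at h3
    linarith [h3.2]

end EqA

open EqA in
/-- **Equidistribution of `(p p') ^ t * β` modulo one** for two far apart sets of primes, uniformly
for `β` in a compact set of irrational numbers. -/
theorem equi (t : ℕ) (ht : 1 ≤ t) (B : Set ℝ) (hB : IsCompact B) (hirr : ∀ x ∈ B, Irrational x)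
    (φ : ℝ → ℝ) (hφ : Continuous φ) (hper : ∀ x, φ (x + 1) = φ x) (η : ℝ) (hη : 0 < η)
    (P₀ : ℕ) (W₀ : ℝ) :
    ∃ P P' : Finset ℕ, (∀ p ∈ P, p.Prime ∧ P₀ ≤ p) ∧ (∀ p ∈ P', p.Prime ∧ P₀ ≤ p) ∧
      W₀ ≤ WW P ∧ W₀ ≤ WW P' ∧
      ∀ β ∈ B, ∑ p ∈ P, ∑ p' ∈ P', 1 / ((p : ℝ) * p') * φ (((p : ℝ) * p') ^ t * β)
        ≤ (∫ x in (0 : ℝ)..1, φ x) * (WW P * WW P') + η * (WW P * WW P') := by
  obtain ⟨M, a, c, hM0, hc, happ⟩ := trig_real φ hφ hper (η / 4) (by positivity)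
  set A : ℝ := ∑ m ∈ M, ‖a m‖ with hA
  have hA0 : 0 ≤ A := sum_nonneg fun _ _ => norm_nonneg _
  obtain ⟨P, P', hP, hP', hW, hW', hmain⟩ := main t ht B hB hirr (M.sup Int.natAbs)
    (η / (2 * (A + 1))) (by positivity) P₀ W₀
  refine ⟨P, P', hP, hP', hW, hW', fun β hβ => ?_⟩
  have hWn : 0 ≤ WW P := WW_nonneg P
  have hWn' : 0 ≤ WW P' := WW_nonneg P'
  have hWW : ∑ p ∈ P, ∑ p' ∈ P', 1 / ((p : ℝ) * p') = WW P * WW P' := by
    rw [WW, WW, sum_mul_sum]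
    apply sum_congr rfl; intro p _; apply sum_congr rfl; intro p' _
    field_simp
  set V : ℝ := WW P * WW P' with hV
  have hV0 : 0 ≤ V := mul_nonneg hWn hWn'
  set E : ℤ → ℂ := fun m => ∑ p ∈ P, ∑ p' ∈ P', ((1 / ((p : ℝ) * p') : ℝ) : ℂ) *
    ee (m * (((p : ℝ) * p') ^ t * β)) with hE
  have hEm : ∀ m ∈ M, ‖E m‖ ≤ η / (2 * (A + 1)) * V := by
    intro m hm
    have hm0 : m ≠ 0 := fun h => hM0 (h ▸ hm)
    have hk : m.natAbs ∈ Icc 1 (M.sup Int.natAbs) := by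
      rw [mem_Icc]
      exact ⟨Int.natAbs_pos.mpr hm0, le_sup (f := Int.natAbs) hm⟩
    have h1 := hmain β hβ m.natAbs hk
    rcases Int.natAbs_eq m with h | h
    · have : (m : ℝ) = ((m.natAbs : ℕ) : ℝ) := by
        conv_lhs => rw [h]
        simp
      rw [hE]; simp only [this]
      exact h1
    · have h2 : (m : ℝ) = -((m.natAbs : ℕ) : ℝ) := by
        conv_lhs => rw [h]
        simp
      have h3 : E m = (starRingEnd ℂ) (∑ p ∈ P, ∑ p' ∈ P', ((1 / ((p : ℝ) * p') : ℝ) : ℂ) *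
          ee ((m.natAbs : ℝ) * (((p : ℝ) * p') ^ t * β))) := by
        rw [hE, map_sum]
        apply sum_congr rfl; intro p _
        rw [map_sum]
        apply sum_congr rfl; intro p' _
        rw [map_mul, Complex.conj_ofReal, conj_ee, h2, neg_mul]
      rw [h3, Complex.norm_conj]
      exact h1
  have h1 : ∑ p ∈ P, ∑ p' ∈ P', 1 / ((p : ℝ) * p') * φ (((p : ℝ) * p') ^ t * β)
      ≤ ∑ p ∈ P, ∑ p' ∈ P', 1 / ((p : ℝ) * p') *
        (c + (∑ m ∈ M, a m * ee (m * (((p : ℝ) * p') ^ t * β))).re + η / 4) := by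
    apply sum_le_sum; intro p _; apply sum_le_sum; intro p' _
    exact mul_le_mul_of_nonneg_left (happ _) (by positivity)
  have h2 : ∑ p ∈ P, ∑ p' ∈ P', 1 / ((p : ℝ) * p') *
        (c + (∑ m ∈ M, a m * ee (m * (((p : ℝ) * p') ^ t * β))).re + η / 4)
      = (c + η / 4) * V + (∑ m ∈ M, a m * E m).re := by
    have h3 : ∑ m ∈ M, a m * E m = ∑ p ∈ P, ∑ p' ∈ P', ((1 / ((p : ℝ) * p') : ℝ) : ℂ) *
        ∑ m ∈ M, a m * ee (m * (((p : ℝ) * p') ^ t * β)) := by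
      simp only [hE, mul_sum]
      rw [sum_comm]
      apply sum_congr rfl; intro p _
      rw [sum_comm]
      apply sum_congr rfl; intro p' _
      apply sum_congr rfl; intro m _
      ring
    rw [h3, ← hWW, mul_sum, Complex.re_sum, ← sum_add_distrib]
    apply sum_congr rfl; intro p _
    rw [mul_sum, Complex.re_sum, ← sum_add_distrib]
    apply sum_congr rfl; intro p' _
    rw [Complex.re_ofReal_mul]
    ring
  have h4 : (∑ m ∈ M, a m * E m).re ≤ η / 2 * V := by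
    calc _ ≤ ‖∑ m ∈ M, a m * E m‖ := Complex.re_le_norm _
      _ ≤ ∑ m ∈ M, ‖a m * E m‖ := norm_sum_le _ _
      _ ≤ ∑ m ∈ M, ‖a m‖ * (η / (2 * (A + 1)) * V) := by
          apply sum_le_sum; intro m hm
          rw [norm_mul]
          exact mul_le_mul_of_nonneg_left (hEm m hm) (norm_nonneg _)
      _ = A * (η / (2 * (A + 1))) * V := by rw [← sum_mul, ← hA]; ring
      _ ≤ η / 2 * V := by
          refine mul_le_mul_of_nonneg_right ?_ hV0
          rw [mul_div_assoc', div_le_div_iff₀ (by positivity) (by positivity)]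
          nlinarith
  have h5 : (c + η / 4) * V ≤ ((∫ x in (0 : ℝ)..1, φ x) + η / 4 + η / 4) * V :=
    mul_le_mul_of_nonneg_right (by linarith) hV0
  rw [h2] at h1
  linarith

end Pool.Agent.Lib.MP_663568_nt.Nul
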