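import Mathlib
import Pool.Agent.Lib.MP_663568_nul.Step
import Pool.Agent.Lib.MP_663568_nul.SepDef

/-!
# Systems of separated frequencies with large correlation
-/

set_option autoImplicit false
open Finset

namespace Pool.Agent.Lib.MP_663568_nt.Nul

open Katai

variable {ι : Type}

/-- Correlations of the dilated phases are small if the frequencies are separated. -/
def Corr (F : ι → ℕ → ℂ) (ld : ι → ℝ) (t : ℕ) (ε : ℝ) (C : ℕ) : Prop :=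
  ∀ κ : ℝ, 0 < κ → ∃ L₀ : ℕ, ∀ L : ℕ, L₀ ≤ L → ∀ i i' : ι, ∀ p q j : ℕ,
    Sep C κ ((p : ℝ) ^ t * ld i - (q : ℝ) ^ t * ld i') →
    ‖∑ l ∈ Icc 1 L, F i (p * (j + l)) * (starRingEnd ℂ) (F i' (q * (j + l)))‖ ≤ ε * L

/-- There are `m` dilated phases, with separated frequencies, which correlate with `a` on the window
`(n, n + H]`. -/
def Sys (F : ι → ℕ → ℂ) (ld : ι → ℝ) (t : ℕ) (a : ℕ → ℂ) (A : Set ι) (D : Finset ℕ) (C : ℕ)
    (κ ε : ℝ) (n H m : ℕ) : Prop :=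
  ∃ e : Fin m → ι × ℕ, (∀ r, (e r).1 ∈ A ∧ (e r).2 ∈ D ∧
      ε * H ≤ ws (ph F (e r).1 (e r).2) a n H) ∧
    ∀ r s, r ≠ s → Sep C κ (((e r).2 : ℝ) ^ t * ld (e r).1 - ((e s).2 : ℝ) ^ t * ld (e s).1)

lemma sys_zero (F : ι → ℕ → ℂ) (ld : ι → ℝ) (t : ℕ) (a : ℕ → ℂ) (A : Set ι) (D : Finset ℕ) (C : ℕ)
    (κ ε : ℝ) (n H : ℕ) : Sys F ld t a A D C κ ε n H 0 :=
  ⟨fun r => r.elim0, fun r => r.elim0, fun r => r.elim0⟩

/-- **Packing bound.** -/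
lemma sys_card (F : ι → ℕ → ℂ) (ld : ι → ℝ) (t : ℕ) (a : ℕ → ℂ) (hF : ∀ i n, ‖F i n‖ ≤ 1)
    (ha : ∀ n, ‖a n‖ ≤ 1) (ε₀ : ℝ) (hε₀ : 0 < ε₀) (C : ℕ) (hcorr : Corr F ld t (ε₀ ^ 2 / 2) C)
    (κ : ℝ) (hκ : 0 < κ) : ∃ L₀ : ℕ, ∀ (A : Set ι) (D : Finset ℕ) (ε : ℝ) (n H m : ℕ),
      ε₀ ≤ ε → L₀ ≤ H → Sys F ld t a A D C κ ε n H m → (m : ℝ) ≤ 2 / ε₀ ^ 2 := by
  obtain ⟨L₀, hL₀⟩ := hcorr κ hκ
  refine ⟨L₀ + 1, fun A D ε n H m hε hH hs => ?_⟩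
  obtain ⟨e, he, hsep⟩ := hs
  have hH0 : (0 : ℝ) < H := by
    have : 0 < H := by omega
    exact_mod_cast this
  rcases Nat.eq_zero_or_pos m with hm0 | hm0
  · subst hm0; simp; positivity
  have hm0' : (0 : ℝ) < m := by exact_mod_cast hm0
  set g : ℕ → ℕ → ℂ := fun r l => if h : r < m then F (e ⟨r, h⟩).1 ((e ⟨r, h⟩).2 * (n + l)) else 0
    with hg
  have hg1 : ∀ r l, ‖g r l‖ ≤ 1 := by
    intro r l
    rw [hg]; beta_reduce
    split_ifs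
    · exact hF _ _
    · simp
  have h1 := duality (range m) H (ε₀ ^ 2 / 2) (by positivity) (fun l => a (n + l)) (fun _ => ha _)
    g hg1 (by
      intro r hr s hs' hrs
      rw [mem_range] at hr hs'
      have := hL₀ H (by omega) (e ⟨r, hr⟩).1 (e ⟨s, hs'⟩).1 (e ⟨r, hr⟩).2 (e ⟨s, hs'⟩).2 n
        (hsep ⟨r, hr⟩ ⟨s, hs'⟩ (by simpa using hrs))
      simpa only [hg, hr, hs', dif_pos] using this)
  have h2 : (m : ℝ) * (ε₀ * H) ≤ ∑ r ∈ range m, ‖∑ l ∈ Icc 1 H, g r l * a (n + l)‖ := by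
    calc (m : ℝ) * (ε₀ * H) = ∑ r ∈ range m, ε₀ * (H : ℝ) := by simp
      _ ≤ _ := by
        apply sum_le_sum
        intro r hr
        rw [mem_range] at hr
        have h3 := (he ⟨r, hr⟩).2.2
        have h4 : ε₀ * (H : ℝ) ≤ ε * H := mul_le_mul_of_nonneg_right hε hH0.le
        refine h4.trans (h3.trans (le_of_eq ?_))
        simp only [ws, ph, hg, hr, dif_pos]
  rw [card_range] at h1
  have h3 : (m : ℝ) * ε₀ ≤ √((m : ℝ) + ε₀ ^ 2 / 2 * (m : ℝ) ^ 2) := by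
    have h4 := h2.trans h1
    have h5 : (H : ℝ) * ((m : ℝ) * ε₀) ≤ H * √((m : ℝ) + ε₀ ^ 2 / 2 * (m : ℝ) ^ 2) := by
      calc _ = (m : ℝ) * (ε₀ * H) := by ring
        _ ≤ _ := h4
    exact le_of_mul_le_mul_left h5 hH0
  have h4 : ((m : ℝ) * ε₀) ^ 2 ≤ (m : ℝ) + ε₀ ^ 2 / 2 * (m : ℝ) ^ 2 := by
    rw [← Real.le_sqrt (by positivity) (by positivity)]
    exact h3
  rw [le_div_iff₀ (by positivity)]
  have h5 : (m : ℝ) * (m * ε₀ ^ 2 / 2) ≤ m * 1 := by nlinarith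
  have h6 := le_of_mul_le_mul_left h5 hm0'
  linarith

open Classical in
/-- the size of the largest system, at most `M` -/
noncomputable def cnt (F : ι → ℕ → ℂ) (ld : ι → ℝ) (t : ℕ) (a : ℕ → ℂ) (A : Set ι) (D : Finset ℕ)
    (C : ℕ) (M : ℕ) (κ ε : ℝ) (n H : ℕ) : ℕ :=
  Nat.findGreatest (fun m => Sys F ld t a A D C κ ε n H m) M

lemma cnt_le (F : ι → ℕ → ℂ) (ld : ι → ℝ) (t : ℕ) (a : ℕ → ℂ) (A : Set ι) (D : Finset ℕ)
    (C : ℕ) (M : ℕ) (κ ε : ℝ) (n H : ℕ) : cnt F ld t a A D C M κ ε n H ≤ M := by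
  classical
  exact Nat.findGreatest_le M

lemma cnt_sys (F : ι → ℕ → ℂ) (ld : ι → ℝ) (t : ℕ) (a : ℕ → ℂ) (A : Set ι) (D : Finset ℕ)
    (C : ℕ) (M : ℕ) (κ ε : ℝ) (n H : ℕ) :
    Sys F ld t a A D C κ ε n H (cnt F ld t a A D C M κ ε n H) := by
  classical
  exact Nat.findGreatest_spec (P := fun m => Sys F ld t a A D C κ ε n H m) (Nat.zero_le M)
    (sys_zero F ld t a A D C κ ε n H)

lemma le_cnt (F : ι → ℕ → ℂ) (ld : ι → ℝ) (t : ℕ) (a : ℕ → ℂ) (A : Set ι) (D : Finset ℕ)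
    (C : ℕ) (M : ℕ) (κ ε : ℝ) (n H m : ℕ) (hm : m ≤ M) (h : Sys F ld t a A D C κ ε n H m) :
    m ≤ cnt F ld t a A D C M κ ε n H := by
  classical
  exact Nat.le_findGreatest hm h

/-- there is an undilated phase in `A` which correlates with `a` on the window -/
def Kb (F : ι → ℕ → ℂ) (a : ℕ → ℂ) (A : Set ι) (ε : ℝ) (n H : ℕ) : Prop :=
  ∃ i ∈ A, ε * H ≤ ws (F i) a n H

lemma sep_neg {C : ℕ} {κ x : ℝ} (h : Sep C κ x) : Sep C κ (-x) := by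
  intro q hq
  rw [mul_neg, nd_neg]
  exact h q hq

lemma sep_sub_comm {C : ℕ} {κ x y : ℝ} (h : Sep C κ (x - y)) : Sep C κ (y - x) := by
  rw [← neg_sub]; exact sep_neg h

/-- **The increment for one pair of primes.** -/
lemma cnt_child (F : ι → ℕ → ℂ) (ld : ι → ℝ) (t : ℕ) (a : ℕ → ℂ) (A : Set ι) (D' : Finset ℕ)
    (C M : ℕ) (κ' ε ε' : ℝ) (n H m p p' : ℕ) (hm : m + 1 ≤ M)
    (e : Fin m → ι × ℕ) (heA : ∀ r, (e r).1 ∈ A)
    (hD1 : 1 ∈ D') (hD' : ∀ r, (e r).2 * (p * p') ∈ D')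
    (hgood : ∀ r, ε' * ((H : ℕ) : ℝ) ≤
      ws (fun k => ph F (e r).1 (e r).2 (p * p' * k)) a n H)
    (hsep : ∀ r s, r ≠ s → Sep C κ' (((p : ℝ) * p') ^ t *
      (((e r).2 : ℝ) ^ t * ld (e r).1 - ((e s).2 : ℝ) ^ t * ld (e s).1)))
    (hε : ε' ≤ ε) :
    m ≤ cnt F ld t a A D' C M κ' ε' n H ∧
      ((∀ i ∈ A, ∀ r, Sep C κ' (ld i - ((p : ℝ) * p') ^ t * (((e r).2 : ℝ) ^ t * ld (e r).1))) →
        Kb F a A ε n H → m + 1 ≤ cnt F ld t a A D' C M κ' ε' n H) := by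
  set e' : Fin m → ι × ℕ := fun r => ((e r).1, (e r).2 * (p * p')) with he'
  have h1 : ∀ r, (e' r).1 ∈ A ∧ (e' r).2 ∈ D' ∧ ε' * H ≤ ws (ph F (e' r).1 (e' r).2) a n H := by
    intro r
    refine ⟨heA r, hD' r, (hgood r).trans (le_of_eq ?_)⟩
    congr 1
    funext k
    simp only [ph, he', mul_assoc]
  have hld : ∀ r, ((e' r).2 : ℝ) ^ t * ld (e' r).1 =
      ((p : ℝ) * p') ^ t * (((e r).2 : ℝ) ^ t * ld (e r).1) := by
    intro r
    simp only [he']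
    push_cast
    ring
  have h2 : ∀ r s, r ≠ s → Sep C κ'
      (((e' r).2 : ℝ) ^ t * ld (e' r).1 - ((e' s).2 : ℝ) ^ t * ld (e' s).1) := by
    intro r s hrs
    rw [hld, hld, ← mul_sub]
    exact hsep r s hrs
  refine ⟨le_cnt F ld t a A D' C M κ' ε' n H m (by omega) ⟨e', h1, h2⟩, fun hfar hkb => ?_⟩
  obtain ⟨i, hi, hcor⟩ := hkb
  refine le_cnt F ld t a A D' C M κ' ε' n H (m + 1) hm ⟨Fin.cons (i, 1) e', ?_, ?_⟩
  · intro r
    refine Fin.cases ?_ (fun r => ?_) r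
    · simp only [Fin.cons_zero]
      refine ⟨hi, hD1, ?_⟩
      have e1 : ph F i 1 = F i := by funext k; simp [ph]
      rw [e1]
      refine le_trans ?_ hcor
      exact mul_le_mul_of_nonneg_right hε (Nat.cast_nonneg _)
    · simp only [Fin.cons_succ]
      exact h1 r
  · intro r s
    refine Fin.cases ?_ (fun r => ?_) r
    · refine Fin.cases ?_ (fun s => ?_) s
      · intro h; exact absurd rfl h
      · intro _
        simp only [Fin.cons_zero, Fin.cons_succ, Nat.cast_one, one_pow, one_mul]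
        rw [hld]
        exact hfar i hi s
    · refine Fin.cases ?_ (fun s => ?_) s
      · intro _
        simp only [Fin.cons_zero, Fin.cons_succ, Nat.cast_one, one_pow, one_mul]
        rw [hld]
        exact sep_sub_comm (hfar i hi r)
      · intro hrs
        simp only [Fin.cons_succ]
        exact h2 r s (fun h => hrs (by rw [h]))

end Pool.Agent.Lib.MP_663568_nt.Nul
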