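import Mathlib
import Pool.Agent.Lib.MP_663568_nul.Sys

/-!
# One window which is not short: the criterion of Kátai
-/

set_option autoImplicit false
open Finset

namespace Pool.Agent.Lib.MP_663568_nt.Nul

open Katai

namespace SgA

/-- The criterion of Kátai for one function, with uniform constants. -/
lemma natural_one (a : ℕ → ℂ) (ha : ∀ n, ‖a n‖ ≤ 1) (hmul : Mult a) (ε : ℝ) (hε : 0 < ε) :
    ∃ P : Finset ℕ, (∀ p ∈ P, p.Prime) ∧ ∃ η : ℝ, 0 < η ∧ ∀ L : ℕ, 0 < L → ∃ H₀ : ℕ, 0 < H₀ ∧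
      ∀ f : ℕ → ℂ, (∀ n, ‖f n‖ ≤ 1) →
      (∀ p ∈ P, ∀ q ∈ P, p ≠ q → ∀ j,
        ‖∑ l ∈ Icc 1 L, f (p * (j + l)) * (starRingEnd ℂ) (f (q * (j + l)))‖ ≤ η * L) →
      ∀ H X : ℕ, H₀ ≤ H → H ≤ X → ∑ n ∈ range X, ws f a n H ≤ ε * H * X := by
  obtain ⟨P, hPsub, hW⟩ := exists_finset_WW {p : ℕ | p.Prime} not_summable_one_div_on_primes
    (128 / ε ^ 2 + 40 / ε + 1)
  have hP : ∀ p ∈ P, p.Prime := fun p hp => hPsub hp
  set K : ℝ := (P.card : ℝ) with hK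
  have hK0 : 0 ≤ K := by positivity
  set η : ℝ := 1 / (K + 1) ^ 2 with hη
  have hη0 : 0 < η := by positivity
  have hηK : √η * K ≤ 1 := by
    rw [hη, Real.sqrt_div zero_le_one, Real.sqrt_one, Real.sqrt_sq (by positivity),
      div_mul_eq_mul_div, one_mul, div_le_one (by positivity)]
    linarith
  refine ⟨P, hP, η, hη0, ?_⟩
  intro L hL0
  refine ⟨⌈4 * (L : ℝ) * K / ε⌉₊ + P.card + 1, by omega, ?_⟩
  intro f hf hL H X hH hHX
  have hmain := main_estimate (ι := Unit) P hP (fun _ => f) a (fun _ => hf) ha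
    (fun p hp m hm => hmul p (hP p hp) m hm) L hL0 η hη0.le
    (fun p hp q hq hpq _ _ j => hL p hp q hq hpq j) H X (by omega)
  have hGG : ∀ n, GG (fun _ : Unit => f) a H n = ws f a n H := by
    intro n
    rw [GG, ws, ciSup_const]
  simp only [hGG] at hmain
  set W := WW P with hWdef
  have hW1 : 1 ≤ W := by
    have : (0 : ℝ) < 128 / ε ^ 2 + 40 / ε := by positivity
    linarith
  have hWa : 128 / ε ^ 2 ≤ W := by
    have : (0 : ℝ) < 40 / ε := by positivity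
    linarith
  have hWb : 40 / ε ≤ W := by
    have : (0 : ℝ) < 128 / ε ^ 2 := by positivity
    linarith
  have hs : √(2 * W) ≤ ε / 8 * W := by
    rw [Real.sqrt_le_left (by positivity)]
    rw [div_le_iff₀ (by positivity)] at hWa
    have : 2 * W ≤ 2 * W * (W * ε ^ 2 / 128) := by
      have h1 : 1 ≤ W * ε ^ 2 / 128 := by linarith
      nlinarith
    nlinarith
  have h5 : 5 ≤ ε / 8 * W := by
    rw [div_le_iff₀ hε] at hWb; linarith
  have hHr : 4 * (L : ℝ) * K / ε ≤ H := by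
    have h1 := Nat.le_ceil (4 * (L : ℝ) * K / ε)
    have h2 : ((⌈4 * (L : ℝ) * K / ε⌉₊ : ℕ) : ℝ) ≤ H := Nat.cast_le.mpr (by omega)
    linarith
  have hHX' : ((X + H : ℕ) : ℝ) ≤ 2 * X := by
    have : (H : ℝ) ≤ X := by exact_mod_cast hHX
    push_cast; linarith
  have hX0 : (0 : ℝ) ≤ X := by positivity
  have hH0 : (0 : ℝ) ≤ H := by positivity
  have h6 : 2 * L * K * X ≤ ε / 2 * W * H * X := by
    rw [div_le_iff₀ hε] at hHr
    have : 2 * L * K ≤ ε / 2 * W * H := by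
      have h1 : 2 * (L : ℝ) * K ≤ ε / 2 * H := by linarith
      have h2 : ε / 2 * H ≤ ε / 2 * H * W := le_mul_of_one_le_right (by positivity) hW1
      linarith
    exact mul_le_mul_of_nonneg_right this hX0
  have h7 : H * ((X + H : ℕ) : ℝ) * (√(2 * W) + 4 + √η * K)
      ≤ H * (2 * X) * (ε / 8 * W + ε / 8 * W) := by
    have h8 : √(2 * W) + 4 + √η * K ≤ ε / 8 * W + ε / 8 * W := by linarith
    gcongr
  have h9 : W * ∑ n ∈ range X, ws f a n H ≤ W * (ε * H * X) := by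
    calc _ ≤ _ := hmain
      _ ≤ H * (2 * X) * (ε / 8 * W + ε / 8 * W) + ε / 2 * W * H * X := add_le_add h7 h6
      _ = _ := by ring
  exact le_of_mul_le_mul_left h9 (by linarith)

/-- separation near a compact set of irrational numbers -/
lemma sep_near (P : Finset ℕ) (t : ℕ) (ht : 1 ≤ t) (C : ℕ) (K : Set ℝ) (hK : IsCompact K)
    (hirr : ∀ x ∈ K, Irrational x) : ∃ κ : ℝ, 0 < κ ∧ ∃ δ : ℝ, 0 < δ ∧ ∀ y : ℝ,
      (∃ α ∈ K, |y - α| < δ) → ∀ p ∈ P, ∀ q ∈ P, p ≠ q →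
        Sep C κ ((p : ℝ) ^ t * y - (q : ℝ) ^ t * y) := by
  classical
  -- the finite set of relevant integer multipliers
  set Z : Finset ℤ := ((P ×ˢ P).filter (fun z => z.1 ≠ z.2) ×ˢ Icc 1 C).image
    (fun w => (w.2 : ℤ) * ((w.1.1 : ℤ) ^ t - (w.1.2 : ℤ) ^ t)) with hZ
  have hZ0 : ∀ z ∈ Z, z ≠ 0 := by
    intro z hz
    rw [hZ, mem_image] at hz
    obtain ⟨w, hw, rfl⟩ := hz
    rw [mem_product, mem_filter, mem_Icc] at hw
    apply mul_ne_zero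
    · have := hw.2.1; omega
    · rw [sub_ne_zero]
      intro h
      apply hw.1.2
      have h2 : (w.1.1) ^ t = (w.1.2) ^ t := by exact_mod_cast h
      exact Nat.pow_left_injective (by omega) h2
  have hone : ∀ z ∈ Z, ∃ κ : ℝ, 0 < κ ∧ ∀ x ∈ K, κ ≤ nd ((z : ℝ) * x) := by
    intro z hz
    rcases K.eq_empty_or_nonempty with rfl | hne
    · exact ⟨1, one_pos, fun x hx => absurd hx (Set.notMem_empty _)⟩
    obtain ⟨x₀, hx₀, hmin⟩ := hK.exists_isMinOn hne (f := fun x => nd ((z : ℝ) * x))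
      (continuous_nd.comp (continuous_const.mul continuous_id)).continuousOn
    refine ⟨nd ((z : ℝ) * x₀), ?_, fun x hx => hmin hx⟩
    exact nd_irrational_pos ((hirr x₀ hx₀).intCast_mul (hZ0 z hz))
  have hall : ∀ S : Finset ℤ, S ⊆ Z → ∃ κ : ℝ, 0 < κ ∧ ∀ z ∈ S, ∀ x ∈ K, κ ≤ nd ((z : ℝ) * x) := by
    intro S
    induction S using Finset.induction_on with
    | empty => intro _; exact ⟨1, one_pos, fun z hz => absurd hz (notMem_empty _)⟩
    | insert b S hb ih =>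
      intro hsub
      obtain ⟨κ₁, h1, h2⟩ := ih ((subset_insert _ _).trans hsub)
      obtain ⟨κ₂, h3, h4⟩ := hone b (hsub (mem_insert_self _ _))
      refine ⟨min κ₁ κ₂, lt_min h1 h3, fun z hz x hx => ?_⟩
      rw [mem_insert] at hz
      rcases hz with rfl | hz
      · exact (min_le_right _ _).trans (h4 x hx)
      · exact (min_le_left _ _).trans (h2 z hz x hx)
  obtain ⟨κ, hκ, hκ2⟩ := hall Z (Subset.refl _)
  set M : ℝ := ∑ z ∈ Z, |(z : ℝ)| + 1 with hM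
  have hM0 : 0 < M := by
    have : 0 ≤ ∑ z ∈ Z, |(z : ℝ)| := sum_nonneg fun _ _ => abs_nonneg _
    linarith
  refine ⟨κ / 2, by positivity, κ / (2 * M), by positivity, ?_⟩
  rintro y ⟨α, hα, hy⟩ p hp q hq hpq r hr
  have hz : ((r : ℤ) * ((p : ℤ) ^ t - (q : ℤ) ^ t)) ∈ Z := by
    rw [hZ, mem_image]
    refine ⟨((p, q), r), ?_, rfl⟩
    rw [mem_product, mem_filter, mem_product]
    exact ⟨⟨⟨hp, hq⟩, hpq⟩, hr⟩
  have h1 := hκ2 _ hz α hα
  set z : ℤ := (r : ℤ) * ((p : ℤ) ^ t - (q : ℤ) ^ t) with hzdef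
  have h2 : (r : ℝ) * ((p : ℝ) ^ t * y - (q : ℝ) ^ t * y) = (z : ℝ) * y := by
    rw [hzdef]; push_cast; ring
  rw [h2]
  have h3 := nd_le_add_abs ((z : ℝ) * α) ((z : ℝ) * y)
  have h4 : |(z : ℝ) * α - (z : ℝ) * y| ≤ κ / 2 := by
    rw [← mul_sub, abs_mul, abs_sub_comm]
    have h5 : |(z : ℝ)| ≤ M := by
      have := single_le_sum (f := fun z : ℤ => |(z : ℝ)|) (fun _ _ => abs_nonneg _) hz
      linarith
    calc |(z : ℝ)| * |y - α| ≤ M * (κ / (2 * M)) := by gcongr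
      _ = κ / 2 := by field_simp
  linarith

end SgA

/-- **Task P.** Sums over windows `(n, n + H]` with `n ≤ H`, uniformly in the phases whose
frequencies are close to a compact set of irrational numbers. -/
theorem single_small {ι : Type} (F : ι → ℕ → ℂ) (ld : ι → ℝ) (t : ℕ) (ht : 1 ≤ t) (a : ℕ → ℂ)
    (hF : ∀ i n, ‖F i n‖ ≤ 1) (ha : ∀ n, ‖a n‖ ≤ 1) (hmul : Mult a)
    (hcorr : ∀ ε : ℝ, 0 < ε → ∃ C : ℕ, 1 ≤ C ∧ Corr F ld t ε C)
    (K : Set ℝ) (hK : IsCompact K) (hirr : ∀ x ∈ K, Irrational x) (ε : ℝ) (hε : 0 < ε) :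
    ∃ δ : ℝ, 0 < δ ∧ ∃ H₁ : ℕ, ∀ i : ι, (∃ α ∈ K, |ld i - α| < δ) →
      ∀ H n : ℕ, H₁ ≤ H → n ≤ H → ws (F i) a n H ≤ ε * H := by
  obtain ⟨P, hP, η, hη, hnat⟩ := SgA.natural_one a ha hmul (ε / 4) (by positivity)
  obtain ⟨C, hC, hco⟩ := hcorr η hη
  obtain ⟨κ, hκ, δ, hδ, hsep⟩ := SgA.sep_near P t ht C K hK hirr
  obtain ⟨L₀, hL₀⟩ := hco κ hκ
  obtain ⟨H₀, hH₀, hsum⟩ := hnat (L₀ + 1) (by omega)
  refine ⟨δ, hδ, H₀ + ⌈4 * (H₀ : ℝ) / ε⌉₊, fun i hi H n hH hn => ?_⟩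
  have h1 := hsum (F i) (hF i) (fun p hp q hq hpq j =>
    hL₀ (L₀ + 1) (by omega) i i p q j (hsep (ld i) hi p hp q hq hpq)) H₀ (n + H) le_rfl (by omega)
  have hx : ∀ m, ‖F i m * a m‖ ≤ 1 := fun m => by
    rw [norm_mul]; exact mul_le_one₀ (hF _ _) (norm_nonneg _) (ha _)
  have h2 := smooth (fun m => F i m * a m) hx n (n + H) H₀ (by omega) hH₀
  have hH0r : (0 : ℝ) < H₀ := by exact_mod_cast hH₀
  have hHr : 4 * (H₀ : ℝ) / ε ≤ H := by
    have h1 := Nat.le_ceil (4 * (H₀ : ℝ) / ε)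
    have h2 : ((⌈4 * (H₀ : ℝ) / ε⌉₊ : ℕ) : ℝ) ≤ H := Nat.cast_le.mpr (by omega)
    linarith
  rw [div_le_iff₀ hε] at hHr
  have h3 : ∑ j ∈ Ico n (n + H), ‖∑ l ∈ Icc 1 H₀, F i (j + l) * a (j + l)‖
      ≤ ε / 4 * H₀ * ((n + H : ℕ) : ℝ) := by
    refine le_trans ?_ h1
    apply sum_le_sum_of_subset_of_nonneg
    · intro j hj; rw [mem_Ico] at hj; rw [mem_range]; exact hj.2
    · intro j _ _; exact norm_nonneg _
  have h4 : ((n + H : ℕ) : ℝ) ≤ 2 * H := by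
    have : (n : ℝ) ≤ H := by exact_mod_cast hn
    push_cast; linarith
  have h5 : ws (F i) a n H = ‖∑ m ∈ Ioc n (n + H), F i m * a m‖ := by
    rw [ws, icc_ioc (fun m => F i m * a m)]
  rw [h5]
  calc _ ≤ _ := h2
    _ ≤ (1 / (H₀ : ℝ)) * (ε / 4 * H₀ * (2 * H)) + 2 * H₀ := by
        refine add_le_add ?_ le_rfl
        refine mul_le_mul_of_nonneg_left ?_ (by positivity)
        exact h3.trans (mul_le_mul_of_nonneg_left h4 (by positivity))
    _ = ε / 2 * H + 2 * H₀ := by field_simp; ring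
    _ ≤ _ := by linarith

end Pool.Agent.Lib.MP_663568_nt.Nul
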