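import Mathlib
import Pool.Agent.Lib.MP_663568_nul.SepDef
import Pool.Agent.Lib.MP_663568_nul.Vino
import Pool.Agent.Lib.MP_663568_nt_h86.BoxPoly

/-!
# Polynomial phases whose top coefficient is separated from small denominators are small on boxes
-/

set_option autoImplicit false
open Finset Polynomial

namespace Pool.Agent.Lib.MP_663568_nt.Nul

open Katai Tw

namespace BoxSepAux

/-- **The van der Corput step**, with a set of exceptional pairs. -/
theorem boxSmall_succ_bad (n : ℕ) (K : ℕ → ℕ) (η η' β : ℝ) (hη : 0 ≤ η)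
    (a : ℕ → ℂ) (ha : ∀ m, ‖a m‖ ≤ 1) (hη2 : β + η' ≤ η ^ 2)
    (hη' : 0 ≤ η') (bad : ℕ → ℕ → Prop) [∀ u v, Decidable (bad u v)]
    (hbad : (#(((Icc 1 (K n)) ×ˢ (Icc 1 (K n))).filter (fun p => bad p.1 p.2)) : ℝ) ≤
      β * (K n : ℝ) ^ 2)
    (h : ∀ u ∈ Icc 1 (K n), ∀ v ∈ Icc 1 (K n), ¬ bad u v →
      BoxSmall n K η' (fun m => a (m + u) * (starRingEnd ℂ) (a (m + v)))) :
    BoxSmall (n + 1) K η a := by
  classical
  intro b hb l
  set V := vol K n with hV
  have hV0 : 0 ≤ V := vol_nonneg K n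
  set Gf : (Cu n → ℕ) → ℂ := fun d => ∏ v : Cu n, b (lo v) (l + d v) with hGf
  set Hf : ℕ → (Cu n → ℕ) → ℂ := fun u d => a (l + (u + d (last n))) *
    ∏ v ∈ univ.erase (last n), b (up v) (l + (u + d v)) with hHf
  have hG1 : ∀ d, ‖Gf d‖ ≤ 1 := fun d => norm_prod_le_one _ _ fun v => hb _ _
  have hH1 : ∀ u d, ‖Hf u d‖ ≤ 1 := fun u d => by
    rw [hHf]; beta_reduce; rw [norm_mul]
    exact mul_le_one₀ (ha _) (norm_nonneg _) (norm_prod_le_one _ _ fun v => hb _ _)
  have hT : msum K (n + 1) (fun d => a (l + d (last (n + 1))) *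
      ∏ w ∈ univ.erase (last (n + 1)), b w (l + d w)) =
      msum K n (fun d => Gf d * ∑ u ∈ Icc 1 (K n), Hf u d) := by
    rw [msum_succ, ← msum_sum]
    congr 1
    funext d
    rw [mul_sum]
    refine sum_congr rfl fun u _ => ?_
    rw [prod_cu_succ, last_succ]
    simp only [ext_lo, ext_up, hGf, hHf]
    ring
  rw [hT]
  set S : (Cu n → ℕ) → ℂ := fun d => ∑ u ∈ Icc 1 (K n), Hf u d with hS
  have h1 : ‖msum K n (fun d => Gf d * S d)‖ ≤ msum K n (fun d => ‖S d‖) := by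
    refine (norm_msum_le _ _ _).trans (msum_mono _ _ _ _ fun d => ?_)
    rw [norm_mul]
    exact mul_le_of_le_one_left (norm_nonneg _) (hG1 d)
  have h2 := msum_sq K n (fun d => ‖S d‖)
  -- expand the square
  have h3 : msum K n (fun d => ‖S d‖ ^ 2) =
      ∑ u ∈ Icc 1 (K n), ∑ v ∈ Icc 1 (K n),
        (msum K n (fun d => Hf u d * (starRingEnd ℂ) (Hf v d))).re := by
    have e1 : (fun d => ‖S d‖ ^ 2) = fun d => Complex.reAddGroupHom
        (∑ u ∈ Icc 1 (K n), ∑ v ∈ Icc 1 (K n), Hf u d * (starRingEnd ℂ) (Hf v d)) := by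
      funext d
      have e2 : ∑ u ∈ Icc 1 (K n), ∑ v ∈ Icc 1 (K n), Hf u d * (starRingEnd ℂ) (Hf v d)
          = S d * (starRingEnd ℂ) (S d) := by
        rw [hS]; beta_reduce
        rw [map_sum, sum_mul_sum]
      rw [e2, Complex.mul_conj, Complex.normSq_eq_norm_sq]
      exact (Complex.ofReal_re _).symm
    rw [e1, ← msum_map, msum_sum]
    simp only [msum_sum]
    change Complex.re _ = _
    rw [Complex.re_sum]
    simp only [Complex.re_sum]
  have h4 : ∀ u ∈ Icc 1 (K n), ∀ v ∈ Icc 1 (K n),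
      (msum K n (fun d => Hf u d * (starRingEnd ℂ) (Hf v d))).re ≤
        (if bad u v then V else 0) + η' * V := by
    intro u hu v hv
    refine (Complex.re_le_norm _).trans ?_
    split_ifs with huv
    · have := norm_msum_le_vol K n (fun d => Hf u d * (starRingEnd ℂ) (Hf v d)) 1 (fun d => by
        rw [norm_mul, RCLike.norm_conj]
        exact mul_le_one₀ (hH1 _ _) (norm_nonneg _) (hH1 _ _))
      have h0 : 0 ≤ η' * V := by positivity
      rw [mul_one] at this
      linarith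
    · rw [zero_add]
      have := h u hu v hv huv
        (fun w m => b (up w) (m + u) * (starRingEnd ℂ) (b (up w) (m + v))) (fun w m => by
          rw [norm_mul, RCLike.norm_conj]
          exact mul_le_one₀ (hb _ _) (norm_nonneg _) (hb _ _)) l
      refine le_trans (le_of_eq ?_) this
      congr 2
      funext d
      simp only [hHf, map_mul, map_prod, prod_mul_distrib]
      rw [show l + (u + d (last n)) = l + d (last n) + u by ring,
        show l + (v + d (last n)) = l + d (last n) + v by ring]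
      have e3 : ∀ x, (∏ w ∈ univ.erase (last n), b (up w) (l + (x + d w))) =
          ∏ w ∈ univ.erase (last n), b (up w) (l + d w + x) := fun x =>
        prod_congr rfl fun w _ => by rw [show l + (x + d w) = l + d w + x by ring]
      have e4 : ∀ x, (∏ w ∈ univ.erase (last n), (starRingEnd ℂ) (b (up w) (l + (x + d w)))) =
          ∏ w ∈ univ.erase (last n), (starRingEnd ℂ) (b (up w) (l + d w + x)) := fun x =>
        prod_congr rfl fun w _ => by rw [show l + (x + d w) = l + d w + x by ring]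
      rw [e3, e4]
      ring
  have h5 : msum K n (fun d => ‖S d‖ ^ 2) ≤ (β * (K n : ℝ) ^ 2) * V + (K n : ℝ) ^ 2 * (η' * V) := by
    rw [h3]
    calc _ ≤ ∑ u ∈ Icc 1 (K n), ∑ v ∈ Icc 1 (K n), ((if bad u v then V else 0) + η' * V) :=
          sum_le_sum fun u hu => sum_le_sum fun v hv => h4 u hu v hv
      _ = (#(((Icc 1 (K n)) ×ˢ (Icc 1 (K n))).filter (fun p => bad p.1 p.2)) : ℝ) * V +
            (K n : ℝ) ^ 2 * (η' * V) := by
          rw [← sum_product' (Icc 1 (K n)) (Icc 1 (K n))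
            (fun u v => (if bad u v then V else 0) + η' * V), sum_add_distrib, ← sum_filter,
            sum_const, sum_const, card_product, Nat.card_Icc, Nat.add_sub_cancel, nsmul_eq_mul,
            nsmul_eq_mul]
          push_cast
          ring
      _ ≤ _ := by gcongr
  have h6 : (msum K n (fun d => ‖S d‖)) ^ 2 ≤ (η * vol K (n + 1)) ^ 2 := by
    refine h2.trans ?_
    rw [vol_succ, ← hV]
    calc V * msum K n (fun d => ‖S d‖ ^ 2)
        ≤ V * ((β * (K n : ℝ) ^ 2) * V + (K n : ℝ) ^ 2 * (η' * V)) := by gcongr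
      _ = (β + η') * (V * K n) ^ 2 := by ring
      _ ≤ η ^ 2 * (V * K n) ^ 2 := by gcongr
      _ = _ := by ring
  have h7 : 0 ≤ η * vol K (n + 1) := mul_nonneg hη (vol_nonneg _ _)
  exact h1.trans (abs_le_of_sq_le_sq' h6 h7).2

/-- pairs with a given difference -/
lemma card_diff (R : ℕ) (S : Finset ℕ) :
    #(((Icc 1 R) ×ˢ (Icc 1 R)).filter (fun p => p.2 < p.1 ∧ p.1 - p.2 ∈ S)) ≤ R * #S := by
  classical
  have h : ((Icc 1 R) ×ˢ (Icc 1 R)).filter (fun p => p.2 < p.1 ∧ p.1 - p.2 ∈ S) ⊆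
      ((Icc 1 R) ×ˢ S).image (fun x => (x.1 + x.2, x.1)) := by
    intro p hp
    simp only [mem_filter, mem_product] at hp
    simp only [mem_image, mem_product, Prod.exists]
    exact ⟨p.2, p.1 - p.2, ⟨hp.1.2, hp.2.2⟩, by ext <;> simp; omega⟩
  refine (card_le_card h).trans (card_image_le.trans ?_)
  rw [card_product, Nat.card_Icc, Nat.add_sub_cancel]

lemma card_diff' (R : ℕ) (S : Finset ℕ) :
    #(((Icc 1 R) ×ˢ (Icc 1 R)).filter (fun p => p.1 < p.2 ∧ p.2 - p.1 ∈ S)) ≤ R * #S := by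
  classical
  have h : ((Icc 1 R) ×ˢ (Icc 1 R)).filter (fun p => p.1 < p.2 ∧ p.2 - p.1 ∈ S) ⊆
      ((Icc 1 R) ×ˢ S).image (fun x => (x.1, x.1 + x.2)) := by
    intro p hp
    simp only [mem_filter, mem_product] at hp
    simp only [mem_image, mem_product, Prod.exists]
    exact ⟨p.1, p.2 - p.1, ⟨hp.1.1, hp.2.2⟩, by ext <;> simp; omega⟩
  refine (card_le_card h).trans (card_image_le.trans ?_)
  rw [card_product, Nat.card_Icc, Nat.add_sub_cancel]

lemma card_diag (R : ℕ) :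
    #(((Icc 1 R) ×ˢ (Icc 1 R)).filter (fun p => p.1 = p.2)) ≤ R := by
  classical
  have h : ((Icc 1 R) ×ˢ (Icc 1 R)).filter (fun p => p.1 = p.2) ⊆
      (Icc 1 R).image (fun x => (x, x)) := by
    intro p hp
    simp only [mem_filter, mem_product] at hp
    simp only [mem_image]
    exact ⟨p.1, hp.1.1, by ext <;> simp [hp.2]⟩
  refine (card_le_card h).trans (card_image_le.trans ?_)
  rw [Nat.card_Icc, Nat.add_sub_cancel]

/-- The number of pairs whose difference makes the differenced coefficient close to a rational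
with small denominator. -/
lemma card_bad (R C' : ℕ) (κ' ρ g : ℝ)
    (hS : ∀ q ∈ Icc 1 C', (#((Icc 1 R).filter (fun h : ℕ => nd ((h : ℝ) * ((q : ℝ) * g)) ≤ κ')) : ℝ)
      ≤ ρ) :
    (#(((Icc 1 R) ×ˢ (Icc 1 R)).filter (fun p => p.1 = p.2 ∨
      ∃ q ∈ Icc 1 C', nd ((q : ℝ) * (((p.1 : ℝ) - p.2) * g)) < κ')) : ℝ) ≤
      R + 2 * (C' * (R * ρ)) := by
  classical
  set T : ℕ → Finset ℕ := fun q => (Icc 1 R).filter (fun h : ℕ => nd ((h : ℝ) * ((q : ℝ) * g)) ≤ κ')
    with hT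
  set A : Finset (ℕ × ℕ) := ((Icc 1 R) ×ˢ (Icc 1 R)).filter (fun p => p.1 = p.2) with hA
  set B : ℕ → Finset (ℕ × ℕ) := fun q =>
    ((Icc 1 R) ×ˢ (Icc 1 R)).filter (fun p => p.2 < p.1 ∧ p.1 - p.2 ∈ T q) with hB
  set B' : ℕ → Finset (ℕ × ℕ) := fun q =>
    ((Icc 1 R) ×ˢ (Icc 1 R)).filter (fun p => p.1 < p.2 ∧ p.2 - p.1 ∈ T q) with hB'
  have hsub : ((Icc 1 R) ×ˢ (Icc 1 R)).filter (fun p => p.1 = p.2 ∨
      ∃ q ∈ Icc 1 C', nd ((q : ℝ) * (((p.1 : ℝ) - p.2) * g)) < κ') ⊆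
      A ∪ ((Icc 1 C').biUnion B ∪ (Icc 1 C').biUnion B') := by
    intro p hp
    rw [mem_filter] at hp
    obtain ⟨hp1, hp2⟩ := hp
    have hp1' := hp1
    rw [mem_product, mem_Icc, mem_Icc] at hp1'
    rcases hp2 with h | ⟨q, hq, h⟩
    · exact mem_union_left _ (mem_filter.mpr ⟨hp1, h⟩)
    · rcases lt_trichotomy p.1 p.2 with h1 | h1 | h1
      · refine mem_union_right _ (mem_union_right _ (mem_biUnion.mpr ⟨q, hq, ?_⟩))
        rw [hB']
        refine mem_filter.mpr ⟨hp1, h1, ?_⟩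
        rw [hT]
        refine mem_filter.mpr ⟨mem_Icc.mpr ⟨by omega, by omega⟩, ?_⟩
        have e : ((p.2 - p.1 : ℕ) : ℝ) * ((q : ℝ) * g) =
            -((q : ℝ) * (((p.1 : ℝ) - p.2) * g)) := by
          rw [Nat.cast_sub h1.le]; ring
        rw [e, nd_neg]
        exact h.le
      · exact mem_union_left _ (mem_filter.mpr ⟨hp1, h1⟩)
      · refine mem_union_right _ (mem_union_left _ (mem_biUnion.mpr ⟨q, hq, ?_⟩))
        rw [hB]
        refine mem_filter.mpr ⟨hp1, h1, ?_⟩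
        rw [hT]
        refine mem_filter.mpr ⟨mem_Icc.mpr ⟨by omega, by omega⟩, ?_⟩
        have e : ((p.1 - p.2 : ℕ) : ℝ) * ((q : ℝ) * g) =
            ((q : ℝ) * (((p.1 : ℝ) - p.2) * g)) := by
          rw [Nat.cast_sub h1.le]; ring
        rw [e]
        exact h.le
  have h1 : (#(A ∪ ((Icc 1 C').biUnion B ∪ (Icc 1 C').biUnion B')) : ℝ) ≤
      #A + (∑ q ∈ Icc 1 C', (#(B q) : ℝ) + ∑ q ∈ Icc 1 C', (#(B' q) : ℝ)) := by
    have k1 := card_union_le A ((Icc 1 C').biUnion B ∪ (Icc 1 C').biUnion B')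
    have k2 := card_union_le ((Icc 1 C').biUnion B) ((Icc 1 C').biUnion B')
    have k3 : #((Icc 1 C').biUnion B) ≤ ∑ q ∈ Icc 1 C', #(B q) := card_biUnion_le
    have k4 : #((Icc 1 C').biUnion B') ≤ ∑ q ∈ Icc 1 C', #(B' q) := card_biUnion_le
    have k5 : #(A ∪ ((Icc 1 C').biUnion B ∪ (Icc 1 C').biUnion B')) ≤
      #A + (∑ q ∈ Icc 1 C', #(B q) + ∑ q ∈ Icc 1 C', #(B' q)) := by omega
    exact_mod_cast k5
  have hR0 : (0 : ℝ) ≤ R := Nat.cast_nonneg _
  have h2 : ∀ q ∈ Icc 1 C', (#(B q) : ℝ) ≤ R * ρ := by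
    intro q hq
    have k : (#(B q) : ℝ) ≤ R * #(T q) := by exact_mod_cast card_diff R (T q)
    exact k.trans (mul_le_mul_of_nonneg_left (hS q hq) hR0)
  have h3 : ∀ q ∈ Icc 1 C', (#(B' q) : ℝ) ≤ R * ρ := by
    intro q hq
    have k : (#(B' q) : ℝ) ≤ R * #(T q) := by exact_mod_cast card_diff' R (T q)
    exact k.trans (mul_le_mul_of_nonneg_left (hS q hq) hR0)
  have h4 : (#A : ℝ) ≤ R := by exact_mod_cast card_diag R
  calc _ ≤ (#(A ∪ ((Icc 1 C').biUnion B ∪ (Icc 1 C').biUnion B')) : ℝ) := by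
        exact_mod_cast card_le_card hsub
    _ ≤ _ := h1
    _ ≤ R + (∑ q ∈ Icc 1 C', (R * ρ) + ∑ q ∈ Icc 1 C', (R * ρ)) := by
        gcongr with q hq q hq
        · exact h2 q hq
        · exact h3 q hq
    _ = _ := by
        rw [sum_const, Nat.card_Icc, Nat.add_sub_cancel, nsmul_eq_mul]; ring

end BoxSepAux

open BoxSepAux in
/-- **Task C1.** The bound `C` for the denominators depends only on `η` (and on the degree), the
boxes also on `κ`. -/
theorem box_sep (n : ℕ) : ∀ η : ℝ, 0 < η → ∃ C : ℕ, 1 ≤ C ∧ ∀ κ : ℝ, 0 < κ →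
    ∃ K : ℕ → ℕ, (∀ i, 0 < K i) ∧ ∀ P : ℝ[X], P.natDegree ≤ n + 1 →
      Sep C κ (P.coeff (n + 1)) → BoxSmall (n + 1) K η (fun m => ee (P.eval (m : ℝ))) := by
  induction n with
  | zero =>
    intro η hη
    refine ⟨1, le_rfl, fun κ hκ => ?_⟩
    refine ⟨fun _ => ⌈1 / (2 * κ * η)⌉₊ + 1, fun _ => Nat.succ_pos _, ?_⟩
    intro P hPd hsep
    refine boxSmall_one _ η hη.le _ fun l => ?_
    have h0 := hsep 1 (mem_Icc.mpr ⟨le_rfl, le_rfl⟩)
    simp only [Nat.cast_one, one_mul, zero_add] at h0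
    have h1 : ∀ x : ℝ, P.eval x = P.coeff 1 * x + P.coeff 0 := by
      intro x
      rw [eval_eq_sum_range' (n := 2) (by omega)]
      simp [sum_range_succ]; ring
    set L := ⌈1 / (2 * κ * η)⌉₊ + 1 with hL
    have h2 := geom_bound (P.coeff 1) (P.coeff 1 * l + P.coeff 0) L
    have h3 := nd_le_norm_one_sub_ee (P.coeff 1)
    have e : ∑ u ∈ Icc 1 L, ee (P.eval ((l + u : ℕ) : ℝ)) =
        ∑ u ∈ Icc 1 L, ee (P.coeff 1 * u + (P.coeff 1 * l + P.coeff 0)) := by
      refine sum_congr rfl fun u _ => ?_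
      rw [h1]; congr 1; push_cast; ring
    rw [e]
    set s := ‖∑ u ∈ Icc 1 L, ee (P.coeff 1 * u + (P.coeff 1 * l + P.coeff 0))‖ with hs
    have hs0 : 0 ≤ s := norm_nonneg _
    have h4 : 4 * κ * s ≤ 2 :=
      (mul_le_mul_of_nonneg_right (by linarith : 4 * κ ≤ ‖1 - ee (P.coeff 1)‖) hs0).trans h2
    have h5 : 1 / (2 * κ * η) ≤ (L : ℝ) := by
      refine (Nat.le_ceil _).trans ?_
      rw [hL]; push_cast; linarith
    rw [div_le_iff₀ (by positivity)] at h5
    have h6 : κ * s ≤ κ * (η * L) := by nlinarith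
    exact le_of_mul_le_mul_left h6 hκ
  | succ n ih =>
    intro η hη
    obtain ⟨C', hC'1, hC'⟩ := ih (η ^ 2 / 4) (by positivity)
    have hC'0 : (0 : ℝ) < C' := by exact_mod_cast hC'1
    set κv : ℝ := η ^ 2 / (16 * C') with hκv
    have hκv0 : 0 < κv := by positivity
    set κ' : ℝ := κv / 64 with hκ'
    have hκ'0 : 0 < κ' := by positivity
    set N : ℕ := ⌈6 / κv⌉₊ with hN
    have hN1 : 1 ≤ N := Nat.one_le_iff_ne_zero.mpr (Nat.ceil_pos.mpr (by positivity)).ne'
    refine ⟨N * C' * (n + 2), ?_, fun κ hκ => ?_⟩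
    · exact Nat.one_le_iff_ne_zero.mpr (by positivity)
    obtain ⟨K₀, hK₀, hbox⟩ := hC' κ' hκ'0
    obtain ⟨R, hR⟩ := exists_nat_ge (max (4 / η ^ 2) (max (4 / κv) (κ' / (κv * κ) + 1)))
    have hRa : 4 / η ^ 2 ≤ (R : ℝ) := (le_max_left _ _).trans hR
    have hRb : 4 / κv ≤ (R : ℝ) := (le_max_left _ _).trans ((le_max_right _ _).trans hR)
    have hRc : κ' / (κv * κ) < (R : ℝ) := by
      have := (le_max_right _ _).trans ((le_max_right _ _).trans hR)
      linarith
    have hRr : (0 : ℝ) < R := lt_of_lt_of_le (by positivity) hRa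
    have hR0 : 0 < R := by exact_mod_cast hRr
    refine ⟨Function.update K₀ (n + 1) R, ?_, ?_⟩
    · intro i
      by_cases hi : i = n + 1
      · rw [hi, Function.update_self]; exact hR0
      · rw [Function.update_of_ne hi]; exact hK₀ i
    intro P hPd hsep
    set γ : ℝ := P.coeff (n + 1 + 1) with hγ
    set g : ℝ := ((n : ℝ) + 2) * γ with hg
    have hcount : ∀ q ∈ Icc 1 C',
        (#((Icc 1 R).filter (fun h : ℕ => nd ((h : ℝ) * ((q : ℝ) * g)) ≤ κ')) : ℝ) ≤ κv * R := by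
      intro q hq
      by_contra hcon
      push Not at hcon
      obtain ⟨q₁, hq₁, hq₁', hnd⟩ := vino ((q : ℝ) * g) κv κ' R
        ((Icc 1 R).filter (fun h : ℕ => nd ((h : ℝ) * ((q : ℝ) * g)) ≤ κ')) (filter_subset _ _) hκv0
        (by rw [div_le_iff₀ hκv0] at hRb; linarith) hκ'0.le le_rfl hcon.le
        (fun h hh => (mem_filter.mp hh).2)
      rw [mem_Icc] at hq
      have hN' : q₁ ≤ N := by
        have : (q₁ : ℝ) ≤ N := hq₁'.trans (Nat.le_ceil _)
        exact_mod_cast this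
      have hmem : q₁ * q * (n + 2) ∈ Icc 1 (N * C' * (n + 2)) := by
        rw [mem_Icc]
        refine ⟨Nat.one_le_iff_ne_zero.mpr ?_, ?_⟩
        · have : q ≠ 0 := by omega
          have : q₁ ≠ 0 := by omega
          positivity
        · exact Nat.mul_le_mul (Nat.mul_le_mul hN' hq.2) le_rfl
      have h1 := hsep _ hmem
      have e : ((q₁ * q * (n + 2) : ℕ) : ℝ) * γ = (q₁ : ℝ) * ((q : ℝ) * g) := by
        rw [hg]; push_cast; ring
      rw [e] at h1
      have h2 : κ' / (κv * R) < κ := by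
        rw [div_lt_iff₀ (by positivity)] at hRc ⊢
        linarith
      linarith
    have hKn : (Function.update K₀ (n + 1) R) (n + 1) = R := Function.update_self _ _ _
    classical
    refine boxSmall_succ_bad (n + 1) _ η (η ^ 2 / 4) (1 / (R : ℝ) + η ^ 2 / 8) hη.le _
      (fun m => (norm_ee _).le) ?_ (by positivity)
      (fun u v => u = v ∨ ∃ q ∈ Icc 1 C', nd ((q : ℝ) * (((u : ℝ) - v) * g)) < κ') ?_ ?_
    · have : 1 / (R : ℝ) ≤ η ^ 2 / 4 := by
        rw [div_le_iff₀ (by positivity)] at hRa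
        rw [div_le_iff₀ hRr]
        nlinarith
      nlinarith [sq_nonneg η]
    · rw [hKn]
      refine le_trans (le_of_eq ?_) ((card_bad R C' κ' (κv * R) g hcount).trans (le_of_eq ?_))
      · congr!
      rw [hκv]
      field_simp
      ring
    · rw [hKn]
      intro u hu v hv huv
      push Not at huv
      obtain ⟨huv, hq⟩ := huv
      have e : (fun m : ℕ => ee (P.eval ((m + u : ℕ) : ℝ)) *
          (starRingEnd ℂ) (ee (P.eval ((m + v : ℕ) : ℝ)))) =
          fun m : ℕ => ee ((P.comp (X + C (u : ℝ)) - P.comp (X + C (v : ℝ))).eval (m : ℝ)) := by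
        funext m
        rw [← ee_sub]; congr 1
        simp
      rw [e]
      refine boxSmall_mono_K _ K₀ _ _ _ (fun i hi => ?_) (hbox _ ?_ ?_)
      · rw [Function.update_of_ne (by omega)]
      · rw [natDegree_le_iff_coeff_eq_zero]
        intro N hN
        rw [coeff_sub]
        rcases Nat.lt_or_ge (n + 1 + 1) N with h | h
        · rw [coeff_eq_zero_of_natDegree_lt, coeff_eq_zero_of_natDegree_lt, sub_zero]
          · exact (natDegree_shift P _ hPd _).trans_lt h
          · exact (natDegree_shift P _ hPd _).trans_lt h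
        · have : N = n + 1 + 1 := by omega
          rw [this, coeff_shift_top P _ hPd, coeff_shift_top P _ hPd, sub_self]
      · rw [coeff_sub, coeff_shift_next P (n + 1) hPd, coeff_shift_next P (n + 1) hPd]
        intro q hq'
        refine (hq q hq').trans (le_of_eq ?_)
        congr 1
        rw [hg, hγ]; push_cast; ring

end Pool.Agent.Lib.MP_663568_nt.Nul
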