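import Mathlib
import Pool.Agent.Lib.MP_663568_nt.Log

/-!
# From one scale to all scales, for logarithmic averages
-/

set_option autoImplicit false
open Finset

namespace Pool.Agent.Lib.MP_663568_nt.Nul

open Katai

namespace ScalesAux

/-- a shifted logarithmic sum is bounded by the unshifted one -/
lemma shift_le (f : ℕ → ℝ) (hf : ∀ n, 0 ≤ f n) (M N k : ℕ) :
    ∑ n ∈ Ioc M N, (1 / ((n + k : ℕ) : ℝ)) * f (n + k) ≤
      ∑ m ∈ Icc 1 (N + k), (1 / (m : ℝ)) * f m := by
  have e : ∑ n ∈ Ioc M N, (1 / ((n + k : ℕ) : ℝ)) * f (n + k) =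
      ∑ m ∈ (Ioc M N).map (addRightEmbedding k), (1 / (m : ℝ)) * f m := by
    rw [sum_map]; rfl
  rw [e]
  apply sum_le_sum_of_subset_of_nonneg
  · intro m hm
    rw [mem_map] at hm
    obtain ⟨n, hn, rfl⟩ := hm
    rw [mem_Ioc] at hn
    rw [mem_Icc]
    simp only [addRightEmbedding_apply]
    omega
  · intro m _ _
    exact mul_nonneg (by positivity) (hf m)

/-- `∑ (1/n - 1/(n+k)) ≤ k` -/
lemma diff_le (N k : ℕ) :
    ∑ n ∈ Icc 1 N, (1 / (n : ℝ) - 1 / ((n + k : ℕ) : ℝ)) ≤ k := by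
  induction k with
  | zero => simp
  | succ k ih =>
    have e : ∑ n ∈ Icc 1 N, (1 / (n : ℝ) - 1 / ((n + (k + 1) : ℕ) : ℝ)) =
        ∑ n ∈ Icc 1 N, (1 / (n : ℝ) - 1 / ((n + k : ℕ) : ℝ)) +
        ∑ n ∈ Icc 1 N, (1 / ((n + k : ℕ) : ℝ) - 1 / ((n + (k + 1) : ℕ) : ℝ)) := by
      rw [← sum_add_distrib]
      refine sum_congr rfl fun n _ => by ring
    have t : ∑ n ∈ Icc 1 N, (1 / ((n + k : ℕ) : ℝ) - 1 / ((n + (k + 1) : ℕ) : ℝ)) =
        1 / ((1 + k : ℕ) : ℝ) - 1 / ((N + 1 + k : ℕ) : ℝ) := by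
      clear ih e
      induction N with
      | zero => simp
      | succ N ih =>
        rw [sum_Icc_succ_top (by omega), ih]
        have : N + 1 + (k + 1) = N + 1 + 1 + k := by ring
        rw [this]; ring
    rw [e, t]
    have h1 : 1 / ((1 + k : ℕ) : ℝ) ≤ 1 := by
      rw [div_le_one (by positivity)]
      push_cast
      have : (0 : ℝ) ≤ k := Nat.cast_nonneg _
      linarith
    have h2 : 0 ≤ 1 / ((N + 1 + k : ℕ) : ℝ) := by positivity
    push_cast at *
    linarith

end ScalesAux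

open ScalesAux

/-- **Task Q.** From one scale, and a pointwise bound at `n ≤ H`, to all scales. -/
theorem up_scale (g : ℕ → ℕ → ℝ) (h0 : ∀ H n, 0 ≤ g H n) (h1 : ∀ H n, g H n ≤ H)
    (hsub : ∀ H L n, 0 < L → g H n ≤ ∑ i ∈ range (H / L), g L (n + i * L) + L)
    (ε : ℝ) (hε : 0 < ε) (L : ℕ) (hL : 0 < L) (N₀ : ℕ)
    (hs : ∀ N : ℕ, N₀ ≤ N → ∑ n ∈ Icc 1 N, (1 / (n : ℝ)) * g L n ≤ ε * L * Real.log N)
    (H₁ : ℕ) (hpt : ∀ H n : ℕ, H₁ ≤ H → n ≤ H → g H n ≤ ε * H) :
    ∃ H₀ : ℕ, ∀ N H : ℕ, H₀ ≤ H → H ≤ N →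
      ∑ n ∈ Icc 1 N, (1 / (n : ℝ)) * g H n ≤ 10 * ε * H * Real.log N := by
  refine ⟨H₁ + N₀ + 3 + ⌈(L : ℝ) / ε⌉₊, fun N H hH hHN => ?_⟩
  have hLr : (0 : ℝ) < L := by exact_mod_cast hL
  have hHr : (0 : ℝ) < H := by exact_mod_cast (by omega : 0 < H)
  have hNr : (0 : ℝ) < N := by exact_mod_cast (by omega : 0 < N)
  have hlog : 1 ≤ Real.log N := by
    rw [Real.le_log_iff_exp_le hNr]
    have : (3 : ℝ) ≤ N := by exact_mod_cast (by omega : 3 ≤ N)
    have := Real.exp_one_lt_d9
    linarith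
  have hlog2 : Real.log 2 ≤ 1 := by
    have := Real.log_two_lt_d9
    linarith
  have hLε : (L : ℝ) ≤ ε * H := by
    have h2 : (L : ℝ) / ε ≤ H := by
      refine (Nat.le_ceil _).trans ?_
      exact_mod_cast (by omega : ⌈(L : ℝ) / ε⌉₊ ≤ H)
    rw [div_le_iff₀ hε] at h2
    linarith
  have hsplit : Icc 1 N = Icc 1 H ∪ Ioc H N := by
    ext x; simp only [mem_Icc, mem_union, mem_Ioc]; omega
  rw [hsplit, sum_union (by
    rw [disjoint_left]; intro x; simp only [mem_Icc, mem_Ioc]; omega)]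
  -- the small terms
  have hA : ∑ n ∈ Icc 1 H, (1 / (n : ℝ)) * g H n ≤ 2 * (ε * H * Real.log N) := by
    calc ∑ n ∈ Icc 1 H, (1 / (n : ℝ)) * g H n ≤ ∑ n ∈ Icc 1 H, (1 / (n : ℝ)) * (ε * H) := by
          refine sum_le_sum fun n hn => ?_
          rw [mem_Icc] at hn
          exact mul_le_mul_of_nonneg_left (hpt H n (by omega) hn.2) (by positivity)
      _ = (∑ n ∈ Icc 1 H, (1 / (n : ℝ))) * (ε * H) := by rw [sum_mul]
      _ ≤ (1 + Real.log N) * (ε * H) := by
          apply mul_le_mul_of_nonneg_right _ (by positivity)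
          refine (sum_inv_le_log H).trans ?_
          gcongr
      _ ≤ (2 * Real.log N) * (ε * H) := by
          apply mul_le_mul_of_nonneg_right _ (by positivity)
          linarith
      _ = _ := by ring
  -- the main terms
  have hB : ∑ n ∈ Ioc H N, (1 / (n : ℝ)) * g H n ≤ 6 * (ε * H * Real.log N) := by
    have b1 : ∀ n ∈ Ioc H N, (1 / (n : ℝ)) * g H n ≤
        ∑ i ∈ range (H / L), 2 * ((1 / ((n + i * L : ℕ) : ℝ)) * g L (n + i * L)) +
          (1 / (n : ℝ)) * L := by
      intro n hn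
      rw [mem_Ioc] at hn
      have hn0 : (0 : ℝ) < n := by exact_mod_cast (by omega : 0 < n)
      calc (1 / (n : ℝ)) * g H n
          ≤ (1 / (n : ℝ)) * (∑ i ∈ range (H / L), g L (n + i * L) + L) :=
            mul_le_mul_of_nonneg_left (hsub H L n hL) (by positivity)
        _ = ∑ i ∈ range (H / L), (1 / (n : ℝ)) * g L (n + i * L) + (1 / (n : ℝ)) * L := by
            rw [mul_add, mul_sum]
        _ ≤ _ := by
            apply add_le_add_left
            refine sum_le_sum fun i hi => ?_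
            rw [mem_range] at hi
            rw [← mul_assoc]
            apply mul_le_mul_of_nonneg_right _ (h0 _ _)
            have hi' : i * L ≤ H := by
              calc i * L ≤ (H / L) * L := Nat.mul_le_mul_right L hi.le
                _ ≤ H := Nat.div_mul_le_self H L
            have h3 : ((n + i * L : ℕ) : ℝ) ≤ 2 * n := by
              exact_mod_cast (by omega : n + i * L ≤ 2 * n)
            have h4 : (0 : ℝ) < ((n + i * L : ℕ) : ℝ) := by
              exact_mod_cast (by omega : 0 < n + i * L)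
            rw [mul_one_div, div_le_div_iff₀ hn0 h4]
            linarith
    calc ∑ n ∈ Ioc H N, (1 / (n : ℝ)) * g H n
        ≤ ∑ n ∈ Ioc H N, (∑ i ∈ range (H / L), 2 * ((1 / ((n + i * L : ℕ) : ℝ)) *
            g L (n + i * L)) + (1 / (n : ℝ)) * L) := sum_le_sum b1
      _ = ∑ i ∈ range (H / L), 2 * ∑ n ∈ Ioc H N, ((1 / ((n + i * L : ℕ) : ℝ)) *
            g L (n + i * L)) + (∑ n ∈ Ioc H N, (1 / (n : ℝ))) * L := by
          rw [sum_add_distrib, sum_comm, sum_mul]
          congr 1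
          exact sum_congr rfl fun i _ => (mul_sum _ _ _).symm
      _ ≤ ∑ i ∈ range (H / L), 2 * (ε * L * (1 + Real.log N)) + (1 + Real.log N) * L := by
          apply add_le_add
          · refine sum_le_sum fun i hi => ?_
            rw [mem_range] at hi
            have hi' : i * L ≤ H := by
              calc i * L ≤ (H / L) * L := Nat.mul_le_mul_right L hi.le
                _ ≤ H := Nat.div_mul_le_self H L
            apply mul_le_mul_of_nonneg_left _ zero_le_two
            refine (shift_le (g L) (h0 L) H N (i * L)).trans ?_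
            refine (hs _ (by omega)).trans ?_
            apply mul_le_mul_of_nonneg_left _ (by positivity)
            have h5 : ((N + i * L : ℕ) : ℝ) ≤ 2 * N := by
              exact_mod_cast (by omega : N + i * L ≤ 2 * N)
            calc Real.log ((N + i * L : ℕ) : ℝ) ≤ Real.log (2 * N) :=
                  Real.log_le_log (by exact_mod_cast (by omega : 0 < N + i * L)) h5
              _ = Real.log 2 + Real.log N := Real.log_mul two_ne_zero hNr.ne'
              _ ≤ _ := by linarith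
          · apply mul_le_mul_of_nonneg_right _ hLr.le
            refine le_trans ?_ (sum_inv_le_log N)
            apply sum_le_sum_of_subset_of_nonneg
            · intro x; simp only [mem_Icc, mem_Ioc]; omega
            · intro _ _ _; positivity
      _ = ((H / L : ℕ) : ℝ) * (2 * (ε * L * (1 + Real.log N))) + (1 + Real.log N) * L := by
          rw [sum_const, card_range, nsmul_eq_mul]
      _ ≤ ((H : ℝ) / L) * (2 * (ε * L * (1 + Real.log N))) + (1 + Real.log N) * (ε * H) := by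
          gcongr
          exact Nat.cast_div_le
      _ = 3 * (ε * H * (1 + Real.log N)) := by field_simp; ring
      _ ≤ 3 * (ε * H * (2 * Real.log N)) := by
          gcongr; linarith
      _ = _ := by ring
  have : 0 ≤ ε * H * Real.log N := by positivity
  calc _ ≤ 2 * (ε * H * Real.log N) + 6 * (ε * H * Real.log N) := add_le_add hA hB
    _ ≤ _ := by linarith

/-- **Task R.** A large logarithmic average at one scale forces large averages at all much smaller
scales. -/
theorem down_scale (g : ℕ → ℕ → ℝ) (h0 : ∀ H n, 0 ≤ g H n) (h1 : ∀ H n, g H n ≤ H)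
    (hsub : ∀ H L n, 0 < L → g H n ≤ ∑ i ∈ range (H / L), g L (n + i * L) + L)
    (ε : ℝ) (hε : 0 < ε) (T : ℕ) (hT : 0 < T) :
    ∃ N₁ : ℕ, ∀ N : ℕ, N₁ ≤ N →
      ε * T * Real.log N < ∑ n ∈ Icc 1 N, (1 / (n : ℝ)) * g T n →
      ∀ H : ℕ, 0 < H → 4 * (H : ℝ) ≤ ε * T →
        ε / 2 * H * Real.log N ≤ ∑ n ∈ Icc 1 N, (1 / (n : ℝ)) * g H n := by
  have hTr : (0 : ℝ) < T := by exact_mod_cast hT
  refine ⟨⌈Real.exp (1 + 8 * T / ε)⌉₊ + 1, fun N hN hbig H hH hHT => ?_⟩
  have hHr : (0 : ℝ) < H := by exact_mod_cast hH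
  have hNr : (0 : ℝ) < N := by exact_mod_cast (by omega : 0 < N)
  have hlog : 1 + 8 * T / ε ≤ Real.log N := by
    rw [Real.le_log_iff_exp_le hNr]
    refine (Nat.le_ceil _).trans ?_
    exact_mod_cast (by omega : ⌈Real.exp (1 + 8 * T / ε)⌉₊ ≤ N)
  set S : ℝ := ∑ n ∈ Icc 1 N, (1 / (n : ℝ)) * g H n with hS
  have hS0 : 0 ≤ S := sum_nonneg fun n _ => mul_nonneg (by positivity) (h0 _ _)
  -- one shift
  have hshift : ∀ i ∈ range (T / H), ∑ n ∈ Icc 1 N, (1 / (n : ℝ)) * g H (n + i * H) ≤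
      S + 2 * (H * T) := by
    intro i hi
    rw [mem_range] at hi
    have hi' : i * H ≤ T := by
      calc i * H ≤ (T / H) * H := Nat.mul_le_mul_right H hi.le
        _ ≤ T := Nat.div_mul_le_self T H
    have hi'' : ((i * H : ℕ) : ℝ) ≤ T := by exact_mod_cast hi'
    have e1 : ∑ n ∈ Icc 1 N, (1 / (n : ℝ)) * g H (n + i * H) =
        ∑ n ∈ Icc 1 N, (1 / ((n + i * H : ℕ) : ℝ)) * g H (n + i * H) +
        ∑ n ∈ Icc 1 N, (1 / (n : ℝ) - 1 / ((n + i * H : ℕ) : ℝ)) * g H (n + i * H) := by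
      rw [← sum_add_distrib]
      exact sum_congr rfl fun n _ => by ring
    have e2 : ∑ n ∈ Icc 1 N, (1 / (n : ℝ) - 1 / ((n + i * H : ℕ) : ℝ)) * g H (n + i * H) ≤
        T * H := by
      calc _ ≤ ∑ n ∈ Icc 1 N, (1 / (n : ℝ) - 1 / ((n + i * H : ℕ) : ℝ)) * H := by
            refine sum_le_sum fun n hn => ?_
            rw [mem_Icc] at hn
            apply mul_le_mul_of_nonneg_left (h1 _ _)
            have hn0 : (0 : ℝ) < n := by exact_mod_cast (by omega : 0 < n)
            rw [sub_nonneg]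
            apply one_div_le_one_div_of_le hn0
            exact_mod_cast (by omega : n ≤ n + i * H)
        _ = (∑ n ∈ Icc 1 N, (1 / (n : ℝ) - 1 / ((n + i * H : ℕ) : ℝ))) * H := by rw [sum_mul]
        _ ≤ ((i * H : ℕ) : ℝ) * H := mul_le_mul_of_nonneg_right (diff_le N (i * H)) hHr.le
        _ ≤ T * H := mul_le_mul_of_nonneg_right hi'' hHr.le
    have e3 : ∑ n ∈ Icc 1 N, (1 / ((n + i * H : ℕ) : ℝ)) * g H (n + i * H) ≤ S + T * H := by
      have := shift_le (g H) (h0 H) 0 N (i * H)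
      have e4 : Ioc 0 N = Icc 1 N := by ext x; simp only [mem_Icc, mem_Ioc]; omega
      rw [e4] at this
      refine this.trans ?_
      have e5 : Icc 1 (N + i * H) = Icc 1 N ∪ Ioc N (N + i * H) := by
        ext x; simp only [mem_Icc, mem_union, mem_Ioc]; omega
      rw [e5, sum_union (by
        rw [disjoint_left]; intro x; simp only [mem_Icc, mem_Ioc]; omega)]
      apply add_le_add_right
      calc ∑ m ∈ Ioc N (N + i * H), (1 / (m : ℝ)) * g H m
          ≤ ∑ m ∈ Ioc N (N + i * H), (H : ℝ) := by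
            refine sum_le_sum fun m hm => ?_
            rw [mem_Ioc] at hm
            have hm0 : (1 : ℝ) ≤ m := by exact_mod_cast (by omega : 1 ≤ m)
            have h6 : 1 / (m : ℝ) ≤ 1 := by
              rw [div_le_one (by linarith)]; exact hm0
            calc (1 / (m : ℝ)) * g H m ≤ 1 * H := mul_le_mul h6 (h1 _ _) (h0 _ _) zero_le_one
              _ = H := one_mul _
        _ = ((i * H : ℕ) : ℝ) * H := by
            rw [sum_const, Nat.card_Ioc, nsmul_eq_mul]
            congr 2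
            omega
        _ ≤ T * H := mul_le_mul_of_nonneg_right hi'' hHr.le
    rw [e1]
    linarith
  have hmain : ∑ n ∈ Icc 1 N, (1 / (n : ℝ)) * g T n ≤
      ((T : ℝ) / H) * (S + 2 * (H * T)) + H * (1 + Real.log N) := by
    calc ∑ n ∈ Icc 1 N, (1 / (n : ℝ)) * g T n
        ≤ ∑ n ∈ Icc 1 N, (1 / (n : ℝ)) * (∑ i ∈ range (T / H), g H (n + i * H) + H) :=
          sum_le_sum fun n _ => mul_le_mul_of_nonneg_left (hsub T H n hH) (by positivity)
      _ = ∑ i ∈ range (T / H), ∑ n ∈ Icc 1 N, (1 / (n : ℝ)) * g H (n + i * H) +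
            H * ∑ n ∈ Icc 1 N, (1 / (n : ℝ)) := by
          rw [mul_sum, sum_comm, ← sum_add_distrib]
          refine sum_congr rfl fun n _ => ?_
          rw [mul_add, mul_sum]; ring
      _ ≤ ∑ i ∈ range (T / H), (S + 2 * (H * T)) + H * (1 + Real.log N) := by
          apply add_le_add (sum_le_sum hshift)
          exact mul_le_mul_of_nonneg_left (sum_inv_le_log N) hHr.le
      _ = ((T / H : ℕ) : ℝ) * (S + 2 * (H * T)) + H * (1 + Real.log N) := by
          rw [sum_const, card_range, nsmul_eq_mul]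
      _ ≤ _ := by
          gcongr
          exact Nat.cast_div_le
  have h2 : ε * T * Real.log N < ((T : ℝ) / H) * (S + 2 * (H * T)) + H * (1 + Real.log N) :=
    hbig.trans_le hmain
  have hl0 : 0 ≤ 1 + Real.log N := by
    have : 0 ≤ 8 * T / ε := by positivity
    linarith
  have h3 : H * (1 + Real.log N) ≤ ε * T / 4 * (1 + Real.log N) :=
    mul_le_mul_of_nonneg_right (by linarith) hl0
  have h4 : T * (ε * Real.log N - ε / 4 * (1 + Real.log N)) <
      T * ((S + 2 * (H * T)) / H) := by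
    have : T * ((S + 2 * (H * T)) / H) = ((T : ℝ) / H) * (S + 2 * (H * T)) := by ring
    rw [this]
    linarith
  have h5 := lt_of_mul_lt_mul_left h4 hTr.le
  rw [lt_div_iff₀ hHr] at h5
  have h6 : 8 * T ≤ ε * (Real.log N - 1) := by
    have : 8 * T / ε ≤ Real.log N - 1 := by linarith
    rw [div_le_iff₀ hε] at this
    linarith
  have h7 : 0 ≤ (ε * (Real.log N - 1) - 8 * T) * H := mul_nonneg (by linarith) hHr.le
  nlinarith

end Pool.Agent.Lib.MP_663568_nt.Nul
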