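import Mathlib
import Pool.Agent.Lib.MP_663568_nul.SepDef

/-!
# A cut off function near a compact set and its rational translates; dilates of separated numbers
-/

set_option autoImplicit false
open Finset MeasureTheory

namespace Pool.Agent.Lib.MP_663568_nt.Nul

open Katai

namespace Near

/-- The projection to the circle does not increase the measure. -/
theorem volume_image_le (K : Set ℝ) (hK : IsCompact K) :
    volume ((fun x : ℝ => (x : UnitAddCircle)) '' K) ≤ volume K := by
  have hcont : Continuous (fun x : ℝ => (x : UnitAddCircle)) := AddCircle.continuous_mk' 1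
  have hmeas : MeasurableSet ((fun x : ℝ => (x : UnitAddCircle)) '' K) :=
    (hK.image hcont).isClosed.measurableSet
  have h1 := (AddCircle.measurePreserving_mk (1 : ℝ) 0).measure_preimage hmeas.nullMeasurableSet
  rw [← h1, Measure.restrict_apply (hcont.measurable hmeas)]
  have hsub : (fun x : ℝ => (x : UnitAddCircle)) ⁻¹' ((fun x : ℝ => (x : UnitAddCircle)) '' K) ∩
      Set.Ioc (0 : ℝ) (0 + 1) ⊆
      ⋃ n : ℤ, (fun x : ℝ => x + n) ⁻¹' (K ∩ Set.Ioc (n : ℝ) (n + 1)) := by
    rintro x ⟨⟨k, hk, hkx⟩, hx1, hx2⟩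
    have h2 : ((k - x : ℝ) : UnitAddCircle) = 0 := by
      rw [AddCircle.coe_sub]
      exact sub_eq_zero.2 hkx
    rw [AddCircle.coe_eq_zero_iff] at h2
    obtain ⟨n, hn⟩ := h2
    rw [zsmul_eq_mul, mul_one] at hn
    have hkn : x + n = k := by linarith
    refine Set.mem_iUnion.2 ⟨n, ?_⟩
    change x + n ∈ K ∩ _
    refine ⟨hkn ▸ hk, ?_, ?_⟩
    · linarith
    · linarith
  calc volume _ ≤ volume (⋃ n : ℤ, (fun x : ℝ => x + n) ⁻¹' (K ∩ Set.Ioc (n : ℝ) (n + 1))) :=
        measure_mono hsub
    _ ≤ ∑' n : ℤ, volume ((fun x : ℝ => x + n) ⁻¹' (K ∩ Set.Ioc (n : ℝ) (n + 1))) :=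
        measure_iUnion_le _
    _ = ∑' n : ℤ, volume (K ∩ Set.Ioc (n : ℝ) (n + 1)) :=
        tsum_congr fun n => measure_preimage_add_right _ _ _
    _ = volume (⋃ n : ℤ, K ∩ Set.Ioc (n : ℝ) (n + 1)) := by
        refine (measure_iUnion ?_ fun n => hK.measurableSet.inter measurableSet_Ioc).symm
        intro n m hnm
        exact (Set.pairwise_disjoint_Ioc_intCast ℝ hnm).mono Set.inter_subset_right
          Set.inter_subset_right
    _ = volume K := by
        rw [← Set.inter_iUnion, iUnion_Ioc_intCast, Set.inter_univ]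

/-- The set of the rational translates on the circle. -/
def E (K : Set ℝ) (C : ℕ) : Set UnitAddCircle :=
  ⋃ q ∈ Icc 1 C, ⋃ a ∈ range q,
    (fun y : UnitAddCircle => y + (((a : ℝ) / q : ℝ) : UnitAddCircle)) ''
      ((fun x : ℝ => (x : UnitAddCircle)) '' K)

theorem isCompact_E (K : Set ℝ) (hK : IsCompact K) (C : ℕ) : IsCompact (E K C) := by
  unfold E
  refine Finset.isCompact_biUnion _ fun q _ => Finset.isCompact_biUnion _ fun a _ => ?_
  exact (hK.image (AddCircle.continuous_mk' 1)).image (continuous_id.add continuous_const)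

theorem volume_E_le (K : Set ℝ) (hK : IsCompact K) (C : ℕ) :
    volume (E K C) ≤ (C : ENNReal) ^ 2 * volume K := by
  have h1 : ∀ y : UnitAddCircle, volume ((fun z : UnitAddCircle => z + y) ''
      ((fun x : ℝ => (x : UnitAddCircle)) '' K)) ≤ volume K := by
    intro y
    rw [Set.image_add_right, measure_preimage_add_right]
    exact volume_image_le K hK
  unfold E
  calc volume _ ≤ ∑ q ∈ Icc 1 C, volume (⋃ a ∈ range q,
        (fun y : UnitAddCircle => y + (((a : ℝ) / q : ℝ) : UnitAddCircle)) ''
          ((fun x : ℝ => (x : UnitAddCircle)) '' K)) := measure_biUnion_finset_le _ _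
    _ ≤ ∑ q ∈ Icc 1 C, ∑ a ∈ range q, volume K := by
        refine sum_le_sum fun q _ => (measure_biUnion_finset_le _ _).trans ?_
        exact sum_le_sum fun a _ => h1 _
    _ ≤ ∑ q ∈ Icc 1 C, (C : ENNReal) * volume K := by
        refine sum_le_sum fun q hq => ?_
        rw [sum_const, card_range, nsmul_eq_mul]
        gcongr
        exact (mem_Icc.1 hq).2
    _ = (C : ENNReal) ^ 2 * volume K := by
        rw [sum_const, Nat.card_Icc, Nat.add_sub_cancel, nsmul_eq_mul]
        ring

theorem mem_E {K : Set ℝ} {C : ℕ} {k : ℝ} (hk : k ∈ K) {q : ℕ} (hq : q ∈ Icc 1 C) (z : ℤ) :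
    (((k + (z : ℝ) / q : ℝ)) : UnitAddCircle) ∈ E K C := by
  have hq1 := (mem_Icc.1 hq).1
  have hq0 : (0 : ℤ) < q := by exact_mod_cast hq1
  have hqr : (q : ℝ) ≠ 0 := by
    have : q ≠ 0 := by omega
    exact_mod_cast this
  unfold E
  refine Set.mem_iUnion₂.2 ⟨q, hq, Set.mem_iUnion₂.2 ⟨(z % q).toNat, ?_, ?_⟩⟩
  · rw [mem_range]
    have h1 := Int.emod_nonneg z hq0.ne'
    have h2 := Int.emod_lt_of_pos z hq0
    omega
  · refine ⟨(k : UnitAddCircle), ⟨k, hk, rfl⟩, ?_⟩
    change (k : UnitAddCircle) + _ = _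
    rw [← AddCircle.coe_add]
    have h1 : (((z % q).toNat : ℕ) : ℤ) = z % q := Int.toNat_of_nonneg (Int.emod_nonneg z hq0.ne')
    have h2 : (((z % q).toNat : ℕ) : ℝ) = (z : ℝ) - q * ((z / q : ℤ) : ℝ) := by
      have h3 : (((z % q).toNat : ℕ) : ℤ) = z - q * (z / q) := by
        rw [h1]
        have := Int.emod_add_mul_ediv z q
        linarith
      have h4 := congrArg (fun n : ℤ => (n : ℝ)) h3
      push_cast at h4
      push_cast
      exact h4
    rw [h2]
    have h5 : k + ((z : ℝ) - q * ((z / q : ℤ) : ℝ)) / q = (k + (z : ℝ) / q) -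
        ((z / q : ℤ) : ℝ) := by
      field_simp
      ring
    rw [h5, AddCircle.coe_sub]
    have h6 : ((((z / q : ℤ) : ℝ)) : UnitAddCircle) = 0 := by
      rw [AddCircle.coe_eq_zero_iff]
      exact ⟨z / q, by simp⟩
    rw [h6, sub_zero]

end Near

open Near in
/-- **Task N.** -/
theorem near_fun (K : Set ℝ) (hK : IsCompact K) (C : ℕ) (ρ : ℝ)
    (hρ : (C : ℝ) ^ 2 * (volume K).toReal < ρ) :
    ∃ φ : ℝ → ℝ, Continuous φ ∧ (∀ x, φ (x + 1) = φ x) ∧ (∀ x, 0 ≤ φ x) ∧
      (∫ x in (0 : ℝ)..1, φ x) ≤ ρ ∧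
      ∃ r : ℝ, 0 < r ∧ ∀ x : ℝ, ∀ k ∈ K, ∀ q ∈ Icc 1 C, ∀ z : ℤ,
        |x - (k + (z : ℝ) / q)| ≤ r → 1 ≤ φ x := by
  have hEc := isCompact_E K hK C
  have hvK : volume K ≠ ⊤ := hK.measure_lt_top.ne
  have hρ0 : 0 < ρ := lt_of_le_of_lt (by positivity) hρ
  have hvE : volume (E K C) < ENNReal.ofReal ρ := by
    refine (volume_E_le K hK C).trans_lt ?_
    rw [← ENNReal.ofReal_toReal (ENNReal.mul_ne_top (ENNReal.pow_ne_top (by simp)) hvK)]
    refine (ENNReal.ofReal_lt_ofReal_iff hρ0).2 ?_
    rw [ENNReal.toReal_mul, ENNReal.toReal_pow, ENNReal.toReal_natCast]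
    exact hρ
  -- thickening
  have ht := tendsto_measure_cthickening_of_isCompact (μ := (volume : Measure UnitAddCircle)) hEc
  have hev := ht.eventually_lt_const hvE
  rw [Metric.eventually_nhds_iff] at hev
  obtain ⟨ε, hε, hev⟩ := hev
  set r : ℝ := ε / 4 with hr
  have hr0 : 0 < r := by positivity
  have hμ : volume (Metric.cthickening (2 * r) (E K C)) < ENNReal.ofReal ρ := by
    apply hev
    rw [Real.dist_eq, sub_zero, abs_of_pos (by positivity)]
    rw [hr]; linarith
  set ψ : UnitAddCircle → ℝ := fun y => (thickenedIndicator hr0 (Metric.cthickening r (E K C)) y : ℝ)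
    with hψ
  have hψc : Continuous ψ :=
    NNReal.continuous_coe.comp (thickenedIndicator hr0 (Metric.cthickening r (E K C))).continuous
  refine ⟨fun x => ψ (x : UnitAddCircle), hψc.comp (AddCircle.continuous_mk' 1), ?_, ?_, ?_,
    r, hr0, ?_⟩
  · intro x
    have : ((x + 1 : ℝ) : UnitAddCircle) = (x : UnitAddCircle) := AddCircle.coe_add_period 1 x
    change ψ ((x + 1 : ℝ) : UnitAddCircle) = ψ (x : UnitAddCircle)
    rw [this]
  · intro x
    exact NNReal.coe_nonneg _
  · have h1 : (∫ x in (0 : ℝ)..1, ψ (x : UnitAddCircle)) = ∫ y : UnitAddCircle, ψ y := by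
      have := UnitAddCircle.intervalIntegral_preimage 0 ψ
      rwa [zero_add] at this
    rw [h1]
    have hms : MeasurableSet (Metric.cthickening (2 * r) (E K C)) :=
      Metric.isClosed_cthickening.measurableSet
    calc ∫ y : UnitAddCircle, ψ y
        ≤ ∫ y : UnitAddCircle, (Metric.cthickening (2 * r) (E K C)).indicator 1 y := by
          refine integral_mono_of_nonneg ?_ ?_ ?_
          · exact Filter.Eventually.of_forall fun y => NNReal.coe_nonneg _
          · exact (integrable_const 1).indicator hms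
          · refine Filter.Eventually.of_forall fun y => ?_
            by_cases hy : y ∈ Metric.cthickening (2 * r) (E K C)
            · rw [Set.indicator_of_mem hy, Pi.one_apply]
              exact_mod_cast thickenedIndicator_le_one hr0 _ y
            · rw [Set.indicator_of_notMem hy]
              have hy2 : y ∉ Metric.thickening r (Metric.cthickening r (E K C)) := by
                intro h
                apply hy
                have h2 := Metric.thickening_cthickening_subset r hr0.le (E K C) h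
                rw [← two_mul] at h2
                exact Metric.thickening_subset_cthickening _ _ h2
              have h3 := thickenedIndicator_zero hr0 _ hy2
              change ((thickenedIndicator hr0 (Metric.cthickening r (E K C)) y : NNReal) : ℝ) ≤ 0
              rw [h3]
              simp
      _ = (volume (Metric.cthickening (2 * r) (E K C))).toReal := by
          rw [integral_indicator_one hms]
          rfl
      _ ≤ ρ := by
          rw [← ENNReal.toReal_ofReal hρ0.le]
          exact ENNReal.toReal_mono ENNReal.ofReal_ne_top hμ.le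
  · intro x k hk q hq z hx
    have h1 : (x : UnitAddCircle) ∈ Metric.cthickening r (E K C) := by
      refine Metric.mem_cthickening_of_dist_le _ _ r _ (mem_E hk hq z) ?_
      rw [dist_eq_norm, ← AddCircle.coe_sub]
      refine le_trans ?_ hx
      rw [← Real.norm_eq_abs]
      exact QuotientAddGroup.norm_mk_le_norm
    have h2 := thickenedIndicator_one hr0 (Metric.cthickening r (E K C)) h1
    change (1 : ℝ) ≤ ((thickenedIndicator hr0 (Metric.cthickening r (E K C)) (x : UnitAddCircle) :
      NNReal) : ℝ)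
    rw [h2]
    simp

end Pool.Agent.Lib.MP_663568_nt.Nul
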