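import Mathlib
import Pool.Agent.Lib.MP_663568_nul.Sys
import Pool.Agent.Lib.MP_663568_nul.SepDil

/-!
# The increment for one window, on average over the pairs of primes
-/

set_option autoImplicit false
open Finset

namespace Pool.Agent.Lib.MP_663568_nt.Nul

open Katai

variable {ι : Type}

/-- the new set of dilations -/
def newD (D P P' : Finset ℕ) : Finset ℕ :=
  insert 1 ((D ×ˢ (P ×ˢ P')).image fun z => z.1 * (z.2.1 * z.2.2))

lemma one_mem_newD (D P P' : Finset ℕ) : 1 ∈ newD D P P' := mem_insert_self _ _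

lemma mem_newD {D P P' : Finset ℕ} {d p p' : ℕ} (hd : d ∈ D) (hp : p ∈ P) (hp' : p' ∈ P') :
    d * (p * p') ∈ newD D P P' := by
  apply mem_insert_of_mem
  rw [mem_image]
  exact ⟨(d, (p, p')), by simp [hd, hp, hp'], rfl⟩

lemma newD_pos {D P P' : Finset ℕ} (hD : ∀ d ∈ D, 0 < d) (hP : ∀ p ∈ P, p.Prime)
    (hP' : ∀ p ∈ P', p.Prime) : ∀ d ∈ newD D P P', 0 < d := by
  intro d hd
  rw [newD, mem_insert, mem_image] at hd
  rcases hd with rfl | ⟨z, hz, rfl⟩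
  · exact one_pos
  · rw [mem_product, mem_product] at hz
    exact Nat.mul_pos (hD _ hz.1) (Nat.mul_pos (hP _ hz.2.1).pos (hP' _ hz.2.2).pos)

open Classical in
/-- the indicator function of `Kb` -/
noncomputable def kb (F : ι → ℕ → ℂ) (a : ℕ → ℂ) (A : Set ι) (ε : ℝ) (n H : ℕ) : ℝ :=
  if Kb F a A ε n H then 1 else 0

lemma kb_nonneg (F : ι → ℕ → ℂ) (a : ℕ → ℂ) (A : Set ι) (ε : ℝ) (n H : ℕ) :
    0 ≤ kb F a A ε n H := by unfold kb; split_ifs <;> norm_num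

lemma kb_le_one (F : ι → ℕ → ℂ) (a : ℕ → ℂ) (A : Set ι) (ε : ℝ) (n H : ℕ) :
    kb F a A ε n H ≤ 1 := by unfold kb; split_ifs <;> norm_num

lemma sum_biUnion_le' {α β : Type*} [DecidableEq α] (s : Finset β) (T : β → Finset α) (f : α → ℝ)
    (hf : ∀ x, 0 ≤ f x) : ∑ x ∈ s.biUnion T, f x ≤ ∑ b ∈ s, ∑ x ∈ T b, f x := by
  classical
  induction s using Finset.induction_on with
  | empty => simp
  | insert b s hb ih =>
    rw [biUnion_insert, sum_insert hb]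
    have := sum_union_inter (s₁ := T b) (s₂ := s.biUnion T) (f := f)
    have h0 : 0 ≤ ∑ x ∈ T b ∩ s.biUnion T, f x := sum_nonneg fun x _ => hf x
    linarith

/-- weight of the pairs which meet a small set -/
lemma weight_meet (P P' S : Finset ℕ) (hP : ∀ p ∈ P, p.Prime) (hP' : ∀ p ∈ P', p.Prime) :
    ∑ z ∈ (P ×ˢ P').filter (fun z => z.1 ∈ S ∨ z.2 ∈ S), 1 / ((z.1 : ℝ) * z.2)
      ≤ S.card * (WW P + WW P') := by
  classical
  have h0 : ∀ z : ℕ × ℕ, 0 ≤ 1 / ((z.1 : ℝ) * z.2) := fun z => by positivity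
  have hsub : (P ×ˢ P').filter (fun z => z.1 ∈ S ∨ z.2 ∈ S) ⊆
      ((P ∩ S) ×ˢ P') ∪ (P ×ˢ (P' ∩ S)) := by
    intro z hz
    rw [mem_filter, mem_product] at hz
    rw [mem_union, mem_product, mem_product, mem_inter, mem_inter]
    tauto
  have h1 : ∀ Q : Finset ℕ, (∀ p ∈ Q, p.Prime) → ∑ p ∈ Q ∩ S, 1 / (p : ℝ) ≤ S.card := by
    intro Q hQ
    calc ∑ p ∈ Q ∩ S, 1 / (p : ℝ) ≤ ∑ p ∈ Q ∩ S, (1 : ℝ) := by
          apply sum_le_sum
          intro p hp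
          have : (1 : ℝ) ≤ p := by exact_mod_cast (hQ p (mem_inter.mp hp).1).one_lt.le
          rw [div_le_one (by linarith)]
          exact this
      _ = ((Q ∩ S).card : ℝ) := by simp
      _ ≤ _ := by exact_mod_cast card_le_card inter_subset_right
  have h2 : ∑ z ∈ (P ∩ S) ×ˢ P', 1 / ((z.1 : ℝ) * z.2) ≤ S.card * WW P' := by
    rw [sum_product]
    have : ∀ p ∈ P ∩ S, ∑ q ∈ P', 1 / ((p : ℝ) * q) = (1 / (p : ℝ)) * WW P' := by
      intro p _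
      rw [WW, mul_sum]
      exact sum_congr rfl fun q _ => by rw [one_div_mul_one_div]
    rw [sum_congr rfl this, ← sum_mul]
    exact mul_le_mul_of_nonneg_right (h1 P hP) (WW_nonneg _)
  have h3 : ∑ z ∈ P ×ˢ (P' ∩ S), 1 / ((z.1 : ℝ) * z.2) ≤ S.card * WW P := by
    rw [sum_product_right]
    have : ∀ q ∈ P' ∩ S, ∑ p ∈ P, 1 / ((p : ℝ) * q) = (1 / (q : ℝ)) * WW P := by
      intro q _
      rw [WW, mul_sum]
      exact sum_congr rfl fun p _ => by rw [mul_comm (p : ℝ), one_div_mul_one_div]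
    rw [sum_congr rfl this, ← sum_mul]
    exact mul_le_mul_of_nonneg_right (h1 P' hP') (WW_nonneg _)
  calc _ ≤ ∑ z ∈ ((P ∩ S) ×ˢ P') ∪ (P ×ˢ (P' ∩ S)), 1 / ((z.1 : ℝ) * z.2) :=
        sum_le_sum_of_subset_of_nonneg hsub fun z _ _ => h0 z
    _ ≤ ∑ z ∈ (P ∩ S) ×ˢ P', 1 / ((z.1 : ℝ) * z.2)
        + ∑ z ∈ P ×ˢ (P' ∩ S), 1 / ((z.1 : ℝ) * z.2) := by
        have := sum_union_inter (s₁ := (P ∩ S) ×ˢ P') (s₂ := P ×ˢ (P' ∩ S))
          (f := fun z : ℕ × ℕ => 1 / ((z.1 : ℝ) * z.2))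
        have h0 : 0 ≤ ∑ z ∈ ((P ∩ S) ×ˢ P') ∩ (P ×ˢ (P' ∩ S)), 1 / ((z.1 : ℝ) * z.2) :=
          sum_nonneg fun z _ => h0 z
        linarith
    _ ≤ S.card * WW P' + S.card * WW P := add_le_add h2 h3
    _ = _ := by ring

/-- **The increment for one window, on average over the pairs of primes.** -/
theorem one_n (F : ι → ℕ → ℂ) (ld : ι → ℝ) (t : ℕ) (a : ℕ → ℂ) (hF : ∀ i n, ‖F i n‖ ≤ 1)
    (ha : ∀ n, ‖a n‖ ≤ 1) (hmul : Mult a) (K : Set ℝ) (δ : ℝ) (A : Set ι)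
    (hA : ∀ i ∈ A, ∃ α ∈ K, |ld i - α| < δ)
    (D P P' : Finset ℕ) (hP : ∀ p ∈ P, p.Prime) (hP' : ∀ p ∈ P', p.Prime)
    (C P₀ R M : ℕ) (hC : 1 ≤ C) (hP₀ : ∀ p ∈ P, P₀ ≤ p) (hP₀' : ∀ p ∈ P', P₀ ≤ p) (hCP : C < P₀)
    (hR : ∀ p ∈ P, ∀ p' ∈ P', p * p' ≤ R)
    (κ κ' η ε ε₁ : ℝ) (hκ0 : 0 < κ') (hκ : κ' ≤ κ)
    (hκR : 2 * κ' * ((C : ℝ) * (R : ℝ) ^ t) ^ 2 ≤ 1)
    (hη : 0 < η) (hηε : 2 * η ≤ ε) (hη8 : 8 / η ≤ P₀) (hε₁ : ε - 2 * η ≤ ε₁)
    (φ : ℝ → ℝ) (hφ : ∀ x, 0 ≤ φ x) (ρ : ℝ) (hρ : 0 ≤ ρ)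
    (hequi : ∀ α ∈ K, ∀ d ∈ D, ∑ p ∈ P, ∑ p' ∈ P',
      1 / ((p : ℝ) * p') * φ (((p : ℝ) * p') ^ t * ((d : ℝ) ^ t * α)) ≤ ρ * (WW P * WW P'))
    (hnear : ∀ i ∈ A, ∀ i' ∈ A, ∀ d ∈ D, ∀ p ∈ P, ∀ p' ∈ P', ∀ α ∈ K, |ld i' - α| < δ →
      ¬ Sep C κ' (ld i - ((p : ℝ) * p') ^ t * ((d : ℝ) ^ t * ld i')) →
      1 ≤ φ (((p : ℝ) * p') ^ t * ((d : ℝ) ^ t * α)))
    (γ : ℝ) (hγ : (M : ℝ) * ρ * (WW P * WW P') +
      (M + 1) * ((8 * M / η ^ 2 + 2 * M ^ 2) * (WW P + WW P')) ≤ γ * (WW P * WW P'))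
    (n H : ℕ) (hH : LongH P P' η H) (hM : cnt F ld t a A D C M κ ε n H + 1 ≤ M) :
    (WW P * WW P') * (cnt F ld t a A D C M κ ε n H : ℝ)
      + ∑ z ∈ P ×ˢ P', 1 / ((z.1 : ℝ) * z.2) * kb F a A ε₁ (n / z.1 / z.2) (H / z.1 / z.2)
      ≤ ∑ z ∈ P ×ˢ P', 1 / ((z.1 : ℝ) * z.2) *
          (cnt F ld t a A (newD D P P') C M κ' (ε - 2 * η) (n / z.1 / z.2) (H / z.1 / z.2) : ℝ)
        + γ * (WW P * WW P') := by
  classical
  set m := cnt F ld t a A D C M κ ε n H with hm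
  have hs : Sys F ld t a A D C κ ε n H m := cnt_sys F ld t a A D C M κ ε n H
  obtain ⟨e, he, hsep⟩ := hs
  choose α hαK hαδ using fun r => hA (e r).1 (he r).1
  have hmM : (m : ℝ) + 1 ≤ M := by exact_mod_cast hM
  have hWP := WW_nonneg P
  have hWP' := WW_nonneg P'
  -- primes which spoil the separation
  have hS : ∀ r s, ∃ S : Finset ℕ, S.card ≤ 2 ∧ (r ≠ s → ∀ p ∈ P, ∀ p' ∈ P', p ∉ S → p' ∉ S →
      Sep C κ' (((p : ℝ) * p') ^ t *
        (((e r).2 : ℝ) ^ t * ld (e r).1 - ((e s).2 : ℝ) ^ t * ld (e s).1))) := by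
    intro r s
    by_cases hrs : r = s
    · exact ⟨∅, by simp, fun h => absurd hrs h⟩
    · obtain ⟨S, hS1, hS2⟩ := sep_dilate C t R κ κ' _ hC (hsep r s hrs) hκ0 hκ hκR
      refine ⟨S, hS1, fun _ p hp p' hp' h1 h2 => hS2 p p' (hP p hp) (hP' p' hp') ?_ ?_
        (hR p hp p' hp') h1 h2⟩
      · exact lt_of_lt_of_le hCP (hP₀ p hp)
      · exact lt_of_lt_of_le hCP (hP₀' p' hp')
  choose S hS2 hSsep using hS
  set SS : Finset ℕ := univ.biUnion fun r => univ.biUnion fun s => S r s with hSS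
  have hSScard : (SS.card : ℝ) ≤ 2 * (M : ℝ) ^ 2 := by
    have h1 : SS.card ≤ m * (m * 2) := by
      refine card_biUnion_le.trans ?_
      calc ∑ r : Fin m, (univ.biUnion fun s => S r s).card ≤ ∑ r : Fin m, (m * 2) := by
            apply sum_le_sum
            intro r _
            refine card_biUnion_le.trans ?_
            calc ∑ s : Fin m, (S r s).card ≤ ∑ s : Fin m, 2 := sum_le_sum fun s _ => hS2 r s
              _ = m * 2 := by simp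
        _ = m * (m * 2) := by simp
    have h2 : (SS.card : ℝ) ≤ m * (m * 2) := by exact_mod_cast h1
    have h3 : (m : ℝ) ≤ M := by linarith
    have h4 : (0 : ℝ) ≤ m := Nat.cast_nonneg _
    nlinarith
  set bad : Finset (ℕ × ℕ) := (univ.biUnion fun r => badpp P P' (ph F (e r).1 (e r).2) a η ε n H) ∪
    (P ×ˢ P').filter (fun z => z.1 ∈ SS ∨ z.2 ∈ SS) with hbad
  have hw : ∀ z : ℕ × ℕ, 0 ≤ 1 / ((z.1 : ℝ) * z.2) := fun z => by positivity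
  have hbadw : ∑ z ∈ bad, 1 / ((z.1 : ℝ) * z.2) ≤
      (8 * M / η ^ 2 + 2 * M ^ 2) * (WW P + WW P') := by
    have h1 : ∑ z ∈ bad, 1 / ((z.1 : ℝ) * z.2) ≤
        ∑ z ∈ (univ.biUnion fun r => badpp P P' (ph F (e r).1 (e r).2) a η ε n H),
          1 / ((z.1 : ℝ) * z.2) +
        ∑ z ∈ (P ×ˢ P').filter (fun z => z.1 ∈ SS ∨ z.2 ∈ SS), 1 / ((z.1 : ℝ) * z.2) := by
      rw [hbad]
      have := sum_union_inter
        (s₁ := (univ.biUnion fun r => badpp P P' (ph F (e r).1 (e r).2) a η ε n H))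
        (s₂ := (P ×ˢ P').filter (fun z => z.1 ∈ SS ∨ z.2 ∈ SS))
        (f := fun z : ℕ × ℕ => 1 / ((z.1 : ℝ) * z.2))
      have h0 : 0 ≤ ∑ z ∈ (univ.biUnion fun r => badpp P P' (ph F (e r).1 (e r).2) a η ε n H) ∩
          (P ×ˢ P').filter (fun z => z.1 ∈ SS ∨ z.2 ∈ SS), 1 / ((z.1 : ℝ) * z.2) :=
        sum_nonneg fun z _ => hw z
      linarith
    have h2 : ∑ z ∈ (univ.biUnion fun r => badpp P P' (ph F (e r).1 (e r).2) a η ε n H),
        1 / ((z.1 : ℝ) * z.2) ≤ M * (8 / η ^ 2 * (WW P + WW P')) := by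
      refine (sum_biUnion_le' _ _ _ hw).trans ?_
      calc ∑ r : Fin m, ∑ z ∈ badpp P P' (ph F (e r).1 (e r).2) a η ε n H,
            1 / ((z.1 : ℝ) * z.2) ≤ ∑ r : Fin m, 8 / η ^ 2 * (WW P + WW P') := by
            apply sum_le_sum
            intro r _
            exact badpp_weight P P' hP hP' P₀ hP₀ hP₀' η ε hη hηε hη8 _ a (fun k => hF _ _) ha hmul
              n H hH (he r).2.2
        _ = m * (8 / η ^ 2 * (WW P + WW P')) := by simp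
        _ ≤ _ := by
          apply mul_le_mul_of_nonneg_right (by linarith)
          positivity
    have h3 := weight_meet P P' SS hP hP'
    have h4 : (SS.card : ℝ) * (WW P + WW P') ≤ 2 * (M : ℝ) ^ 2 * (WW P + WW P') :=
      mul_le_mul_of_nonneg_right hSScard (by positivity)
    calc _ ≤ M * (8 / η ^ 2 * (WW P + WW P')) + 2 * (M : ℝ) ^ 2 * (WW P + WW P') := by linarith
      _ = _ := by ring
  -- the inequality for one pair
  set c : ℕ × ℕ → ℝ := fun z => (cnt F ld t a A (newD D P P') C M κ' (ε - 2 * η)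
    (n / z.1 / z.2) (H / z.1 / z.2) : ℝ) with hc
  set k : ℕ × ℕ → ℝ := fun z => kb F a A ε₁ (n / z.1 / z.2) (H / z.1 / z.2) with hk
  set fr : Fin m → ℕ × ℕ → ℝ := fun r z =>
    φ (((z.1 : ℝ) * z.2) ^ t * (((e r).2 : ℝ) ^ t * α r)) with hfr
  have hpair : ∀ z ∈ P ×ˢ P', (m : ℝ) + k z ≤
      c z + ∑ r, fr r z + (if z ∈ bad then (M : ℝ) + 1 else 0) := by
    intro z hz
    have hz0 := hz
    rw [mem_product] at hz
    have hk1 : k z ≤ 1 := kb_le_one _ _ _ _ _ _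
    have hc0 : 0 ≤ c z := Nat.cast_nonneg _
    have hf0 : 0 ≤ ∑ r, fr r z := sum_nonneg fun r _ => hφ _
    by_cases hzb : z ∈ bad
    · rw [if_pos hzb]; linarith
    rw [if_neg hzb, add_zero]
    rw [hbad, mem_union, not_or, mem_biUnion, mem_filter, not_and, not_or] at hzb
    obtain ⟨hb1, hb2⟩ := hzb
    have hb2 := hb2 hz0
    have hgood : ∀ r, (ε - 2 * η) * ((H / z.1 / z.2 : ℕ) : ℝ) ≤
        ws (fun k => ph F (e r).1 (e r).2 (z.1 * z.2 * k)) a (n / z.1 / z.2) (H / z.1 / z.2) := by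
      intro r
      by_contra hcon
      apply hb1
      refine ⟨r, mem_univ _, ?_⟩
      rw [badpp, mem_filter]
      exact ⟨hz0, hcon⟩
    have hsp : ∀ r s, r ≠ s → Sep C κ' (((z.1 : ℝ) * z.2) ^ t *
        (((e r).2 : ℝ) ^ t * ld (e r).1 - ((e s).2 : ℝ) ^ t * ld (e s).1)) := by
      intro r s hrs
      refine hSsep r s hrs z.1 hz.1 z.2 hz.2 (fun h => hb2.1 ?_) (fun h => hb2.2 ?_)
      · rw [hSS, mem_biUnion]; exact ⟨r, mem_univ _, mem_biUnion.mpr ⟨s, mem_univ _, h⟩⟩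
      · rw [hSS, mem_biUnion]; exact ⟨r, mem_univ _, mem_biUnion.mpr ⟨s, mem_univ _, h⟩⟩
    obtain ⟨g1, g2⟩ := cnt_child F ld t a A (newD D P P') C M κ' ε₁ (ε - 2 * η) (n / z.1 / z.2)
      (H / z.1 / z.2) m z.1 z.2 hM e (fun r => (he r).1) (one_mem_newD _ _ _)
      (fun r => mem_newD (he r).2.1 hz.1 hz.2) hgood hsp hε₁
    have g1' : (m : ℝ) ≤ c z := by
      rw [hc]; beta_reduce; exact_mod_cast g1
    by_cases hkb : Kb F a A ε₁ (n / z.1 / z.2) (H / z.1 / z.2)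
    · by_cases hfar : ∀ i ∈ A, ∀ r, Sep C κ' (ld i - ((z.1 : ℝ) * z.2) ^ t *
          (((e r).2 : ℝ) ^ t * ld (e r).1))
      · have g2' : (m : ℝ) + 1 ≤ c z := by
          have := g2 hfar hkb
          rw [hc]; beta_reduce; exact_mod_cast this
        linarith
      · push Not at hfar
        obtain ⟨i, hi, r, hr⟩ := hfar
        have h1 : 1 ≤ fr r z := hnear i hi (e r).1 (he r).1 (e r).2 (he r).2.1 z.1 hz.1 z.2 hz.2
          (α r) (hαK r) (hαδ r) hr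
        have h2 : fr r z ≤ ∑ r, fr r z :=
          single_le_sum (f := fun r => fr r z) (fun r _ => hφ _) (mem_univ r)
        linarith
    · have : k z = 0 := by rw [hk]; unfold kb; beta_reduce; rw [if_neg hkb]
      linarith
  -- average over the pairs
  have hWW : ∑ z ∈ P ×ˢ P', 1 / ((z.1 : ℝ) * z.2) = WW P * WW P' := by
    rw [sum_product, WW, WW, sum_mul_sum]
    exact sum_congr rfl fun p _ => sum_congr rfl fun q _ => by rw [one_div_mul_one_div]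
  have hfrs : ∀ r, ∑ z ∈ P ×ˢ P', 1 / ((z.1 : ℝ) * z.2) * fr r z ≤ ρ * (WW P * WW P') := by
    intro r
    rw [sum_product]
    exact hequi (α r) (hαK r) (e r).2 (he r).2.1
  have hsum : ∑ z ∈ P ×ˢ P', 1 / ((z.1 : ℝ) * z.2) * ((m : ℝ) + k z) ≤
      ∑ z ∈ P ×ˢ P', 1 / ((z.1 : ℝ) * z.2) *
        (c z + ∑ r, fr r z + (if z ∈ bad then (M : ℝ) + 1 else 0)) :=
    sum_le_sum fun z hz => mul_le_mul_of_nonneg_left (hpair z hz) (hw z)
  have e1 : ∑ z ∈ P ×ˢ P', 1 / ((z.1 : ℝ) * z.2) * ((m : ℝ) + k z) =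
      (WW P * WW P') * m + ∑ z ∈ P ×ˢ P', 1 / ((z.1 : ℝ) * z.2) * k z := by
    rw [← hWW, sum_mul, ← sum_add_distrib]
    exact sum_congr rfl fun z _ => by ring
  have e2 : ∑ z ∈ P ×ˢ P', 1 / ((z.1 : ℝ) * z.2) *
        (c z + ∑ r, fr r z + (if z ∈ bad then (M : ℝ) + 1 else 0)) =
      ∑ z ∈ P ×ˢ P', 1 / ((z.1 : ℝ) * z.2) * c z +
      ∑ r, ∑ z ∈ P ×ˢ P', 1 / ((z.1 : ℝ) * z.2) * fr r z +
      ∑ z ∈ P ×ˢ P', 1 / ((z.1 : ℝ) * z.2) * (if z ∈ bad then (M : ℝ) + 1 else 0) := by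
    rw [sum_comm, ← sum_add_distrib, ← sum_add_distrib]
    refine sum_congr rfl fun z _ => ?_
    rw [← mul_sum]; ring
  have e3 : ∑ z ∈ P ×ˢ P', 1 / ((z.1 : ℝ) * z.2) * (if z ∈ bad then (M : ℝ) + 1 else 0) ≤
      (M + 1) * ((8 * M / η ^ 2 + 2 * M ^ 2) * (WW P + WW P')) := by
    calc _ = ∑ z ∈ P ×ˢ P', (if z ∈ bad then (M + 1) * (1 / ((z.1 : ℝ) * z.2)) else 0) := by
          refine sum_congr rfl fun z _ => ?_
          split_ifs <;> ring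
      _ = ∑ z ∈ (P ×ˢ P').filter (fun z => z ∈ bad), (M + 1) * (1 / ((z.1 : ℝ) * z.2)) := by
          rw [sum_filter]
      _ ≤ ∑ z ∈ bad, (M + 1) * (1 / ((z.1 : ℝ) * z.2)) := by
          apply sum_le_sum_of_subset_of_nonneg
          · intro z hz; exact (mem_filter.mp hz).2
          · intro z _ _
            exact mul_nonneg (by positivity) (hw z)
      _ = (M + 1) * ∑ z ∈ bad, 1 / ((z.1 : ℝ) * z.2) := by rw [mul_sum]
      _ ≤ _ := mul_le_mul_of_nonneg_left hbadw (by positivity)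
  have e4 : ∑ r, ∑ z ∈ P ×ˢ P', 1 / ((z.1 : ℝ) * z.2) * fr r z ≤ (M : ℝ) * ρ * (WW P * WW P') := by
    calc _ ≤ ∑ r : Fin m, ρ * (WW P * WW P') := sum_le_sum fun r _ => hfrs r
      _ = m * (ρ * (WW P * WW P')) := by simp
      _ ≤ M * (ρ * (WW P * WW P')) := by
          apply mul_le_mul_of_nonneg_right (by linarith)
          positivity
      _ = _ := by ring
  rw [e1, e2] at hsum
  linarith

end Pool.Agent.Lib.MP_663568_nt.Nul
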