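import Mathlib
import Pool.Agent.Lib.MP_663568_nul.OneStep
import Pool.Agent.Lib.MP_663568_nul.Scales
import Pool.Agent.Lib.MP_663568_nul.Single

/-!
# The uniform estimate for frequencies in a compact set of small measure
-/

set_option autoImplicit false
open Finset MeasureTheory

namespace Pool.Agent.Lib.MP_663568_nt.Nul

open Katai

variable {ι : Type}

/-- the family of the phases with frequency close to `K` -/
noncomputable def FA (F : ι → ℕ → ℂ) (ld : ι → ℝ) (K : Set ℝ) (δ : ℝ) :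
    {i // i ∈ AA ld K δ} → ℕ → ℂ := fun i => F i.1

/-- the bound for the number of phases -/
noncomputable def MM (ε : ℝ) : ℕ := ⌈2 / (ε / 16) ^ 2⌉₊ + 1

lemma GG_le_kb (F : ι → ℕ → ℂ) (ld : ι → ℝ) (a : ℕ → ℂ) (hF : ∀ i n, ‖F i n‖ ≤ 1)
    (ha : ∀ n, ‖a n‖ ≤ 1) (K : Set ℝ) (δ ε : ℝ) (hε : 0 ≤ ε) (H n : ℕ) :
    GG (FA F ld K δ) a H n ≤ H * kb F a (AA ld K δ) ε n H + ε * H := by
  classical
  have hH : (0 : ℝ) ≤ H := Nat.cast_nonneg _
  unfold kb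
  split_ifs with h
  · have := GG_le (FA F ld K δ) a (fun i n => hF _ _) ha H n
    have : 0 ≤ ε * H := by positivity
    linarith
  · rw [mul_zero, zero_add]
    refine Real.iSup_le (fun i => ?_) (by positivity)
    unfold Kb at h
    push Not at h
    exact (h i.1 i.2).le

lemma GG_mono (F : ι → ℕ → ℂ) (ld : ι → ℝ) (a : ℕ → ℂ) (hF : ∀ i n, ‖F i n‖ ≤ 1)
    (ha : ∀ n, ‖a n‖ ≤ 1) (K : Set ℝ) (δ δ' : ℝ) (h : δ ≤ δ') (H n : ℕ) :
    GG (FA F ld K δ) a H n ≤ GG (FA F ld K δ') a H n := by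
  refine Real.iSup_le (fun i => ?_) (GG_nonneg _ _ _ _)
  have hi : i.1 ∈ AA ld K δ' := by
    obtain ⟨α, hα, h1⟩ := i.2
    exact ⟨α, hα, h1.trans_le h⟩
  exact le_GG (FA F ld K δ') a (fun i n => hF _ _) ha H n ⟨i.1, hi⟩

/-- **One scale.** -/
theorem one_scale (F : ι → ℕ → ℂ) (ld : ι → ℝ) (t : ℕ) (ht : 1 ≤ t) (a : ℕ → ℂ)
    (hF : ∀ i n, ‖F i n‖ ≤ 1) (ha : ∀ n, ‖a n‖ ≤ 1) (hmul : Mult a) (ε : ℝ) (hε : 0 < ε)
    (C : ℕ) (hC : 1 ≤ C) (hcorr : Corr F ld t ((ε / 16) ^ 2 / 2) C)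
    (K : Set ℝ) (hK : IsCompact K) (hirr : ∀ x ∈ K, Irrational x)
    (hvol : (C : ℝ) ^ 2 * (volume K).toReal < ε / 4 / (8 * (MM ε : ℕ))) :
    ∃ δ : ℝ, 0 < δ ∧ ∃ L : ℕ, 0 < L ∧ ∃ N₀ : ℕ, ∀ N : ℕ, N₀ ≤ N →
      ∑ n ∈ Icc 1 N, (1 / (n : ℝ)) * GG (FA F ld K δ) a L n ≤ ε * L * Real.log N := by
  set M := MM ε with hM
  set ε₀ : ℝ := ε / 16 with hε₀
  set d₀ : ℝ := ε / 4 with hd₀
  have hε₀0 : 0 < ε₀ := by positivity
  have hd₀0 : 0 < d₀ := by positivity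
  have hMge : 2 / ε₀ ^ 2 + 1 ≤ M := by
    rw [hM, MM]; push_cast
    have := Nat.le_ceil (2 / (ε / 16) ^ 2)
    linarith
  have hM1 : 1 ≤ M := by rw [hM, MM]; omega
  have hMr : (1 : ℝ) ≤ M := by exact_mod_cast hM1
  set J : ℕ := ⌈2 * ((M : ℝ) + 1) / d₀⌉₊ + 1 with hJ
  have hJ0 : (0 : ℝ) < J := by rw [hJ]; positivity
  have hJs : (M : ℝ) + 1 ≤ J * (d₀ / 2) := by
    have h1 := Nat.le_ceil (2 * ((M : ℝ) + 1) / d₀)
    have h2 : 2 * ((M : ℝ) + 1) / d₀ ≤ J := by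
      rw [hJ]; push_cast; linarith
    rw [div_le_iff₀ hd₀0] at h2
    linarith
  set η : ℝ := ε₀ / (2 * J) with hη
  have hη0 : 0 < η := by positivity
  have hiter : ∀ j : ℕ, j ≤ J →
      Hyp F ld t a K C M d₀ (ε / 8) (ε / 8 - 2 * η * j) (j * (d₀ / 2)) := by
    intro j
    induction j with
    | zero =>
      intro _
      simpa using hyp_zero F ld t a K C M d₀ (ε / 8) (ε / 8)
    | succ j ih =>
      intro hj
      have hjr : (j : ℝ) + 1 ≤ J := by exact_mod_cast hj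
      have h2 : ε₀ + 2 * η ≤ ε / 8 - 2 * η * j := by
        have h3 : 2 * η * (j + 1) ≤ 2 * η * J := mul_le_mul_of_nonneg_left hjr (by positivity)
        have h4 : 2 * η * J = ε₀ := by rw [hη]; field_simp
        have h5 : ε / 8 = 2 * ε₀ := by rw [hε₀]; ring
        rw [h5]
        linarith
      have h1 := hyp_step F ld t ht a hF ha hmul K hK hirr C M hC hM1 ε₀ hε₀0 hcorr hMge d₀ (ε / 8)
        (ε / 8 - 2 * η * j) η (j * (d₀ / 2)) hd₀0 hη0 h2 (by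
          have : 0 ≤ 2 * η * j := by positivity
          linarith) hvol (ih (by omega))
      have e1 : ε / 8 - 2 * η * j - 2 * η = ε / 8 - 2 * η * ((j + 1 : ℕ) : ℝ) := by
        push_cast; ring
      have e2 : (j : ℝ) * (d₀ / 2) + d₀ / 2 = ((j + 1 : ℕ) : ℝ) * (d₀ / 2) := by
        push_cast; ring
      rw [e1, e2] at h1
      exact h1
  obtain ⟨D, κ, R, δ₀, H₀, hD, hκ, hR, hδ₀, hyp⟩ := hiter J le_rfl
  obtain ⟨B, hB⟩ := hyp (H₀ + 1) (by omega)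
  set H := H₀ + 1 with hH
  set T : ℕ := ⌈4 * (H : ℝ) / ε⌉₊ + 1 with hT
  have hTr : 4 * (H : ℝ) ≤ ε * T := by
    have h1 := Nat.le_ceil (4 * (H : ℝ) / ε)
    have h2 : 4 * (H : ℝ) / ε ≤ T := by rw [hT]; push_cast; linarith
    rw [div_le_iff₀ hε] at h2
    linarith
  obtain ⟨N₁, hN₁⟩ := down_scale (GG (FA F ld K δ₀) a) (GG_nonneg _ _)
    (GG_le _ a (fun i n => hF _ _) ha)
    (fun H L n hL => GG_sub _ a (fun i n => hF _ _) ha H L n hL) ε hε T (by omega)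
  obtain ⟨N₂, hN₂⟩ : ∃ N₂ : ℕ, ∀ N : ℕ, N₂ ≤ N → max 1 (B + M + 1) ≤ Real.log N := by
    have ht : Filter.Tendsto (fun N : ℕ => Real.log (N : ℝ)) Filter.atTop Filter.atTop :=
      Real.tendsto_log_atTop.comp tendsto_natCast_atTop_atTop
    exact Filter.eventually_atTop.mp (ht.eventually_ge_atTop _)
  refine ⟨δ₀, hδ₀, T, by omega, N₁ + N₂ + 1, fun N hN => ?_⟩
  by_contra hcon
  push Not at hcon
  have hlog := hN₂ N (by omega)
  have hlog1 : 1 ≤ Real.log N := (le_max_left _ _).trans hlog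
  have hlog2 : B + M + 1 ≤ Real.log N := (le_max_right _ _).trans hlog
  have hdown := hN₁ N (by omega) hcon
  have hlogs := sum_inv_le_log N
  obtain ⟨H', hH'1, hH'2, hH's⟩ := hB δ₀ hδ₀ le_rfl N (by omega) (by
    intro H' h1 h2
    have hH'0 : 0 < H' := by
      rcases Nat.eq_zero_or_pos H' with h | h
      · rw [h, mul_zero] at h2; omega
      · exact h
    have hH'r : (0 : ℝ) < H' := by exact_mod_cast hH'0
    have h3 := hdown H' hH'0 (by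
      have : (H' : ℝ) ≤ H := by exact_mod_cast h1
      linarith)
    have h4 : ∑ n ∈ Icc 1 N, (1 / (n : ℝ)) * GG (FA F ld K δ₀) a H' n ≤
        H' * ∑ n ∈ Icc 1 N, (1 / (n : ℝ)) * kb F a (AA ld K δ₀) (ε / 8) n H' +
          ε / 8 * H' * ∑ n ∈ Icc 1 N, (1 / (n : ℝ)) := by
      rw [mul_sum, mul_sum, ← sum_add_distrib]
      refine sum_le_sum fun n _ => ?_
      have := GG_le_kb F ld a hF ha K δ₀ (ε / 8) (by positivity) H' n
      calc (1 / (n : ℝ)) * GG (FA F ld K δ₀) a H' n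
          ≤ (1 / (n : ℝ)) * (H' * kb F a (AA ld K δ₀) (ε / 8) n H' + ε / 8 * H') :=
            mul_le_mul_of_nonneg_left this (by positivity)
        _ = _ := by ring
    have h5 : ε / 8 * H' * ∑ n ∈ Icc 1 N, (1 / (n : ℝ)) ≤ ε / 8 * H' * (1 + Real.log N) :=
      mul_le_mul_of_nonneg_left hlogs (by positivity)
    have h6 : (H' : ℝ) * (d₀ * Real.log N) ≤
        H' * ∑ n ∈ Icc 1 N, (1 / (n : ℝ)) * kb F a (AA ld K δ₀) (ε / 8) n H' := by
      have h7 : (H' : ℝ) * (ε / 8) ≤ H' * (ε / 8) * Real.log N :=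
        le_mul_of_one_le_right (by positivity) hlog1
      rw [hd₀]
      linarith
    exact le_of_mul_le_mul_left h6 hH'r)
  have h8 : ∑ n ∈ Icc 1 N, (1 / (n : ℝ)) *
      (cnt F ld t a (AA ld K δ₀) D C M κ (ε / 8 - 2 * η * J) n H' : ℝ) ≤ M * (1 + Real.log N) := by
    calc _ ≤ ∑ n ∈ Icc 1 N, (1 / (n : ℝ)) * M := by
          refine sum_le_sum fun n _ => mul_le_mul_of_nonneg_left ?_ (by positivity)
          exact_mod_cast cnt_le F ld t a (AA ld K δ₀) D C M κ (ε / 8 - 2 * η * J) n H'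
      _ = M * ∑ n ∈ Icc 1 N, (1 / (n : ℝ)) := by rw [← sum_mul, mul_comm]
      _ ≤ _ := mul_le_mul_of_nonneg_left hlogs (by positivity)
  have h9 : ((M : ℝ) + 1) * Real.log N ≤ J * (d₀ / 2) * Real.log N :=
    mul_le_mul_of_nonneg_right hJs (by linarith)
  linarith

/-- **All scales.** -/
theorem all_scales (F : ι → ℕ → ℂ) (ld : ι → ℝ) (t : ℕ) (ht : 1 ≤ t)
    (hF : ∀ i n, ‖F i n‖ ≤ 1) (hcorr : ∀ ε : ℝ, 0 < ε → ∃ C : ℕ, 1 ≤ C ∧ Corr F ld t ε C)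
    (ε : ℝ) (hε : 0 < ε) : ∃ v : ℝ, 0 < v ∧ ∀ K : Set ℝ, IsCompact K → (∀ x ∈ K, Irrational x) →
      (volume K).toReal < v → ∀ a : ℕ → ℂ, (∀ n, ‖a n‖ ≤ 1) → Mult a →
      ∃ δ : ℝ, 0 < δ ∧ ∃ H₀ : ℕ, ∀ N H : ℕ, H₀ ≤ H → H ≤ N →
        ∑ n ∈ Icc 1 N, (1 / (n : ℝ)) * GG (FA F ld K δ) a H n ≤ ε * H * Real.log N := by
  have hε' : 0 < ε / 10 := by positivity
  obtain ⟨C, hC, hCc⟩ := hcorr ((ε / 10 / 16) ^ 2 / 2) (by positivity)
  have hM0 : (0 : ℝ) < (MM (ε / 10) : ℕ) := by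
    have : 0 < MM (ε / 10) := by rw [MM]; omega
    exact_mod_cast this
  have hC0 : (0 : ℝ) < C := by exact_mod_cast hC
  refine ⟨ε / 10 / 4 / (8 * (MM (ε / 10) : ℕ)) / (C : ℝ) ^ 2, by positivity, ?_⟩
  intro K hK hirr hvol a ha hmul
  rw [lt_div_iff₀ (by positivity), mul_comm] at hvol
  obtain ⟨δ₁, hδ₁, L, hL, N₀, h1⟩ := one_scale F ld t ht a hF ha hmul (ε / 10) hε' C hC hCc K hK hirr
    hvol
  obtain ⟨δ₂, hδ₂, H₁, h2⟩ := single_small F ld t ht a hF ha hmul hcorr K hK hirr (ε / 10) hε'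
  set δ := min δ₁ δ₂ with hδ
  have hδ0 : 0 < δ := lt_min hδ₁ hδ₂
  obtain ⟨H₀, h3⟩ := up_scale (GG (FA F ld K δ) a) (GG_nonneg _ _)
    (GG_le _ a (fun i n => hF _ _) ha)
    (fun H L n hL => GG_sub _ a (fun i n => hF _ _) ha H L n hL) (ε / 10) hε' L hL N₀ (by
      intro N hN
      refine le_trans (sum_le_sum fun n _ => ?_) (h1 N hN)
      exact mul_le_mul_of_nonneg_left (GG_mono F ld a hF ha K δ δ₁ (min_le_left _ _) L n)
        (by positivity)) H₁ (by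
      intro H n hH hn
      refine Real.iSup_le (fun i => ?_) (by positivity)
      obtain ⟨α, hα, h⟩ := i.2
      exact h2 i.1 ⟨α, hα, h.trans_le (min_le_right _ _)⟩ H n hH hn)
  refine ⟨δ, hδ0, H₀, fun N H h4 h5 => (h3 N H h4 h5).trans (le_of_eq ?_)⟩
  ring

end Pool.Agent.Lib.MP_663568_nt.Nul
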