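import Mathlib
import Pool.Agent.Lib.MP_663568_nul.Near

/-!
# A cut off function supported near a compact set of positive measure
-/

set_option autoImplicit false
open Finset MeasureTheory

namespace Pool.Agent.Lib.MP_663568_nt.Nul

open Katai

namespace Fat

/-- The image on the circle of a compact set of positive measure has positive measure. -/
theorem volume_image_pos (K : Set ℝ) (hK : IsCompact K) (hpos : 0 < volume K) :
    0 < volume ((fun x : ℝ => (x : UnitAddCircle)) '' K) := by
  rw [pos_iff_ne_zero]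
  intro h0
  have hcont : Continuous (fun x : ℝ => (x : UnitAddCircle)) := AddCircle.continuous_mk' 1
  have hmeas : MeasurableSet ((fun x : ℝ => (x : UnitAddCircle)) '' K) :=
    (hK.image hcont).isClosed.measurableSet
  set F' : Set ℝ := (fun x : ℝ => (x : UnitAddCircle)) ⁻¹' ((fun x : ℝ => (x : UnitAddCircle)) '' K)
    with hF'
  have h1 : ∀ n : ℤ, volume (F' ∩ Set.Ioc (n : ℝ) (n + 1)) = 0 := by
    intro n
    have h2 := (AddCircle.measurePreserving_mk (1 : ℝ) n).measure_preimage hmeas.nullMeasurableSet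
    rw [h0, Measure.restrict_apply (hcont.measurable hmeas)] at h2
    exact h2
  have hsub : K ⊆ ⋃ n : ℤ, F' ∩ Set.Ioc (n : ℝ) (n + 1) := by
    rw [← Set.inter_iUnion, iUnion_Ioc_intCast, Set.inter_univ]
    exact Set.subset_preimage_image _ _
  have h3 : volume K = 0 := measure_mono_null hsub (measure_iUnion_null h1)
  exact hpos.ne' h3

end Fat

open Fat in
/-- **Task Z1.** -/
theorem fat_fun (K : Set ℝ) (hK : IsCompact K) (hpos : 0 < volume K) :
    ∃ c : ℝ, 0 < c ∧ ∀ δ : ℝ, 0 < δ → ∃ φ : ℝ → ℝ, Continuous φ ∧ (∀ x, φ (x + 1) = φ x) ∧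
      (∀ x, 0 ≤ φ x) ∧ (∀ x, φ x ≤ 1) ∧ c ≤ ∫ x in (0 : ℝ)..1, φ x ∧
      ∀ x, φ x ≠ 0 → ∃ k ∈ K, ∃ z : ℤ, |x - (k + z)| < δ := by
  set F : Set UnitAddCircle := (fun x : ℝ => (x : UnitAddCircle)) '' K with hF
  have hcont : Continuous (fun x : ℝ => (x : UnitAddCircle)) := AddCircle.continuous_mk' 1
  have hFc : IsCompact F := hK.image hcont
  have hms : MeasurableSet F := hFc.isClosed.measurableSet
  have hFpos : 0 < volume F := volume_image_pos K hK hpos
  have hFtop : volume F ≠ ⊤ := (measure_lt_top _ _).ne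
  refine ⟨(volume F).toReal, ENNReal.toReal_pos hFpos.ne' hFtop, fun δ hδ => ?_⟩
  set ψ : UnitAddCircle → ℝ := fun y => (thickenedIndicator hδ F y : ℝ) with hψ
  have hψc : Continuous ψ := NNReal.continuous_coe.comp (thickenedIndicator hδ F).continuous
  refine ⟨fun x => ψ (x : UnitAddCircle), hψc.comp hcont, ?_, ?_, ?_, ?_, ?_⟩
  · intro x
    have : ((x + 1 : ℝ) : UnitAddCircle) = (x : UnitAddCircle) := AddCircle.coe_add_period 1 x
    change ψ ((x + 1 : ℝ) : UnitAddCircle) = ψ (x : UnitAddCircle)
    rw [this]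
  · intro x
    exact NNReal.coe_nonneg _
  · intro x
    change ((thickenedIndicator hδ F (x : UnitAddCircle) : NNReal) : ℝ) ≤ 1
    exact_mod_cast thickenedIndicator_le_one hδ _ _
  · have h1 : (∫ x in (0 : ℝ)..1, ψ (x : UnitAddCircle)) = ∫ y : UnitAddCircle, ψ y := by
      have := UnitAddCircle.intervalIntegral_preimage 0 ψ
      rwa [zero_add] at this
    change (volume F).toReal ≤ ∫ x in (0 : ℝ)..1, ψ (x : UnitAddCircle)
    rw [h1]
    calc (volume F).toReal = ∫ y : UnitAddCircle, F.indicator 1 y := by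
          rw [integral_indicator_one hms]
          rfl
      _ ≤ ∫ y : UnitAddCircle, ψ y := by
          refine integral_mono_of_nonneg ?_ ?_ ?_
          · exact Filter.Eventually.of_forall fun y => Set.indicator_nonneg (by simp) _
          · exact hψc.integrable_of_hasCompactSupport (HasCompactSupport.of_compactSpace _)
          · refine Filter.Eventually.of_forall fun y => ?_
            by_cases hy : y ∈ F
            · rw [Set.indicator_of_mem hy, Pi.one_apply]
              change (1 : ℝ) ≤ ((thickenedIndicator hδ F y : NNReal) : ℝ)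
              rw [thickenedIndicator_one hδ _ hy]
              simp
            · rw [Set.indicator_of_notMem hy]
              exact NNReal.coe_nonneg _
  · intro x hx
    have h1 : (x : UnitAddCircle) ∈ Metric.thickening δ F := by
      by_contra h
      apply hx
      change ((thickenedIndicator hδ F (x : UnitAddCircle) : NNReal) : ℝ) = 0
      rw [thickenedIndicator_zero hδ _ h]
      simp
    obtain ⟨y, ⟨k, hk, rfl⟩, hy⟩ := Metric.mem_thickening_iff.1 h1
    refine ⟨k, hk, round (x - k), ?_⟩
    rw [dist_eq_norm] at hy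
    have h2 : ((x : UnitAddCircle) - (k : UnitAddCircle)) = ((x - k : ℝ) : UnitAddCircle) :=
      (AddCircle.coe_sub _ _ _).symm
    change ‖(x : UnitAddCircle) - (k : UnitAddCircle)‖ < δ at hy
    rw [h2, UnitAddCircle.norm_eq] at hy
    rw [show x - (k + ((round (x - k) : ℤ) : ℝ)) = x - k - ((round (x - k) : ℤ) : ℝ) by ring]
    exact hy

end Pool.Agent.Lib.MP_663568_nt.Nul
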