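import Mathlib
import Pool.Agent.Lib.MP_663568_nul.Abstract
import Pool.Agent.Lib.MP_663568_nul.Fat

/-!
# The zero-one law: from one compact set of positive measure to all compact sets of irrationals
-/

set_option autoImplicit false
open Finset MeasureTheory

namespace Pool.Agent.Lib.MP_663568_nt.Nul

open Katai

variable {ι : Type}

/-- the family is closed under dilations, and frequencies matter modulo integers only -/
def Dil (F : ι → ℕ → ℂ) (ld : ι → ℝ) (t : ℕ) : Prop :=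
  ∀ (i : ι) (d : ℕ) (z : ℤ), 0 < d → ∃ i' : ι, (∀ n, F i' n = F i (d * n)) ∧
    ld i' = (d : ℝ) ^ t * ld i + z

/-- the uniform estimate for frequencies close to `K` -/
def Est (F : ι → ℕ → ℂ) (ld : ι → ℝ) (a : ℕ → ℂ) (K : Set ℝ) : Prop :=
  ∀ ε : ℝ, 0 < ε → ∃ δ : ℝ, 0 < δ ∧ ∃ H₀ : ℕ, ∀ N H : ℕ, H₀ ≤ H → H ≤ N →
    ∑ n ∈ Icc 1 N, (1 / (n : ℝ)) * GG (FA F ld K δ) a H n ≤ ε * H * Real.log N

/-- one window: if there is correlation near `K`, then there is correlation near `K₁` after division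
by many pairs of primes -/
lemma one_window (F : ι → ℕ → ℂ) (ld : ι → ℝ) (t : ℕ) (a : ℕ → ℂ) (hF : ∀ i n, ‖F i n‖ ≤ 1)
    (ha : ∀ n, ‖a n‖ ≤ 1) (hmul : Mult a) (hdil : Dil F ld t) (K K₁ : Set ℝ) (δ δ₁ : ℝ)
    (P P' : Finset ℕ) (hP : ∀ p ∈ P, p.Prime) (hP' : ∀ p ∈ P', p.Prime) (P₀ : ℕ)
    (hP₀ : ∀ p ∈ P, P₀ ≤ p) (hP₀' : ∀ p ∈ P', P₀ ≤ p) (η ε : ℝ) (hη : 0 < η) (hηε : 2 * η ≤ ε)
    (hη8 : 8 / η ≤ P₀) (φ : ℝ → ℝ) (hφ1 : ∀ x, φ x ≤ 1)
    (hφs : ∀ x, φ x ≠ 0 → ∃ k ∈ K₁, ∃ z : ℤ, |x - (k + z)| < δ₁ / 2)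
    (hδ : ∀ p ∈ P, ∀ p' ∈ P', ((p : ℝ) * p') ^ t * δ ≤ δ₁ / 2) (c : ℝ)
    (hc : ∀ α ∈ K, c * (WW P * WW P') ≤
      ∑ p ∈ P, ∑ p' ∈ P', 1 / ((p : ℝ) * p') * φ (((p : ℝ) * p') ^ t * α))
    (c' : ℝ) (hcc : c' * (WW P * WW P') + 8 / η ^ 2 * (WW P + WW P') ≤
      c * (WW P * WW P'))
    (n H : ℕ) (hH : LongH P P' η H) :
    c' * (WW P * WW P') * kb F a (AA ld K δ) ε n H ≤ ∑ z ∈ P ×ˢ P', 1 / ((z.1 : ℝ) * z.2) *
      kb F a (AA ld K₁ δ₁) (ε - 2 * η) (n / z.1 / z.2) (H / z.1 / z.2) := by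
  classical
  have hw : ∀ z : ℕ × ℕ, 0 ≤ 1 / ((z.1 : ℝ) * z.2) := fun z => by positivity
  have hWP := WW_nonneg P
  have hWP' := WW_nonneg P'
  by_cases hkb : Kb F a (AA ld K δ) ε n H
  swap
  · have : kb F a (AA ld K δ) ε n H = 0 := by unfold kb; rw [if_neg hkb]
    rw [this, mul_zero]
    exact sum_nonneg fun z _ => mul_nonneg (hw z) (kb_nonneg _ _ _ _ _ _)
  have h1 : kb F a (AA ld K δ) ε n H = 1 := by unfold kb; rw [if_pos hkb]
  rw [h1, mul_one]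
  obtain ⟨i, ⟨α, hα, hiα⟩, hcor⟩ := hkb
  set bad := badpp P P' (F i) a η ε n H with hbad
  have hbadw := badpp_weight P P' hP hP' P₀ hP₀ hP₀' η ε hη hηε hη8 (F i) a (hF i) ha hmul n H hH
    hcor
  rw [← hbad] at hbadw
  have hpair : ∀ z ∈ P ×ˢ P', φ (((z.1 : ℝ) * z.2) ^ t * α) ≤
      kb F a (AA ld K₁ δ₁) (ε - 2 * η) (n / z.1 / z.2) (H / z.1 / z.2) +
        (if z ∈ bad then 1 else 0) := by
    intro z hz
    have hz0 := hz
    rw [mem_product] at hz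
    have hk0 := kb_nonneg F a (AA ld K₁ δ₁) (ε - 2 * η) (n / z.1 / z.2) (H / z.1 / z.2)
    by_cases hzb : z ∈ bad
    · rw [if_pos hzb]
      linarith [hφ1 (((z.1 : ℝ) * z.2) ^ t * α)]
    rw [if_neg hzb, add_zero]
    by_cases hφz : φ (((z.1 : ℝ) * z.2) ^ t * α) = 0
    · rw [hφz]; exact hk0
    obtain ⟨k, hk, y, hy⟩ := hφs _ hφz
    obtain ⟨i', hi'1, hi'2⟩ := hdil i (z.1 * z.2) (-y)
      (Nat.mul_pos (hP _ hz.1).pos (hP' _ hz.2).pos)
    have hkb1 : Kb F a (AA ld K₁ δ₁) (ε - 2 * η) (n / z.1 / z.2) (H / z.1 / z.2) := by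
      refine ⟨i', ⟨k, hk, ?_⟩, ?_⟩
      · have h2 := hδ z.1 hz.1 z.2 hz.2
        have h3 : |((z.1 : ℝ) * z.2) ^ t * (ld i - α)| ≤ δ₁ / 2 := by
          rw [abs_mul, abs_of_nonneg (by positivity)]
          exact (mul_le_mul_of_nonneg_left hiα.le (by positivity)).trans h2
        have e1 : ld i' - k = ((z.1 : ℝ) * z.2) ^ t * (ld i - α) +
            (((z.1 : ℝ) * z.2) ^ t * α - (k + y)) := by
          rw [hi'2]; push_cast; ring
        rw [e1]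
        calc _ ≤ |((z.1 : ℝ) * z.2) ^ t * (ld i - α)| + |((z.1 : ℝ) * z.2) ^ t * α - (k + y)| :=
              abs_add_le _ _
          _ < δ₁ / 2 + δ₁ / 2 := add_lt_add_of_le_of_lt h3 hy
          _ = δ₁ := by ring
      · have h4 : (ε - 2 * η) * ((H / z.1 / z.2 : ℕ) : ℝ) ≤
            ws (fun m => F i (z.1 * z.2 * m)) a (n / z.1 / z.2) (H / z.1 / z.2) := by
          by_contra hcon
          apply hzb
          rw [hbad, badpp, mem_filter]
          exact ⟨hz0, hcon⟩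
        have e2 : F i' = fun m => F i (z.1 * z.2 * m) := funext hi'1
        rw [e2]
        exact h4
    have : kb F a (AA ld K₁ δ₁) (ε - 2 * η) (n / z.1 / z.2) (H / z.1 / z.2) = 1 := by
      unfold kb; rw [if_pos hkb1]
    rw [this]
    exact hφ1 _
  have hc1 := hc α hα
  have e3 : ∑ p ∈ P, ∑ p' ∈ P', 1 / ((p : ℝ) * p') * φ (((p : ℝ) * p') ^ t * α) =
      ∑ z ∈ P ×ˢ P', 1 / ((z.1 : ℝ) * z.2) * φ (((z.1 : ℝ) * z.2) ^ t * α) := by
    rw [sum_product]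
  have h5 : ∑ z ∈ P ×ˢ P', 1 / ((z.1 : ℝ) * z.2) * φ (((z.1 : ℝ) * z.2) ^ t * α) ≤
      ∑ z ∈ P ×ˢ P', 1 / ((z.1 : ℝ) * z.2) *
        (kb F a (AA ld K₁ δ₁) (ε - 2 * η) (n / z.1 / z.2) (H / z.1 / z.2) +
          (if z ∈ bad then 1 else 0)) :=
    sum_le_sum fun z hz => mul_le_mul_of_nonneg_left (hpair z hz) (hw z)
  have h6 : ∑ z ∈ P ×ˢ P', 1 / ((z.1 : ℝ) * z.2) * (if z ∈ bad then (1 : ℝ) else 0) ≤
      8 / η ^ 2 * (WW P + WW P') := by
    refine le_trans ?_ hbadw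
    calc _ = ∑ z ∈ (P ×ˢ P').filter (fun z => z ∈ bad), 1 / ((z.1 : ℝ) * z.2) := by
          rw [sum_filter]
          exact sum_congr rfl fun z _ => by split_ifs <;> ring
      _ ≤ _ := by
          apply sum_le_sum_of_subset_of_nonneg
          · intro z hz; exact (mem_filter.mp hz).2
          · intro z _ _; exact hw z
  simp only [mul_add, sum_add_distrib] at h5
  linarith

theorem zero_one (F : ι → ℕ → ℂ) (ld : ι → ℝ) (t : ℕ) (ht : 1 ≤ t) (a : ℕ → ℂ)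
    (hF : ∀ i n, ‖F i n‖ ≤ 1) (ha : ∀ n, ‖a n‖ ≤ 1) (hmul : Mult a) (hdil : Dil F ld t)
    (hcorr : ∀ ε : ℝ, 0 < ε → ∃ C : ℕ, 1 ≤ C ∧ Corr F ld t ε C)
    (K₁ : Set ℝ) (hK₁ : IsCompact K₁) (hpos : 0 < volume K₁) (hest : Est F ld a K₁)
    (K : Set ℝ) (hK : IsCompact K) (hirr : ∀ x ∈ K, Irrational x) : Est F ld a K := by
  classical
  intro ε hε
  set ε' : ℝ := ε / 10 with hε'
  have hε'0 : 0 < ε' := by positivity
  set ε₁ : ℝ := ε' / 4 with hε₁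
  have hε₁0 : 0 < ε₁ := by positivity
  obtain ⟨c₁, hc₁, hfat⟩ := fat_fun K₁ hK₁ hpos
  set ε₂ : ℝ := ε₁ * c₁ * ε' / 32 with hε₂
  have hε₂0 : 0 < ε₂ := by positivity
  obtain ⟨δ₁, hδ₁, H₁, hH₁⟩ := hest ε₂ hε₂0
  obtain ⟨φ, hφc, hφp, hφ0, hφ1, hφi, hφs⟩ := hfat (δ₁ / 2) (by positivity)
  set η : ℝ := ε₁ / 4 with hη
  have hη0 : 0 < η := by positivity
  set P₀ : ℕ := ⌈8 / η⌉₊ with hP₀
  set W₀ : ℝ := 64 / η ^ 2 / c₁ + 1 with hW₀
  have hW₀1 : 1 ≤ W₀ := by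
    have : 0 ≤ 64 / η ^ 2 / c₁ := by positivity
    linarith
  obtain ⟨P, P', hP, hP', hWP, hWP', heq⟩ := equi t ht K hK hirr (fun x => 1 - φ x)
    (by fun_prop) (fun x => by rw [hφp]) (c₁ / 4) (by positivity) P₀ W₀
  set W : ℝ := WW P * WW P' with hW
  have hWP1 : 1 ≤ WW P := hW₀1.trans hWP
  have hWP1' : 1 ≤ WW P' := hW₀1.trans hWP'
  have hW0 : 0 < W := by positivity
  have hPp : ∀ p ∈ P, p.Prime := fun p hp => (hP p hp).1
  have hPp' : ∀ p ∈ P', p.Prime := fun p hp => (hP' p hp).1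
  set R₂ : ℕ := (∑ p ∈ P, p) * ∑ p ∈ P', p with hR₂
  have hR₂le : ∀ p ∈ P, ∀ p' ∈ P', p * p' ≤ R₂ := fun p hp p' hp' =>
    Nat.mul_le_mul (single_le_sum (f := fun p : ℕ => p) (fun _ _ => Nat.zero_le _) hp)
      (single_le_sum (f := fun p : ℕ => p) (fun _ _ => Nat.zero_le _) hp')
  set E : ℝ := (R₂ : ℝ) ^ t + 1 with hE
  have hE0 : 0 < E := by positivity
  obtain ⟨δ₂, hδ₂, H₂, hsing⟩ := single_small F ld t ht a hF ha hmul hcorr K hK hirr ε' hε'0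
  set δ : ℝ := min δ₂ (δ₁ / 2 / E) with hδ
  have hδ0 : 0 < δ := by
    rw [hδ]; refine lt_min hδ₂ ?_; positivity
  obtain ⟨HL, hHL⟩ := exists_longH P P' hPp η
  -- constants of the transfer of the averages
  have hcz : ∀ z : ℕ × ℕ, ∃ c : ℝ, z ∈ P ×ˢ P' → ∀ (g : ℕ → ℝ) (M : ℝ), (∀ n, 0 ≤ g n) →
      (∀ n, g n ≤ M) → ∀ N : ℕ, |∑ n ∈ Icc 1 N, (1 / (n : ℝ)) * g (n / z.1 / z.2) -
        ∑ m ∈ Icc 1 N, (1 / (m : ℝ)) * g m| ≤ c * M := by
    intro z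
    by_cases hz : z ∈ P ×ˢ P'
    · rw [mem_product] at hz
      obtain ⟨c, hc⟩ := log_transfer (z.1 * z.2) (Nat.mul_pos (hPp _ hz.1).pos (hPp' _ hz.2).pos)
      refine ⟨c, fun _ g M h1 h2 N => ?_⟩
      have := hc g M h1 h2 N
      simpa only [Nat.div_div_eq_div_mul] using this
    · exact ⟨0, fun h => absurd h hz⟩
  choose cz hcz using hcz
  set c : ℝ := ∑ z ∈ P ×ˢ P', |cz z| with hc
  have hcz' : ∀ z ∈ P ×ˢ P', cz z ≤ c := fun z hz =>
    (le_abs_self _).trans (single_le_sum (f := fun z => |cz z|) (fun _ _ => abs_nonneg _) hz)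
  have hw : ∀ z : ℕ × ℕ, 0 ≤ 1 / ((z.1 : ℝ) * z.2) := fun z => by positivity
  have hWW : ∑ z ∈ P ×ˢ P', 1 / ((z.1 : ℝ) * z.2) = W := by
    rw [sum_product, hW, WW, WW, sum_mul_sum]
    exact sum_congr rfl fun p _ => sum_congr rfl fun q _ => by rw [one_div_mul_one_div]
  -- the scale
  set T : ℕ := HL + (H₁ + 1) * (R₂ + 1) with hT
  have hT0 : 0 < T := by
    have : 0 < (H₁ + 1) * (R₂ + 1) := Nat.mul_pos (by omega) (by omega)
    omega
  have hTr : (0 : ℝ) < T := by exact_mod_cast hT0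
  have hTz : ∀ z ∈ P ×ˢ P', H₁ + 1 ≤ T / z.1 / z.2 := by
    intro z hz
    rw [mem_product] at hz
    rw [Nat.div_div_eq_div_mul, Nat.le_div_iff_mul_le
      (Nat.mul_pos (hPp _ hz.1).pos (hPp' _ hz.2).pos)]
    calc (H₁ + 1) * (z.1 * z.2) ≤ (H₁ + 1) * (R₂ + 1) :=
          Nat.mul_le_mul_left _ ((hR₂le _ hz.1 _ hz.2).trans (Nat.le_succ _))
      _ ≤ T := by omega
  obtain ⟨N₂, hN₂⟩ : ∃ N₂ : ℕ, ∀ N : ℕ, N₂ ≤ N → 1 + 6 * c / (c₁ * ε') < Real.log N := by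
    have ht : Filter.Tendsto (fun N : ℕ => Real.log (N : ℝ)) Filter.atTop Filter.atTop :=
      Real.tendsto_log_atTop.comp tendsto_natCast_atTop_atTop
    exact Filter.eventually_atTop.mp (ht.eventually_gt_atTop _)
  have hc0 : 0 ≤ c := sum_nonneg fun _ _ => abs_nonneg _
  have hscale : ∀ N : ℕ, N₂ + T ≤ N →
      ∑ n ∈ Icc 1 N, (1 / (n : ℝ)) * GG (FA F ld K δ) a T n ≤ ε' * T * Real.log N := by
    intro N hN
    by_contra hcon
    push Not at hcon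
    have hlog := hN₂ N (by omega)
    have hlog1 : 1 ≤ Real.log N := by
      have : 0 ≤ 6 * c / (c₁ * ε') := by positivity
      linarith
    have hlogs := sum_inv_le_log N
    have h1 : ∑ n ∈ Icc 1 N, (1 / (n : ℝ)) * GG (FA F ld K δ) a T n ≤
        T * ∑ n ∈ Icc 1 N, (1 / (n : ℝ)) * kb F a (AA ld K δ) ε₁ n T +
          ε₁ * T * ∑ n ∈ Icc 1 N, (1 / (n : ℝ)) := by
      rw [mul_sum, mul_sum, ← sum_add_distrib]
      refine sum_le_sum fun n _ => ?_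
      have := GG_le_kb F ld a hF ha K δ ε₁ hε₁0.le T n
      calc (1 / (n : ℝ)) * GG (FA F ld K δ) a T n
          ≤ (1 / (n : ℝ)) * (T * kb F a (AA ld K δ) ε₁ n T + ε₁ * T) :=
            mul_le_mul_of_nonneg_left this (by positivity)
        _ = _ := by ring
    have h2 : ε₁ * T * ∑ n ∈ Icc 1 N, (1 / (n : ℝ)) ≤ ε₁ * T * (1 + Real.log N) :=
      mul_le_mul_of_nonneg_left hlogs (by positivity)
    have h3 : ε' / 2 * Real.log N ≤ ∑ n ∈ Icc 1 N, (1 / (n : ℝ)) * kb F a (AA ld K δ) ε₁ n T := by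
      have h4 : (T : ℝ) * (ε' / 2 * Real.log N) ≤
          T * ∑ n ∈ Icc 1 N, (1 / (n : ℝ)) * kb F a (AA ld K δ) ε₁ n T := by
        have h5 : ε₁ * (T : ℝ) ≤ ε₁ * T * Real.log N :=
          le_mul_of_one_le_right (by positivity) hlog1
        have h6 : ε' = 4 * ε₁ := by rw [hε₁]; ring
        rw [h6] at hcon ⊢
        linarith
      exact le_of_mul_le_mul_left h4 hTr
    -- one window
    have hwin : ∀ n : ℕ, c₁ / 2 * W * kb F a (AA ld K δ) ε₁ n T ≤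
        ∑ z ∈ P ×ˢ P', 1 / ((z.1 : ℝ) * z.2) *
          kb F a (AA ld K₁ δ₁) (ε₁ - 2 * η) (n / z.1 / z.2) (T / z.1 / z.2) := by
      intro n
      refine one_window F ld t a hF ha hmul hdil K K₁ δ δ₁ P P' hPp hPp' P₀
        (fun p hp => (hP p hp).2) (fun p hp => (hP' p hp).2) η ε₁ hη0 (by rw [hη]; linarith)
        (by rw [hP₀]; exact Nat.le_ceil _) φ hφ1 hφs ?_ (3 * c₁ / 4) ?_ (c₁ / 2) ?_ n T
        (hHL T (by omega))
      · intro p hp p' hp'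
        have h7 : (p : ℝ) * p' ≤ R₂ := by exact_mod_cast hR₂le p hp p' hp'
        have h8 : ((p : ℝ) * p') ^ t ≤ E := by
          have : ((p : ℝ) * p') ^ t ≤ (R₂ : ℝ) ^ t := by gcongr
          rw [hE]; linarith
        have h9 : δ ≤ δ₁ / 2 / E := min_le_right _ _
        rw [le_div_iff₀ hE0] at h9
        calc ((p : ℝ) * p') ^ t * δ ≤ E * δ := mul_le_mul_of_nonneg_right h8 hδ0.le
          _ ≤ _ := by linarith
      · intro α hα
        have h7 := heq α hα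
        have h8 : ∫ x in (0 : ℝ)..1, (1 - φ x) = 1 - ∫ x in (0 : ℝ)..1, φ x := by
          rw [intervalIntegral.integral_sub (by simp) (hφc.intervalIntegrable _ _)]
          simp
        have h9 : ∑ p ∈ P, ∑ p' ∈ P', 1 / ((p : ℝ) * p') * (1 - φ (((p : ℝ) * p') ^ t * α)) =
            W - ∑ p ∈ P, ∑ p' ∈ P', 1 / ((p : ℝ) * p') * φ (((p : ℝ) * p') ^ t * α) := by
          have h10 : W = ∑ p ∈ P, ∑ p' ∈ P', 1 / ((p : ℝ) * p') := by
            rw [← hWW, sum_product]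
          rw [h10, ← sum_sub_distrib]
          refine sum_congr rfl fun p _ => ?_
          rw [← sum_sub_distrib]
          exact sum_congr rfl fun p' _ => by ring
        rw [h8, h9] at h7
        have h11 : c₁ * W ≤ (∫ x in (0 : ℝ)..1, φ x) * W := mul_le_mul_of_nonneg_right hφi hW0.le
        linarith only [h7, h11]
      · have h7 : 64 / η ^ 2 / c₁ ≤ WW P := by linarith
        have h8 : 64 / η ^ 2 / c₁ ≤ WW P' := by linarith
        rw [div_le_iff₀ hc₁] at h7 h8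
        have h9 : 64 / η ^ 2 * WW P' ≤ WW P * c₁ * WW P' :=
          mul_le_mul_of_nonneg_right h7 (by linarith)
        have h10 : 64 / η ^ 2 * WW P ≤ WW P' * c₁ * WW P :=
          mul_le_mul_of_nonneg_right h8 (by linarith)
        have h11 : 64 / η ^ 2 = 8 * (8 / η ^ 2) := by ring
        rw [h11] at h9 h10
        linarith only [h9, h10]
    -- average over the windows
    have hsum : c₁ / 2 * W * ∑ n ∈ Icc 1 N, (1 / (n : ℝ)) * kb F a (AA ld K δ) ε₁ n T ≤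
        ∑ z ∈ P ×ˢ P', 1 / ((z.1 : ℝ) * z.2) * ∑ n ∈ Icc 1 N, (1 / (n : ℝ)) *
          kb F a (AA ld K₁ δ₁) (ε₁ - 2 * η) (n / z.1 / z.2) (T / z.1 / z.2) := by
      calc _ = ∑ n ∈ Icc 1 N, (1 / (n : ℝ)) * (c₁ / 2 * W * kb F a (AA ld K δ) ε₁ n T) := by
            rw [mul_sum]; exact sum_congr rfl fun n _ => by ring
        _ ≤ ∑ n ∈ Icc 1 N, (1 / (n : ℝ)) * ∑ z ∈ P ×ˢ P', 1 / ((z.1 : ℝ) * z.2) *
            kb F a (AA ld K₁ δ₁) (ε₁ - 2 * η) (n / z.1 / z.2) (T / z.1 / z.2) :=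
            sum_le_sum fun n _ => mul_le_mul_of_nonneg_left (hwin n) (by positivity)
        _ = _ := by
            simp only [mul_sum]
            rw [sum_comm]
            exact sum_congr rfl fun z _ => sum_congr rfl fun n _ => by ring
    have hz : ∀ z ∈ P ×ˢ P', ∑ n ∈ Icc 1 N, (1 / (n : ℝ)) *
          kb F a (AA ld K₁ δ₁) (ε₁ - 2 * η) (n / z.1 / z.2) (T / z.1 / z.2) ≤
        c₁ * ε' / 16 * Real.log N + c := by
      intro z hz
      set H' := T / z.1 / z.2 with hH'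
      have hH'1 := hTz z hz
      have hH'0 : (0 : ℝ) < H' := by
        have : 0 < H' := by omega
        exact_mod_cast this
      have hH'T : H' ≤ T := by
        rw [hH', Nat.div_div_eq_div_mul]; exact Nat.div_le_self _ _
      have h7 := hcz z hz (fun n => kb F a (AA ld K₁ δ₁) (ε₁ - 2 * η) n H') 1
        (fun n => kb_nonneg _ _ _ _ _ _) (fun n => kb_le_one _ _ _ _ _ _) N
      rw [mul_one] at h7
      have h8 := (abs_le.mp h7).2
      have h9 := hcz' z hz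
      have h10 := hH₁ N H' (by omega) (by omega)
      have h11 : ε₁ / 2 * H' * ∑ m ∈ Icc 1 N, (1 / (m : ℝ)) *
          kb F a (AA ld K₁ δ₁) (ε₁ - 2 * η) m H' ≤
          ∑ m ∈ Icc 1 N, (1 / (m : ℝ)) * GG (FA F ld K₁ δ₁) a H' m := by
        rw [mul_sum]
        refine sum_le_sum fun m _ => ?_
        have h12 : ε₁ / 2 * H' * kb F a (AA ld K₁ δ₁) (ε₁ - 2 * η) m H' ≤
            GG (FA F ld K₁ δ₁) a H' m := by
          unfold kb
          split_ifs with hk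
          · obtain ⟨i, hi, hcor⟩ := hk
            have h13 := le_GG (FA F ld K₁ δ₁) a (fun i n => hF i.1 n) ha H' m ⟨i, hi⟩
            have h14 : ε₁ - 2 * η = ε₁ / 2 := by rw [hη]; ring
            rw [h14] at hcor
            rw [mul_one]
            exact hcor.trans h13
          · rw [mul_zero]; exact GG_nonneg _ _ _ _
        calc _ = (1 / (m : ℝ)) * (ε₁ / 2 * H' * kb F a (AA ld K₁ δ₁) (ε₁ - 2 * η) m H') := by
              ring
          _ ≤ _ := mul_le_mul_of_nonneg_left h12 (by positivity)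
      have h15 : ε₁ / 2 * H' * ∑ m ∈ Icc 1 N, (1 / (m : ℝ)) *
          kb F a (AA ld K₁ δ₁) (ε₁ - 2 * η) m H' ≤
          ε₁ / 2 * H' * (c₁ * ε' / 16 * Real.log N) := by
        refine (h11.trans h10).trans (le_of_eq ?_)
        rw [hε₂]; ring
      have h16 := le_of_mul_le_mul_left h15 (by positivity)
      linarith
    have h17 : ∑ z ∈ P ×ˢ P', 1 / ((z.1 : ℝ) * z.2) * ∑ n ∈ Icc 1 N, (1 / (n : ℝ)) *
          kb F a (AA ld K₁ δ₁) (ε₁ - 2 * η) (n / z.1 / z.2) (T / z.1 / z.2) ≤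
        W * (c₁ * ε' / 16 * Real.log N + c) := by
      rw [← hWW, sum_mul]
      exact sum_le_sum fun z hz' => mul_le_mul_of_nonneg_left (hz z hz') (hw z)
    have h18 : c₁ / 2 * W * (ε' / 2 * Real.log N) ≤ c₁ / 2 * W *
        ∑ n ∈ Icc 1 N, (1 / (n : ℝ)) * kb F a (AA ld K δ) ε₁ n T :=
      mul_le_mul_of_nonneg_left h3 (by positivity)
    have h19 : W * (c₁ * ε' / 4 * Real.log N) ≤ W * (c₁ * ε' / 16 * Real.log N + c) := by
      refine le_trans (le_of_eq ?_) ((h18.trans hsum).trans h17)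
      ring
    have h20 := le_of_mul_le_mul_left h19 hW0
    have h21 : 6 * c / (c₁ * ε') < Real.log N := by linarith
    rw [div_lt_iff₀ (by positivity)] at h21
    have h22 : 0 < c₁ * ε' * Real.log N := by positivity
    nlinarith only [h20, h21, h22]
  obtain ⟨H₀, hH₀⟩ := up_scale (GG (FA F ld K δ) a) (GG_nonneg _ _)
    (GG_le _ a (fun i n => hF _ _) ha)
    (fun H L n hL => GG_sub _ a (fun i n => hF _ _) ha H L n hL) ε' hε'0 T hT0 (N₂ + T) hscale H₂ (by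
      intro H n hH hn
      refine Real.iSup_le (fun i => ?_) (by positivity)
      obtain ⟨α, hα, h⟩ := i.2
      exact hsing i.1 ⟨α, hα, h.trans_le (min_le_left _ _)⟩ H n hH hn)
  refine ⟨δ, hδ0, H₀, fun N H h4 h5 => (hH₀ N H h4 h5).trans (le_of_eq ?_)⟩
  rw [hε']; ring

end Pool.Agent.Lib.MP_663568_nt.Nul
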